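import Pool.Agent.H972.FH.Law

set_option autoImplicit false

open MeasureTheory Filter Topology Set
open scoped ENNReal

namespace Pool.Agent.H972.FH

noncomputable section

/-- Andréief's identity -/
theorem andr {n : ℕ} {w : ℂ → ℂ}
    (hw : ∀ j l : Fin n, Integrable fun z : ℂ => z ^ (j:ℕ) * (starRingEnd ℂ z) ^ (l:ℕ) * w z) :
    ∫ z : Fin n → ℂ, (∏ i, w (z i)) * ((‖(Matrix.vandermonde z).det‖ ^ 2 : ℝ) : ℂ) =
      (n.factorial : ℂ) * (Matrix.of fun j l : Fin n =>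
        ∫ z : ℂ, z ^ (j:ℕ) * (starRingEnd ℂ z) ^ (l:ℕ) * w z).det := by
  set M : Matrix (Fin n) (Fin n) ℂ := Matrix.of fun j l : Fin n =>
        ∫ z : ℂ, z ^ (j:ℕ) * (starRingEnd ℂ z) ^ (l:ℕ) * w z with hM
  have hdet : ∀ z : Fin n → ℂ, (Matrix.vandermonde z).det =
      ∑ σ : Equiv.Perm (Fin n), ((Equiv.Perm.sign σ : ℤ) : ℂ) * ∏ i, (z i) ^ ((σ i : Fin n) : ℕ) := by
    intro z
    rw [← Matrix.det_transpose, Matrix.det_apply']
    rfl
  have hexp : ∀ z : Fin n → ℂ, (∏ i, w (z i)) * ((‖(Matrix.vandermonde z).det‖ ^ 2 : ℝ) : ℂ) =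
      ∑ σ : Equiv.Perm (Fin n), ∑ τ : Equiv.Perm (Fin n), (((Equiv.Perm.sign σ : ℤ) : ℂ) *
        ((Equiv.Perm.sign τ : ℤ) : ℂ)) * ∏ i, ((z i) ^ ((σ i : Fin n) : ℕ) *
          (starRingEnd ℂ (z i)) ^ ((τ i : Fin n) : ℕ) * w (z i)) := by
    intro z
    have h1 : ((‖(Matrix.vandermonde z).det‖ ^ 2 : ℝ) : ℂ) =
        (Matrix.vandermonde z).det * starRingEnd ℂ (Matrix.vandermonde z).det :=
      (conj_mul_self_eq _).symm
    have h2 : starRingEnd ℂ (Matrix.vandermonde z).det =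
        ∑ τ : Equiv.Perm (Fin n), ((Equiv.Perm.sign τ : ℤ) : ℂ) *
          ∏ i, (starRingEnd ℂ (z i)) ^ ((τ i : Fin n) : ℕ) := by
      rw [hdet, map_sum]
      refine Finset.sum_congr rfl fun τ _ => ?_
      rw [map_mul, map_prod]
      simp
    rw [h1, h2, hdet, Finset.sum_mul_sum, Finset.mul_sum]
    refine Finset.sum_congr rfl fun σ _ => ?_
    rw [Finset.mul_sum]
    refine Finset.sum_congr rfl fun τ _ => ?_
    rw [Finset.prod_mul_distrib, Finset.prod_mul_distrib]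
    ring
  have hi : ∀ σ τ : Equiv.Perm (Fin n), Integrable fun z : Fin n → ℂ =>
      (((Equiv.Perm.sign σ : ℤ) : ℂ) *
        ((Equiv.Perm.sign τ : ℤ) : ℂ)) * ∏ i, ((z i) ^ ((σ i : Fin n) : ℕ) *
          (starRingEnd ℂ (z i)) ^ ((τ i : Fin n) : ℕ) * w (z i)) := by
    intro σ τ
    refine Integrable.const_mul ?_ _
    exact Integrable.fintype_prod (f := fun i (x : ℂ) => x ^ ((σ i : Fin n) : ℕ) *
          (starRingEnd ℂ x) ^ ((τ i : Fin n) : ℕ) * w x) fun i => hw (σ i) (τ i)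
  simp_rw [hexp]
  rw [integral_finsetSum _ fun σ _ => integrable_finsetSum _ fun τ _ => hi σ τ]
  have hterm : ∀ σ : Equiv.Perm (Fin n), ∫ z : Fin n → ℂ, ∑ τ : Equiv.Perm (Fin n),
      (((Equiv.Perm.sign σ : ℤ) : ℂ) * ((Equiv.Perm.sign τ : ℤ) : ℂ)) *
        ∏ i, ((z i) ^ ((σ i : Fin n) : ℕ) *
          (starRingEnd ℂ (z i)) ^ ((τ i : Fin n) : ℕ) * w (z i)) = M.det := by
    intro σ
    rw [integral_finsetSum _ fun τ _ => hi σ τ]
    have e1 : ∀ τ : Equiv.Perm (Fin n), ∫ z : Fin n → ℂ,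
        (((Equiv.Perm.sign σ : ℤ) : ℂ) * ((Equiv.Perm.sign τ : ℤ) : ℂ)) *
        ∏ i, ((z i) ^ ((σ i : Fin n) : ℕ) *
          (starRingEnd ℂ (z i)) ^ ((τ i : Fin n) : ℕ) * w (z i)) =
        ((Equiv.Perm.sign σ : ℤ) : ℂ) * (((Equiv.Perm.sign τ : ℤ) : ℂ) *
          ∏ i, ((M.submatrix σ id).transpose) (τ i) i) := by
      intro τ
      rw [integral_const_mul, integral_fintype_prod_volume_eq_prod (fun i (x : ℂ) =>
        x ^ ((σ i : Fin n) : ℕ) * (starRingEnd ℂ x) ^ ((τ i : Fin n) : ℕ) * w x), mul_assoc]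
      rfl
    simp_rw [e1]
    rw [← Finset.mul_sum, ← Matrix.det_apply', Matrix.det_transpose, Matrix.det_permute,
      ← mul_assoc, ← Int.cast_mul]
    have : ((Equiv.Perm.sign σ : ℤ) * (Equiv.Perm.sign σ : ℤ)) = 1 := by
      rw [← Units.val_mul, Int.units_mul_self, Units.val_one]
    rw [this]
    simp
  rw [Finset.sum_congr rfl fun σ _ => hterm σ, Finset.sum_const, Finset.card_univ,
    Fintype.card_perm, Fintype.card_fin, nsmul_eq_mul]

end

end Pool.Agent.H972.FH
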