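import Pool.Agent.H972.FH.Key2

set_option autoImplicit false

open MeasureTheory Complex Filter Topology Set
open scoped ENNReal

namespace Pool.Agent.H972.FH

noncomputable section

lemma neg_log_le {θ L : ℝ} (hθ : 0 < θ) : -L ≤ 1 / θ * Real.exp (-θ * L) := by
  have h := Real.add_one_le_exp (-θ * L)
  have h2 : -θ * L ≤ Real.exp (-θ * L) := by linarith
  calc -L = 1 / θ * (-θ * L) := by field_simp
    _ ≤ _ := by gcongr

/-- `(1 + |log y|) y^s` against a power -/
lemma one_add_log_le {η s y : ℝ} (hη : 0 < η) (hs : -1 + η ≤ s) (h0 : 0 < y) (h1 : y ≤ 1) :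
    (1 + |Real.log y|) * Real.exp (s * Real.log y) ≤
      (1 + 2 / η) * Real.exp (-(1 - η / 2) * Real.log y) := by
  have hL : Real.log y ≤ 0 := Real.log_nonpos h0.le h1
  rw [abs_of_nonpos hL]
  have h2 := neg_log_le (θ := η / 2) (L := Real.log y) (by positivity)
  have h3 : Real.exp (s * Real.log y) ≤ Real.exp (-(1 - η) * Real.log y) := by
    refine Real.exp_le_exp.2 ?_
    nlinarith
  have h4 : 1 ≤ Real.exp (-(η / 2) * Real.log y) := by
    rw [← Real.exp_zero]
    refine Real.exp_le_exp.2 ?_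
    nlinarith
  have h5 : 1 + -Real.log y ≤ (1 + 2 / η) * Real.exp (-(η / 2) * Real.log y) := by
    have : 1 / (η / 2) = 2 / η := by field_simp
    rw [this] at h2
    linarith
  calc (1 + -Real.log y) * Real.exp (s * Real.log y) ≤
      ((1 + 2 / η) * Real.exp (-(η / 2) * Real.log y)) * Real.exp (-(1 - η) * Real.log y) := by
        have : 0 ≤ 1 + -Real.log y := by linarith
        gcongr
    _ = _ := by
        rw [mul_assoc, ← Real.exp_add]
        congr 2; ring

lemma one_add_log_int {η s : ℝ} (hη : 0 < η) (hs : -1 + η ≤ s) :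
    IntegrableOn (fun y : ℝ => (1 + |Real.log y|) * Real.exp (s * Real.log y)) (Ioo 0 1) ∧
    ∫ y in Ioo (0:ℝ) 1, (1 + |Real.log y|) * Real.exp (s * Real.log y) ≤
      (1 + 2 / η) * (2 / η) := by
  obtain ⟨h1, h2⟩ := exp_log_int (η := η / 2) (by positivity)
  have hb : IntegrableOn (fun y : ℝ => (1 + 2 / η) * Real.exp (-(1 - η / 2) * Real.log y))
      (Ioo 0 1) := h1.const_mul _
  have hm : Measurable fun y : ℝ => (1 + |Real.log y|) * Real.exp (s * Real.log y) := by
    fun_prop
  have hi : IntegrableOn (fun y : ℝ => (1 + |Real.log y|) * Real.exp (s * Real.log y))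
      (Ioo 0 1) := by
    refine Integrable.mono' hb hm.aestronglyMeasurable ?_
    filter_upwards [ae_restrict_mem measurableSet_Ioo] with y hy
    rw [Real.norm_eq_abs, abs_of_nonneg (by positivity)]
    exact one_add_log_le hη hs hy.1 hy.2.le
  refine ⟨hi, ?_⟩
  calc _ ≤ ∫ y in Ioo (0:ℝ) 1, (1 + 2 / η) * Real.exp (-(1 - η / 2) * Real.log y) :=
        setIntegral_mono_on hi hb measurableSet_Ioo fun y hy => one_add_log_le hη hs hy.1 hy.2.le
    _ = _ := by
        rw [integral_const_mul, h2]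
        field_simp

/-- logarithmic moments against moments -/
theorem bt_log (A D η κ : ℝ) (hA : 0 ≤ A) (hD : 0 ≤ D) (hη : 0 < η) (hη1 : η ≤ 1) (hκ : 0 < κ) :
    ∃ C : ℝ, 0 < C ∧ ∀ (n : ℕ) (p N : ℂ) (j : ℕ), ‖p‖ ≤ A → -1 + η ≤ p.re → |N.re - n| ≤ D →
      1 ≤ (N - p).re → 0 < (N - j - p).re →
      IntegrableOn (fun y : ℝ => (1 + |Real.log y|) * ‖bt (j + 1 + p) (N - j - p) y‖) (Ioo 0 1) ∧
      ∫ y in Ioo (0:ℝ) 1, (1 + |Real.log y|) * ‖bt (j + 1 + p) (N - j - p) y‖ ≤
        C * Real.exp (κ * n) * Cj p N j := by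
  set t : ℝ := min κ 1 with ht
  have ht0 : 0 < t := lt_min hκ one_pos
  have ht1 : t ≤ 1 := min_le_right _ _
  obtain ⟨m, hm, hlow⟩ := low_bound t A D ht0 ht1 hA hD
  obtain ⟨B1, hB1, hB1'⟩ := pow_exp 1 hκ
  refine ⟨(1 + 2 / η) * (2 / η) * m⁻¹ + (1 + (B1 + D) / η), by positivity,
    fun n p N j hp hr hN h1p hj => ?_⟩
  have hs : |p.re| ≤ A := (Complex.abs_re_le_norm p).trans hp
  have hCj : 0 ≤ Cj p N j := integral_nonneg fun ζ => by positivity
  have hexp1 : 1 ≤ Real.exp (κ * n) := by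
    rw [← Real.exp_zero]
    exact Real.exp_le_exp.2 (by positivity)
  rcases Nat.eq_zero_or_pos j with hj0 | hj0
  · subst hj0
    obtain ⟨h1, h2⟩ := one_add_log_int hη hr
    have hpt : ∀ y ∈ Ioo (0:ℝ) 1, (1 + |Real.log y|) *
        ‖bt (((0:ℕ):ℂ) + 1 + p) (N - ((0:ℕ):ℂ) - p) y‖ ≤
        (1 + |Real.log y|) * Real.exp (p.re * Real.log y) := by
      intro y hy
      rw [norm_bt]
      refine mul_le_mul_of_nonneg_left (Real.exp_le_exp.2 ?_) (by positivity)
      have hl : Real.log (1 - y) ≤ 0 := Real.log_nonpos (by linarith [hy.2]) (by linarith [hy.1])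
      have e1 : (((0:ℕ):ℂ) + 1 + p).re - 1 = p.re := by simp
      have e2 : 0 ≤ (N - ((0:ℕ):ℂ) - p).re - 1 := by
        simp only [Nat.cast_zero, sub_zero]; linarith
      rw [e1]
      nlinarith
    have hmeas : Measurable fun y : ℝ => (1 + |Real.log y|) *
        ‖bt (((0:ℕ):ℂ) + 1 + p) (N - ((0:ℕ):ℂ) - p) y‖ := by
      have := (measurable_bt (((0:ℕ):ℂ) + 1 + p) (N - ((0:ℕ):ℂ) - p)).norm
      fun_prop
    have hi : IntegrableOn (fun y : ℝ => (1 + |Real.log y|) *
        ‖bt (((0:ℕ):ℂ) + 1 + p) (N - ((0:ℕ):ℂ) - p) y‖) (Ioo 0 1) := by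
      refine Integrable.mono' h1 hmeas.aestronglyMeasurable ?_
      filter_upwards [ae_restrict_mem measurableSet_Ioo] with y hy
      rw [Real.norm_eq_abs, abs_of_nonneg (by positivity)]
      exact hpt y hy
    refine ⟨hi, ?_⟩
    have h3 : ∫ y in Ioo (0:ℝ) 1, (1 + |Real.log y|) *
        ‖bt (((0:ℕ):ℂ) + 1 + p) (N - ((0:ℕ):ℂ) - p) y‖ ≤ (1 + 2 / η) * (2 / η) :=
      (setIntegral_mono_on hi h1 measurableSet_Ioo hpt).trans h2
    have hint := integrable_Cj (p0 := p) (N := N) (j := 0) (by linarith) hj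
    have h4 := hlow n p N 0 hs hN hint.integrableOn
    have h5 : m * Real.exp (-(κ * n)) ≤ Cj p N 0 := by
      have h6 : m * (t / 2) ^ 0 * (1 + t) ^ (-(n:ℝ)) ≤ Cj p N 0 := by
        refine h4.trans (setIntegral_le_integral hint (Eventually.of_forall fun ζ => ?_))
        simp only [Pi.zero_apply]
        positivity
      refine le_trans ?_ h6
      rw [pow_zero, mul_one]
      refine mul_le_mul_of_nonneg_left ?_ hm.le
      rw [Real.rpow_neg (by positivity), Real.rpow_natCast, Real.exp_neg]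
      refine inv_anti₀ (by positivity) ?_
      calc (1 + t) ^ n ≤ (Real.exp t) ^ n := by
            have := Real.add_one_le_exp t
            gcongr
            linarith
        _ = Real.exp (t * n) := by rw [← Real.exp_nat_mul, mul_comm]
        _ ≤ _ := by
            refine Real.exp_le_exp.2 ?_
            gcongr
            exact min_le_left _ _
    have h7 : 1 ≤ m⁻¹ * Real.exp (κ * n) * Cj p N 0 := by
      calc (1:ℝ) = m⁻¹ * Real.exp (κ * n) * (m * Real.exp (-(κ * n))) := by
            rw [Real.exp_neg]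
            have := Real.exp_pos (κ * n)
            field_simp
        _ ≤ _ := by gcongr
    calc _ ≤ (1 + 2 / η) * (2 / η) := h3
      _ = (1 + 2 / η) * (2 / η) * 1 := by ring
      _ ≤ (1 + 2 / η) * (2 / η) * (m⁻¹ * Real.exp (κ * n) * Cj p N 0) := by gcongr
      _ = ((1 + 2 / η) * (2 / η) * m⁻¹) * Real.exp (κ * n) * Cj p N 0 := by ring
      _ ≤ _ := by
          have : 0 ≤ 1 + (B1 + D) / η := by positivity
          gcongr
          linarith
  · have hjr : (1:ℝ) ≤ j := by exact_mod_cast hj0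
    have hs0 : η ≤ j + p.re := by linarith
    have hu : 0 < ((j:ℂ) + p).re := by simp; linarith
    have hu1 : 0 < ((j:ℂ) + 1 + p).re := by simp; linarith
    have hi1 := (int_bt hu1 hj).1.norm
    have hi0 := (int_bt hu hj).1.norm
    have hpt : ∀ y ∈ Ioo (0:ℝ) 1, (1 + |Real.log y|) * ‖bt (j + 1 + p) (N - j - p) y‖ ≤
        ‖bt (j + 1 + p) (N - j - p) y‖ + ‖bt (j + p) (N - j - p) y‖ := by
      intro y hy
      have e : ‖bt (j + 1 + p) (N - j - p) y‖ = y * ‖bt (j + p) (N - j - p) y‖ := by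
        rw [norm_bt, norm_bt]
        nth_rewrite 3 [← Real.exp_log hy.1]
        rw [← Real.exp_add]
        congr 1
        simp
        ring
      have hlog : |Real.log y| * y ≤ 1 := by
        rw [abs_of_nonpos (Real.log_nonpos hy.1.le hy.2.le)]
        have h6 := Real.one_sub_inv_le_log_of_pos hy.1
        have h7 : y⁻¹ * y = 1 := inv_mul_cancel₀ hy.1.ne'
        nlinarith [hy.1]
      calc (1 + |Real.log y|) * ‖bt (j + 1 + p) (N - j - p) y‖ =
          ‖bt (j + 1 + p) (N - j - p) y‖ +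
            (|Real.log y| * y) * ‖bt (j + p) (N - j - p) y‖ := by rw [e]; ring
        _ ≤ ‖bt (j + 1 + p) (N - j - p) y‖ + 1 * ‖bt (j + p) (N - j - p) y‖ := by gcongr
        _ = _ := by ring
    have hmeas : Measurable fun y : ℝ => (1 + |Real.log y|) *
        ‖bt (j + 1 + p) (N - j - p) y‖ := by
      have := (measurable_bt (j + 1 + p) (N - j - p)).norm
      fun_prop
    have hi : IntegrableOn (fun y : ℝ => (1 + |Real.log y|) *
        ‖bt (j + 1 + p) (N - j - p) y‖) (Ioo 0 1) := by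
      refine Integrable.mono' (hi1.add hi0) hmeas.aestronglyMeasurable ?_
      filter_upwards [ae_restrict_mem measurableSet_Ioo] with y hy
      rw [Real.norm_eq_abs, abs_of_nonneg (by positivity)]
      exact hpt y hy
    refine ⟨hi, ?_⟩
    have h3 := setIntegral_mono_on hi (hi1.add hi0) measurableSet_Ioo hpt
    have h4 : ∫ y in Ioo (0:ℝ) 1, (‖bt (j + 1 + p) (N - j - p) y‖ + ‖bt (j + p) (N - j - p) y‖) =
        (∫ y in Ioo (0:ℝ) 1, ‖bt (j + 1 + p) (N - j - p) y‖) +
        ∫ y in Ioo (0:ℝ) 1, ‖bt (j + p) (N - j - p) y‖ := integral_add hi1 hi0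
    have hC := (cj_eq (p0 := p) (N := N) (j := j) (by linarith) hj).2.2
    have hR : 0 < N.re := by
      simp at hj
      linarith
    have h5 : ∫ y in Ioo (0:ℝ) 1, ‖bt (j + p) (N - j - p) y‖ =
        N.re / (j + p.re) * Cj p N j := by
      rw [hC, int_norm_bt hu hj, int_norm_bt hu1 hj]
      have e1 : ((j:ℂ) + 1 + p).re = (j + p.re) + 1 := by simp; ring
      have e2 : ((j:ℂ) + p).re = j + p.re := by simp
      have e3 : (j + p.re) + 1 + (N - j - p).re = N.re + 1 := by simp; ring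
      have e4 : (j + p.re) + (N - j - p).re = N.re := by simp
      rw [e1, e2, e3, e4, Real.Gamma_add_one hR.ne', Real.Gamma_add_one (by linarith)]
      have g1 := (Real.Gamma_pos_of_pos hR).ne'
      have g2 : (j:ℝ) + p.re ≠ 0 := by linarith
      field_simp
    have h6 : N.re / (j + p.re) ≤ (B1 + D) / η * Real.exp (κ * n) := by
      have h7 := hB1' n
      rw [pow_one, Real.exp_neg, ← div_eq_mul_inv, div_le_iff₀ (Real.exp_pos _)] at h7
      have h8 : N.re ≤ (B1 + D) * Real.exp (κ * n) := by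
        have := (abs_le.1 hN).2
        nlinarith
      calc N.re / (j + p.re) ≤ (B1 + D) * Real.exp (κ * n) / η := by gcongr
        _ = _ := by ring
    calc _ ≤ _ := h3
      _ = Cj p N j + N.re / (j + p.re) * Cj p N j := by
          simp only [Pi.add_apply]
          rw [h4, h5, hC]
      _ ≤ Real.exp (κ * n) * Cj p N j + (B1 + D) / η * Real.exp (κ * n) * Cj p N j := by
          gcongr
          nlinarith
      _ = (1 + (B1 + D) / η) * Real.exp (κ * n) * Cj p N j := by ring
      _ ≤ _ := by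
          have : 0 ≤ (1 + 2 / η) * (2 / η) * m⁻¹ := by positivity
          refine mul_le_mul_of_nonneg_right (mul_le_mul_of_nonneg_right ?_ (Real.exp_pos _).le) hCj
          linarith

end

end Pool.Agent.H972.FH
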