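import Pool.Agent.H972.FH.Bd

set_option autoImplicit false

open MeasureTheory Complex Filter Topology Set
open scoped ENNReal

namespace Pool.Agent.H972.FH

noncomputable section

variable {k : ℕ}

/-- total logarithmic size -/
def Lt (a b : Fin k → ℂ) (x : ℂ) : ℝ := 1 + ∑ i, |Real.log (dc (a i) (b i) x)|

lemma Lt_nonneg (a b : Fin k → ℂ) (x : ℂ) : 0 ≤ Lt a b x := by unfold Lt; positivity

lemma one_le_Lt (a b : Fin k → ℂ) (x : ℂ) : 1 ≤ Lt a b x := by
  unfold Lt
  have : 0 ≤ ∑ i, |Real.log (dc (a i) (b i) x)| := by positivity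
  linarith

lemma measurable_Lt (a b : Fin k → ℂ) : Measurable (Lt a b) := by
  unfold Lt
  refine measurable_const.add (Finset.measurable_sum _ fun i _ => ?_)
  have := Real.measurable_log.comp (measurable_dc (a i) (b i))
  exact this.abs

lemma ae_dc {a b : ℂ} (h : ‖a‖ ^ 2 + ‖b‖ ^ 2 = 1) : ∀ᵐ x ∂mu, 0 < dc a b x := by
  have hs : ({x : ℂ | a * x + b = 0}).Subsingleton := by
    intro x hx y hy
    simp only [mem_ofPred_eq] at hx hy
    rcases eq_or_ne a 0 with ha | ha
    · exfalso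
      rw [ha] at hx h
      simp at hx
      rw [hx] at h
      norm_num at h
    · have h1 : a * (x - y) = 0 := by linear_combination hx - hy
      exact sub_eq_zero.1 ((mul_eq_zero.1 h1).resolve_left ha)
  have h2 := mu_ac (hs.measure_zero (volume : Measure ℂ))
  have h3 : ∀ᵐ x ∂mu, ¬ (a * x + b = 0) := by
    rw [ae_iff]
    simpa using h2
  filter_upwards [h3] with x hx
  unfold dc
  have : 0 < ‖a * x + b‖ := norm_pos_iff.2 hx
  positivity

lemma Lt_far {σ : ℝ} {a b : Fin k → ℂ} (hc : Cfg σ a b) {x : ℂ}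
    (h : ∀ i, -Real.log (dc (a i) (b i) x) ≤ cM σ) : Lt a b x ≤ 1 + k * cM σ := by
  unfold Lt
  have : ∑ i, |Real.log (dc (a i) (b i) x)| ≤ ∑ _i : Fin k, cM σ := by
    refine Finset.sum_le_sum fun i _ => ?_
    rw [abs_of_nonpos (log_dc_nonpos (hc.unit i) x)]
    exact h i
  simp at this
  linarith

lemma Lt_near {σ : ℝ} (h0 : 0 < σ) (h1 : σ ≤ 1) {a b : Fin k → ℂ} (hc : Cfg σ a b) {x : ℂ}
    {l : Fin k} (h : ∀ i, i ≠ l → -Real.log (dc (a i) (b i) x) ≤ cM σ) :
    Lt a b x ≤ (1 + k * cM σ) * (1 + |Real.log (dc (a l) (b l) x)|) := by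
  have hM := cM_pos h0 h1
  unfold Lt
  rw [← Finset.add_sum_erase _ _ (Finset.mem_univ l)]
  have h2 : ∑ i ∈ Finset.univ.erase l, |Real.log (dc (a i) (b i) x)| ≤ k * cM σ := by
    calc ∑ i ∈ Finset.univ.erase l, |Real.log (dc (a i) (b i) x)| ≤
        ∑ _i ∈ Finset.univ.erase l, cM σ := by
          refine Finset.sum_le_sum fun i hi => ?_
          rw [abs_of_nonpos (log_dc_nonpos (hc.unit i) x)]
          exact h i (Finset.ne_of_mem_erase hi)
      _ ≤ ∑ _i : Fin k, cM σ :=
          Finset.sum_le_sum_of_subset_of_nonneg (Finset.erase_subset _ _) fun _ _ _ => hM.le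
      _ = _ := by simp
  have h3 : 0 ≤ |Real.log (dc (a l) (b l) x)| := abs_nonneg _
  have h4 : 0 ≤ (k:ℝ) * cM σ := by positivity
  nlinarith

/-- logarithm times weight -/
theorem Lt_W {σ A η : ℝ} (h0 : 0 < σ) (h1 : σ ≤ 1) (hA : 0 ≤ A) (hη0 : 0 < η) (hη1 : η ≤ 1)
    {a b p : Fin k → ℂ} (hc : Cfg σ a b) (hp : Adm A η p) (x : ℂ) :
    Lt a b x * ‖Wt a b p x‖ ≤ ((1 + k * cM σ) * (Real.exp (k * cM σ) +
      Real.exp (k * (A * cM σ)) * (1 + 2 / η))) * Hm (η / 2) a b x := by
  have hM := cM_pos h0 h1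
  have hH1 : 1 ≤ Hm (η / 2) a b x := by
    unfold Hm
    have : 0 ≤ ∑ l, Real.exp (-(1 - η / 2) * Real.log (dc (a l) (b l) x)) := by positivity
    linarith
  have hHm : Hm η a b x ≤ Hm (η / 2) a b x := by
    unfold Hm
    have : ∑ l, Real.exp (-(1 - η) * Real.log (dc (a l) (b l) x)) ≤
        ∑ l, Real.exp (-(1 - η / 2) * Real.log (dc (a l) (b l) x)) := by
      refine Finset.sum_le_sum fun l _ => Real.exp_le_exp.2 ?_
      have := log_dc_nonpos (hc.unit l) x
      nlinarith
    linarith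
  have hk : 0 ≤ (k:ℝ) * cM σ := by positivity
  rcases logs_dichotomy h0 h1 hc x with h | ⟨l, h2, h3, h4⟩
  · have e1 := Lt_far hc h
    have e2 := Wt_le h0 h1 hη0 hη1 hc hp x
    have e3 := Real.exp_pos (k * (A * cM σ))
    have e4 := Real.exp_pos (k * cM σ)
    calc Lt a b x * ‖Wt a b p x‖ ≤ (1 + k * cM σ) * (Real.exp (k * cM σ) * Hm η a b x) := by
          have := Lt_nonneg a b x
          gcongr
      _ ≤ (1 + k * cM σ) * (Real.exp (k * cM σ) * Hm (η / 2) a b x) := by gcongr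
      _ = (1 + k * cM σ) * (Real.exp (k * cM σ) + 0) * Hm (η / 2) a b x := by ring
      _ ≤ _ := by
          have : 0 ≤ Real.exp (k * (A * cM σ)) * (1 + 2 / η) := by positivity
          gcongr
  · have e1 := Lt_near h0 h1 hc (x := x) h4
    have e2 := Wt_near h0 h1 hA hc hp h2
    have hpos : 0 < dc (a l) (b l) x := by
      rcases (dc_nonneg (a l) (b l) x).eq_or_lt with h5 | h5
      · rw [← h5, Real.log_zero] at h3
        linarith
      · exact h5
    have e3 := one_add_log_le hη0 (hp.re l) hpos (dc_le_one (hc.unit l) x)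
    have e4 : Real.exp (-(1 - η / 2) * Real.log (dc (a l) (b l) x)) ≤ Hm (η / 2) a b x := by
      unfold Hm
      have := Finset.single_le_sum
        (f := fun l => Real.exp (-(1 - η / 2) * Real.log (dc (a l) (b l) x)))
        (fun l _ => (Real.exp_pos _).le) (Finset.mem_univ l)
      linarith
    calc Lt a b x * ‖Wt a b p x‖ ≤ ((1 + k * cM σ) * (1 + |Real.log (dc (a l) (b l) x)|)) *
          (Real.exp (k * (A * cM σ)) * Real.exp ((p l).re * Real.log (dc (a l) (b l) x))) := by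
          have := Lt_nonneg a b x
          gcongr
      _ = ((1 + k * cM σ) * Real.exp (k * (A * cM σ))) * ((1 + |Real.log (dc (a l) (b l) x)|) *
          Real.exp ((p l).re * Real.log (dc (a l) (b l) x))) := by ring
      _ ≤ ((1 + k * cM σ) * Real.exp (k * (A * cM σ))) * ((1 + 2 / η) * Hm (η / 2) a b x) := by
          refine mul_le_mul_of_nonneg_left (e3.trans ?_) (by positivity)
          gcongr
      _ = (1 + k * cM σ) * (0 + Real.exp (k * (A * cM σ)) * (1 + 2 / η)) * Hm (η / 2) a b x := by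
          ring
      _ ≤ _ := by
          have := Real.exp_pos (k * cM σ)
          gcongr

theorem Lt_W_int {σ A η : ℝ} (h0 : 0 < σ) (h1 : σ ≤ 1) (hA : 0 ≤ A) (hη0 : 0 < η) (hη1 : η ≤ 1)
    {a b p : Fin k → ℂ} (hc : Cfg σ a b) (hp : Adm A η p) :
    Integrable (fun x => Lt a b x * ‖Wt a b p x‖) mu ∧
    ∫ x, Lt a b x * ‖Wt a b p x‖ ∂mu ≤ ((1 + k * cM σ) * (Real.exp (k * cM σ) +
      Real.exp (k * (A * cM σ)) * (1 + 2 / η))) * (1 + k * (2 / η)) := by
  obtain ⟨h2, h3⟩ := Hm_int (η := η / 2) (by positivity) hc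
  have hpt := Lt_W h0 h1 hA hη0 hη1 hc hp
  set M : ℝ := (1 + k * cM σ) * (Real.exp (k * cM σ) +
      Real.exp (k * (A * cM σ)) * (1 + 2 / η)) with hM
  have hi : Integrable (fun x => Lt a b x * ‖Wt a b p x‖) mu := by
    refine Integrable.mono' (h2.const_mul M)
      ((measurable_Lt a b).mul (measurable_Wt a b p).norm).aestronglyMeasurable
      (Eventually.of_forall fun x => ?_)
    rw [Real.norm_eq_abs, abs_of_nonneg (by have := Lt_nonneg a b x; positivity)]
    exact hpt x
  refine ⟨hi, (integral_mono hi (h2.const_mul _) hpt).trans (le_of_eq ?_)⟩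
  rw [integral_const_mul, h3]
  have : 1 / (η / 2) = 2 / η := by field_simp
  rw [this]

/-- the radial majorant -/
def gl (B : ℝ) (p N : ℂ) (J : ℕ) (y : ℝ) : ℝ :=
  B * ((1 + |Real.log y|) * Real.exp (p.re * Real.log y) +
    ∑ j ∈ Finset.range J, (1 + |Real.log y|) * ‖bt (j + 1 + p) (N - j - p) y‖ / Cj p N j)

lemma near_pt {σ A η : ℝ} (h0 : 0 < σ) (h1 : σ ≤ 1) (hA : 0 ≤ A)
    {a b p : Fin k → ℂ} (hc : Cfg σ a b) (hp : Adm A η p) {n J : ℕ} {y1 : ℝ} (hn : 1 ≤ n)
    (hy1 : y1 ≤ σ ^ 2 / 16) {x : ℂ} {l : Fin k} (hx : 0 < dc (a l) (b l) x)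
    (hC : ∀ j < J, 0 < Cj (p l) (NN n p) j) :
    Lt a b x * (‖Wt a b p x‖ * if dc (a l) (b l) x < y1 then
      Xr n (p l) (NN n p) J (dc (a l) (b l) x) else 0) ≤
      gl ((1 + k * cM σ) * Real.exp (k * (A * cM σ)) * Real.exp ((k + 1) * A)) (p l) (NN n p) J
        (dc (a l) (b l) x) := by
  have hM := cM_pos h0 h1
  set B : ℝ := (1 + k * cM σ) * Real.exp (k * (A * cM σ)) * Real.exp ((k + 1) * A) with hB
  have hB0 : 0 ≤ B := by positivity
  set y := dc (a l) (b l) x with hy
  set N := NN n p with hN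
  have hsum0 : 0 ≤ ∑ j ∈ Finset.range J, (1 + |Real.log y|) *
      ‖bt (j + 1 + p l) (N - j - p l) y‖ / Cj (p l) N j := by
    refine Finset.sum_nonneg fun j hj => ?_
    have := hC j (Finset.mem_range.1 hj)
    positivity
  split_ifs with h
  · have hfar : ∀ i, i ≠ l → -Real.log (dc (a i) (b i) x) ≤ cM σ := fun i hi =>
      (far h0 hc (z := x) (l := l) (by rw [← hy]; linarith) hi).1
    have e1 := Lt_near h0 h1 hc (x := x) hfar
    have e2 := Wt_near h0 h1 hA hc hp (z := x) (l := l) (by rw [← hy]; linarith)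
    rw [← hy] at e1 e2
    have hy16 : y < 1 / 16 := by nlinarith
    have h1y : 0 < 1 - y := by linarith
    set L := Real.log y with hL
    set M := Real.log (1 - y) with hMM
    have hM0 : M ≤ 0 := Real.log_nonpos h1y.le (by linarith)
    have hM1 : -1 ≤ M := by
      have h5 := Real.one_sub_inv_le_log_of_pos h1y
      have h6 : (1 - y)⁻¹ ≤ 2 := by
        rw [inv_le_comm₀ h1y (by norm_num)]; linarith
      linarith
    have hND : |(n:ℝ) - N.re + (p l).re| ≤ (k + 1) * A := by
      have e : (n:ℝ) - N.re + (p l).re = -∑ i, (p i).re + (p l).re := by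
        rw [hN]; unfold NN; simp
      rw [e]
      refine (abs_add_le _ _).trans ?_
      rw [abs_neg]
      have h7 : |∑ i, (p i).re| ≤ k * A := by
        refine (Finset.abs_sum_le_sum_abs _ _).trans ?_
        calc ∑ i, |(p i).re| ≤ ∑ _i : Fin k, A := Finset.sum_le_sum fun i _ =>
              (Complex.abs_re_le_norm _).trans (hp.bd i)
          _ = k * A := by simp
      have h8 := (Complex.abs_re_le_norm (p l)).trans (hp.bd l)
      linarith
    have key1 : ∀ j : ℕ, Real.exp ((p l).re * L) * ((y / (1 - y)) ^ j * (1 - y) ^ (n - 1)) ≤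
        Real.exp ((k + 1) * A) * ‖bt (j + 1 + p l) (N - j - p l) y‖ := by
      intro j
      have e3 : (y / (1 - y)) ^ j = Real.exp (j * (L - M)) := by
        rw [Real.exp_nat_mul, Real.exp_sub, hL, hMM, Real.exp_log hx, Real.exp_log h1y]
      have e4 : (1 - y) ^ (n - 1) = Real.exp (((n:ℝ) - 1) * M) := by
        have e : ((n:ℝ) - 1) = ((n - 1 : ℕ) : ℝ) := by rw [Nat.cast_sub hn, Nat.cast_one]
        rw [e, Real.exp_nat_mul, hMM, Real.exp_log h1y]
      rw [e3, e4, norm_bt, ← Real.exp_add, ← Real.exp_add, ← Real.exp_add]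
      refine Real.exp_le_exp.2 ?_
      have e5 : ((j:ℂ) + 1 + p l).re - 1 = j + (p l).re := by simp; ring
      have e6 : (N - j - p l).re - 1 = N.re - j - (p l).re - 1 := by simp
      rw [e5, e6, ← hL, ← hMM]
      have h9 : ((n:ℝ) - N.re + (p l).re) * M ≤ (k + 1) * A := by
        have := abs_le.1 hND
        nlinarith
      nlinarith
    have key0 : Real.exp ((p l).re * L) * (1 - y) ^ (n - 1) ≤
        Real.exp ((k + 1) * A) * Real.exp ((p l).re * L) := by
      have g1 : (1 - y) ^ (n - 1) ≤ 1 := pow_le_one₀ h1y.le (by linarith)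
      have g2 : 1 ≤ Real.exp ((k + 1) * A) := by
        rw [← Real.exp_zero]; exact Real.exp_le_exp.2 (by positivity)
      have g3 := Real.exp_pos ((p l).re * L)
      nlinarith
    have hX0 : 0 ≤ Xr n (p l) N J y := Xr_nonneg hx.le (by linarith) hC
    have e7 : Real.exp ((p l).re * L) * Xr n (p l) N J y ≤ Real.exp ((k + 1) * A) *
        (Real.exp ((p l).re * L) +
          ∑ j ∈ Finset.range J, ‖bt (j + 1 + p l) (N - j - p l) y‖ / Cj (p l) N j) := by
      unfold Xr
      calc Real.exp ((p l).re * L) * ((1 - y) ^ (n - 1) *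
            (1 + ∑ j ∈ Finset.range J, (y / (1 - y)) ^ j / Cj (p l) N j)) =
          Real.exp ((p l).re * L) * (1 - y) ^ (n - 1) + ∑ j ∈ Finset.range J,
            (Real.exp ((p l).re * L) * ((y / (1 - y)) ^ j * (1 - y) ^ (n - 1))) / Cj (p l) N j := by
            rw [mul_add, mul_add, mul_one, Finset.mul_sum, Finset.mul_sum]
            congr 1
            refine Finset.sum_congr rfl fun j _ => ?_
            ring
        _ ≤ Real.exp ((k + 1) * A) * Real.exp ((p l).re * L) + ∑ j ∈ Finset.range J,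
            (Real.exp ((k + 1) * A) * ‖bt (j + 1 + p l) (N - j - p l) y‖) / Cj (p l) N j := by
            refine add_le_add key0 (Finset.sum_le_sum fun j hj => ?_)
            have := hC j (Finset.mem_range.1 hj)
            have := key1 j
            gcongr
        _ = _ := by
            rw [mul_add, Finset.mul_sum]
            congr 1
            refine Finset.sum_congr rfl fun j _ => ?_
            ring
    calc Lt a b x * (‖Wt a b p x‖ * Xr n (p l) N J y) ≤
        ((1 + k * cM σ) * (1 + |L|)) * ((Real.exp (k * (A * cM σ)) *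
          Real.exp ((p l).re * L)) * Xr n (p l) N J y) := by
          have := Lt_nonneg a b x
          gcongr
      _ = ((1 + k * cM σ) * Real.exp (k * (A * cM σ)) * (1 + |L|)) *
          (Real.exp ((p l).re * L) * Xr n (p l) N J y) := by ring
      _ ≤ ((1 + k * cM σ) * Real.exp (k * (A * cM σ)) * (1 + |L|)) *
          (Real.exp ((k + 1) * A) * (Real.exp ((p l).re * L) +
          ∑ j ∈ Finset.range J, ‖bt (j + 1 + p l) (N - j - p l) y‖ / Cj (p l) N j)) := by
          refine mul_le_mul_of_nonneg_left e7 (by positivity)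
      _ = gl B (p l) N J y := by
          unfold gl
          rw [hB, ← hL]
          simp_rw [mul_div_assoc]
          rw [← Finset.mul_sum]
          ring
  · rw [mul_zero, mul_zero]
    unfold gl
    positivity

/-- the total integral -/
theorem Y2_int (k : ℕ) (A η σ κ : ℝ) (hA : 0 ≤ A) (hη : 0 < η) (hη1 : η ≤ 1) (hσ : 0 < σ)
    (hσ1 : σ ≤ 1) (hκ : 0 < κ) : ∃ C : ℝ, ∃ n0 : ℕ, 0 < C ∧ ∀ (n J : ℕ) (a b p : Fin k → ℂ) (y1 : ℝ),
      n0 ≤ n → J ≤ n → Cfg σ a b → Adm A η p → y1 ≤ σ ^ 2 / 16 → 0 < (NN n p).re →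
      (∀ l, ∀ j < J, 0 < (NN n p - j - p l).re ∧ 0 < Cj (p l) (NN n p) j) →
      Integrable (fun x => Lt a b x * (‖Wt a b p x‖ * Y2 n J y1 a b p x)) mu ∧
      ∫ x, Lt a b x * (‖Wt a b p x‖ * Y2 n J y1 a b p x) ∂mu ≤ C * Real.exp (κ * n) := by
  set D : ℝ := k * A with hD
  have hD0 : 0 ≤ D := by positivity
  obtain ⟨C1, hC1, hbt⟩ := bt_log A D η (κ / 2) hA hD0 hη hη1 (by positivity)
  obtain ⟨B1, hB1, hB1'⟩ := pow_exp 1 (c := κ / 2) (by positivity)
  have hM := cM_pos hσ hσ1
  set M0 : ℝ := ((1 + k * cM σ) * (Real.exp (k * cM σ) +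
      Real.exp (k * (A * cM σ)) * (1 + 2 / η))) * (1 + k * (2 / η)) with hM0
  have hM00 : 0 ≤ M0 := by positivity
  set B : ℝ := (1 + k * cM σ) * Real.exp (k * (A * cM σ)) * Real.exp ((k + 1) * A) with hB
  have hB0 : 0 ≤ B := by positivity
  refine ⟨(1 + B1 + D) * M0 + k * (B * ((1 + 2 / η) * (2 / η) + B1 * C1)) + 1,
    ⌈(k + 1) * A⌉₊ + 1, by positivity, fun n J a b p y1 hn hJ hc hp hy1 hNre hfacts => ?_⟩
  have hnA : (k + 1) * A + 1 ≤ n := by
    have h1 : (k + 1) * A ≤ ⌈(k + 1) * A⌉₊ := Nat.le_ceil _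
    have h2 : ((⌈(k + 1) * A⌉₊ + 1 : ℕ) : ℝ) ≤ n := by exact_mod_cast hn
    push_cast at h2
    linarith
  have hn1 : 1 ≤ n := by omega
  have hND : |(NN n p).re - n| ≤ D := by
    have e : (NN n p).re - n = ∑ i, (p i).re := by unfold NN; simp
    rw [e]
    refine (Finset.abs_sum_le_sum_abs _ _).trans ?_
    calc ∑ i, |(p i).re| ≤ ∑ _i : Fin k, A := Finset.sum_le_sum fun i _ =>
          (Complex.abs_re_le_norm _).trans (hp.bd i)
      _ = D := by simp [hD]
  have h1p : ∀ l, 1 ≤ (NN n p - p l).re := by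
    intro l
    have h2 := (abs_le.1 hND).1
    have h3 := (abs_le.1 ((Complex.abs_re_le_norm (p l)).trans (hp.bd l))).2
    rw [Complex.sub_re]
    rw [hD] at h2
    linarith
  -- the radial functions
  have hg : ∀ l, IntegrableOn (gl B (p l) (NN n p) J) (Ioo 0 1) ∧
      ∫ y in Ioo (0:ℝ) 1, gl B (p l) (NN n p) J y ≤
        B * ((1 + 2 / η) * (2 / η) + n * (C1 * Real.exp (κ / 2 * n))) := by
    intro l
    obtain ⟨h1, h2⟩ := one_add_log_int hη (hp.re l)
    have h3 : ∀ j ∈ Finset.range J, IntegrableOn (fun y : ℝ => (1 + |Real.log y|) *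
        ‖bt (j + 1 + p l) (NN n p - j - p l) y‖ / Cj (p l) (NN n p) j) (Ioo 0 1) ∧
        ∫ y in Ioo (0:ℝ) 1, (1 + |Real.log y|) *
        ‖bt (j + 1 + p l) (NN n p - j - p l) y‖ / Cj (p l) (NN n p) j ≤
          C1 * Real.exp (κ / 2 * n) := by
      intro j hj
      obtain ⟨f1, f2⟩ := hfacts l j (Finset.mem_range.1 hj)
      obtain ⟨g1, g2⟩ := hbt n (p l) (NN n p) j (hp.bd l) (hp.re l) hND (h1p l) f1
      refine ⟨g1.div_const _, ?_⟩
      rw [integral_div, div_le_iff₀ f2]
      exact g2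
    have h4 : IntegrableOn (fun y : ℝ => ∑ j ∈ Finset.range J, (1 + |Real.log y|) *
        ‖bt (j + 1 + p l) (NN n p - j - p l) y‖ / Cj (p l) (NN n p) j) (Ioo 0 1) :=
      integrable_finsetSum _ fun j hj => (h3 j hj).1
    refine ⟨(h1.add h4).const_mul B, ?_⟩
    unfold gl
    rw [integral_const_mul]
    refine mul_le_mul_of_nonneg_left ?_ hB0
    rw [integral_add h1 h4, integral_finsetSum _ fun j hj => (h3 j hj).1]
    refine add_le_add h2 ?_
    calc _ ≤ ∑ j ∈ Finset.range J, C1 * Real.exp (κ / 2 * n) :=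
          Finset.sum_le_sum fun j hj => (h3 j hj).2
      _ = J * (C1 * Real.exp (κ / 2 * n)) := by simp
      _ ≤ _ := by
          have : (J:ℝ) ≤ n := by exact_mod_cast hJ
          gcongr
  have hgm : ∀ l, Measurable (gl B (p l) (NN n p) J) := by
    intro l
    unfold gl
    refine measurable_const.mul (Measurable.add (by fun_prop) (Finset.measurable_sum _ fun j _ => ?_))
    have := (measurable_bt (j + 1 + p l) (NN n p - j - p l)).norm
    fun_prop
  have hgi := fun l => int_dc (hc.unit l) (hg l).1 (hgm l)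
  have hnear := fun l => (ae_dc (hc.unit l)).mono fun x hx =>
    near_pt hσ hσ1 hA hc hp hn1 hy1 hx fun j hj => (hfacts l j hj).2
  have hy11 : y1 ≤ 1 := by nlinarith
  have hXm : ∀ l, Measurable (Xr n (p l) (NN n p) J) := by
    intro l; unfold Xr; fun_prop
  have htm : ∀ l, Measurable fun x => if dc (a l) (b l) x < y1 then
      Xr n (p l) (NN n p) J (dc (a l) (b l) x) else 0 := fun l =>
    Measurable.ite (measurableSet_lt (measurable_dc _ _) measurable_const)
      ((hXm l).comp (measurable_dc _ _)) measurable_const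
  have hterm := fun x l => Y2_term_nonneg (n := n) (a := a) (b := b) hy11
    (fun l j hj => (hfacts l j hj).2) x l
  have hti : ∀ l, Integrable (fun x => Lt a b x * (‖Wt a b p x‖ *
      if dc (a l) (b l) x < y1 then Xr n (p l) (NN n p) J (dc (a l) (b l) x) else 0)) mu := by
    intro l
    refine Integrable.mono' (hgi l).1 ((measurable_Lt a b).mul
      ((measurable_Wt a b p).norm.mul (htm l))).aestronglyMeasurable ?_
    filter_upwards [hnear l] with x hx
    have h5 := hterm x l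
    have h6 := Lt_nonneg a b x
    rw [Real.norm_eq_abs, abs_of_nonneg (by positivity)]
    exact hx
  obtain ⟨hL1, hL2⟩ := Lt_W_int hσ hσ1 hA hη hη1 hc hp
  rw [← hM0] at hL2
  have hsplit : (fun x => Lt a b x * (‖Wt a b p x‖ * Y2 n J y1 a b p x)) = fun x =>
      (1 + 1 / Cj 0 (NN n p) 0) * (Lt a b x * ‖Wt a b p x‖) +
      ∑ l, Lt a b x * (‖Wt a b p x‖ *
        if dc (a l) (b l) x < y1 then Xr n (p l) (NN n p) J (dc (a l) (b l) x) else 0) := by
    funext x
    unfold Y2
    rw [mul_add, mul_add, Finset.mul_sum, Finset.mul_sum]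
    ring
  rw [hsplit]
  have hti' := integrable_finsetSum Finset.univ fun l _ => hti l
  refine ⟨(hL1.const_mul _).add hti', ?_⟩
  rw [integral_add (hL1.const_mul _) hti', integral_const_mul,
    integral_finsetSum _ fun l _ => hti l]
  have hcc : 1 + 1 / Cj 0 (NN n p) 0 ≤ (1 + B1 + D) * Real.exp (κ / 2 * n) := by
    rw [(cj0 hNre).2, one_div_one_div]
    have h7 := hB1' n
    rw [pow_one, Real.exp_neg, ← div_eq_mul_inv, div_le_iff₀ (Real.exp_pos _)] at h7
    have h8 : 1 ≤ Real.exp (κ / 2 * n) := by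
      rw [← Real.exp_zero]; exact Real.exp_le_exp.2 (by positivity)
    have h9 := (abs_le.1 hND).2
    nlinarith
  have hsum : ∀ l, ∫ x, Lt a b x * (‖Wt a b p x‖ *
      if dc (a l) (b l) x < y1 then Xr n (p l) (NN n p) J (dc (a l) (b l) x) else 0) ∂mu ≤
      B * ((1 + 2 / η) * (2 / η) + n * (C1 * Real.exp (κ / 2 * n))) := by
    intro l
    calc _ ≤ ∫ x, gl B (p l) (NN n p) J (dc (a l) (b l) x) ∂mu :=
          integral_mono_ae (hti l) (hgi l).1 (hnear l)
      _ = _ := (hgi l).2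
      _ ≤ _ := (hg l).2
  have he1 : 1 ≤ Real.exp (κ / 2 * n) := by
    rw [← Real.exp_zero]; exact Real.exp_le_exp.2 (by positivity)
  have he2 : Real.exp (κ * n) = Real.exp (κ / 2 * n) * Real.exp (κ / 2 * n) := by
    rw [← Real.exp_add]; congr 1; ring
  have h7 := hB1' n
  rw [pow_one, Real.exp_neg, ← div_eq_mul_inv, div_le_iff₀ (Real.exp_pos _)] at h7
  have hpos1 : 0 ≤ (1 + 2 / η) * (2 / η) := by positivity
  set E := Real.exp (κ / 2 * n) with hE
  have hEE : E ≤ E * E := by nlinarith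
  have hEE1 : 1 ≤ E * E := by nlinarith
  have hsum2 : B * ((1 + 2 / η) * (2 / η) + n * (C1 * E)) ≤
      B * ((1 + 2 / η) * (2 / η) + B1 * C1) * (E * E) := by
    have g1 : n * (C1 * E) ≤ B1 * C1 * (E * E) := by
      calc n * (C1 * E) ≤ (B1 * E) * (C1 * E) := by gcongr
        _ = _ := by ring
    have g2 : (1 + 2 / η) * (2 / η) ≤ (1 + 2 / η) * (2 / η) * (E * E) :=
      le_mul_of_one_le_right hpos1 hEE1
    calc B * ((1 + 2 / η) * (2 / η) + n * (C1 * E)) ≤
        B * ((1 + 2 / η) * (2 / η) * (E * E) + B1 * C1 * (E * E)) := by gcongr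
      _ = _ := by ring
  calc (1 + 1 / Cj 0 (NN n p) 0) * ∫ x, Lt a b x * ‖Wt a b p x‖ ∂mu + ∑ l, _ ≤
      ((1 + B1 + D) * E) * M0 + ∑ _l : Fin k, B * ((1 + 2 / η) * (2 / η) + n * (C1 * E)) := by
        have hcn : 0 ≤ 1 + 1 / Cj 0 (NN n p) 0 := by
          rw [(cj0 hNre).2]; positivity
        have hin : 0 ≤ ∫ x, Lt a b x * ‖Wt a b p x‖ ∂mu := integral_nonneg fun x => by
          have := Lt_nonneg a b x
          positivity
        refine add_le_add ?_ (Finset.sum_le_sum fun l _ => hsum l)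
        exact mul_le_mul hcc hL2 hin (by positivity)
    _ = (1 + B1 + D) * M0 * E + k * (B * ((1 + 2 / η) * (2 / η) + n * (C1 * E))) := by
        simp; ring
    _ ≤ (1 + B1 + D) * M0 * (E * E) +
        k * (B * ((1 + 2 / η) * (2 / η) + B1 * C1) * (E * E)) := by gcongr
    _ = ((1 + B1 + D) * M0 + k * (B * ((1 + 2 / η) * (2 / η) + B1 * C1))) * (E * E) := by ring
    _ ≤ _ := by
        rw [he2]
        refine mul_le_mul_of_nonneg_right ?_ (by positivity)
        linarith

end

end Pool.Agent.H972.FH
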