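import Pool.Agent.H972.FH.Stm

/-!
Definitions for the multi-point Fisher–Hartwig asymptotics of the characteristic polynomial of the
spherical ensemble (problem MP_43990b_pr, Q2).
-/

set_option autoImplicit false

open MeasureTheory

namespace Pool.Agent.H972.FHS

noncomputable section

/-- The characteristic polynomial `P_n(z) = det (z I - A B⁻¹)`, for `x = (A, B)`. -/
def charP {n : ℕ} (x : (Fin n → Fin n → ℂ) × (Fin n → Fin n → ℂ)) (z : ℂ) : ℂ :=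
  (z • (1 : Matrix (Fin n) (Fin n) ℂ) - Matrix.of x.1 * (Matrix.of x.2)⁻¹).det

/-- `|w|^γ = exp (γ log |w|)` for complex `γ`. -/
def absPow (w γ : ℂ) : ℂ := Complex.exp (γ * ((Real.log ‖w‖ : ℝ) : ℂ))

/-- The main term `N_n`, the product of `n^(γᵢ²/4) (1 + |zᵢ|²)^(γᵢ n/2 - γᵢ²/4)` over `i` and of
`n^(γᵢ γⱼ/4) |zᵢ - zⱼ|^(-γᵢ γⱼ/2)` over `i < j`, divided by `G(1 - σ/2) ∏ᵢ G(1 + γᵢ/2)`,
with `σ = ∑ᵢ γᵢ`. -/
def mainTermP {k : ℕ} (z γ : Fin k → ℂ) (n : ℕ) : ℂ :=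
  (∏ i, ((n : ℂ) ^ (γ i ^ 2 / 4) *
      ((1 + ‖z i‖ ^ 2 : ℝ) : ℂ) ^ (γ i * n / 2 - γ i ^ 2 / 4))) *
    (∏ i, ∏ j ∈ Finset.Ioi i, ((n : ℂ) ^ (γ i * γ j / 4) *
      (‖z i - z j‖ : ℂ) ^ (-(γ i * γ j) / 2))) /
    (barnesG (1 - (∑ i, γ i) / 2) * ∏ i, barnesG (1 + γ i / 2))

end

end Pool.Agent.H972.FHS
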