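import Pool.Agent.H972.FH.Final
import Pool.Agent.H972.FH.Stm2

set_option autoImplicit false

open MeasureTheory Filter Topology Set Complex
open scoped ENNReal

namespace Pool.Agent.H972.FHS

open Pool.Agent.R923.SE Pool.Agent.K7.H95.GMC Pool.Agent.K7.H96.GMC Pool.Agent.H972.FH

noncomputable section

variable {k : ℕ}

/-- the points, with infinity added -/
def pz (z : Fin k → ℂ) : Fin (k + 1) → OnePoint ℂ :=
  Fin.cons (OnePoint.infty) (fun i => ((z i : ℂ) : OnePoint ℂ))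

def gz (γ : Fin k → ℂ) : Fin (k + 1) → ℂ := Fin.cons (-∑ i, γ i) γ

lemma pz_inj {z : Fin k → ℂ} (hz : Function.Injective z) : Function.Injective (pz z) := by
  unfold pz
  rw [Fin.cons_injective_iff]
  refine ⟨?_, ?_⟩
  · rintro ⟨i, hi⟩
    exact OnePoint.coe_ne_infty _ hi
  · intro i j hij
    exact hz (OnePoint.coe_injective hij)

lemma gz_re {γ : Fin k → ℂ} (h1 : ∀ i, -2 < (γ i).re) (h2 : (∑ i, γ i).re < 2) :
    ∀ i, -2 < (gz γ i).re := by
  intro i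
  refine Fin.cases ?_ (fun i => ?_) i
  · simp only [gz, Fin.cons_zero, Complex.neg_re]
    linarith
  · simp only [gz, Fin.cons_succ]
    exact h1 i

lemma sum_gz (γ : Fin k → ℂ) : ∑ i, gz γ i = 0 := by
  simp [gz, Fin.sum_univ_succ]

lemma chd_coe (p q : ℂ) : chd (p : OnePoint ℂ) (q : OnePoint ℂ) =
    ‖p - q‖ / √((1 + ‖p‖ ^ 2) * (1 + ‖q‖ ^ 2)) := rfl

lemma chd_inf (q : ℂ) : chd OnePoint.infty (q : OnePoint ℂ) = 1 / √(1 + ‖q‖ ^ 2) := rfl

lemma chd_inf' (q : ℂ) : chd (q : OnePoint ℂ) OnePoint.infty = 1 / √(1 + ‖q‖ ^ 2) := rfl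

lemma log_chd_coe {p q : ℂ} (h : p ≠ q) : Real.log (chd (p : OnePoint ℂ) (q : OnePoint ℂ)) =
    Real.log ‖p - q‖ - Real.log (1 + ‖p‖ ^ 2) / 2 - Real.log (1 + ‖q‖ ^ 2) / 2 := by
  have h1 : 0 < ‖p - q‖ := norm_pos_iff.2 (sub_ne_zero.2 h)
  have h2 : 0 < 1 + ‖p‖ ^ 2 := by positivity
  have h3 : 0 < 1 + ‖q‖ ^ 2 := by positivity
  rw [chd_coe, Real.log_div h1.ne' (Real.sqrt_pos.2 (by positivity)).ne', Real.log_sqrt (by positivity),
    Real.log_mul h2.ne' h3.ne']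
  ring

lemma log_chd_inf (q : ℂ) : Real.log (chd OnePoint.infty (q : OnePoint ℂ)) =
    -Real.log (1 + ‖q‖ ^ 2) / 2 := by
  rw [chd_inf, one_div, Real.log_inv, Real.log_sqrt (by positivity)]
  ring

lemma log_chd_inf' (q : ℂ) : Real.log (chd (q : OnePoint ℂ) OnePoint.infty) =
    -Real.log (1 + ‖q‖ ^ 2) / 2 := by
  rw [chd_inf', one_div, Real.log_inv, Real.log_sqrt (by positivity)]
  ring

/-- the bridge for one matrix pair -/
lemma charP_eq {n : ℕ} {x : Mt n n × Mt n n} {v : Fin n → ℂ}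
    (hv : (Matrix.of (qt x)).charpoly.roots = Multiset.map v Finset.univ.val) (w : ℂ) :
    charP x w = ∏ j, (w - v j) := by
  unfold charP
  have h := det_lin hv (-1) w
  have h1 : ((-1 : ℂ) • Matrix.of (qt x) + w • (1 : Matrix (Fin n) (Fin n) ℂ)) =
      w • (1 : Matrix (Fin n) (Fin n) ℂ) - Matrix.of x.1 * (Matrix.of x.2)⁻¹ := by
    rw [of_qt]
    simp only [neg_smul, one_smul]
    rw [neg_add_eq_sub]
  rw [← h1, h]
  refine Finset.prod_congr rfl fun j _ => ?_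
  ring

lemma log_charP {n : ℕ} {x : Mt n n × Mt n n} {w : ℂ} (hx : charP x w ≠ 0) :
    Real.log ‖charP x w‖ = linStat (w : OnePoint ℂ) x - linStat OnePoint.infty x +
      n / 2 * Real.log (1 + ‖w‖ ^ 2) := by
  obtain ⟨v, hv⟩ := exists_roots (qt x)
  have h0 := charP_eq hv w
  rw [h0] at hx ⊢
  have hne : ∀ j, w - v j ≠ 0 := fun j => Finset.prod_ne_zero_iff.1 hx j (Finset.mem_univ j)
  rw [norm_prod, Real.log_prod (fun j _ => (norm_pos_iff.2 (hne j)).ne')]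
  have h1 : ∀ p : OnePoint ℂ, linStat p x = ∑ j, Real.log (chd ((v j : ℂ) : OnePoint ℂ) p) := by
    intro p
    unfold linStat eigs
    rw [← of_qt, hv, Multiset.map_map]
    rfl
  rw [h1, h1, ← Finset.sum_sub_distrib]
  have h2 : (n:ℝ) / 2 * Real.log (1 + ‖w‖ ^ 2) = ∑ _j : Fin n, Real.log (1 + ‖w‖ ^ 2) / 2 := by
    simp
    ring
  rw [h2, ← Finset.sum_add_distrib]
  refine Finset.sum_congr rfl fun j _ => ?_
  rw [log_chd_coe ((sub_ne_zero.1 (hne j)).symm : v j ≠ w), log_chd_inf', norm_sub_rev]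
  ring

lemma prod_absPow {n : ℕ} {x : Mt n n × Mt n n} {z : Fin k → ℂ} (γ : Fin k → ℂ)
    (hx : ∀ i, charP x (z i) ≠ 0) :
    ∏ i, absPow (charP x (z i)) (γ i) =
      cexp (n / 2 * ∑ i, γ i * ((Real.log (1 + ‖z i‖ ^ 2) : ℝ) : ℂ)) *
        cexp (∑ i, gz γ i * (linStat (pz z i) x : ℂ)) := by
  unfold absPow
  rw [← Complex.exp_sum, ← Complex.exp_add]
  congr 1
  rw [Fin.sum_univ_succ]
  simp only [gz, pz, Fin.cons_zero, Fin.cons_succ]
  have h1 : ∀ i, γ i * ((Real.log ‖charP x (z i)‖ : ℝ) : ℂ) =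
      γ i * (linStat (z i : OnePoint ℂ) x : ℂ) - γ i * (linStat OnePoint.infty x : ℂ) +
        n / 2 * (γ i * ((Real.log (1 + ‖z i‖ ^ 2) : ℝ) : ℂ)) := by
    intro i
    rw [log_charP (hx i)]
    push_cast
    ring
  rw [Finset.sum_congr rfl fun i _ => h1 i, Finset.sum_add_distrib, Finset.sum_sub_distrib,
    ← Finset.mul_sum, ← Finset.sum_mul]
  ring

lemma ae_ne (n : ℕ) (z : Fin k → ℂ) :
    ∀ᵐ x ∂pairLaw n, ∀ i, charP x (z i) ≠ 0 := by
  obtain ⟨C, h1, -⟩ := law_FF n (a := fun i => sa (z i : OnePoint ℂ))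
    (b := fun i => sb (z i : OnePoint ℂ)) (fun i => s_unit _)
  rw [pairLaw_eq]
  filter_upwards [h1] with x hx i
  obtain ⟨v, hv⟩ := exists_roots (qt x)
  have h := hx i
  rw [det_lin hv] at h
  rw [charP_eq hv]
  refine Finset.prod_ne_zero_iff.2 fun j hj => ?_
  have h2 := Finset.prod_ne_zero_iff.1 h j hj
  intro h3
  apply h2
  change ((1 / √(1 + ‖z i‖ ^ 2) : ℝ) : ℂ) * v j + -z i * ((1 / √(1 + ‖z i‖ ^ 2) : ℝ) : ℂ) = 0
  rw [sub_eq_zero.1 h3]
  ring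

/-- the constants agree -/
lemma mainP_eq {z : Fin k → ℂ} (hz : Function.Injective z) {γ : Fin k → ℂ} {n : ℕ} (hn : 1 ≤ n) :
    mainTermP z γ n = cexp (n / 2 * ∑ i, γ i * ((Real.log (1 + ‖z i‖ ^ 2) : ℝ) : ℂ)) *
      mainTerm (pz z) (gz γ) n := by
  have hn0 : (n : ℂ) ≠ 0 := by exact_mod_cast (by omega : n ≠ 0)
  set L : Fin k → ℂ := fun i => ((Real.log (1 + ‖z i‖ ^ 2) : ℝ) : ℂ) with hL
  set N : ℂ := Complex.log n with hN
  set D : Fin k → Fin k → ℂ := fun i j => ((Real.log ‖z i - z j‖ : ℝ) : ℂ) with hD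
  have hcp : ∀ (i : Fin k) (w : ℂ), ((1 + ‖z i‖ ^ 2 : ℝ) : ℂ) ^ w = cexp (L i * w) := by
    intro i w
    have hp : 0 < 1 + ‖z i‖ ^ 2 := by positivity
    rw [Complex.cpow_def_of_ne_zero (by exact_mod_cast hp.ne'), hL, ← Complex.ofReal_log hp.le]
  have hncp : ∀ w : ℂ, (n : ℂ) ^ w = cexp (N * w) := fun w => Complex.cpow_def_of_ne_zero hn0 w
  have hdcp : ∀ i j : Fin k, i ≠ j → ∀ w : ℂ, (‖z i - z j‖ : ℂ) ^ w = cexp (D i j * w) := by
    intro i j hij w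
    have hp : 0 < ‖z i - z j‖ := norm_pos_iff.2 (sub_ne_zero.2 (hz.ne hij))
    rw [Complex.cpow_def_of_ne_zero (by exact_mod_cast hp.ne'), hD, ← Complex.ofReal_log hp.le]
  have hch : ∀ i j : Fin k, i ≠ j → ∀ w : ℂ, (chd (z i : OnePoint ℂ) (z j : OnePoint ℂ) : ℂ) ^ w =
      cexp ((D i j - L i / 2 - L j / 2) * w) := by
    intro i j hij w
    have hp := chd_pos (OnePoint.coe_injective.ne (hz.ne hij) : (z i : OnePoint ℂ) ≠ z j)
    rw [Complex.cpow_def_of_ne_zero (by exact_mod_cast hp.ne'), ← Complex.ofReal_log hp.le,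
      log_chd_coe (hz.ne hij)]
    congr 1
    simp only [hD, hL]
    push_cast
    ring
  have hci : ∀ (j : Fin k) (w : ℂ), (chd OnePoint.infty (z j : OnePoint ℂ) : ℂ) ^ w =
      cexp (-(L j) / 2 * w) := by
    intro j w
    have hp := chd_pos (OnePoint.coe_ne_infty (z j)).symm
    rw [Complex.cpow_def_of_ne_zero (by exact_mod_cast hp.ne'), ← Complex.ofReal_log hp.le,
      log_chd_inf]
    congr 1
    simp only [hL]
    push_cast
    ring
  have e1 : ∏ i, ((n : ℂ) ^ (γ i ^ 2 / 4) *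
      ((1 + ‖z i‖ ^ 2 : ℝ) : ℂ) ^ (γ i * n / 2 - γ i ^ 2 / 4)) =
      cexp (∑ i, (N * (γ i ^ 2 / 4) + L i * (γ i * n / 2 - γ i ^ 2 / 4))) := by
    rw [Complex.exp_sum]
    refine Finset.prod_congr rfl fun i _ => ?_
    rw [hncp, hcp, ← Complex.exp_add]
  have e2 : ∏ i, ∏ j ∈ Finset.Ioi i, ((n : ℂ) ^ (γ i * γ j / 4) *
      (‖z i - z j‖ : ℂ) ^ (-(γ i * γ j) / 2)) =
      cexp (∑ i, ∑ j ∈ Finset.Ioi i, (N * (γ i * γ j / 4) + D i j * (-(γ i * γ j) / 2))) := by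
    rw [Complex.exp_sum]
    refine Finset.prod_congr rfl fun i _ => ?_
    rw [Complex.exp_sum]
    refine Finset.prod_congr rfl fun j hj => ?_
    rw [hncp, hdcp i j (Finset.mem_Ioi.1 hj).ne, ← Complex.exp_add]
  have e3 : ∏ i, ∏ j ∈ Finset.Ioi i, (chd (pz z i) (pz z j) : ℂ) ^ (gz γ i * gz γ j / 2) =
      cexp ((∑ j, -(L j) / 2 * (-(∑ i, γ i) * γ j / 2)) + ∑ i, ∑ j ∈ Finset.Ioi i,
        (D i j - L i / 2 - L j / 2) * (γ i * γ j / 2)) := by
    rw [Complex.exp_add, Complex.exp_sum, Complex.exp_sum, Fin.prod_univ_succ]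
    congr 1
    · rw [Fin.Ioi_zero_eq_map, Finset.prod_map]
      refine Finset.prod_congr rfl fun j _ => ?_
      simp only [pz, gz, Fin.cons_zero, Fin.coe_succEmb, Fin.cons_succ]
      rw [hci]
    · refine Finset.prod_congr rfl fun i _ => ?_
      rw [Complex.exp_sum, Fin.Ioi_succ, Finset.prod_map]
      refine Finset.prod_congr rfl fun j hj => ?_
      simp only [pz, gz, Fin.coe_succEmb, Fin.cons_succ]
      rw [hch i j (Finset.mem_Ioi.1 hj).ne]
  have e4 : ∑ i, gz γ i ^ 2 = (∑ i, γ i) ^ 2 + ∑ i, γ i ^ 2 := by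
    rw [Fin.sum_univ_succ]
    simp only [gz, Fin.cons_zero, Fin.cons_succ]
    ring
  have e5 : ∏ i, barnesG (1 + gz γ i / 2) =
      barnesG (1 - (∑ i, γ i) / 2) * ∏ i, barnesG (1 + γ i / 2) := by
    rw [Fin.prod_univ_succ]
    simp only [gz, Fin.cons_zero, Fin.cons_succ]
    congr 2
    ring
  have hsq : (∑ i, γ i) ^ 2 = ∑ i, γ i ^ 2 + 2 * ∑ i, ∑ j ∈ Finset.Ioi i, γ i * γ j := by
    rw [← sum_pairs (fun i j => γ i * γ j) (fun i j => by ring), sq, Finset.sum_mul_sum]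
    rw [← Finset.sum_add_distrib]
    refine Finset.sum_congr rfl fun i _ => ?_
    rw [← Finset.add_sum_erase Finset.univ (fun j => γ i * γ j) (Finset.mem_univ i)]
    ring
  have hcross : ∑ i, ∑ j ∈ Finset.Ioi i, (L i / 2 + L j / 2) * (γ i * γ j / 2) =
      1 / 4 * ∑ i, L i * γ i * ((∑ j, γ j) - γ i) := by
    have h := sum_pairs (fun i j => (L i / 2 + L j / 2) * (γ i * γ j / 2)) (fun i j => by ring)
    have h2 : ∑ i, ∑ l ∈ Finset.univ.erase i, (L i / 2 + L l / 2) * (γ i * γ l / 2) =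
        1 / 2 * ∑ i, L i * γ i * ((∑ j, γ j) - γ i) := by
      have h3 : ∀ i, ∑ l ∈ Finset.univ.erase i, (L i / 2 + L l / 2) * (γ i * γ l / 2) =
          (∑ l, (L i / 2 + L l / 2) * (γ i * γ l / 2)) - L i * (γ i * γ i / 2) := by
        intro i
        rw [← Finset.add_sum_erase Finset.univ (fun l => (L i / 2 + L l / 2) * (γ i * γ l / 2))
          (Finset.mem_univ i)]
        ring
      rw [Finset.sum_congr rfl fun i _ => h3 i, Finset.sum_sub_distrib]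
      have h4 : ∑ i, ∑ l, (L i / 2 + L l / 2) * (γ i * γ l / 2) =
          1 / 2 * ∑ i, L i * γ i * (∑ j, γ j) := by
        have h5 : ∀ i l, (L i / 2 + L l / 2) * (γ i * γ l / 2) =
            1 / 4 * (L i * γ i * γ l) + 1 / 4 * (L l * γ l * γ i) := fun i l => by ring
        simp_rw [h5, Finset.sum_add_distrib]
        rw [Finset.sum_comm (f := fun i l => 1 / 4 * (L l * γ l * γ i))]
        simp_rw [← Finset.mul_sum]
        ring
      rw [h4, Finset.mul_sum, Finset.mul_sum, ← Finset.sum_sub_distrib]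
      refine Finset.sum_congr rfl fun i _ => ?_
      ring
    rw [h2] at h
    linear_combination -(1 / 2 : ℂ) * h
  unfold mainTermP mainTerm
  rw [e1, e2, e3, e4, e5, sum_gz, hncp]
  have hz0 : cexp (-((0:ℂ) / 2) * n - 0 / 4 - 0 ^ 2 / 8) = 1 := by
    rw [← Complex.exp_zero]
    congr 1
    ring
  have hz1 : (2 * (Real.pi : ℂ)) ^ ((0:ℂ) / 4) = 1 := by
    rw [zero_div, Complex.cpow_zero]
  rw [hz0, hz1, ← Complex.exp_add, ← Complex.exp_sub, one_mul, one_mul, div_eq_mul_one_div,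
    ← mul_assoc, ← Complex.exp_add]
  congr 2
  have s1 : ∑ i, (N * (γ i ^ 2 / 4) + L i * (γ i * n / 2 - γ i ^ 2 / 4)) =
      N / 4 * (∑ i, γ i ^ 2) + n / 2 * (∑ i, γ i * L i) - 1 / 4 * ∑ i, L i * γ i ^ 2 := by
    rw [Finset.mul_sum, Finset.mul_sum, Finset.mul_sum, ← Finset.sum_add_distrib,
      ← Finset.sum_sub_distrib]
    refine Finset.sum_congr rfl fun i _ => ?_
    ring
  have s2 : ∑ i, ∑ j ∈ Finset.Ioi i, (N * (γ i * γ j / 4) + D i j * (-(γ i * γ j) / 2)) =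
      N / 4 * (∑ i, ∑ j ∈ Finset.Ioi i, γ i * γ j) -
        ∑ i, ∑ j ∈ Finset.Ioi i, D i j * (γ i * γ j / 2) := by
    rw [Finset.mul_sum, ← Finset.sum_sub_distrib]
    refine Finset.sum_congr rfl fun i _ => ?_
    rw [Finset.mul_sum, ← Finset.sum_sub_distrib]
    refine Finset.sum_congr rfl fun j _ => ?_
    ring
  have s3 : ∑ i, ∑ j ∈ Finset.Ioi i, (D i j - L i / 2 - L j / 2) * (γ i * γ j / 2) =
      (∑ i, ∑ j ∈ Finset.Ioi i, D i j * (γ i * γ j / 2)) -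
        1 / 4 * ∑ i, L i * γ i * ((∑ j, γ j) - γ i) := by
    rw [← hcross, ← Finset.sum_sub_distrib]
    refine Finset.sum_congr rfl fun i _ => ?_
    rw [← Finset.sum_sub_distrib]
    refine Finset.sum_congr rfl fun j _ => ?_
    ring
  have s4 : ∑ j, -(L j) / 2 * (-(∑ i, γ i) * γ j / 2) = 1 / 4 * ∑ i, L i * γ i * (∑ j, γ j) := by
    rw [Finset.mul_sum]
    refine Finset.sum_congr rfl fun i _ => ?_
    ring
  have s5 : ∑ i, L i * γ i * ((∑ j, γ j) - γ i) =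
      (∑ i, L i * γ i * (∑ j, γ j)) - ∑ i, L i * γ i ^ 2 := by
    rw [← Finset.sum_sub_distrib]
    refine Finset.sum_congr rfl fun i _ => ?_
    ring
  rw [s1, s2, s3, s4, s5, hsq]
  ring

theorem cp_int (n : ℕ) {z : Fin k → ℂ} (hz : Function.Injective z) {γ : Fin k → ℂ}
    (h1 : ∀ i, -2 < (γ i).re) (h2 : (∑ i, γ i).re < 2) :
    Integrable (fun x => ∏ i, absPow (charP x (z i)) (γ i)) (pairLaw n) := by
  have h := (fh_int n (pz_inj hz) (gz_re h1 h2)).const_mul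
    (cexp (n / 2 * ∑ i, γ i * ((Real.log (1 + ‖z i‖ ^ 2) : ℝ) : ℂ)))
  refine h.congr ?_
  filter_upwards [ae_ne n z] with x hx
  exact (prod_absPow γ hx).symm

theorem cp_tendsto {z : Fin k → ℂ} (hz : Function.Injective z) {γ : Fin k → ℂ}
    (h1 : ∀ i, -2 < (γ i).re) (h2 : (∑ i, γ i).re < 2) :
    Tendsto (fun n : ℕ => (∫ x, ∏ i, absPow (charP x (z i)) (γ i) ∂pairLaw n) /
      mainTermP z γ n) atTop (𝓝 1) := by
  refine (fh_tendsto (pz_inj hz) (gz_re h1 h2)).congr' ?_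
  filter_upwards [eventually_ge_atTop 1] with n hn
  have e1 : ∫ x, ∏ i, absPow (charP x (z i)) (γ i) ∂pairLaw n =
      cexp (n / 2 * ∑ i, γ i * ((Real.log (1 + ‖z i‖ ^ 2) : ℝ) : ℂ)) *
        ∫ x, cexp (∑ i, gz γ i * (linStat (pz z i) x : ℂ)) ∂pairLaw n := by
    rw [← integral_const_mul]
    refine integral_congr_ae ?_
    filter_upwards [ae_ne n z] with x hx
    exact prod_absPow γ hx
  rw [e1, mainP_eq hz hn, mul_div_mul_left _ _ (Complex.exp_ne_zero _)]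

end

end Pool.Agent.H972.FHS
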