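import Mathlib

/-!
# MP_8d6f76_pr : multi-point Fisher–Hartwig asymptotics for the spherical ensemble

Definitions.
-/

set_option autoImplicit false

open MeasureTheory Complex Filter Topology

namespace Pool.Agent.H972.FH

noncomputable section

/-- uniform probability measure on the sphere, in the stereographic chart -/
def mu : Measure ℂ :=
  (volume : Measure ℂ).withDensity fun z => ENNReal.ofReal ((Real.pi * (1 + ‖z‖ ^ 2) ^ 2)⁻¹)

/-- squared half chordal distance of `z` to the point with spinor coordinates `(a, b)` -/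
def dc (a b z : ℂ) : ℝ := ‖a * z + b‖ ^ 2 / (1 + ‖z‖ ^ 2)

/-- the weight `∏ dᵢ^{2 pᵢ}` -/
def Wt {k : ℕ} (a b p : Fin k → ℂ) (z : ℂ) : ℂ :=
  cexp (∑ i, p i * ((Real.log (dc (a i) (b i) z) : ℝ) : ℂ))

/-- evaluation of the polynomial with coefficients `f` -/
def Pe {n : ℕ} (f : Fin n → ℂ) (z : ℂ) : ℂ := ∑ j, f j * z ^ (j : ℕ)

/-- `(1 + |z|²)^{-(n-1)}` -/
def om (n : ℕ) (z : ℂ) : ℝ := ((1 + ‖z‖ ^ 2) ^ (n - 1))⁻¹

/-- the Gram matrix of the monomials with respect to the weight `W` -/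
def Gr (n : ℕ) (W : ℂ → ℂ) : Matrix (Fin n) (Fin n) ℂ :=
  Matrix.of fun j l => ∫ z, z ^ (j : ℕ) * (starRingEnd ℂ z) ^ (l : ℕ) * (om n z : ℂ) * W z ∂mu

/-- the bilinear form -/
def Bf (n : ℕ) (W : ℂ → ℂ) (f g : Fin n → ℂ) : ℂ :=
  ∫ z, Pe f z * Pe g (starRingEnd ℂ z) * (om n z : ℂ) * W z ∂mu

/-- the squared norm -/
def nr (n : ℕ) (W : ℂ → ℂ) (f : Fin n → ℂ) : ℝ := ∫ z, ‖Pe f z‖ ^ 2 * om n z * ‖W z‖ ∂mu

lemma one_add_pos (z : ℂ) : 0 < 1 + ‖z‖ ^ 2 := by positivity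

lemma om_pos (n : ℕ) (z : ℂ) : 0 < om n z := by unfold om; positivity

lemma om_le_one (n : ℕ) (z : ℂ) : om n z ≤ 1 := by
  unfold om
  exact inv_le_one_of_one_le₀ (one_le_pow₀ (by nlinarith [sq_nonneg ‖z‖]))

end

end Pool.Agent.H972.FH
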