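import Pool.Agent.H972.FH.Mom

set_option autoImplicit false

open MeasureTheory Complex Filter Topology Set
open scoped ENNReal

namespace Pool.Agent.H972.FH

noncomputable section

/-- a finite number of parameters -/
structure Par (A D η : ℝ) (n : ℕ) (p0 N : ℂ) : Prop where
  hp : ‖p0‖ ≤ A
  hr : -1 + η ≤ p0.re
  hN : ‖N - n‖ ≤ D

lemma Par.re_le {A D η : ℝ} {n : ℕ} {p0 N : ℂ} (h : Par A D η n p0 N) : |p0.re| ≤ A :=
  (Complex.abs_re_le_norm p0).trans h.hp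

lemma Par.im_le {A D η : ℝ} {n : ℕ} {p0 N : ℂ} (h : Par A D η n p0 N) : |p0.im| ≤ A :=
  (Complex.abs_im_le_norm p0).trans h.hp

lemma Par.N_re {A D η : ℝ} {n : ℕ} {p0 N : ℂ} (h : Par A D η n p0 N) : |N.re - n| ≤ D := by
  have := (Complex.abs_re_le_norm (N - n)).trans h.hN
  simpa using this

lemma Par.N_im {A D η : ℝ} {n : ℕ} {p0 N : ℂ} (h : Par A D η n p0 N) : |N.im| ≤ D := by
  have := (Complex.abs_im_le_norm (N - n)).trans h.hN
  simpa using this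

lemma om_rpow (n : ℕ) (hn : 1 ≤ n) (ζ : ℂ) : om n ζ = (1 + ‖ζ‖ ^ 2) ^ (-((n:ℝ) - 1)) := by
  unfold om
  rw [Real.rpow_neg (by positivity), ← Real.rpow_natCast, Nat.cast_sub hn, Nat.cast_one]

theorem est (A D η t1 : ℝ) (hA : 0 ≤ A) (hD : 0 ≤ D) (hη : 0 < η) (h0 : 0 < t1) (h1 : t1 ≤ 1) :
    ∃ ε c C K : ℝ, ∃ n0 : ℕ, 0 < ε ∧ ε ≤ 1 / 4 ∧ 0 < c ∧ 0 < C ∧ 0 < K ∧ 2 ≤ n0 ∧
      ∀ (n : ℕ) (p0 N : ℂ), n0 ≤ n → Par A D η n p0 N → ∀ j : ℕ, (j:ℝ) ≤ ε * n →
      0 < (N - j - p0).re ∧ 0 < Cj p0 N j ∧ Cj p0 N j ≤ K * ‖cj p0 N j‖ ∧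
      (∀ i : ℕ, (i:ℝ) ≤ ε * n → ∀ ζ : ℂ, t1 ≤ ‖ζ‖ ^ 2 →
        (‖ζ‖ ^ 2 / t1) ^ i * ‖ζ‖ ^ (2 * j) * om n ζ ≤ C * Real.exp (-(c * n)) * Cj p0 N j) ∧
      ∫ ζ in (Metric.ball (0:ℂ) (√t1))ᶜ, ‖ζ‖ ^ (2 * j) * ‖wr p0 N ‖ζ‖‖ ∂mu ≤
        C * Real.exp (-(c * n)) * Cj p0 N j := by
  set L : ℝ := Real.log (1 + t1) with hL
  have hL0 : 0 < L := Real.log_pos (by linarith)
  set t2 : ℝ := min t1 (L / 8) with ht2
  have ht20 : 0 < t2 := lt_min h0 (by positivity)
  have ht21 : t2 ≤ 1 := (min_le_left _ _).trans h1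
  have hlog2 : 0 < Real.log (2 / t2) := Real.log_pos (by rw [lt_div_iff₀ ht20]; linarith)
  obtain ⟨m, hm, hlow⟩ := low_bound t2 A D ht20 ht21 hA hD
  obtain ⟨K, hK, hbeta⟩ := beta_ratio (min η 1) (A + D + 1) (lt_min hη one_pos)
  set ε : ℝ := min (1 / 4) (min (L / 8 / Real.log (2 / t2)) (1 / (4 * (1 + 1 / t1)))) with hε
  have hε0 : 0 < ε := by
    refine lt_min (by norm_num) (lt_min (by positivity) (by positivity))
  have hε1 : ε ≤ 1 / 4 := min_le_left _ _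
  have hε2 : ε * Real.log (2 / t2) ≤ L / 8 := by
    have : ε ≤ L / 8 / Real.log (2 / t2) := (min_le_right _ _).trans (min_le_left _ _)
    rwa [le_div_iff₀ hlog2] at this
  have hε3 : (1 + 1 / t1) * (2 * ε) ≤ 1 / 2 := by
    have : ε ≤ 1 / (4 * (1 + 1 / t1)) := (min_le_right _ _).trans (min_le_right _ _)
    rw [le_div_iff₀ (by positivity)] at this
    linarith
  set B : ℝ := t1⁻¹ * (1 + t1) ^ (A + D + 1) with hB
  have hB0 : 0 < B := by positivity
  refine ⟨ε, L / 2, (2 + B) / m, K, max 2 ⌈4 * (A + D + 2)⌉₊, hε0, hε1, by positivity,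
    by positivity, hK, le_max_left _ _, fun n p0 N hn hP j hj => ?_⟩
  have hn2 : 2 ≤ n := (le_max_left _ _).trans hn
  have hnA : 4 * (A + D + 2) ≤ n := by
    have : (⌈4 * (A + D + 2)⌉₊ : ℝ) ≤ n := by exact_mod_cast (le_max_right _ _).trans hn
    exact (Nat.le_ceil _).trans this
  have hn2' : (2:ℝ) ≤ n := by exact_mod_cast hn2
  have hpr := abs_le.1 hP.re_le
  have hNr := abs_le.1 hP.N_re
  have hrep : 0 < (N - j - p0).re := by
    simp only [Complex.sub_re, Complex.natCast_re]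
    nlinarith
  have hrep1 : 1 ≤ (N - j - p0).re := by
    simp only [Complex.sub_re, Complex.natCast_re]
    nlinarith
  have hs : -1 < p0.re := by linarith [hP.hr]
  have hint := integrable_Cj (p0 := p0) (N := N) (j := j) hs hrep
  -- lower bound for `Cj`
  have hCjl : m * Real.exp (-(L / 4 * n)) ≤ Cj p0 N j := by
    have h2 := hlow n p0 N j hP.re_le hP.N_re hint.integrableOn
    have h3 : ∫ ζ in Metric.ball (0:ℂ) (√t2), ‖ζ‖ ^ (2 * j) * ‖wr p0 N ‖ζ‖‖ ∂mu ≤ Cj p0 N j :=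
      setIntegral_le_integral hint (Eventually.of_forall fun ζ => by positivity)
    refine le_trans ?_ (h2.trans h3)
    rw [mul_assoc]
    refine mul_le_mul_of_nonneg_left ?_ hm.le
    have e1 : (t2 / 2) ^ j = Real.exp (-(j * Real.log (2 / t2))) := by
      rw [Real.exp_neg, Real.exp_nat_mul, Real.exp_log (by positivity), ← inv_pow, inv_div]
    have e2 : (1 + t2) ^ (-(n:ℝ)) = Real.exp (-(n * Real.log (1 + t2))) := by
      rw [Real.rpow_def_of_pos (by linarith)]; congr 1; ring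
    rw [e1, e2, ← Real.exp_add]
    refine Real.exp_le_exp.2 ?_
    have h4 : Real.log (1 + t2) ≤ L / 8 := by
      have := Real.log_le_sub_one_of_pos (show 0 < 1 + t2 by linarith)
      have h5 : t2 ≤ L / 8 := min_le_right _ _
      linarith
    have h6 : (j:ℝ) * Real.log (2 / t2) ≤ n * (L / 8) := by
      calc (j:ℝ) * Real.log (2 / t2) ≤ (ε * n) * Real.log (2 / t2) := by gcongr
        _ = n * (ε * Real.log (2 / t2)) := by ring
        _ ≤ n * (L / 8) := by gcongr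
    have h7 : (n:ℝ) * Real.log (1 + t2) ≤ n * (L / 8) := by gcongr
    linarith
  have hCj0 : 0 < Cj p0 N j := lt_of_lt_of_le (by positivity) hCjl
  have hexp : Real.exp (-(L * n)) ≤ m⁻¹ * Real.exp (-(L / 2 * n)) * Cj p0 N j := by
    have h8 : Real.exp (-(L * n)) ≤ Real.exp (-(L / 2 * n)) * Real.exp (-(L / 4 * n)) := by
      rw [← Real.exp_add]
      refine Real.exp_le_exp.2 ?_
      have : 0 ≤ L * n := by positivity
      linarith
    calc Real.exp (-(L * n)) ≤ Real.exp (-(L / 2 * n)) * Real.exp (-(L / 4 * n)) := h8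
      _ = m⁻¹ * Real.exp (-(L / 2 * n)) * (m * Real.exp (-(L / 4 * n))) := by field_simp
      _ ≤ _ := by gcongr
  refine ⟨hrep, hCj0, ?_, ?_, ?_⟩
  · obtain ⟨-, e1, e2⟩ := cj_eq (p0 := p0) (N := N) (j := j) hs hrep
    rw [e1, e2]
    refine hbeta _ _ ?_ ?_ ?_ ?_
    · simp only [Complex.add_re, Complex.natCast_re, Complex.one_re]
      have : (0:ℝ) ≤ j := Nat.cast_nonneg j
      have := min_le_left η 1
      have := hP.hr
      linarith
    · exact (min_le_right _ _).trans hrep1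
    · simp only [Complex.add_im, Complex.natCast_im, Complex.one_im, zero_add]
      have := hP.im_le
      linarith
    · simp only [Complex.sub_im, Complex.natCast_im, sub_zero]
      have h3 := abs_le.1 hP.im_le
      have h4 := abs_le.1 hP.N_im
      rw [abs_le]
      constructor <;> linarith
  · intro i hi ζ hζ
    have hE : (1 + 1 / t1) * ((i:ℝ) + j) ≤ (n:ℝ) - 1 := by
      have h9 : (1 + 1 / t1) * ((i:ℝ) + j) ≤ (1 + 1 / t1) * (2 * ε * n) := by
        gcongr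
        linarith
      have h10 : (1 + 1 / t1) * (2 * ε * n) = ((1 + 1 / t1) * (2 * ε)) * n := by ring
      have h11 : ((1 + 1 / t1) * (2 * ε)) * n ≤ 1 / 2 * n := by gcongr
      linarith
    have h12 := sup_bound h0 h1 hζ i j hE
    rw [om_rpow n (by omega), pow_mul]
    refine h12.trans ?_
    have e3 : (1 + t1) ^ (-((n:ℝ) - 1)) = (1 + t1) * Real.exp (-(L * n)) := by
      have e5 : 1 + t1 = Real.exp L := (Real.exp_log (by linarith)).symm
      rw [Real.rpow_def_of_pos (by linarith), ← hL, e5, ← Real.exp_add]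
      congr 1; ring
    rw [e3]
    calc (1 + t1) * Real.exp (-(L * n)) ≤ (2 + B) * (m⁻¹ * Real.exp (-(L / 2 * n)) * Cj p0 N j) :=
          mul_le_mul (by linarith) hexp (by positivity) (by positivity)
      _ = _ := by ring
  · set E : ℝ := (n:ℝ) - D - 1 - A with hE
    have hpt : ∀ ζ ∈ (Metric.ball (0:ℂ) (√t1))ᶜ, ‖ζ‖ ^ (2 * j) * ‖wr p0 N ‖ζ‖‖ ≤
        t1⁻¹ * (1 + t1) ^ (-E) := by
      intro ζ hζ
      rw [mem_compl_iff, mem_ball_zero_iff, not_lt] at hζ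
      have hζ2 : t1 ≤ ‖ζ‖ ^ 2 := by
        have := pow_le_pow_left₀ (Real.sqrt_nonneg t1) hζ 2
        rwa [Real.sq_sqrt h0.le] at this
      set x : ℝ := ‖ζ‖ ^ 2 with hx
      have hx0 : 0 < x := h0.trans_le hζ2
      have h13 := sup_bound h0 h1 hζ2 0 j (E := E) (by
        have h9 : (1 + 1 / t1) * (((0:ℕ):ℝ) + j) ≤ (1 + 1 / t1) * (2 * ε * n) := by
          gcongr
          have : (0:ℝ) ≤ ε * n := by positivity
          push_cast
          linarith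
        have h10 : (1 + 1 / t1) * (2 * ε * n) = ((1 + 1 / t1) * (2 * ε)) * n := by ring
        have h11 : ((1 + 1 / t1) * (2 * ε)) * n ≤ 1 / 2 * n := by gcongr
        linarith)
      rw [pow_zero, one_mul] at h13
      rw [norm_wr, pow_mul, ← hx, Real.exp_sub]
      have e1 : Real.exp (p0.re * Real.log x) = x ^ p0.re := by
        rw [Real.rpow_def_of_pos hx0, mul_comm]
      have e2 : (Real.exp ((N.re - 1) * Real.log (1 + x)))⁻¹ = (1 + x) ^ (-(N.re - 1)) := by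
        rw [Real.rpow_def_of_pos (by linarith), ← Real.exp_neg]
        congr 1; ring
      rw [div_eq_mul_inv (Real.exp _) (Real.exp _), e1, e2]
      have h14 : x ^ p0.re ≤ t1⁻¹ * (1 + x) ^ A := by
        have hone : 1 ≤ t1⁻¹ := (one_le_inv₀ h0).2 h1
        rcases le_or_gt 0 p0.re with h | h
        · calc x ^ p0.re ≤ (1 + x) ^ p0.re := by gcongr; linarith
            _ ≤ (1 + x) ^ A := Real.rpow_le_rpow_of_exponent_le (by linarith) hpr.2
            _ = 1 * (1 + x) ^ A := (one_mul _).symm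
            _ ≤ _ := by gcongr
        · calc x ^ p0.re ≤ t1 ^ p0.re := Real.rpow_le_rpow_of_nonpos h0 hζ2 h.le
            _ ≤ t1 ^ (-1:ℝ) := Real.rpow_le_rpow_of_exponent_ge h0 h1 hs.le
            _ = t1⁻¹ * 1 := by rw [Real.rpow_neg_one, mul_one]
            _ ≤ t1⁻¹ * (1 + x) ^ A := by
                gcongr
                exact Real.one_le_rpow (by linarith) hA
      have h15 : (1 + x) ^ (-(N.re - 1)) ≤ (1 + x) ^ (-((n:ℝ) - D - 1)) :=
        Real.rpow_le_rpow_of_exponent_le (by linarith) (by linarith)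
      calc x ^ j * (x ^ p0.re * (1 + x) ^ (-(N.re - 1))) ≤
          x ^ j * (t1⁻¹ * (1 + x) ^ A * (1 + x) ^ (-((n:ℝ) - D - 1))) := by gcongr
        _ = t1⁻¹ * (x ^ j * (1 + x) ^ (-E)) := by
            rw [hE, mul_assoc t1⁻¹, ← Real.rpow_add (by linarith)]
            rw [show A + -((n:ℝ) - D - 1) = -((n:ℝ) - D - 1 - A) by ring]
            ring
        _ ≤ _ := by gcongr
    have h16 : ∫ ζ in (Metric.ball (0:ℂ) (√t1))ᶜ, ‖ζ‖ ^ (2 * j) * ‖wr p0 N ‖ζ‖‖ ∂mu ≤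
        t1⁻¹ * (1 + t1) ^ (-E) := by
      have hms : MeasurableSet (Metric.ball (0:ℂ) (√t1))ᶜ :=
        Metric.isOpen_ball.measurableSet.compl
      calc ∫ ζ in (Metric.ball (0:ℂ) (√t1))ᶜ, ‖ζ‖ ^ (2 * j) * ‖wr p0 N ‖ζ‖‖ ∂mu ≤
          ∫ ζ in (Metric.ball (0:ℂ) (√t1))ᶜ, t1⁻¹ * (1 + t1) ^ (-E) ∂mu :=
            setIntegral_mono_on hint.integrableOn (integrable_const _) hms hpt
        _ = (mu (Metric.ball (0:ℂ) (√t1))ᶜ).toReal * (t1⁻¹ * (1 + t1) ^ (-E)) := by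
            rw [setIntegral_const, smul_eq_mul]; rfl
        _ ≤ 1 * (t1⁻¹ * (1 + t1) ^ (-E)) := by
            gcongr
            exact ENNReal.toReal_le_of_le_ofReal zero_le_one (by simpa using prob_le_one)
        _ = _ := one_mul _
    refine h16.trans ?_
    have e4 : t1⁻¹ * (1 + t1) ^ (-E) = B * Real.exp (-(L * n)) := by
      rw [hB, mul_assoc]
      congr 1
      rw [Real.rpow_def_of_pos (by linarith), Real.rpow_def_of_pos (by linarith), ← Real.exp_add,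
        ← hL, hE]
      congr 1; ring
    rw [e4]
    calc B * Real.exp (-(L * n)) ≤ (2 + B) * (m⁻¹ * Real.exp (-(L / 2 * n)) * Cj p0 N j) :=
          mul_le_mul (by linarith) hexp (by positivity) (by positivity)
      _ = _ := by ring

/-- the tail estimate -/
theorem tail_est (A D t1 ε : ℝ) (hA : 0 ≤ A) (hD : 0 ≤ D) (h0 : 0 < t1) (h1 : t1 ≤ 1)
    (hε : 0 < ε) : ∃ δ C : ℝ, 0 < δ ∧ 0 < C ∧ ∀ (n : ℕ) (p0 N : ℂ) (j : ℕ), |p0.re| ≤ A →
      |N.re - n| ≤ D →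
      IntegrableOn (fun ζ : ℂ => ‖ζ‖ ^ (2 * j) * ‖wr p0 N ‖ζ‖‖) (Metric.ball 0 (√t1)) mu →
      ε * n ≤ j → ∀ x : ℂ, ‖x‖ ≤ δ → (4:ℝ) ^ j * ‖x‖ ^ (2 * j) ≤ C * Real.exp (-(n:ℝ)) *
      ∫ ζ in Metric.ball (0:ℂ) (√t1), ‖ζ‖ ^ (2 * j) * ‖wr p0 N ‖ζ‖‖ ∂mu := by
  set L : ℝ := Real.log (1 + t1) with hL
  have hL0 : 0 < L := Real.log_pos (by linarith)
  obtain ⟨m, hm, hlow⟩ := low_bound t1 A D h0 h1 hA hD
  set θ : ℝ := Real.exp (-((1 + L) / ε)) with hθ
  refine ⟨√(t1 * θ / 8), m⁻¹, by positivity, by positivity,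
    fun n p0 N j hp hN hint hj x hx => ?_⟩
  have h2 := hlow n p0 N j hp hN hint
  have hx2 : ‖x‖ ^ 2 ≤ t1 * θ / 8 := by
    have := pow_le_pow_left₀ (norm_nonneg x) hx 2
    rwa [Real.sq_sqrt (by positivity)] at this
  have e2 : (1 + t1) ^ (-(n:ℝ)) = Real.exp (-(n * L)) := by
    rw [Real.rpow_def_of_pos (by linarith), ← hL]; congr 1; ring
  rw [e2] at h2
  have hθj : θ ^ j ≤ Real.exp (-((1 + L) * n)) := by
    rw [hθ, ← Real.exp_nat_mul]
    refine Real.exp_le_exp.2 ?_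
    have : (1 + L) * n ≤ j * ((1 + L) / ε) := by
      calc (1 + L) * n = (ε * n) * ((1 + L) / ε) := by field_simp
        _ ≤ _ := by gcongr
    linarith
  calc (4:ℝ) ^ j * ‖x‖ ^ (2 * j) = (4 * ‖x‖ ^ 2) ^ j := by rw [pow_mul, mul_pow]
    _ ≤ (t1 / 2 * θ) ^ j := pow_le_pow_left₀ (by positivity) (by linarith) j
    _ = (t1 / 2) ^ j * θ ^ j := mul_pow _ _ _
    _ ≤ (t1 / 2) ^ j * Real.exp (-((1 + L) * n)) := by gcongr
    _ = m⁻¹ * Real.exp (-(n:ℝ)) * (m * (t1 / 2) ^ j * Real.exp (-(n * L))) := by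
        have : Real.exp (-((1 + L) * n)) = Real.exp (-(n:ℝ)) * Real.exp (-(n * L)) := by
          rw [← Real.exp_add]; congr 1; ring
        rw [this]
        field_simp
    _ ≤ _ := by gcongr

end

end Pool.Agent.H972.FH
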