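import Pool.Agent.H972.FH.Red

set_option autoImplicit false

open MeasureTheory Filter Topology Set
open scoped ENNReal

namespace Pool.Agent.H972.FH

open Pool.Agent.R923.SE Pool.Agent.K7.H95.GMC Pool.Agent.K7.H96.GMC

noncomputable section

variable {k : ℕ}

/-- integrability in Andréief's identity -/
theorem andr_integrable {n : ℕ} {w : ℂ → ℂ}
    (hw : ∀ j l : Fin n, Integrable fun z : ℂ => z ^ (j:ℕ) * (starRingEnd ℂ z) ^ (l:ℕ) * w z) :
    Integrable fun z : Fin n → ℂ => (∏ i, w (z i)) * ((‖(Matrix.vandermonde z).det‖ ^ 2 : ℝ) : ℂ) := by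
  have hdet : ∀ z : Fin n → ℂ, (Matrix.vandermonde z).det =
      ∑ σ : Equiv.Perm (Fin n), ((Equiv.Perm.sign σ : ℤ) : ℂ) * ∏ i, (z i) ^ ((σ i : Fin n) : ℕ) := by
    intro z
    rw [← Matrix.det_transpose, Matrix.det_apply']
    rfl
  have hexp : ∀ z : Fin n → ℂ, (∏ i, w (z i)) * ((‖(Matrix.vandermonde z).det‖ ^ 2 : ℝ) : ℂ) =
      ∑ σ : Equiv.Perm (Fin n), ∑ τ : Equiv.Perm (Fin n), (((Equiv.Perm.sign σ : ℤ) : ℂ) *
        ((Equiv.Perm.sign τ : ℤ) : ℂ)) * ∏ i, ((z i) ^ ((σ i : Fin n) : ℕ) *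
          (starRingEnd ℂ (z i)) ^ ((τ i : Fin n) : ℕ) * w (z i)) := by
    intro z
    have h1 : ((‖(Matrix.vandermonde z).det‖ ^ 2 : ℝ) : ℂ) =
        (Matrix.vandermonde z).det * starRingEnd ℂ (Matrix.vandermonde z).det :=
      (conj_mul_self_eq _).symm
    have h2 : starRingEnd ℂ (Matrix.vandermonde z).det =
        ∑ τ : Equiv.Perm (Fin n), ((Equiv.Perm.sign τ : ℤ) : ℂ) *
          ∏ i, (starRingEnd ℂ (z i)) ^ ((τ i : Fin n) : ℕ) := by
      rw [hdet, map_sum]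
      refine Finset.sum_congr rfl fun τ _ => ?_
      rw [map_mul, map_prod]
      simp
    rw [h1, h2, hdet, Finset.sum_mul_sum, Finset.mul_sum]
    refine Finset.sum_congr rfl fun σ _ => ?_
    rw [Finset.mul_sum]
    refine Finset.sum_congr rfl fun τ _ => ?_
    rw [Finset.prod_mul_distrib, Finset.prod_mul_distrib]
    ring
  have hi : ∀ σ τ : Equiv.Perm (Fin n), Integrable fun z : Fin n → ℂ =>
      (((Equiv.Perm.sign σ : ℤ) : ℂ) *
        ((Equiv.Perm.sign τ : ℤ) : ℂ)) * ∏ i, ((z i) ^ ((σ i : Fin n) : ℕ) *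
          (starRingEnd ℂ (z i)) ^ ((τ i : Fin n) : ℕ) * w (z i)) := by
    intro σ τ
    refine Integrable.const_mul ?_ _
    exact Integrable.fintype_prod (f := fun i (x : ℂ) => x ^ ((σ i : Fin n) : ℕ) *
          (starRingEnd ℂ x) ^ ((τ i : Fin n) : ℕ) * w x) fun i => hw (σ i) (τ i)
  simp_rw [hexp]
  exact integrable_finsetSum _ fun σ _ => integrable_finsetSum _ fun τ _ => hi σ τ

theorem andr_gr_int {n : ℕ} (hn : 1 ≤ n) {W : ℂ → ℂ} (hW : Integrable W mu) :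
    Integrable fun z : Fin n → ℂ => (∏ i, W (z i)) * ((dnr (n + 1) z : ℝ) : ℂ) := by
  have hi : ∀ j l : Fin n, Integrable fun z : ℂ => z ^ (j:ℕ) * (starRingEnd ℂ z) ^ (l:ℕ) *
      wp n W z := by
    intro j l
    simp_rw [wp_eq hn W]
    exact ((integrable_mu_iff _).1 (mono_int hn hW j l)).const_mul _
  have h1 := andr_integrable hi
  have h2 : (fun z : Fin n → ℂ => (∏ i, W (z i)) * ((dnr (n + 1) z : ℝ) : ℂ)) = fun z =>
      (∏ i, wp n W (z i)) * ((‖(Matrix.vandermonde z).det‖ ^ 2 : ℝ) : ℂ) := by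
    funext z
    unfold dnr wp
    rw [Finset.prod_mul_distrib]
    push_cast
    ring
  rw [h2]
  exact h1

/-- transfer of integrability of complex class functions -/
theorem cls_integrable {n : ℕ} {Ω₁ Ω₂ : Type*} [MeasurableSpace Ω₁] [MeasurableSpace Ω₂]
    {μ₁ : Measure Ω₁} {μ₂ : Measure Ω₂} {T₁ : Ω₁ → Mt n n} {T₂ : Ω₂ → Mt n n}
    (hT₁ : Measurable T₁)
    (h : ∀ G : Mt n n → ℝ≥0∞, Measurable G → Cls G → ∫⁻ x, G (T₁ x) ∂μ₁ = ∫⁻ x, G (T₂ x) ∂μ₂)
    {F : Mt n n → ℂ} (hF : Measurable F) (hFc : Cls F)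
    (hi : Integrable (fun x => F (T₂ x)) μ₂) : Integrable (fun x => F (T₁ x)) μ₁ := by
  have hnorm := h (fun X => ‖F X‖ₑ) hF.enorm (fun X X' hX => by
    simp only
    rw [hFc X X' hX])
  refine ⟨(hF.comp hT₁).aestronglyMeasurable, ?_⟩
  have h2 := hi.2
  unfold HasFiniteIntegral at h2 ⊢
  rw [hnorm]
  exact h2

theorem FF_integrable {n : ℕ} (hn : 1 ≤ n) {a b p : Fin k → ℂ}
    (hu : ∀ i, ‖a i‖ ^ 2 + ‖b i‖ ^ 2 = 1) (hW : Integrable (Wt a b p) mu) :
    Integrable (fun x => FF n a b p (qt x)) (gg n) := by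
  obtain ⟨C, hC0, hCt, h⟩ := law_lint n
  have hdm : Measurable fun z : Fin n → ℂ => C * ENNReal.ofReal (dnr (n + 1) z) :=
    (ENNReal.measurable_ofReal.comp (continuous_dnr _).measurable).const_mul C
  have h' : ∀ G : Mt n n → ℝ≥0∞, Measurable G → Cls G → ∫⁻ x, G (qt x) ∂gg n =
      ∫⁻ z, G (dgm z) ∂((volume : Measure (Fin n → ℂ)).withDensity fun z =>
        C * ENNReal.ofReal (dnr (n + 1) z)) := by
    intro G hG hGc
    have hGd : Measurable fun z : Fin n → ℂ => G (dgm z) := hG.comp continuous_dgm.measurable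
    rw [h G hG hGc, lintegral_withDensity_eq_lintegral_mul _ hdm hGd]
    refine lintegral_congr fun z => ?_
    simp only [Pi.mul_apply]
    rw [mul_comm]
  refine cls_integrable measurable_qt h' (measurable_FF n a b p) (Cls_FF n a b p) ?_
  rw [integrable_withDensity_iff_integrable_smul' hdm
      (Eventually.of_forall fun z => ENNReal.mul_lt_top hCt.lt_top ENNReal.ofReal_lt_top)]
  refine ((andr_gr_int hn hW).const_mul (C.toReal : ℂ)).congr ?_
  filter_upwards [ae_avoid hu n] with z hz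
  rw [FF_eq p (roots_dgm z) hz, ENNReal.toReal_mul, ENNReal.toReal_ofReal (dnr_nonneg _ _),
    Complex.real_smul]
  push_cast
  ring

lemma Wt_zero (a b : Fin k → ℂ) (z : ℂ) : Wt a b 0 z = 1 := by
  unfold Wt
  simp

lemma Wt_zero_int (a b : Fin k → ℂ) : Integrable (Wt a b 0) mu := by
  have : Wt a b (0 : Fin k → ℂ) = fun _ => (1:ℂ) := by
    funext z
    exact Wt_zero a b z
  rw [this]
  exact integrable_const _

lemma FF_zero (n : ℕ) (a b : Fin k → ℂ) (X : Mt n n) : FF n a b 0 X = 1 := by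
  unfold FF
  simp

/-- the expectation is a ratio of Gram determinants -/
theorem law_ratio {n : ℕ} (hn : 1 ≤ n) {a b p : Fin k → ℂ}
    (hu : ∀ i, ‖a i‖ ^ 2 + ‖b i‖ ^ 2 = 1) (hW : Integrable (Wt a b p) mu) :
    ∫ x, FF n a b p (qt x) ∂gg n = (Gr n (Wt a b p)).det / (Gr n (Wt a b 0)).det := by
  obtain ⟨C, -, h⟩ := law_FF n hu
  have h0 := h 0
  have hp := h p
  rw [andr_gr hn (Wt_zero_int a b)] at h0
  rw [andr_gr hn hW] at hp
  have h1 : ∫ x, FF n a b 0 (qt x) ∂gg n = 1 := by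
    simp_rw [FF_zero]
    simp
  rw [h1] at h0
  rw [hp]
  have hne : (Gr n (Wt a b 0)).det ≠ 0 := by
    intro h2
    rw [h2] at h0
    simp at h0
  rw [eq_div_iff hne]
  calc _ = (Gr n (Wt a b p)).det * (C * (n.factorial * (Real.pi : ℂ) ^ n * (Gr n (Wt a b 0)).det)) := by
        ring
    _ = _ := by rw [← h0, mul_one]

end

end Pool.Agent.H972.FH
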