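import Mathlib

/-!
Definitions for the multi-point Fisher–Hartwig asymptotics of the spherical ensemble
(problem MP_8d6f76_pr). Only Mathlib is imported here.
-/

set_option autoImplicit false

open MeasureTheory

namespace Pool.Agent.H972.FHS

noncomputable section

/-- The half chordal distance `d` on the extended plane `ℂ ∪ {∞}` (the one point compactification
of `ℂ`): `d(p, q) = |p - q| / √((1 + |p|²) (1 + |q|²))` and `d(p, ∞) = d(∞, p) = 1 / √(1 + |p|²)`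
for `p, q ∈ ℂ`, and `d(∞, ∞) = 0`. -/
def chd : OnePoint ℂ → OnePoint ℂ → ℝ
  | .some p, .some q => ‖p - q‖ / √((1 + ‖p‖ ^ 2) * (1 + ‖q‖ ^ 2))
  | .some p, .infty => 1 / √(1 + ‖p‖ ^ 2)
  | .infty, .some q => 1 / √(1 + ‖q‖ ^ 2)
  | .infty, .infty => 0

/-- The standard complex Gaussian law on `ℂ`: the density is `exp (-|w|²) / π` with respect to
Lebesgue measure. -/
def stdC : Measure ℂ :=
  (volume : Measure ℂ).withDensity fun w => ENNReal.ofReal (Real.exp (-‖w‖ ^ 2) / Real.pi)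

/-- The law of an `n × n` matrix with independent standard complex Gaussian entries. -/
def ginibre (n : ℕ) : Measure (Fin n → Fin n → ℂ) :=
  Measure.pi fun _ => Measure.pi fun _ => stdC

/-- The law of the pair `(A, B)` of independent matrices, each with law `ginibre n`. -/
def pairLaw (n : ℕ) : Measure ((Fin n → Fin n → ℂ) × (Fin n → Fin n → ℂ)) :=
  (ginibre n).prod (ginibre n)

/-- The eigenvalues of `A B⁻¹`, with multiplicities, for `x = (A, B)`. -/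
def eigs {n : ℕ} (x : (Fin n → Fin n → ℂ) × (Fin n → Fin n → ℂ)) : Multiset ℂ :=
  (Matrix.of x.1 * (Matrix.of x.2)⁻¹).charpoly.roots

/-- The linear statistic `L_n(g_p) = ∑ₖ log d(Zₖ, p)`, the sum over the eigenvalues `Zₖ` of
`A B⁻¹`. -/
def linStat {n : ℕ} (p : OnePoint ℂ) (x : (Fin n → Fin n → ℂ) × (Fin n → Fin n → ℂ)) : ℝ :=
  ((eigs x).map fun z : ℂ => Real.log (chd (z : OnePoint ℂ) p)).sum

/-- The Barnes `G`-function, by its Weierstrass product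
`G(1 + z) = (2π)^(z/2) exp(-(z + (1 + γ) z²) / 2) ∏_{m ≥ 1} (1 + z/m)^m exp(z² / (2m) - z)`,
with `γ` the Euler–Mascheroni constant. -/
def barnesG (w : ℂ) : ℂ :=
  (2 * (Real.pi : ℂ)) ^ ((w - 1) / 2) *
    Complex.exp (-((w - 1) + (1 + (Real.eulerMascheroniConstant : ℂ)) * (w - 1) ^ 2) / 2) *
    ∏' m : ℕ, ((1 + (w - 1) / ((m : ℂ) + 1)) ^ (m + 1) *
      Complex.exp ((w - 1) ^ 2 / (2 * ((m : ℂ) + 1)) - (w - 1)))

/-- The main term
`e^(-(s/2) n - s/4 - s²/8) (2π)^(s/4) n^((1/8) ∑ γᵢ²) / (∏_{i<j} d(pᵢ, pⱼ)^(γᵢ γⱼ / 2) ∏ᵢ G(1 + γᵢ/2))`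
with `s = ∑ γᵢ`. -/
def mainTerm {k : ℕ} (p : Fin k → OnePoint ℂ) (γ : Fin k → ℂ) (n : ℕ) : ℂ :=
  Complex.exp (-((∑ i, γ i) / 2) * n - (∑ i, γ i) / 4 - (∑ i, γ i) ^ 2 / 8) *
    (2 * (Real.pi : ℂ)) ^ ((∑ i, γ i) / 4) *
    ((n : ℂ) ^ (1 / 8 * ∑ i, γ i ^ 2) /
      ∏ i, ∏ j ∈ Finset.Ioi i, (chd (p i) (p j) : ℂ) ^ (γ i * γ j / 2)) *
    (1 / ∏ i, barnesG (1 + γ i / 2))

end

end Pool.Agent.H972.FHS
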