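import Pool.Agent.H972.FH.Fin
import Pool.Agent.H972.FH.Stm

set_option autoImplicit false

open MeasureTheory Filter Topology Set Complex
open scoped ENNReal

namespace Pool.Agent.H972.FHS

open Pool.Agent.R923.SE Pool.Agent.K7.H95.GMC Pool.Agent.K7.H96.GMC Pool.Agent.H972.FH

noncomputable section

variable {k : ℕ}

lemma pairLaw_eq (n : ℕ) : pairLaw n = gg n := rfl

/-- spinor coordinates -/
def sa : OnePoint ℂ → ℂ
  | .infty => 0
  | .some p => ((1 / √(1 + ‖p‖ ^ 2) : ℝ) : ℂ)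

def sb : OnePoint ℂ → ℂ
  | .infty => 1
  | .some p => -p * ((1 / √(1 + ‖p‖ ^ 2) : ℝ) : ℂ)

lemma sqrt_ne (z : ℂ) : √(1 + ‖z‖ ^ 2) ≠ 0 := (Real.sqrt_pos.2 (by positivity)).ne'

lemma nrm_s (z : ℂ) : ‖((1 / √(1 + ‖z‖ ^ 2) : ℝ) : ℂ)‖ = 1 / √(1 + ‖z‖ ^ 2) := by
  rw [Complex.norm_real, Real.norm_eq_abs, abs_of_nonneg (by positivity)]

lemma s_unit (p : OnePoint ℂ) : ‖sa p‖ ^ 2 + ‖sb p‖ ^ 2 = 1 := by
  cases p with
  | infty => simp [sa, sb]
  | coe p =>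
    change ‖((1 / √(1 + ‖p‖ ^ 2) : ℝ) : ℂ)‖ ^ 2 + ‖-p * ((1 / √(1 + ‖p‖ ^ 2) : ℝ) : ℂ)‖ ^ 2 = 1
    rw [norm_mul, nrm_s, norm_neg, mul_pow, div_pow, Real.sq_sqrt (by positivity)]
    field_simp

lemma chd_dc (p : OnePoint ℂ) (z : ℂ) : dc (sa p) (sb p) z = chd (z : OnePoint ℂ) p ^ 2 := by
  cases p with
  | infty =>
    change dc 0 1 z = (1 / √(1 + ‖z‖ ^ 2)) ^ 2
    unfold dc
    rw [div_pow, Real.sq_sqrt (by positivity)]
    simp
  | coe p =>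
    change dc ((1 / √(1 + ‖p‖ ^ 2) : ℝ) : ℂ) (-p * ((1 / √(1 + ‖p‖ ^ 2) : ℝ) : ℂ)) z =
      (‖z - p‖ / √((1 + ‖z‖ ^ 2) * (1 + ‖p‖ ^ 2))) ^ 2
    unfold dc
    rw [show ((1 / √(1 + ‖p‖ ^ 2) : ℝ) : ℂ) * z + -p * ((1 / √(1 + ‖p‖ ^ 2) : ℝ) : ℂ) =
      ((1 / √(1 + ‖p‖ ^ 2) : ℝ) : ℂ) * (z - p) by ring, norm_mul, nrm_s, mul_pow, div_pow, div_pow,
      Real.sq_sqrt (by positivity), Real.sq_sqrt (by positivity)]
    field_simp

lemma chd_det (p q : OnePoint ℂ) : ‖sa p * sb q - sa q * sb p‖ = chd p q := by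
  cases p with
  | infty =>
    cases q with
    | infty =>
      change ‖(0:ℂ) * 1 - 0 * 1‖ = 0
      simp
    | coe q =>
      change ‖0 * (-q * ((1 / √(1 + ‖q‖ ^ 2) : ℝ) : ℂ)) - ((1 / √(1 + ‖q‖ ^ 2) : ℝ) : ℂ) * 1‖ =
        1 / √(1 + ‖q‖ ^ 2)
      rw [zero_mul, zero_sub, norm_neg, mul_one, nrm_s]
  | coe p =>
    cases q with
    | infty =>
      change ‖((1 / √(1 + ‖p‖ ^ 2) : ℝ) : ℂ) * 1 - 0 * (-p * ((1 / √(1 + ‖p‖ ^ 2) : ℝ) : ℂ))‖ =
        1 / √(1 + ‖p‖ ^ 2)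
      rw [zero_mul, sub_zero, mul_one, nrm_s]
    | coe q =>
      change ‖((1 / √(1 + ‖p‖ ^ 2) : ℝ) : ℂ) * (-q * ((1 / √(1 + ‖q‖ ^ 2) : ℝ) : ℂ)) -
        ((1 / √(1 + ‖q‖ ^ 2) : ℝ) : ℂ) * (-p * ((1 / √(1 + ‖p‖ ^ 2) : ℝ) : ℂ))‖ =
        ‖p - q‖ / √((1 + ‖p‖ ^ 2) * (1 + ‖q‖ ^ 2))
      rw [show ((1 / √(1 + ‖p‖ ^ 2) : ℝ) : ℂ) * (-q * ((1 / √(1 + ‖q‖ ^ 2) : ℝ) : ℂ)) -
        ((1 / √(1 + ‖q‖ ^ 2) : ℝ) : ℂ) * (-p * ((1 / √(1 + ‖p‖ ^ 2) : ℝ) : ℂ)) =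
        ((1 / √(1 + ‖p‖ ^ 2) : ℝ) : ℂ) * ((1 / √(1 + ‖q‖ ^ 2) : ℝ) : ℂ) * (p - q) by ring,
        norm_mul, norm_mul, nrm_s, nrm_s, Real.sqrt_mul (by positivity)]
      field_simp

lemma chd_symm (p q : OnePoint ℂ) : chd p q = chd q p := by
  rw [← chd_det, ← chd_det q p, norm_sub_rev]

lemma chd_nonneg (p q : OnePoint ℂ) : 0 ≤ chd p q := by
  rw [← chd_det]
  exact norm_nonneg _

lemma chd_pos {p q : OnePoint ℂ} (h : p ≠ q) : 0 < chd p q := by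
  cases p with
  | infty =>
    cases q with
    | infty => exact absurd rfl h
    | coe q =>
      change 0 < 1 / √(1 + ‖q‖ ^ 2)
      positivity
  | coe p =>
    cases q with
    | infty =>
      change 0 < 1 / √(1 + ‖p‖ ^ 2)
      positivity
    | coe q =>
      change 0 < ‖p - q‖ / √((1 + ‖p‖ ^ 2) * (1 + ‖q‖ ^ 2))
      have h1 : p - q ≠ 0 := by
        intro h2
        exact h (by rw [sub_eq_zero.1 h2])
      have h2 : 0 < ‖p - q‖ := norm_pos_iff.2 h1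
      positivity

lemma exists_lb {ι : Type*} [Finite ι] (f : ι → ℝ) (hf : ∀ i, 0 < f i) :
    ∃ η : ℝ, 0 < η ∧ η ≤ 1 ∧ ∀ i, η ≤ f i := by
  rcases isEmpty_or_nonempty ι with h | h
  · exact ⟨1, one_pos, le_refl _, fun i => (IsEmpty.false i).elim⟩
  · obtain ⟨i0, h0⟩ := Finite.exists_min f
    exact ⟨min (f i0) 1, lt_min (hf i0) one_pos, min_le_right _ _,
      fun i => (min_le_left _ _).trans (h0 i)⟩

lemma exists_cfg {p : Fin k → OnePoint ℂ} (hp : Function.Injective p) :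
    ∃ σ : ℝ, 0 < σ ∧ σ ≤ 1 ∧ Cfg σ (fun i => sa (p i)) (fun i => sb (p i)) := by
  obtain ⟨σ, h1, h2, h3⟩ := exists_lb (fun x : {x : Fin k × Fin k // x.1 ≠ x.2} =>
    chd (p x.1.1) (p x.1.2)) (fun x => chd_pos (hp.ne x.2))
  refine ⟨σ, h1, h2, ⟨fun i => s_unit _, fun i l hil => ?_⟩⟩
  rw [chd_det]
  exact h3 ⟨(i, l), hil⟩

lemma exists_adm {γ : Fin k → ℂ} (hγ : ∀ i, -2 < (γ i).re) :
    ∃ A η : ℝ, 0 ≤ A ∧ 0 < η ∧ η ≤ 1 ∧ Adm A η (fun i => γ i / 2) := by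
  obtain ⟨η, h1, h2, h3⟩ := exists_lb (fun i => (γ i / 2).re + 1) (fun i => by
    have := hγ i
    rw [show γ i / 2 = γ i / ((2:ℝ):ℂ) by norm_num, Complex.div_ofReal_re]
    linarith)
  refine ⟨∑ i, ‖γ i / 2‖, η, Finset.sum_nonneg fun i _ => norm_nonneg _, h1, h2,
    ⟨fun i => ?_, fun i => ?_⟩⟩
  · exact Finset.single_le_sum (f := fun i => ‖γ i / 2‖) (fun i _ => norm_nonneg _)
      (Finset.mem_univ i)
  · have := h3 i
    linarith

lemma barnes_GB (x : ℂ) : barnesG (1 + x) = GB x := by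
  unfold barnesG GB kp0 eg
  rw [add_sub_cancel_left]
  congr 1
  have h2 : (2 * (Real.pi : ℂ)) ≠ 0 := by
    have := Real.pi_ne_zero
    simp [this]
  rw [Complex.cpow_def_of_ne_zero h2, ← Complex.exp_add]
  congr 1
  rw [show (2 * (Real.pi : ℂ)) = ((2 * Real.pi : ℝ) : ℂ) by push_cast; rfl,
    ← Complex.ofReal_log (by positivity)]
  push_cast
  ring

/-- the sum over ordered pairs -/
lemma sum_pairs (f : Fin k → Fin k → ℂ) (hf : ∀ i j, f i j = f j i) :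
    ∑ i, ∑ l ∈ Finset.univ.erase i, f i l = 2 * ∑ i, ∑ j ∈ Finset.Ioi i, f i j := by
  have h := Finset.sum_sum_Ioi_add_eq_sum_sum_off_diag f
  rw [Finset.mul_sum]
  have e : ∀ i : Fin k, Finset.univ.erase i = ({i}ᶜ : Finset (Fin k)) := by
    intro i
    ext j
    simp
  calc ∑ i, ∑ l ∈ Finset.univ.erase i, f i l = ∑ i, ∑ j ∈ ({i}ᶜ : Finset (Fin k)), f j i := by
        refine Finset.sum_congr rfl fun i _ => ?_
        rw [e]
        exact Finset.sum_congr rfl fun j _ => hf i j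
    _ = ∑ i, ∑ j ∈ Finset.Ioi i, (f j i + f i j) := h.symm
    _ = ∑ i, 2 * ∑ j ∈ Finset.Ioi i, f i j := by
        refine Finset.sum_congr rfl fun i _ => ?_
        rw [Finset.mul_sum]
        refine Finset.sum_congr rfl fun j _ => ?_
        rw [hf j i]
        ring

lemma main_eq {p : Fin k → OnePoint ℂ} (hp : Function.Injective p) {γ : Fin k → ℂ}
    (hγ : ∀ i, -2 < (γ i).re) {n : ℕ} (hn : 1 ≤ n) :
    mainTerm p γ n = cexp (Lf n (fun i => sa (p i)) (fun i => sb (p i)) (fun i => γ i / 2) 1) := by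
  have hre : ∀ i, -1 < (γ i / 2).re := by
    intro i
    have := hγ i
    rw [show γ i / 2 = γ i / ((2:ℝ):ℂ) by norm_num, Complex.div_ofReal_re]
    linarith
  have hb : ∏ i, barnesG (1 + γ i / 2) = cexp (∑ i, Lam (γ i / 2)) := by
    rw [Complex.exp_sum]
    refine Finset.prod_congr rfl fun i _ => ?_
    rw [barnes_GB, exp_Lam (hre i)]
  have hd : ∏ i, ∏ j ∈ Finset.Ioi i, (chd (p i) (p j) : ℂ) ^ (γ i * γ j / 2) =
      cexp (∑ i, ∑ j ∈ Finset.Ioi i, ((Real.log (chd (p i) (p j)) : ℝ) : ℂ) *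
        (γ i * γ j / 2)) := by
    rw [Complex.exp_sum]
    refine Finset.prod_congr rfl fun i _ => ?_
    rw [Complex.exp_sum]
    refine Finset.prod_congr rfl fun j hj => ?_
    have hij : i ≠ j := (Finset.mem_Ioi.1 hj).ne
    have hpos := chd_pos (hp.ne hij)
    rw [Complex.cpow_def_of_ne_zero (by exact_mod_cast hpos.ne'), ← Complex.ofReal_log hpos.le]
  have hpi : (2 * (Real.pi : ℂ)) ^ ((∑ i, γ i) / 4) =
      cexp (((Real.log (2 * Real.pi) : ℝ) : ℂ) * ((∑ i, γ i) / 4)) := by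
    have h2 : (2 * (Real.pi : ℂ)) ≠ 0 := by
      have := Real.pi_ne_zero
      simp [this]
    rw [Complex.cpow_def_of_ne_zero h2, show (2 * (Real.pi : ℂ)) = ((2 * Real.pi : ℝ) : ℂ) by
      push_cast; rfl, ← Complex.ofReal_log (by positivity)]
  have hnn : (n : ℂ) ^ (1 / 8 * ∑ i, γ i ^ 2) =
      cexp (((Real.log n : ℝ) : ℂ) * (1 / 8 * ∑ i, γ i ^ 2)) := by
    have h2 : (n : ℂ) ≠ 0 := by exact_mod_cast (by omega : n ≠ 0)
    rw [Complex.cpow_def_of_ne_zero h2]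
    simp [Complex.natCast_log]
  unfold mainTerm
  have hinv : 1 / cexp (∑ i, Lam (γ i / 2)) = cexp (-∑ i, Lam (γ i / 2)) := by
    rw [Complex.exp_neg, one_div]
  rw [hb, hd, hpi, hnn, hinv, ← Complex.exp_add, ← Complex.exp_sub, ← Complex.exp_add,
    ← Complex.exp_add]
  congr 1
  unfold Lf
  have hs : ∑ i, γ i / 2 = (∑ i, γ i) / 2 := by rw [Finset.sum_div]
  have hs2 : ∑ i, (γ i / 2) ^ 2 = (∑ i, γ i ^ 2) / 4 := by
    rw [Finset.sum_div]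
    refine Finset.sum_congr rfl fun i _ => ?_
    ring
  have hLam : ∑ i, Lam (((1:ℝ):ℂ) * (γ i / 2)) = ∑ i, Lam (γ i / 2) := by
    refine Finset.sum_congr rfl fun i _ => ?_
    simp
  have hdl : ∀ i l, dl (fun i => sa (p i)) (fun i => sb (p i)) i l =
      2 * ((Real.log (chd (p i) (p l)) : ℝ) : ℂ) := by
    intro i l
    unfold dl
    rw [chd_det, Real.log_pow, chd_symm]
    push_cast
    rfl
  have hpairs := sum_pairs (fun i l => γ i / 2 * (γ l / 2) *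
    dl (fun i => sa (p i)) (fun i => sb (p i)) i l) (fun i j => by
      rw [hdl, hdl, chd_symm]
      ring)
  have hpp : ∑ i, ∑ j ∈ Finset.Ioi i, (γ i / 2 * (γ j / 2) *
      dl (fun i => sa (p i)) (fun i => sb (p i)) i j) = ∑ i, ∑ j ∈ Finset.Ioi i,
        ((Real.log (chd (p i) (p j)) : ℝ) : ℂ) * (γ i * γ j / 2) := by
    refine Finset.sum_congr rfl fun i _ => Finset.sum_congr rfl fun j _ => ?_
    rw [hdl]
    ring
  rw [hs, hs2, hLam, hpairs, hpp]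
  unfold kp0
  push_cast
  ring

lemma exp_lin_eq {n : ℕ} {p : Fin k → OnePoint ℂ} (γ : Fin k → ℂ) {x : Mt n n × Mt n n}
    (hx : ∀ i, (sa (p i) • Matrix.of (qt x) + sb (p i) •
      (1 : Matrix (Fin n) (Fin n) ℂ)).det ≠ 0) :
    cexp (∑ i, γ i * (linStat (p i) x : ℂ)) =
      FF n (fun i => sa (p i)) (fun i => sb (p i)) (fun i => γ i / 2) (qt x) := by
  obtain ⟨v, hv⟩ := exists_roots (qt x)
  have hne : ∀ i j, sa (p i) * v j + sb (p i) ≠ 0 := by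
    intro i j
    have h := hx i
    rw [det_lin hv] at h
    exact Finset.prod_ne_zero_iff.1 h j (Finset.mem_univ j)
  rw [FF_eq (fun i => γ i / 2) hv hne]
  unfold Wt
  rw [← Complex.exp_sum]
  congr 1
  rw [Finset.sum_comm]
  refine Finset.sum_congr rfl fun i _ => ?_
  have h1 : linStat (p i) x = ∑ j, Real.log (chd ((v j : ℂ) : OnePoint ℂ) (p i)) := by
    unfold linStat eigs
    rw [← of_qt, hv, Multiset.map_map]
    rfl
  rw [h1, ← Finset.mul_sum]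
  push_cast
  rw [Finset.mul_sum, Finset.mul_sum]
  refine Finset.sum_congr rfl fun j _ => ?_
  rw [chd_dc, Real.log_pow]
  push_cast
  ring

lemma ae_exp_lin {n : ℕ} (p : Fin k → OnePoint ℂ) (γ : Fin k → ℂ) :
    (fun x => cexp (∑ i, γ i * (linStat (p i) x : ℂ))) =ᵐ[pairLaw n]
      fun x => FF n (fun i => sa (p i)) (fun i => sb (p i)) (fun i => γ i / 2) (qt x) := by
  obtain ⟨C, h1, -⟩ := law_FF n (a := fun i => sa (p i)) (b := fun i => sb (p i))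
    (fun i => s_unit _)
  rw [pairLaw_eq]
  filter_upwards [h1] with x hx
  exact exp_lin_eq γ hx

theorem fh_int (n : ℕ) {p : Fin k → OnePoint ℂ} (hp : Function.Injective p) {γ : Fin k → ℂ}
    (hγ : ∀ i, -2 < (γ i).re) :
    Integrable (fun x => cexp (∑ i, γ i * (linStat (p i) x : ℂ))) (pairLaw n) := by
  rcases Nat.eq_zero_or_pos n with hn | hn
  · subst hn
    rw [pairLaw_eq]
    have : (fun x : Mt 0 0 × Mt 0 0 => cexp (∑ i, γ i * (linStat (p i) x : ℂ))) =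
        fun _ => cexp (∑ i, γ i * (linStat (p i) (default : Mt 0 0 × Mt 0 0) : ℂ)) := by
      funext x
      rw [Subsingleton.elim x default]
    rw [this]
    exact integrable_const _
  · obtain ⟨σ, h1, h2, h3⟩ := exists_cfg hp
    obtain ⟨A, η, -, h4, h5, h6⟩ := exists_adm hγ
    have h7 := FF_integrable hn h3.unit (Wt_int h1 h2 h4 h5 h3 h6).1
    exact h7.congr (ae_exp_lin p γ).symm

theorem fh_tendsto {p : Fin k → OnePoint ℂ} (hp : Function.Injective p) {γ : Fin k → ℂ}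
    (hγ : ∀ i, -2 < (γ i).re) :
    Tendsto (fun n : ℕ => (∫ x, cexp (∑ i, γ i * (linStat (p i) x : ℂ)) ∂pairLaw n) /
      mainTerm p γ n) atTop (𝓝 1) := by
  obtain ⟨σ, h1, h2, h3⟩ := exists_cfg hp
  obtain ⟨A, η, hA, h4, h5, h6⟩ := exists_adm hγ
  rw [Metric.tendsto_atTop]
  intro ε hε
  set ξ := min 1 (ε / 3) with hξ
  have hξ0 : 0 < ξ := lt_min one_pos (by positivity)
  obtain ⟨n0, hn0⟩ := fh_det k A η σ hA h4 h5 h1 h2 hξ0
  refine ⟨max n0 1, fun n hn => ?_⟩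
  have hna : n0 ≤ n := (le_max_left _ _).trans hn
  have hnb : 1 ≤ n := (le_max_right _ _).trans hn
  obtain ⟨h7, h8⟩ := hn0 n _ _ _ hna h3 h6
  rw [integral_congr_ae (ae_exp_lin p γ), pairLaw_eq,
    law_ratio hnb h3.unit (Wt_int h1 h2 h4 h5 h3 h6).1, main_eq hp hγ hnb, dist_eq_norm]
  have h9 : ∀ D E L : ℂ, D / E / cexp L = D * cexp (-L) / E := by
    intro D E L
    rw [Complex.exp_neg]
    ring
  rw [h9]
  refine h8.trans_lt ?_
  have h10 : Real.exp ξ ≤ Real.exp 1 := Real.exp_le_exp.2 (min_le_left _ _)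
  have h11 : Real.exp 1 < 3 := Real.exp_one_lt_d9.trans (by norm_num)
  have h12 : ξ ≤ ε / 3 := min_le_right _ _
  calc ξ * Real.exp ξ < ξ * 3 := by
        refine mul_lt_mul_of_pos_left (h10.trans_lt h11) hξ0
    _ ≤ ε := by linarith

end

end Pool.Agent.H972.FHS
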