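import Pool.Agent.H972.FH.LocC

set_option autoImplicit false

open MeasureTheory Complex Filter Topology Set
open scoped ENNReal

namespace Pool.Agent.H972.FH

noncomputable section

/-- the squared norm on the conjugate side -/
def nrc (n : ℕ) (W : ℂ → ℂ) (g : Fin n → ℂ) : ℝ :=
  ∫ z, ‖Pe g (starRingEnd ℂ z)‖ ^ 2 * (om n z * ‖W z‖) ∂mu

/-- the squared norm -/
def nrl (n : ℕ) (W : ℂ → ℂ) (f : Fin n → ℂ) : ℝ := ∫ z, ‖Pe f z‖ ^ 2 * (om n z * ‖W z‖) ∂mu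

lemma continuous_om' (n : ℕ) : Continuous fun ζ : ℂ => om n ζ := by
  unfold om
  exact (Continuous.inv₀ (by fun_prop) fun ζ => by positivity)

lemma continuous_Pe {n : ℕ} (f : Fin n → ℂ) : Continuous (Pe f) := by
  unfold Pe; fun_prop

lemma pow_om_le {n : ℕ} (hn : 1 ≤ n) {j : ℕ} (hj : j ≤ n - 1) (z : ℂ) :
    ‖z‖ ^ (2 * j) * om n z ≤ 1 := by
  unfold om
  rw [← div_eq_mul_inv, div_le_one (by positivity), pow_mul]
  calc (‖z‖ ^ 2) ^ j ≤ (1 + ‖z‖ ^ 2) ^ j := by gcongr; linarith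
    _ ≤ (1 + ‖z‖ ^ 2) ^ (n - 1) := pow_le_pow_right₀ (by nlinarith [sq_nonneg ‖z‖]) hj

lemma Pe_om_bound {n : ℕ} (hn : 1 ≤ n) (f : Fin n → ℂ) (z : ℂ) :
    ‖Pe f z‖ * √(om n z) ≤ ∑ j, ‖f j‖ := by
  unfold Pe
  have h1 : ‖∑ j, f j * z ^ (j:ℕ)‖ ≤ ∑ j, ‖f j‖ * ‖z‖ ^ (j:ℕ) := by
    refine (norm_sum_le _ _).trans (le_of_eq ?_)
    simp
  calc ‖∑ j, f j * z ^ (j:ℕ)‖ * √(om n z) ≤ (∑ j, ‖f j‖ * ‖z‖ ^ (j:ℕ)) * √(om n z) := by gcongr
    _ = ∑ j, ‖f j‖ * (‖z‖ ^ (j:ℕ) * √(om n z)) := by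
        rw [Finset.sum_mul]; refine Finset.sum_congr rfl fun j _ => by ring
    _ ≤ ∑ j, ‖f j‖ * 1 := by
        refine Finset.sum_le_sum fun j _ => ?_
        gcongr
        have h2 := pow_om_le hn (j := j) (by omega) z
        have h3 : (‖z‖ ^ (j:ℕ) * √(om n z)) ^ 2 ≤ 1 := by
          rw [mul_pow, Real.sq_sqrt (om_pos n z).le, ← pow_mul, mul_comm (j:ℕ) 2]
          exact h2
        exact (sq_le_one_iff₀ (by positivity)).1 h3
    _ = _ := by simp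

section

variable {n : ℕ} {W : ℂ → ℂ}

lemma int_sq (hn : 1 ≤ n) (hW : Integrable W mu) (f : Fin n → ℂ) :
    Integrable (fun z => ‖Pe f z‖ ^ 2 * (om n z * ‖W z‖)) mu := by
  have e : ∀ z, ‖Pe f z‖ ^ 2 * (om n z * ‖W z‖) = (‖Pe f z‖ * √(om n z)) ^ 2 * ‖W z‖ := by
    intro z
    rw [mul_pow, Real.sq_sqrt (om_pos n z).le]; ring
  simp_rw [e]
  refine Integrable.bdd_mul (c := (∑ j, ‖f j‖) ^ 2) hW.norm
    ((((continuous_Pe f).norm.mul (Real.continuous_sqrt.comp (continuous_om' n))).pow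
      2).aestronglyMeasurable) (Eventually.of_forall fun z => ?_)
  rw [Real.norm_eq_abs, abs_of_nonneg (by positivity)]
  have := Pe_om_bound hn f z
  gcongr

lemma int_sqc (hn : 1 ≤ n) (hW : Integrable W mu) (f : Fin n → ℂ) :
    Integrable (fun z => ‖Pe f (starRingEnd ℂ z)‖ ^ 2 * (om n z * ‖W z‖)) mu := by
  have hoc : ∀ z, om n (starRingEnd ℂ z) = om n z := by intro z; unfold om; rw [RCLike.norm_conj]
  have e : ∀ z, ‖Pe f (starRingEnd ℂ z)‖ ^ 2 * (om n z * ‖W z‖) =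
      (‖Pe f (starRingEnd ℂ z)‖ * √(om n (starRingEnd ℂ z))) ^ 2 * ‖W z‖ := by
    intro z
    rw [mul_pow, Real.sq_sqrt (om_pos n _).le, hoc]; ring
  simp_rw [e]
  refine Integrable.bdd_mul (c := (∑ j, ‖f j‖) ^ 2) hW.norm
    ((((((continuous_Pe f).norm.mul (Real.continuous_sqrt.comp (continuous_om' n))).pow
      2)).comp continuous_conj).aestronglyMeasurable) (Eventually.of_forall fun z => ?_)
  rw [Real.norm_eq_abs, abs_of_nonneg (by positivity)]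
  have := Pe_om_bound hn f (starRingEnd ℂ z)
  gcongr

lemma Bf_int (hn : 1 ≤ n) (hW : Integrable W mu) (f g : Fin n → ℂ) :
    Integrable (fun z => Pe f z * Pe g (starRingEnd ℂ z) * (om n z : ℂ) * W z) mu ∧
    ‖Bf n W f g‖ ≤ √(nrl n W f) * √(nrc n W g) := by
  have hw0 : ∀ z, 0 ≤ om n z * ‖W z‖ := fun z => by have := om_pos n z; positivity
  have hwm : AEStronglyMeasurable (fun z => om n z * ‖W z‖) mu :=
    (continuous_om' n).aestronglyMeasurable.mul hW.aestronglyMeasurable.norm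
  have h := csw (μ := mu) (F := Pe f) (G := fun z => Pe g (starRingEnd ℂ z)) hw0 hwm
    (continuous_Pe f).aestronglyMeasurable
    ((continuous_Pe g).comp continuous_conj).aestronglyMeasurable (int_sq hn hW f)
    (int_sqc hn hW g)
  have e : ∀ z, ‖Pe f z * Pe g (starRingEnd ℂ z) * (om n z : ℂ) * W z‖ =
      ‖Pe f z‖ * ‖Pe g (starRingEnd ℂ z)‖ * (om n z * ‖W z‖) := by
    intro z
    rw [norm_mul, norm_mul, norm_mul, Complex.norm_real, Real.norm_eq_abs, abs_of_pos (om_pos n z)]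
    ring
  have hm : AEStronglyMeasurable
      (fun z => Pe f z * Pe g (starRingEnd ℂ z) * (om n z : ℂ) * W z) mu :=
    (((continuous_Pe f).mul ((continuous_Pe g).comp continuous_conj)).mul
      (Complex.continuous_ofReal.comp (continuous_om' n))).aestronglyMeasurable.mul
      hW.aestronglyMeasurable
  constructor
  · refine (integrable_norm_iff hm).1 ?_
    exact h.1.congr (Eventually.of_forall fun z => (e z).symm)
  · unfold Bf
    refine (norm_integral_le_integral_norm _).trans ?_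
    simp_rw [e]
    exact h.2

lemma mono_int (hn : 1 ≤ n) (hW : Integrable W mu) (j l : Fin n) :
    Integrable (fun z => z ^ (j:ℕ) * (starRingEnd ℂ z) ^ (l:ℕ) * (om n z : ℂ) * W z) mu := by
  have h := (Bf_int hn hW (Pi.single j 1) (Pi.single l 1)).1
  have e : ∀ (i : Fin n) (z : ℂ), Pe (Pi.single i 1) z = z ^ (i:ℕ) := by
    intro i z
    unfold Pe
    rw [Finset.sum_eq_single i]
    · simp
    · intro b _ hb; simp [Pi.single_eq_of_ne hb]
    · simp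
  simp_rw [e] at h
  exact h

/-- the bilinear form in terms of the Gram matrix -/
lemma Bf_eq (hn : 1 ≤ n) (hW : Integrable W mu) (f g : Fin n → ℂ) :
    Bf n W f g = f ⬝ᵥ (Gr n W).mulVec g := by
  unfold Bf Pe
  have e : ∀ z : ℂ, (∑ j, f j * z ^ (j:ℕ)) * (∑ l, g l * (starRingEnd ℂ z) ^ (l:ℕ)) *
      (om n z : ℂ) * W z = ∑ j, ∑ l, f j * g l *
        (z ^ (j:ℕ) * (starRingEnd ℂ z) ^ (l:ℕ) * (om n z : ℂ) * W z) := by
    intro z
    rw [Finset.sum_mul_sum, Finset.sum_mul, Finset.sum_mul]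
    refine Finset.sum_congr rfl fun j _ => ?_
    rw [Finset.sum_mul, Finset.sum_mul]
    refine Finset.sum_congr rfl fun l _ => ?_
    ring
  simp_rw [e]
  rw [integral_finsetSum]
  · simp only [dotProduct, Matrix.mulVec, Finset.mul_sum]
    refine Finset.sum_congr rfl fun j _ => ?_
    rw [integral_finsetSum]
    · refine Finset.sum_congr rfl fun l _ => ?_
      rw [integral_const_mul]
      simp only [Gr, Matrix.of_apply]
      ring
    · intro l _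
      exact (mono_int hn hW j l).const_mul _
  · intro j _
    exact integrable_finsetSum _ fun l _ => (mono_int hn hW j l).const_mul _

lemma Pe_zero_of {f : Fin n → ℂ} (h : ∀ᵐ z ∂mu, Pe f z = 0) : f = 0 := by
  have h1 : ∀ᵐ z : ℂ, Pe f z = 0 := volume_ac h
  have h2 : Pe f = fun _ => 0 := by
    refine Continuous.ae_eq_iff_eq (volume : Measure ℂ) (continuous_Pe f) continuous_const |>.1 ?_
    exact h1
  set P : Polynomial ℂ := ∑ j : Fin n, Polynomial.C (f j) * Polynomial.X ^ (j:ℕ) with hP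
  have h3 : P = 0 := by
    refine Polynomial.funext fun z => ?_
    rw [hP, Polynomial.eval_finsetSum]
    have := congrFun h2 z
    unfold Pe at this
    simpa using this
  funext j
  have h4 : P.coeff (j:ℕ) = f j := by
    rw [hP, Polynomial.finsetSum_coeff, Finset.sum_eq_single j]
    · simp
    · intro b _ hb
      rw [Polynomial.coeff_C_mul, Polynomial.coeff_X_pow]
      have : (j:ℕ) ≠ b := fun h => hb (Fin.ext h.symm)
      simp [this]
    · simp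
  rw [← h4, h3]
  simp

lemma nrl_nonneg (f : Fin n → ℂ) : 0 ≤ nrl n W f :=
  integral_nonneg fun z => by have := om_pos n z; positivity

lemma nrc_nonneg (f : Fin n → ℂ) : 0 ≤ nrc n W f :=
  integral_nonneg fun z => by have := om_pos n z; positivity

lemma nrl_pos (hn : 1 ≤ n) (hW : Integrable W mu) (hW0 : ∀ z, W z ≠ 0) {f : Fin n → ℂ}
    (hf : f ≠ 0) : 0 < nrl n W f := by
  refine lt_of_le_of_ne (nrl_nonneg f) fun h => hf ?_
  have h1 : (fun z => ‖Pe f z‖ ^ 2 * (om n z * ‖W z‖)) =ᵐ[mu] 0 :=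
    (integral_eq_zero_iff_of_nonneg (fun z => by have := om_pos n z; positivity)
      (int_sq hn hW f)).1 h.symm
  refine Pe_zero_of ?_
  filter_upwards [h1] with z hz
  have h2 := om_pos n z
  have h3 := norm_pos_iff.2 (hW0 z)
  have h4 : ‖Pe f z‖ ^ 2 = 0 := by
    rcases mul_eq_zero.1 hz with h5 | h5
    · exact h5
    · exact absurd h5 (by positivity)
  simpa using h4

/-- from pointwise bounds to norm bounds -/
lemma infsup_aux {q : ℂ → ℝ} {w Y2 : ℂ → ℝ} {NN Z β : ℝ} (hq : ∀ x, 0 ≤ q x) (hw : ∀ x, 0 ≤ w x)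
    (hY : ∀ x, 0 ≤ Y2 x) (hβ : 0 ≤ β)
    (hint : Integrable (fun x => q x ^ 2 * w x) mu) (hYint : Integrable (fun x => w x * Y2 x) mu)
    (hN : NN = ∫ x, q x ^ 2 * w x ∂mu) (hZ : 0 ≤ Z) (hZ2 : ∫ x, w x * Y2 x ∂mu ≤ Z ^ 2)
    (hpt : ∀ x, q x ≤ β * √(Y2 x)) : √NN ≤ β * Z := by
  have h1 : NN ≤ (β * Z) ^ 2 := by
    rw [hN]
    calc ∫ x, q x ^ 2 * w x ∂mu ≤ ∫ x, β ^ 2 * (w x * Y2 x) ∂mu := by
          refine integral_mono hint (hYint.const_mul _) fun x => ?_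
          have h2 : q x ^ 2 ≤ β ^ 2 * Y2 x := by
            calc q x ^ 2 ≤ (β * √(Y2 x)) ^ 2 := by
                  have := hq x
                  have := hpt x
                  gcongr
              _ = _ := by rw [mul_pow, Real.sq_sqrt (hY x)]
          have := hw x
          calc q x ^ 2 * w x ≤ (β ^ 2 * Y2 x) * w x := by gcongr
            _ = _ := by ring
      _ = β ^ 2 * ∫ x, w x * Y2 x ∂mu := integral_const_mul _ _
      _ ≤ β ^ 2 * Z ^ 2 := by gcongr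
      _ = _ := by ring
  exact (Real.sqrt_le_sqrt h1).trans (by rw [Real.sqrt_sq (by positivity)])

/-- the abstract kernel comparison -/
theorem absker (hn : 1 ≤ n) (hW : Integrable W mu) (hW0 : ∀ z, W z ≠ 0)
    {Y2 Y2' : ℂ → ℝ} {ρ : ℂ → ℂ} {τ Γ Z : ℝ} (hτ : 0 ≤ τ) (hΓ : 0 ≤ Γ) (hZ : 0 ≤ Z)
    (hY : ∀ x, 0 ≤ Y2 x) (hY' : ∀ x, 0 ≤ Y2' x)
    (hYi : Integrable (fun x => ‖W x‖ * Y2 x) mu) (hYi' : Integrable (fun x => ‖W x‖ * Y2' x) mu)
    (hZ1 : ∫ x, ‖W x‖ * Y2 x ∂mu ≤ Z ^ 2) (hZ2 : ∫ x, ‖W x‖ * Y2' x ∂mu ≤ Z ^ 2)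
    (hsm : Z * τ ≤ 1 / 2)
    (hk : ∀ x, ∃ kx : Fin n → ℂ,
      (∀ f, ‖Bf n W f kx - Pe f x‖ * √(om n x) ≤ τ * √(Y2 x) * √(nrl n W f)) ∧
      √(nrc n W kx) * √(om n x) ≤ Γ * √(Y2 x) ∧
      ‖Pe kx (starRingEnd ℂ x) * ((om n x : ℂ) * W x) - ρ x‖ ≤ τ * (‖W x‖ * Y2 x))
    (hk' : ∀ x, ∃ kx : Fin n → ℂ,
      (∀ g, ‖Bf n W kx g - Pe g (starRingEnd ℂ x)‖ * √(om n x) ≤
        τ * √(Y2' x) * √(nrc n W g)) ∧
      √(nrl n W kx) * √(om n x) ≤ Γ * √(Y2' x)) :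
    (Gr n W).det ≠ 0 ∧ ∀ x, ‖Pe ((Gr n W)⁻¹.mulVec fun j => x ^ (j:ℕ)) (starRingEnd ℂ x) *
      ((om n x : ℂ) * W x) - ρ x‖ ≤
        (2 * Z * Γ * (Γ + τ) + 1) * τ * (‖W x‖ * (Y2 x + Y2' x)) := by
  -- inf-sup on the left
  have IS : ∀ (f : Fin n → ℂ) (σ : ℝ), 0 ≤ σ → (∀ g, ‖Bf n W f g‖ ≤ σ * √(nrc n W g)) →
      √(nrl n W f) ≤ 2 * Z * σ * Γ := by
    intro f σ hσ h
    have hpt : ∀ x, ‖Pe f x‖ * √(om n x) ≤ (σ * Γ + τ * √(nrl n W f)) * √(Y2 x) := by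
      intro x
      obtain ⟨kx, h1, h2, -⟩ := hk x
      have h3 := h1 f
      have h4 := h kx
      have h5 : ‖Pe f x‖ ≤ ‖Bf n W f kx‖ + ‖Bf n W f kx - Pe f x‖ := by
        have := norm_sub_le (Bf n W f kx) (Bf n W f kx - Pe f x)
        simpa using this
      calc ‖Pe f x‖ * √(om n x) ≤ (‖Bf n W f kx‖ + ‖Bf n W f kx - Pe f x‖) * √(om n x) := by gcongr
        _ = ‖Bf n W f kx‖ * √(om n x) + ‖Bf n W f kx - Pe f x‖ * √(om n x) := by ring
        _ ≤ (σ * √(nrc n W kx)) * √(om n x) + τ * √(Y2 x) * √(nrl n W f) := by gcongr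
        _ = σ * (√(nrc n W kx) * √(om n x)) + τ * √(Y2 x) * √(nrl n W f) := by ring
        _ ≤ σ * (Γ * √(Y2 x)) + τ * √(Y2 x) * √(nrl n W f) := by gcongr
        _ = _ := by ring
    have hrw : ∀ x, (‖Pe f x‖ * √(om n x)) ^ 2 * ‖W x‖ = ‖Pe f x‖ ^ 2 * (om n x * ‖W x‖) := by
      intro x
      rw [mul_pow, Real.sq_sqrt (om_pos n x).le]; ring
    have h6 := infsup_aux (q := fun x => ‖Pe f x‖ * √(om n x)) (w := fun x => ‖W x‖) (Y2 := Y2)
      (NN := nrl n W f) (fun x => by positivity) (fun x => norm_nonneg _) hY (by positivity)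
      (by simp_rw [hrw]; exact int_sq hn hW f) hYi (by simp_rw [hrw]; rfl) hZ hZ1 hpt
    have h7 : (σ * Γ + τ * √(nrl n W f)) * Z ≤ σ * Γ * Z + 1 / 2 * √(nrl n W f) := by
      have : Z * τ * √(nrl n W f) ≤ 1 / 2 * √(nrl n W f) := by gcongr
      nlinarith
    nlinarith
  have IS' : ∀ (g : Fin n → ℂ) (σ : ℝ), 0 ≤ σ → (∀ f, ‖Bf n W f g‖ ≤ σ * √(nrl n W f)) →
      √(nrc n W g) ≤ 2 * Z * σ * Γ := by
    intro g σ hσ h
    have hpt : ∀ x, ‖Pe g (starRingEnd ℂ x)‖ * √(om n x) ≤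
        (σ * Γ + τ * √(nrc n W g)) * √(Y2' x) := by
      intro x
      obtain ⟨kx, h1, h2⟩ := hk' x
      have h3 := h1 g
      have h4 := h kx
      have h5 : ‖Pe g (starRingEnd ℂ x)‖ ≤ ‖Bf n W kx g‖ +
          ‖Bf n W kx g - Pe g (starRingEnd ℂ x)‖ := by
        have := norm_sub_le (Bf n W kx g) (Bf n W kx g - Pe g (starRingEnd ℂ x))
        simpa using this
      calc ‖Pe g (starRingEnd ℂ x)‖ * √(om n x) ≤
          (‖Bf n W kx g‖ + ‖Bf n W kx g - Pe g (starRingEnd ℂ x)‖) * √(om n x) := by gcongr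
        _ = ‖Bf n W kx g‖ * √(om n x) +
          ‖Bf n W kx g - Pe g (starRingEnd ℂ x)‖ * √(om n x) := by ring
        _ ≤ (σ * √(nrl n W kx)) * √(om n x) + τ * √(Y2' x) * √(nrc n W g) := by gcongr
        _ = σ * (√(nrl n W kx) * √(om n x)) + τ * √(Y2' x) * √(nrc n W g) := by ring
        _ ≤ σ * (Γ * √(Y2' x)) + τ * √(Y2' x) * √(nrc n W g) := by gcongr
        _ = _ := by ring
    have hrw : ∀ x, (‖Pe g (starRingEnd ℂ x)‖ * √(om n x)) ^ 2 * ‖W x‖ =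
        ‖Pe g (starRingEnd ℂ x)‖ ^ 2 * (om n x * ‖W x‖) := by
      intro x
      rw [mul_pow, Real.sq_sqrt (om_pos n x).le]; ring
    have h6 := infsup_aux (q := fun x => ‖Pe g (starRingEnd ℂ x)‖ * √(om n x))
      (w := fun x => ‖W x‖) (Y2 := Y2')
      (NN := nrc n W g) (fun x => by positivity) (fun x => norm_nonneg _) hY' (by positivity)
      (by simp_rw [hrw]; exact int_sqc hn hW g) hYi' (by simp_rw [hrw]; rfl) hZ hZ2 hpt
    have h7 : (σ * Γ + τ * √(nrc n W g)) * Z ≤ σ * Γ * Z + 1 / 2 * √(nrc n W g) := by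
      have : Z * τ * √(nrc n W g) ≤ 1 / 2 * √(nrc n W g) := by gcongr
      nlinarith
    nlinarith
  -- nonsingular
  have hdet : (Gr n W).det ≠ 0 := by
    intro hd
    obtain ⟨f, hf0, hf⟩ := Matrix.exists_vecMul_eq_zero_iff.2 hd
    have h1 : ∀ g, ‖Bf n W f g‖ ≤ 0 * √(nrc n W g) := by
      intro g
      rw [Bf_eq hn hW, Matrix.dotProduct_mulVec, hf, zero_dotProduct, norm_zero, zero_mul]
    have h2 := IS f 0 le_rfl h1
    have h3 := nrl_pos hn hW hW0 hf0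
    have h4 := Real.sqrt_pos.2 h3
    simp at h2
    linarith
  refine ⟨hdet, fun x => ?_⟩
  set Kx : Fin n → ℂ := (Gr n W)⁻¹.mulVec fun j => x ^ (j:ℕ) with hKx
  have hKB : ∀ f, Bf n W f Kx = Pe f x := by
    intro f
    rw [Bf_eq hn hW, hKx, Matrix.mulVec_mulVec, Matrix.mul_nonsing_inv _ (isUnit_iff_ne_zero.2 hdet),
      Matrix.one_mulVec]
    rfl
  obtain ⟨kx, h1, h2, h3⟩ := hk x
  obtain ⟨kx', h1', h2'⟩ := hk' x
  set e : Fin n → ℂ := kx - Kx with he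
  have hBs : ∀ f, Bf n W f e = Bf n W f kx - Pe f x := by
    intro f
    rw [← hKB f, Bf_eq hn hW, Bf_eq hn hW, Bf_eq hn hW, he, Matrix.mulVec_sub, dotProduct_sub]
  have hom : 0 < √(om n x) := Real.sqrt_pos.2 (om_pos n x)
  have h4 : √(nrc n W e) ≤ 2 * Z * (τ * √(Y2 x) / √(om n x)) * Γ := by
    refine IS' e _ (by positivity) fun f => ?_
    rw [hBs f, div_mul_eq_mul_div, le_div_iff₀ hom]
    exact h1 f
  have h5 : √(nrc n W e) * √(om n x) ≤ 2 * Z * Γ * τ * √(Y2 x) := by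
    calc √(nrc n W e) * √(om n x) ≤ (2 * Z * (τ * √(Y2 x) / √(om n x)) * Γ) * √(om n x) := by gcongr
      _ = _ := by field_simp
  have h6 : ‖Pe e (starRingEnd ℂ x)‖ * √(om n x) ≤ (Γ + τ) * √(Y2' x) * √(nrc n W e) := by
    have h7 : ‖Pe e (starRingEnd ℂ x)‖ ≤ ‖Bf n W kx' e‖ +
        ‖Bf n W kx' e - Pe e (starRingEnd ℂ x)‖ := by
      have := norm_sub_le (Bf n W kx' e) (Bf n W kx' e - Pe e (starRingEnd ℂ x))
      simpa using this
    calc ‖Pe e (starRingEnd ℂ x)‖ * √(om n x) ≤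
        (‖Bf n W kx' e‖ + ‖Bf n W kx' e - Pe e (starRingEnd ℂ x)‖) * √(om n x) := by gcongr
      _ = ‖Bf n W kx' e‖ * √(om n x) +
        ‖Bf n W kx' e - Pe e (starRingEnd ℂ x)‖ * √(om n x) := by ring
      _ ≤ (√(nrl n W kx') * √(nrc n W e)) * √(om n x) + τ * √(Y2' x) * √(nrc n W e) := by
          have := (Bf_int hn hW kx' e).2
          have := h1' e
          gcongr
      _ = (√(nrl n W kx') * √(om n x)) * √(nrc n W e) + τ * √(Y2' x) * √(nrc n W e) := by ring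
      _ ≤ (Γ * √(Y2' x)) * √(nrc n W e) + τ * √(Y2' x) * √(nrc n W e) := by gcongr
      _ = _ := by ring
  have h8 : ‖Pe e (starRingEnd ℂ x)‖ * om n x ≤
      (Γ + τ) * (2 * Z * Γ * τ) * (√(Y2 x) * √(Y2' x)) := by
    calc ‖Pe e (starRingEnd ℂ x)‖ * om n x =
        (‖Pe e (starRingEnd ℂ x)‖ * √(om n x)) * √(om n x) := by
          rw [mul_assoc, Real.mul_self_sqrt (om_pos n x).le]
      _ ≤ ((Γ + τ) * √(Y2' x) * √(nrc n W e)) * √(om n x) := by gcongr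
      _ = (Γ + τ) * √(Y2' x) * (√(nrc n W e) * √(om n x)) := by ring
      _ ≤ (Γ + τ) * √(Y2' x) * (2 * Z * Γ * τ * √(Y2 x)) := by gcongr
      _ = _ := by ring
  have h9 : √(Y2 x) * √(Y2' x) ≤ Y2 x + Y2' x := by
    have a1 := Real.sq_sqrt (hY x)
    have a2 := Real.sq_sqrt (hY' x)
    nlinarith [sq_nonneg (√(Y2 x) - √(Y2' x)), hY x, hY' x]
  have hPs : Pe Kx (starRingEnd ℂ x) = Pe kx (starRingEnd ℂ x) - Pe e (starRingEnd ℂ x) := by
    unfold Pe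
    rw [← Finset.sum_sub_distrib]
    refine Finset.sum_congr rfl fun j _ => ?_
    rw [he]
    simp only [Pi.sub_apply]
    ring
  have h10 : Pe Kx (starRingEnd ℂ x) * ((om n x : ℂ) * W x) - ρ x =
      (Pe kx (starRingEnd ℂ x) * ((om n x : ℂ) * W x) - ρ x) -
        Pe e (starRingEnd ℂ x) * ((om n x : ℂ) * W x) := by
    rw [hPs]; ring
  rw [h10]
  have hY2 := hY x
  have hY2' := hY' x
  calc _ ≤ ‖Pe kx (starRingEnd ℂ x) * ((om n x : ℂ) * W x) - ρ x‖ +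
        ‖Pe e (starRingEnd ℂ x) * ((om n x : ℂ) * W x)‖ := norm_sub_le _ _
    _ = ‖Pe kx (starRingEnd ℂ x) * ((om n x : ℂ) * W x) - ρ x‖ +
        (‖Pe e (starRingEnd ℂ x)‖ * om n x) * ‖W x‖ := by
        congr 1
        rw [norm_mul, norm_mul, Complex.norm_real, Real.norm_eq_abs, abs_of_pos (om_pos n x)]
        ring
    _ ≤ τ * (‖W x‖ * Y2 x) + ((Γ + τ) * (2 * Z * Γ * τ) * (Y2 x + Y2' x)) * ‖W x‖ := by
        refine add_le_add h3 ?_
        refine mul_le_mul_of_nonneg_right (h8.trans ?_) (norm_nonneg _)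
        gcongr
    _ ≤ τ * (‖W x‖ * (Y2 x + Y2' x)) + ((Γ + τ) * (2 * Z * Γ * τ) * (Y2 x + Y2' x)) * ‖W x‖ := by
        gcongr
        linarith
    _ = _ := by ring

end

end

end Pool.Agent.H972.FH
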