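import Pool.Agent.H972.FH.Orth

set_option autoImplicit false

open MeasureTheory Complex Filter Topology Set
open scoped ENNReal

namespace Pool.Agent.H972.FH

noncomputable section

lemma norm_gseq (z : ℂ) (n : ℕ) (hn : 0 < n) : ‖Complex.GammaSeq z n‖ =
    (n:ℝ) ^ z.re * n.factorial / ∏ j ∈ Finset.range (n + 1), ‖z + j‖ := by
  unfold Complex.GammaSeq
  rw [norm_div, norm_mul, norm_prod, Complex.norm_natCast,
    Complex.norm_natCast_cpow_of_pos hn]

theorem gam_upper {z : ℂ} (hz : 0 < z.re) : ‖Complex.Gamma z‖ ≤ Real.Gamma z.re := by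
  have h1 : Tendsto (fun n => ‖Complex.GammaSeq z n‖) atTop (𝓝 ‖Complex.Gamma z‖) :=
    (Complex.GammaSeq_tendsto_Gamma z).norm
  have h2 := Real.GammaSeq_tendsto_Gamma z.re
  refine le_of_tendsto_of_tendsto h1 h2 ?_
  filter_upwards [eventually_gt_atTop 0] with n hn
  rw [norm_gseq z n hn]
  unfold Real.GammaSeq
  have hp : 0 < ∏ j ∈ Finset.range (n + 1), (z.re + j) :=
    Finset.prod_pos fun j _ => by positivity
  have h3 : ∏ j ∈ Finset.range (n + 1), (z.re + j) ≤ ∏ j ∈ Finset.range (n + 1), ‖z + j‖ := by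
    refine Finset.prod_le_prod (fun j _ => by positivity) fun j _ => ?_
    have := Complex.re_le_norm (z + j)
    simpa using this
  gcongr

theorem gam_lower (η Y : ℝ) (hη : 0 < η) : ∃ c : ℝ, 0 < c ∧ ∀ z : ℂ, η ≤ z.re → |z.im| ≤ Y →
    c * Real.Gamma z.re ≤ ‖Complex.Gamma z‖ := by
  set S : ℝ := ∑' j : ℕ, 1 / ((j:ℝ) + 1) ^ 2 with hS
  have hsum : Summable fun j : ℕ => 1 / ((j:ℝ) + 1) ^ 2 := by
    have h := (summable_nat_add_iff 1).2 (Real.summable_one_div_nat_pow.2 (one_lt_two))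
    simpa using h
  set K : ℝ := Y ^ 2 / 2 * (1 / η ^ 2 + S) with hK
  refine ⟨Real.exp (-K), Real.exp_pos _, fun z hz hy => ?_⟩
  have hx : 0 < z.re := hη.trans_le hz
  have h1 : Tendsto (fun n => ‖Complex.GammaSeq z n‖) atTop (𝓝 ‖Complex.Gamma z‖) :=
    (Complex.GammaSeq_tendsto_Gamma z).norm
  have h2 := (Real.GammaSeq_tendsto_Gamma z.re).const_mul (Real.exp (-K))
  refine le_of_tendsto_of_tendsto h2 h1 ?_
  filter_upwards [eventually_gt_atTop 0] with n hn
  rw [norm_gseq z n hn]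
  unfold Real.GammaSeq
  have hstep : ∀ j : ℕ, ‖z + j‖ ≤ (z.re + j) * Real.exp (Y ^ 2 / 2 * (1 / (z.re + j) ^ 2)) := by
    intro j
    have hp : 0 < z.re + j := by positivity
    refine le_of_sq_le_sq ?_ (by positivity)
    rw [mul_pow, ← Real.exp_nat_mul, ← Complex.normSq_eq_norm_sq, Complex.normSq_apply]
    simp only [Complex.add_re, Complex.natCast_re, Complex.add_im, Complex.natCast_im, add_zero]
    have e1 : ((2:ℕ):ℝ) * (Y ^ 2 / 2 * (1 / (z.re + j) ^ 2)) = Y ^ 2 / (z.re + j) ^ 2 := by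
      push_cast; ring
    rw [e1]
    have e2 := Real.add_one_le_exp (Y ^ 2 / (z.re + j) ^ 2)
    have e3 : z.im * z.im ≤ Y ^ 2 := by
      have := sq_le_sq' (by linarith [neg_abs_le z.im]) ((le_abs_self z.im).trans hy)
      nlinarith
    calc (z.re + j) * (z.re + j) + z.im * z.im ≤ (z.re + j) ^ 2 * (Y ^ 2 / (z.re + j) ^ 2 + 1) := by
          have e4 : (z.re + j) ^ 2 * (Y ^ 2 / (z.re + j) ^ 2 + 1) = Y ^ 2 + (z.re + j) ^ 2 := by
            field_simp
          rw [e4]
          nlinarith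
      _ ≤ _ := by gcongr
  have hprod : ∏ j ∈ Finset.range (n + 1), ‖z + j‖ ≤
      (∏ j ∈ Finset.range (n + 1), (z.re + j)) * Real.exp K := by
    calc ∏ j ∈ Finset.range (n + 1), ‖z + j‖ ≤ ∏ j ∈ Finset.range (n + 1),
          ((z.re + j) * Real.exp (Y ^ 2 / 2 * (1 / (z.re + j) ^ 2))) :=
          Finset.prod_le_prod (fun j _ => norm_nonneg _) fun j _ => hstep j
      _ = (∏ j ∈ Finset.range (n + 1), (z.re + j)) *
          Real.exp (∑ j ∈ Finset.range (n + 1), Y ^ 2 / 2 * (1 / (z.re + j) ^ 2)) := by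
          rw [Finset.prod_mul_distrib, Real.exp_sum]
      _ ≤ _ := by
          have hp : 0 ≤ ∏ j ∈ Finset.range (n + 1), (z.re + j) :=
            Finset.prod_nonneg fun j _ => by positivity
          gcongr
          rw [← Finset.mul_sum, hK]
          gcongr
          rw [Finset.sum_range_succ', add_comm]
          have h4 : 1 / (z.re + ((0:ℕ):ℝ)) ^ 2 ≤ 1 / η ^ 2 := by
            rw [Nat.cast_zero, add_zero]; gcongr
          have h5 : ∑ k ∈ Finset.range n, 1 / (z.re + ((k + 1 : ℕ):ℝ)) ^ 2 ≤ S := by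
            calc ∑ k ∈ Finset.range n, 1 / (z.re + ((k + 1 : ℕ):ℝ)) ^ 2 ≤
                ∑ k ∈ Finset.range n, 1 / ((k:ℝ) + 1) ^ 2 := by
                  refine Finset.sum_le_sum fun k _ => ?_
                  push_cast
                  have : (k:ℝ) + 1 ≤ z.re + (k + 1) := by linarith
                  gcongr
              _ ≤ S := hsum.sum_le_tsum _ fun _ _ => by positivity
          linarith
  have hp : 0 < ∏ j ∈ Finset.range (n + 1), (z.re + j) :=
    Finset.prod_pos fun j _ => by positivity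
  have hp2 : 0 < ∏ j ∈ Finset.range (n + 1), ‖z + j‖ := by
    refine Finset.prod_pos fun j _ => norm_pos_iff.2 fun h => ?_
    have h3 := congrArg Complex.re h
    simp at h3
    have : 0 < z.re + j := by positivity
    linarith
  rw [Real.exp_neg, ← div_eq_inv_mul, div_div, div_le_div_iff_of_pos_left (by positivity)
    (by positivity) hp2]
  exact hprod

/-- the Beta density, complex parameters -/
def bt (u v : ℂ) (y : ℝ) : ℂ :=
  cexp ((u - 1) * (Real.log y : ℝ) + (v - 1) * (Real.log (1 - y) : ℝ))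

lemma bt_eq {u v : ℂ} {y : ℝ} (h0 : 0 < y) (h1 : y < 1) :
    bt u v y = (y:ℂ) ^ (u - 1) * (1 - (y:ℂ)) ^ (v - 1) := by
  unfold bt
  have hy : (y:ℂ) ≠ 0 := by exact_mod_cast h0.ne'
  have hy1 : (1 - (y:ℂ)) ≠ 0 := by
    have : ((1 - y : ℝ) : ℂ) ≠ 0 := by exact_mod_cast (by linarith : (1 - y) ≠ 0)
    simpa using this
  rw [Complex.exp_add, Complex.cpow_def_of_ne_zero hy, Complex.cpow_def_of_ne_zero hy1,
    Complex.ofReal_log h0.le, Complex.ofReal_log (by linarith : (0:ℝ) ≤ 1 - y)]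
  push_cast
  rw [mul_comm (u - 1), mul_comm (v - 1)]

lemma norm_bt (u v : ℂ) (y : ℝ) :
    ‖bt u v y‖ = Real.exp ((u.re - 1) * Real.log y + (v.re - 1) * Real.log (1 - y)) := by
  unfold bt
  rw [Complex.norm_exp]
  congr 1
  simp

lemma norm_bt_re (u v : ℂ) (y : ℝ) : ‖bt u v y‖ = ‖bt (u.re : ℂ) (v.re : ℂ) y‖ := by
  rw [norm_bt, norm_bt]; simp

lemma measurable_bt (u v : ℂ) : Measurable (bt u v) := by
  unfold bt
  refine Complex.measurable_exp.comp ?_
  exact ((Complex.measurable_ofReal.comp Real.measurable_log).const_mul _).add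
    ((Complex.measurable_ofReal.comp (Real.measurable_log.comp (by fun_prop))).const_mul _)

theorem int_bt {u v : ℂ} (hu : 0 < u.re) (hv : 0 < v.re) : IntegrableOn (bt u v) (Ioo 0 1) ∧
    ∫ y in Ioo 0 1, bt u v y = Complex.Gamma u * Complex.Gamma v / Complex.Gamma (u + v) := by
  have h1 := Complex.betaIntegral_convergent hu hv
  have h2 := Complex.Gamma_mul_Gamma_eq_betaIntegral hu hv
  have h3 : Complex.Gamma (u + v) ≠ 0 := Complex.Gamma_ne_zero_of_re_pos (by simp; linarith)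
  rw [intervalIntegrable_iff_integrableOn_Ioo_of_le zero_le_one] at h1
  constructor
  · refine h1.congr_fun (fun y hy => ?_) measurableSet_Ioo
    exact (bt_eq hy.1 hy.2).symm
  · rw [eq_div_iff h3, h2, mul_comm]
    congr 1
    unfold Complex.betaIntegral
    rw [intervalIntegral.integral_of_le zero_le_one, integral_Ioc_eq_integral_Ioo]
    exact setIntegral_congr_fun measurableSet_Ioo fun y hy => bt_eq hy.1 hy.2

theorem int_norm_bt {u v : ℂ} (hu : 0 < u.re) (hv : 0 < v.re) :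
    ∫ y in Ioo 0 1, ‖bt u v y‖ =
      Real.Gamma u.re * Real.Gamma v.re / Real.Gamma (u.re + v.re) := by
  have h := (int_bt (u := (u.re : ℂ)) (v := (v.re : ℂ)) (by simpa using hu) (by simpa using hv)).2
  have e : ∫ y in Ioo 0 1, ((‖bt u v y‖ : ℝ) : ℂ) = ∫ y in Ioo 0 1, bt (u.re : ℂ) (v.re : ℂ) y := by
    refine integral_congr_ae (Eventually.of_forall fun y => ?_)
    simp only
    rw [norm_bt]
    unfold bt
    push_cast
    rfl
  rw [integral_complex_ofReal] at e
  rw [h, Complex.Gamma_ofReal, Complex.Gamma_ofReal, ← Complex.ofReal_add,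
    Complex.Gamma_ofReal] at e
  exact_mod_cast e

theorem beta_ratio (η Y : ℝ) (hη : 0 < η) : ∃ K : ℝ, 0 < K ∧ ∀ u v : ℂ, η ≤ u.re → η ≤ v.re →
    |u.im| ≤ Y → |v.im| ≤ Y → ∫ y in Ioo 0 1, ‖bt u v y‖ ≤ K * ‖∫ y in Ioo 0 1, bt u v y‖ := by
  obtain ⟨c, hc, h⟩ := gam_lower η Y hη
  refine ⟨(c * c)⁻¹, by positivity, fun u v hu hv hu' hv' => ?_⟩
  have hu0 : 0 < u.re := hη.trans_le hu
  have hv0 : 0 < v.re := hη.trans_le hv
  rw [int_norm_bt hu0 hv0, (int_bt hu0 hv0).2, norm_div, norm_mul]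
  have h1 := h u hu hu'
  have h2 := h v hv hv'
  have h3 : ‖Complex.Gamma (u + v)‖ ≤ Real.Gamma (u.re + v.re) := by
    have := gam_upper (z := u + v) (by simp; linarith)
    simpa using this
  have h4 : 0 < ‖Complex.Gamma (u + v)‖ :=
    norm_pos_iff.2 (Complex.Gamma_ne_zero_of_re_pos (by simp; linarith))
  have g1 := Real.Gamma_pos_of_pos hu0
  have g2 := Real.Gamma_pos_of_pos hv0
  calc Real.Gamma u.re * Real.Gamma v.re / Real.Gamma (u.re + v.re)
      = (c * c)⁻¹ * (((c * Real.Gamma u.re) * (c * Real.Gamma v.re)) /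
        Real.Gamma (u.re + v.re)) := by field_simp
    _ ≤ (c * c)⁻¹ * ((‖Complex.Gamma u‖ * ‖Complex.Gamma v‖) / ‖Complex.Gamma (u + v)‖) := by
        gcongr

end

end Pool.Agent.H972.FH
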