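import Pool.Graph.R_pool_sql_team_seeded_35f281b4.K7.H96.GMC.IndA

set_option autoImplicit false

open MeasureTheory Filter Topology Set
open scoped ENNReal

namespace Pool.Agent.H972.FH

open Pool.Agent.R923.SE Pool.Agent.K7.H95.GMC Pool.Agent.K7.H96.GMC

noncomputable section

/-- class functions -/
def Cls {n : ℕ} {α : Type*} (G : Mt n n → α) : Prop :=
  ∀ X X' : Mt n n, (Matrix.of X).charpoly = (Matrix.of X').charpoly → G X = G X'

/-- diagonal matrices -/
def dgm {n : ℕ} (z : Fin n → ℂ) : Mt n n := fun i j => if i = j then z i else 0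

lemma of_dgm {n : ℕ} (z : Fin n → ℂ) : Matrix.of (dgm z) = Matrix.diagonal z := by
  ext i j
  simp [dgm, Matrix.diagonal_apply]

lemma charpoly_dgm {n : ℕ} (z : Fin n → ℂ) :
    (Matrix.of (dgm z)).charpoly = ∏ i, (Polynomial.X - Polynomial.C (z i)) := by
  rw [of_dgm, Matrix.charpoly_diagonal]

lemma continuous_dgm {n : ℕ} : Continuous (dgm : (Fin n → ℂ) → Mt n n) := by
  refine continuous_pi fun i => continuous_pi fun j => ?_
  unfold dgm
  by_cases h : i = j
  · simp only [h, if_true]; fun_prop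
  · simp only [h, if_false]; fun_prop

/-- the eigenvalue density -/
def dnr {n : ℕ} (s : ℝ) (z : Fin n → ℂ) : ℝ :=
  ‖(Matrix.vandermonde z).det‖ ^ 2 * ∏ j, (1 + ‖z j‖ ^ 2) ^ (-s)

lemma dnr_nonneg {n : ℕ} (s : ℝ) (z : Fin n → ℂ) : 0 ≤ dnr s z := by
  unfold dnr
  have : 0 ≤ ∏ j, (1 + ‖z j‖ ^ 2) ^ (-s) := Finset.prod_nonneg fun j _ => by positivity
  positivity

lemma continuous_dnr {n : ℕ} (s : ℝ) : Continuous (dnr (n := n) s) := by
  unfold dnr
  refine Continuous.mul ?_ ?_
  · refine (Continuous.norm ?_).pow 2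
    refine Continuous.matrix_det ?_
    refine continuous_pi fun i => continuous_pi fun j => ?_
    simp only [Matrix.vandermonde_apply]
    fun_prop
  · refine continuous_finsetProd _ fun j _ => ?_
    refine Continuous.rpow_const (by fun_prop) fun z => Or.inl ?_
    positivity

lemma dnr_cons {n : ℕ} (s : ℝ) (z : ℂ) (w : Fin n → ℂ) :
    dnr s (Fin.cons z w : Fin (n + 1) → ℂ) =
      (1 + ‖z‖ ^ 2) ^ (-s) * (‖∏ i, (z - w i)‖ ^ 2 * dnr s w) := by
  unfold dnr
  rw [Matrix.det_vandermonde, Matrix.det_vandermonde, Fin.prod_univ_succ, Fin.prod_univ_succ]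
  simp only [Fin.prod_Ioi_zero, Fin.prod_Ioi_succ, Fin.cons_zero, Fin.cons_succ]
  rw [norm_mul, mul_pow]
  have h : ‖∏ j, (w j - z)‖ = ‖∏ i, (z - w i)‖ := by
    rw [norm_prod, norm_prod]
    exact Finset.prod_congr rfl fun j _ => norm_sub_rev _ _
  rw [h]
  ring

lemma eval_dgm {n : ℕ} (z : ℂ) (w : Fin n → ℂ) :
    (Matrix.of (dgm w)).charpoly.eval z = ∏ i, (z - w i) := by
  rw [charpoly_dgm, Polynomial.eval_prod]
  simp

lemma dd_unit (X : Mt 0 0) : dd (Matrix.of X) = 1 := by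
  unfold dd; simp

/-- joint density of the eigenvalues -/
theorem JD : ∀ (n : ℕ) (a : ℝ), (n : ℝ) - 1 < a → ∃ C : ℝ≥0∞, C ≠ 0 ∧ C ≠ ∞ ∧
    ∀ G : Mt n n → ℝ≥0∞, Measurable G → Cls G →
    ∫⁻ X : Mt n n, G X * ENNReal.ofReal ((dd (Matrix.of X)).re ^ (-a)) =
      C * ∫⁻ z : Fin n → ℂ, G (dgm z) * ENNReal.ofReal (dnr (a - n + 1) z) := by
  intro n
  induction n with
  | zero =>
    intro a _
    refine ⟨1, one_ne_zero, ENNReal.one_ne_top, fun G _ _ => ?_⟩
    rw [one_mul]
    have h1 : ∫⁻ X : Mt 0 0, G X * ENNReal.ofReal ((dd (Matrix.of X)).re ^ (-a)) =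
        G default := by
      have h2 : (fun X : Mt 0 0 => G X * ENNReal.ofReal ((dd (Matrix.of X)).re ^ (-a))) =
          fun _ => G default := by
        funext X
        rw [dd_unit, Subsingleton.elim X default]
        simp
      rw [h2, lintegral_const]
      have : (volume : Measure (Mt 0 0)) univ = 1 := by
        rw [volume_pi, Measure.pi_univ]; simp
      rw [this, mul_one]
    have h3 : ∫⁻ z : Fin 0 → ℂ, G (dgm z) * ENNReal.ofReal (dnr (a - (0:ℕ) + 1) z) =
        G default := by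
      have h2 : (fun z : Fin 0 → ℂ => G (dgm z) * ENNReal.ofReal (dnr (a - (0:ℕ) + 1) z)) =
          fun _ => G default := by
        funext z
        rw [Subsingleton.elim (dgm z) default]
        unfold dnr
        simp
      rw [h2, lintegral_const]
      have : (volume : Measure (Fin 0 → ℂ)) univ = 1 := by
        rw [volume_pi, Measure.pi_univ]; simp
      rw [this, mul_one]
    rw [h1, h3]
  | succ n ih =>
    intro a ha
    push_cast at ha
    have ha' : (n : ℝ) < a := by linarith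
    obtain ⟨c, hc0, hct, hdef⟩ := s_DEFL n
    obtain ⟨C, hC0, hCt, hIH⟩ := ih (a - 1) (by linarith)
    have hn : (0 : ℝ) ≤ n := Nat.cast_nonneg n
    have g1 := Real.Gamma_pos_of_pos (show 0 < a by linarith)
    have g2 := Real.Gamma_pos_of_pos (show 0 < a - n by linarith)
    refine ⟨c * ENNReal.ofReal (Real.Gamma (a - n) / Real.Gamma a) * C,
      mul_ne_zero (mul_ne_zero hc0 (by simpa using div_pos g2 g1)) hC0,
      ENNReal.mul_ne_top (ENNReal.mul_ne_top hct ENNReal.ofReal_ne_top) hCt,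
      fun G hG hGc => ?_⟩
    set H : ℂ × Mt n n → ℝ≥0∞ := fun p => G (blk p.1 0 0 p.2) with hH
    have hHm : Measurable H := by
      have h1 : Continuous fun p : ℂ × Mt n n => blk p.1 0 0 p.2 :=
        continuous_blk.comp (by fun_prop : Continuous fun p : ℂ × Mt n n =>
          (p.1, (0 : Fin n → ℂ), (0 : Fin n → ℂ), p.2))
      exact hG.comp h1.measurable
    have hGH : ∀ (z : ℂ) (X' : Mt n n) (X : Mt (n + 1) (n + 1)), (Matrix.of X).charpoly =
        (Polynomial.X - Polynomial.C z) * (Matrix.of X').charpoly → G X = H (z, X') := by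
      intro z X' X h
      refine hGc _ _ ?_
      rw [h, charpoly_tri]
    have h1 := hdef a ha' G hG hGc H hHm hGH
    have h2 : ∀ z : ℂ, ∫⁻ X' : Mt n n, H (z, X') *
        ENNReal.ofReal (‖(Matrix.of X').charpoly.eval z‖ ^ 2) *
        ENNReal.ofReal ((Matrix.det (1 + (Matrix.of X').conjTranspose * Matrix.of X')).re
          ^ (-a + 1)) = C * ∫⁻ w : Fin n → ℂ, G (dgm (Fin.cons z w : Fin (n + 1) → ℂ)) *
          ENNReal.ofReal (‖∏ i, (z - w i)‖ ^ 2 * dnr (a - n) w) := by
      intro z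
      have h3 := hIH (fun X' => H (z, X') * ENNReal.ofReal (‖(Matrix.of X').charpoly.eval z‖ ^ 2))
        ((hHm.comp (by fun_prop : Measurable fun X : Mt n n => (z, X))).mul
          (measurable_evalnorm z))
        (fun X X' h => by
          have e1 : H (z, X) = H (z, X') := by
            refine hGc _ _ ?_
            simp only
            rw [charpoly_tri, charpoly_tri, h]
          simp only
          rw [e1, h])
      have e2 : -(a - 1) = -a + 1 := by ring
      rw [e2] at h3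
      refine h3.trans ?_
      congr 1
      refine lintegral_congr fun w => ?_
      have e3 : H (z, dgm w) = G (dgm (Fin.cons z w : Fin (n + 1) → ℂ)) := by
        refine hGc _ _ ?_
        rw [charpoly_tri, charpoly_dgm, charpoly_dgm, Fin.prod_univ_succ]
        simp
      rw [e3, eval_dgm, mul_assoc, ← ENNReal.ofReal_mul (by positivity),
        show a - 1 - (n : ℝ) + 1 = a - n by ring]
    have h4 : ∫⁻ X : Mt (n + 1) (n + 1), G X * ENNReal.ofReal ((dd (Matrix.of X)).re ^ (-a)) =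
        c * ENNReal.ofReal (Real.Gamma (a - n) / Real.Gamma a) *
          ∫⁻ z : ℂ, ENNReal.ofReal ((1 + ‖z‖ ^ 2) ^ (-a + n)) *
          (C * ∫⁻ w : Fin n → ℂ, G (dgm (Fin.cons z w : Fin (n + 1) → ℂ)) *
          ENNReal.ofReal (‖∏ i, (z - w i)‖ ^ 2 * dnr (a - n) w)) := by
      refine h1.trans ?_
      congr 1
      refine lintegral_congr fun z => ?_
      rw [h2 z]
    rw [h4]
    have hF : Measurable fun z : Fin (n + 1) → ℂ => G (dgm z) *
        ENNReal.ofReal (dnr (a - (n + 1 : ℕ) + 1) z) :=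
      (hG.comp continuous_dgm.measurable).mul
        (ENNReal.measurable_ofReal.comp (continuous_dnr _).measurable)
    have hcons := (mp_cons ℂ n).lintegral_comp hF
    have h7 : ∫⁻ b : Fin (n + 1) → ℂ, G (dgm b) * ENNReal.ofReal (dnr (a - (n + 1 : ℕ) + 1) b) =
        ∫⁻ z : ℂ, ∫⁻ w : Fin n → ℂ, G (dgm (Fin.cons z w : Fin (n + 1) → ℂ)) *
        ENNReal.ofReal (dnr (a - (n + 1 : ℕ) + 1) (Fin.cons z w : Fin (n + 1) → ℂ)) := by
      rw [← hcons, Measure.volume_eq_prod]
      exact lintegral_prod _ (hF.comp (mp_cons ℂ n).measurable).aemeasurable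
    rw [h7]
    have h5 : ∀ z : ℂ, ∫⁻ w : Fin n → ℂ, G (dgm (Fin.cons z w : Fin (n + 1) → ℂ)) *
        ENNReal.ofReal (dnr (a - (n + 1 : ℕ) + 1) (Fin.cons z w : Fin (n + 1) → ℂ)) =
        ENNReal.ofReal ((1 + ‖z‖ ^ 2) ^ (-a + n)) *
        ∫⁻ w : Fin n → ℂ, G (dgm (Fin.cons z w : Fin (n + 1) → ℂ)) *
          ENNReal.ofReal (‖∏ i, (z - w i)‖ ^ 2 * dnr (a - n) w) := by
      intro z
      rw [← lintegral_const_mul' _ _ ENNReal.ofReal_ne_top]
      refine lintegral_congr fun w => ?_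
      rw [dnr_cons, show a - ((n + 1 : ℕ) : ℝ) + 1 = a - n by push_cast; ring,
        ENNReal.ofReal_mul (by positivity), show -(a - (n : ℝ)) = -a + n by ring]
      ring
    simp_rw [h5]
    have h6 : ∀ z : ℂ, ENNReal.ofReal ((1 + ‖z‖ ^ 2) ^ (-a + (n:ℝ))) *
          (C * ∫⁻ w : Fin n → ℂ, G (dgm (Fin.cons z w : Fin (n + 1) → ℂ)) *
          ENNReal.ofReal (‖∏ i, (z - w i)‖ ^ 2 * dnr (a - n) w)) =
        C * (ENNReal.ofReal ((1 + ‖z‖ ^ 2) ^ (-a + (n:ℝ))) *
          ∫⁻ w : Fin n → ℂ, G (dgm (Fin.cons z w : Fin (n + 1) → ℂ)) *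
          ENNReal.ofReal (‖∏ i, (z - w i)‖ ^ 2 * dnr (a - n) w)) := fun z => by ring
    simp_rw [h6]
    rw [lintegral_const_mul' _ _ hCt]
    ring

end

end Pool.Agent.H972.FH
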