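import Pool.Agent.H972.FH.Main2

set_option autoImplicit false

open MeasureTheory Complex Filter Topology Set
open scoped ENNReal

namespace Pool.Agent.H972.FH

noncomputable section

variable {k : ℕ}

/-- derivative of a determinant -/
theorem hasDerivAt_det {n : ℕ} {M : ℝ → Matrix (Fin n) (Fin n) ℂ} {M' : Matrix (Fin n) (Fin n) ℂ}
    {t : ℝ} (h : ∀ i j, HasDerivAt (fun s => M s i j) (M' i j) t) :
    HasDerivAt (fun s => (M s).det) (∑ i, ((M t).updateCol i fun r => M' r i).det) t := by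
  have h1 : HasDerivAt (fun s => ∑ σ : Equiv.Perm (Fin n),
      ((Equiv.Perm.sign σ : ℤ) : ℂ) * ∏ i, M s (σ i) i)
      (∑ σ : Equiv.Perm (Fin n), ((Equiv.Perm.sign σ : ℤ) : ℂ) *
        ∑ i, (∏ j ∈ Finset.univ.erase i, M t (σ j) j) • M' (σ i) i) t := by
    refine HasDerivAt.fun_sum fun σ _ => ?_
    refine HasDerivAt.const_mul _ ?_
    have := HasDerivAt.fun_finsetProd (u := Finset.univ) (f := fun (i : Fin n) s => M s (σ i) i)
      (f' := fun i => M' (σ i) i) (x := t) fun i _ => h (σ i) i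
    exact this
  have e1 : (fun s => (M s).det) = fun s => ∑ σ : Equiv.Perm (Fin n),
      ((Equiv.Perm.sign σ : ℤ) : ℂ) * ∏ i, M s (σ i) i := by
    funext s; rw [Matrix.det_apply']
  rw [e1]
  refine h1.congr_deriv ?_
  simp_rw [Matrix.det_apply']
  rw [Finset.sum_comm]
  refine Finset.sum_congr rfl fun σ _ => ?_
  rw [Finset.mul_sum]
  refine Finset.sum_congr rfl fun i _ => ?_
  congr 1
  rw [← Finset.mul_prod_erase _ _ (Finset.mem_univ i), smul_eq_mul, mul_comm]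
  congr 1
  · simp
  · refine Finset.prod_congr rfl fun j hj => ?_
    rw [Matrix.updateCol_ne (Finset.ne_of_mem_erase hj)]

/-- the scaled exponents -/
def sc (t : ℝ) (p : Fin k → ℂ) : Fin k → ℂ := fun i => (t : ℂ) * p i

lemma sc_adm {A η : ℝ} (hη : 0 < η) (hη1 : η ≤ 1) (hA : 0 ≤ A) {p : Fin k → ℂ} (h : Adm A η p)
    {t : ℝ} (ht0 : 0 ≤ t) (ht1 : t ≤ 1) : Adm A η (sc t p) := by
  refine ⟨fun i => ?_, fun i => ?_⟩
  · unfold sc
    rw [norm_mul, Complex.norm_real, Real.norm_eq_abs, abs_of_nonneg ht0]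
    have := h.bd i
    have := norm_nonneg (p i)
    nlinarith
  · unfold sc
    rw [Complex.re_ofReal_mul]
    have := h.re i
    by_cases h0 : 0 ≤ (p i).re
    · have : 0 ≤ t * (p i).re := by positivity
      linarith
    · push Not at h0
      nlinarith

lemma sc_adm' {A η : ℝ} (hη : 0 < η) (hη1 : η ≤ 1) (hA : 0 ≤ A) {p : Fin k → ℂ} (h : Adm A η p)
    {t : ℝ} (ht0 : -(η / (2 * (A + 1))) ≤ t) (ht1 : t ≤ 1 + η / (2 * (A + 1))) :
    Adm (2 * A) (η / 2) (sc t p) := by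
  set δ := η / (2 * (A + 1)) with hδ
  have hδ0 : 0 < δ := by positivity
  have hδA : δ * A ≤ η / 2 := by
    rw [hδ, div_mul_eq_mul_div, div_le_iff₀ (by positivity)]
    nlinarith
  have hδ1 : δ ≤ 1 := by
    rw [hδ, div_le_one (by positivity)]; linarith
  refine ⟨fun i => ?_, fun i => ?_⟩
  · unfold sc
    rw [norm_mul, Complex.norm_real, Real.norm_eq_abs]
    have h1 : |t| ≤ 2 := abs_le.2 ⟨by linarith, by linarith⟩
    have := h.bd i
    gcongr
  · unfold sc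
    rw [Complex.re_ofReal_mul]
    have h1 := h.re i
    have h2 := abs_le.1 ((Complex.abs_re_le_norm (p i)).trans (h.bd i))
    by_cases h0 : 0 ≤ (p i).re
    · nlinarith
    · push Not at h0
      nlinarith

/-- derivative of the weight -/
lemma hasDerivAt_Wt (a b p : Fin k → ℂ) (x : ℂ) (t : ℝ) :
    HasDerivAt (fun s : ℝ => Wt a b (sc s p) x) (ph a b p x * Wt a b (sc t p) x) t := by
  unfold Wt
  have h1 : HasDerivAt (fun s : ℝ => ∑ i, sc s p i * ((Real.log (dc (a i) (b i) x) : ℝ) : ℂ))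
      (ph a b p x) t := by
    unfold ph sc
    refine HasDerivAt.fun_sum fun i _ => ?_
    refine HasDerivAt.mul_const ?_ _
    have := (Complex.ofRealCLM.hasDerivAt (x := t)).mul_const (p i)
    simpa using this
  refine h1.cexp.congr_deriv ?_
  ring

/-- derivative of the Gram matrix -/
theorem hasDerivAt_Gr {σ A η : ℝ} (hσ : 0 < σ) (hσ1 : σ ≤ 1) (hA : 0 ≤ A) (hη : 0 < η)
    (hη1 : η ≤ 1) {a b p : Fin k → ℂ} (hc : Cfg σ a b) (hp : Adm A η p) {n : ℕ} (hn : 1 ≤ n)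
    {t : ℝ} (ht0 : 0 ≤ t) (ht1 : t ≤ 1) (i j : Fin n) :
    Integrable (fun z => z ^ (i : ℕ) * (starRingEnd ℂ z) ^ (j : ℕ) * (om n z : ℂ) *
      (ph a b p z * Wt a b (sc t p) z)) mu ∧
    HasDerivAt (fun s : ℝ => Gr n (Wt a b (sc s p)) i j)
      (∫ z, z ^ (i : ℕ) * (starRingEnd ℂ z) ^ (j : ℕ) * (om n z : ℂ) *
        (ph a b p z * Wt a b (sc t p) z) ∂mu) t := by
  set δ := η / (2 * (A + 1)) with hδ
  have hδ0 : 0 < δ := by positivity
  set C : ℝ := (1 + k * cM σ) * (Real.exp (k * cM σ) +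
      Real.exp (k * ((2 * A) * cM σ)) * (1 + 2 / (η / 2))) with hC
  obtain ⟨hH, -⟩ := Hm_int (η := η / 2 / 2) (by positivity) hc
  have hmono : ∀ z : ℂ, ‖z ^ (i : ℕ) * (starRingEnd ℂ z) ^ (j : ℕ) * (om n z : ℂ)‖ ≤ 1 := by
    intro z
    rw [norm_mul, norm_mul, norm_pow, norm_pow, RCLike.norm_conj, Complex.norm_real,
      Real.norm_eq_abs, abs_of_pos (om_pos n z)]
    have h1 := pow_om_le hn (show (i:ℕ) ≤ n - 1 by omega) z
    have h2 := pow_om_le hn (show (j:ℕ) ≤ n - 1 by omega) z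
    have h3 := om_pos n z
    have e : om n z = √(om n z) * √(om n z) := (Real.mul_self_sqrt h3.le).symm
    have hsq : ∀ m : ℕ, ‖z‖ ^ (2 * m) * om n z ≤ 1 → ‖z‖ ^ m * √(om n z) ≤ 1 := by
      intro m hm
      have e2 : (‖z‖ ^ m * √(om n z)) ^ 2 ≤ 1 := by
        rw [mul_pow, Real.sq_sqrt h3.le, ← pow_mul, mul_comm m 2]; exact hm
      exact (pow_le_one_iff_of_nonneg (by positivity) two_ne_zero).1 e2
    replace h1 := hsq _ h1
    replace h2 := hsq _ h2
    calc ‖z‖ ^ (i:ℕ) * ‖z‖ ^ (j:ℕ) * om n z = (‖z‖ ^ (i:ℕ) * √(om n z)) * (‖z‖ ^ (j:ℕ) * √(om n z)) := by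
          nth_rewrite 1 [e]; ring
      _ ≤ 1 * 1 := by gcongr
      _ = 1 := one_mul 1
  have hmeas : ∀ s : ℝ, Measurable fun z : ℂ => z ^ (i : ℕ) * (starRingEnd ℂ z) ^ (j : ℕ) *
      (om n z : ℂ) * Wt a b (sc s p) z := by
    intro s
    refine Measurable.mul ?_ (measurable_Wt a b (sc s p))
    exact ((measurable_id.pow_const _).mul (continuous_conj.measurable.pow_const _)).mul
      (Complex.measurable_ofReal.comp (continuous_om' n).measurable)
  have hmeas' : Measurable fun z : ℂ => z ^ (i : ℕ) * (starRingEnd ℂ z) ^ (j : ℕ) *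
      (om n z : ℂ) * (ph a b p z * Wt a b (sc t p) z) := by
    refine Measurable.mul ?_ ((measurable_ph a b p).mul (measurable_Wt a b (sc t p)))
    exact ((measurable_id.pow_const _).mul (continuous_conj.measurable.pow_const _)).mul
      (Complex.measurable_ofReal.comp (continuous_om' n).measurable)
  have hWi : Integrable (Wt a b (sc t p)) mu :=
    (Wt_int (A := A) hσ hσ1 hη hη1 hc (sc_adm hη hη1 hA hp ht0 ht1)).1
  have key := hasDerivAt_integral_of_dominated_loc_of_deriv_le (μ := mu)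
    (F := fun (s : ℝ) (z : ℂ) => z ^ (i : ℕ) * (starRingEnd ℂ z) ^ (j : ℕ) *
      (om n z : ℂ) * Wt a b (sc s p) z)
    (F' := fun (s : ℝ) (z : ℂ) => z ^ (i : ℕ) * (starRingEnd ℂ z) ^ (j : ℕ) *
      (om n z : ℂ) * (ph a b p z * Wt a b (sc s p) z)) (x₀ := t) (s := Metric.ball t δ)
    (bound := fun z => A * (C * Hm (η / 2 / 2) a b z)) (Metric.ball_mem_nhds t hδ0)
    (Eventually.of_forall fun s => (hmeas s).aestronglyMeasurable)
    (mono_int hn hWi i j)
    hmeas'.aestronglyMeasurable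
    (Eventually.of_forall fun z s hs => by
      rw [Metric.mem_ball, Real.dist_eq, abs_lt] at hs
      have hadm := sc_adm' hη hη1 hA hp (t := s) (by linarith) (by linarith)
      have h1 := Lt_W hσ hσ1 (A := 2 * A) (by positivity) (η := η / 2) (by positivity) (by linarith)
        hc hadm z
      have h2 := ph_le (a := a) (b := b) hA hp.bd z
      have h3 := Lt_nonneg a b z
      rw [norm_mul, norm_mul (ph a b p z)]
      calc ‖z ^ (i : ℕ) * (starRingEnd ℂ z) ^ (j : ℕ) * (om n z : ℂ)‖ *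
          (‖ph a b p z‖ * ‖Wt a b (sc s p) z‖) ≤ 1 * ((A * Lt a b z) * ‖Wt a b (sc s p) z‖) := by
            have := hmono z
            gcongr
        _ = A * (Lt a b z * ‖Wt a b (sc s p) z‖) := by ring
        _ ≤ _ := by gcongr)
    ((hH.const_mul C).const_mul A)
    (Eventually.of_forall fun z s _ => by
      exact (hasDerivAt_Wt a b p z s).const_mul _)
  exact key

/-- derivative of the determinant -/
theorem hasDerivAt_D {σ A η : ℝ} (hσ : 0 < σ) (hσ1 : σ ≤ 1) (hA : 0 ≤ A) (hη : 0 < η)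
    (hη1 : η ≤ 1) {a b p : Fin k → ℂ} (hc : Cfg σ a b) (hp : Adm A η p) {n : ℕ} (hn : 1 ≤ n)
    {t : ℝ} (ht0 : 0 ≤ t) (ht1 : t ≤ 1) (hdet : (Gr n (Wt a b (sc t p))).det ≠ 0) :
    HasDerivAt (fun s : ℝ => (Gr n (Wt a b (sc s p))).det)
      ((Gr n (Wt a b (sc t p))).det * ∫ x, ph a b p x * kx n (Wt a b (sc t p)) x ∂mu) t := by
  have h1 := fun i j => hasDerivAt_Gr hσ hσ1 hA hη hη1 hc hp hn ht0 ht1 i j
  set M := Gr n (Wt a b (sc t p)) with hM
  set M' : Matrix (Fin n) (Fin n) ℂ := Matrix.of fun i j =>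
    ∫ z, z ^ (i : ℕ) * (starRingEnd ℂ z) ^ (j : ℕ) * (om n z : ℂ) *
        (ph a b p z * Wt a b (sc t p) z) ∂mu with hM'
  have h2 := hasDerivAt_det (M := fun s => Gr n (Wt a b (sc s p))) (M' := M') (t := t)
    fun i j => (h1 i j).2
  refine h2.congr_deriv ?_
  have h3 : ∀ i, (M.updateCol i fun r => M' r i).det = ∑ r, M.adjugate i r * M' r i := by
    intro i
    rw [← Matrix.cramer_apply, Matrix.cramer_eq_adjugate_mulVec]
    rfl
  rw [← hM]
  simp_rw [h3]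
  have hinv : M⁻¹ = M.det⁻¹ • M.adjugate := by
    rw [Matrix.inv_def, Ring.inverse_eq_inv']
  have hadj : ∀ i r, M.adjugate i r = M.det * M⁻¹ i r := by
    intro i r
    rw [hinv, Matrix.smul_apply, smul_eq_mul, mul_inv_cancel_left₀ hdet]
  simp_rw [hadj, mul_assoc, ← Finset.mul_sum]
  congr 1
  have hk : ∀ x, ph a b p x * kx n (Wt a b (sc t p)) x = ∑ i, ∑ r, M⁻¹ i r *
      (x ^ (r : ℕ) * (starRingEnd ℂ x) ^ (i : ℕ) * (om n x : ℂ) *
        (ph a b p x * Wt a b (sc t p) x)) := by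
    intro x
    unfold kx Pe
    rw [← hM]
    simp only [Matrix.mulVec, dotProduct]
    rw [Finset.sum_mul, Finset.mul_sum]
    refine Finset.sum_congr rfl fun i _ => ?_
    rw [Finset.sum_mul, Finset.sum_mul, Finset.mul_sum]
    refine Finset.sum_congr rfl fun r _ => ?_
    ring
  simp_rw [hk]
  rw [integral_finsetSum _ fun i _ => integrable_finsetSum _ fun r _ => ((h1 r i).1).const_mul _]
  refine Finset.sum_congr rfl fun i _ => ?_
  rw [integral_finsetSum _ fun r _ => ((h1 r i).1).const_mul _]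
  refine Finset.sum_congr rfl fun r _ => ?_
  rw [integral_const_mul]
  rfl

/-- the logarithm of the main term -/
def Lf (n : ℕ) (a b p : Fin k → ℂ) (t : ℝ) : ℂ :=
  -(n * (∑ i, p i)) * t - (t : ℂ) ^ 2 * (∑ i, p i) ^ 2 / 2 +
    (t : ℂ) ^ 2 / 2 * (∑ i, p i ^ 2) * ((Real.log n : ℝ) : ℂ) + kp0 * (∑ i, p i) * t -
    ∑ i, Lam (t * p i) - (t : ℂ) ^ 2 / 2 * ∑ i, ∑ l ∈ Finset.univ.erase i, p i * p l * dl a b i l

lemma Lam_zero : Lam 0 = 0 := by
  unfold Lam
  simp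

lemma Lf_zero (n : ℕ) (a b p : Fin k → ℂ) : Lf n a b p 0 = 0 := by
  unfold Lf
  simp [Lam_zero]

lemma hasDerivAt_Lf {A η : ℝ} (hη : 0 < η) (hη1 : η ≤ 1) (hA : 0 ≤ A) (n : ℕ)
    {a b p : Fin k → ℂ} (hp : Adm A η p) {t : ℝ} (ht0 : 0 ≤ t) (ht1 : t ≤ 1) :
    HasDerivAt (Lf n a b p) (Tn n a b (sc t p) p) t := by
  have hadm := sc_adm hη hη1 hA hp ht0 ht1
  have hid : HasDerivAt (fun t : ℝ => (t : ℂ)) 1 t := by
    simpa using (hasDerivAt_id t).ofReal_comp
  have hsq : HasDerivAt (fun t : ℝ => (t : ℂ) ^ 2) (2 * t) t := by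
    have := hid.fun_pow 2
    simpa using this
  have hL : HasDerivAt (fun t : ℝ => ∑ i, Lam (t * p i)) (∑ i, (kp0 - t * p i + t * p i *
      ps (t * p i)) * p i) t := by
    refine HasDerivAt.fun_sum fun i _ => ?_
    have h1 : -1 < ((t : ℂ) * p i).re := by
      have : -1 + η ≤ ((t : ℂ) * p i).re := hadm.re i
      linarith
    have h2 : HasDerivAt (fun t : ℝ => (t : ℂ) * p i) (p i) t := by
      simpa using hid.mul_const (p i)
    exact (hasDerivAt_Lam h1).comp t h2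
  have h1 : HasDerivAt (fun t : ℝ => -(n * (∑ i, p i)) * (t : ℂ)) (-(n * (∑ i, p i))) t := by
    simpa using hid.const_mul (-(n * (∑ i, p i)))
  have h2 : HasDerivAt (fun t : ℝ => (t : ℂ) ^ 2 * (∑ i, p i) ^ 2 / 2)
      (2 * t * (∑ i, p i) ^ 2 / 2) t := (hsq.mul_const _).div_const 2
  have h3 : HasDerivAt (fun t : ℝ => (t : ℂ) ^ 2 / 2 * (∑ i, p i ^ 2) * ((Real.log n : ℝ) : ℂ))
      (2 * t / 2 * (∑ i, p i ^ 2) * ((Real.log n : ℝ) : ℂ)) t :=
    ((hsq.div_const 2).mul_const _).mul_const _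
  have h4 : HasDerivAt (fun t : ℝ => kp0 * (∑ i, p i) * (t : ℂ)) (kp0 * (∑ i, p i)) t := by
    simpa using hid.const_mul (kp0 * (∑ i, p i))
  have h5 : HasDerivAt (fun t : ℝ => (t : ℂ) ^ 2 / 2 *
      ∑ i, ∑ l ∈ Finset.univ.erase i, p i * p l * dl a b i l)
      (2 * t / 2 * ∑ i, ∑ l ∈ Finset.univ.erase i, p i * p l * dl a b i l) t :=
    (hsq.div_const 2).mul_const _
  have h6 := ((((h1.sub h2).add h3).add h4).sub hL).sub h5
  refine h6.congr_deriv ?_
  unfold Tn NN sc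
  have e1 : ∑ i, p i * ((t : ℂ) * p i * ((Real.log n : ℝ) : ℂ) + (t : ℂ) * p i -
      (t : ℂ) * p i * ps (t * p i) - ∑ l ∈ Finset.univ.erase i, (t : ℂ) * p l * dl a b i l) =
      t * (∑ i, p i ^ 2) * ((Real.log n : ℝ) : ℂ) + kp0 * (∑ i, p i) -
      ∑ i, (kp0 - t * p i + t * p i * ps (t * p i)) * p i -
      t * ∑ i, ∑ l ∈ Finset.univ.erase i, p i * p l * dl a b i l := by
    rw [Finset.mul_sum, Finset.mul_sum, Finset.mul_sum, Finset.sum_mul, ← Finset.sum_add_distrib,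
      ← Finset.sum_sub_distrib, ← Finset.sum_sub_distrib]
    refine Finset.sum_congr rfl fun i _ => ?_
    have e2 : ∑ l ∈ Finset.univ.erase i, (t : ℂ) * p l * dl a b i l =
        t * ∑ l ∈ Finset.univ.erase i, p l * dl a b i l := by
      rw [Finset.mul_sum]
      exact Finset.sum_congr rfl fun l _ => by ring
    have e3 : ∑ l ∈ Finset.univ.erase i, p i * p l * dl a b i l =
        p i * ∑ l ∈ Finset.univ.erase i, p l * dl a b i l := by
      rw [Finset.mul_sum]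
      exact Finset.sum_congr rfl fun l _ => by ring
    rw [e2, e3]
    ring
  rw [e1, ← Finset.mul_sum]
  ring

/-- determinant asymptotics -/
theorem fh_det (k : ℕ) (A η σ : ℝ) (hA : 0 ≤ A) (hη : 0 < η) (hη1 : η ≤ 1) (hσ : 0 < σ)
    (hσ1 : σ ≤ 1) {ξ : ℝ} (hξ : 0 < ξ) : ∃ n0 : ℕ, ∀ (n : ℕ) (a b p : Fin k → ℂ), n0 ≤ n →
      Cfg σ a b → Adm A η p → (Gr n (Wt a b 0)).det ≠ 0 ∧
      ‖(Gr n (Wt a b p)).det * cexp (-Lf n a b p 1) / (Gr n (Wt a b 0)).det - 1‖ ≤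
        ξ * Real.exp ξ := by
  obtain ⟨n0, h⟩ := trace_asymp k A η σ hA hη hη1 hσ hσ1 hξ
  refine ⟨max n0 1, fun n a b p hn hc hp => ?_⟩
  have hn0 : n0 ≤ n := (le_max_left _ _).trans hn
  have hn1 : 1 ≤ n := (le_max_right _ _).trans hn
  have hall : ∀ t : ℝ, 0 ≤ t → t ≤ 1 → (Gr n (Wt a b (sc t p))).det ≠ 0 ∧
      ‖∫ x, ph a b p x * kx n (Wt a b (sc t p)) x ∂mu - Tn n a b (sc t p) p‖ ≤ ξ := by
    intro t ht0 ht1
    obtain ⟨h1, -, h3⟩ := h n a b (sc t p) p hn0 hc (sc_adm hη hη1 hA hp ht0 ht1) hp.bd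
    exact ⟨h1, h3⟩
  set E : ℝ → ℂ := fun t => (Gr n (Wt a b (sc t p))).det * cexp (-Lf n a b p t) with hE
  set E' : ℝ → ℂ := fun t => E t * (∫ x, ph a b p x * kx n (Wt a b (sc t p)) x ∂mu -
    Tn n a b (sc t p) p) with hE'
  have hder : ∀ t ∈ Icc (0:ℝ) 1, HasDerivAt E (E' t) t := by
    intro t ht
    have h1 := hasDerivAt_D hσ hσ1 hA hη hη1 hc hp hn1 ht.1 ht.2 (hall t ht.1 ht.2).1
    have h2 := (hasDerivAt_Lf hη hη1 hA n (a := a) (b := b) hp ht.1 ht.2).fun_neg.cexp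
    refine (h1.mul h2).congr_deriv ?_
    simp only [hE', hE]
    ring
  have hbd : ∀ t ∈ Icc (0:ℝ) 1, ‖E' t‖ ≤ ξ * ‖E t‖ := by
    intro t ht
    simp only [hE']
    rw [norm_mul, mul_comm]
    have := (hall t ht.1 ht.2).2
    gcongr
  have hcont : ContinuousOn E (Icc 0 1) := fun t ht => (hder t ht).continuousAt.continuousWithinAt
  have hgr : ∀ t ∈ Icc (0:ℝ) 1, ‖E t‖ ≤ ‖E 0‖ * Real.exp ξ := by
    intro t ht
    have h1 := norm_le_gronwallBound_of_norm_deriv_right_le (f := E) (f' := E') (δ := ‖E 0‖)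
      (K := ξ) (ε := 0) (a := 0) (b := 1) hcont
      (fun s hs => (hder s ⟨hs.1, hs.2.le⟩).hasDerivWithinAt) le_rfl
      (fun s hs => by rw [add_zero]; exact hbd s ⟨hs.1, hs.2.le⟩) t ht
    rw [gronwallBound_ε0] at h1
    refine h1.trans ?_
    have h2 : Real.exp (ξ * (t - 0)) ≤ Real.exp ξ := by
      refine Real.exp_le_exp.2 ?_
      nlinarith [ht.1, ht.2]
    gcongr
  have hdiff : ‖E 1 - E 0‖ ≤ ξ * (‖E 0‖ * Real.exp ξ) := by
    have h1 := norm_image_sub_le_of_norm_deriv_le_segment' (f := E) (f' := E') (a := 0) (b := 1)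
      (C := ξ * (‖E 0‖ * Real.exp ξ)) (fun s hs => (hder s hs).hasDerivWithinAt)
      (fun s hs => (hbd s ⟨hs.1, hs.2.le⟩).trans (by
        have := hgr s ⟨hs.1, hs.2.le⟩
        gcongr)) 1 ⟨zero_le_one, le_rfl⟩
    simpa using h1
  have e0 : E 0 = (Gr n (Wt a b 0)).det := by
    simp only [hE]
    rw [Lf_zero, neg_zero, Complex.exp_zero, mul_one]
    have : sc (0:ℝ) p = 0 := by
      funext i; unfold sc; simp
    rw [this]
  have e1 : E 1 = (Gr n (Wt a b p)).det * cexp (-Lf n a b p 1) := by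
    simp only [hE]
    have : sc (1:ℝ) p = p := by
      funext i; unfold sc; simp
    rw [this]
  have hne : (Gr n (Wt a b 0)).det ≠ 0 := by
    have := (hall 0 le_rfl zero_le_one).1
    have h0 : sc (0:ℝ) p = 0 := by
      funext i; unfold sc; simp
    rwa [h0] at this
  refine ⟨hne, ?_⟩
  rw [← e1, ← e0]
  have hne' : E 0 ≠ 0 := by rw [e0]; exact hne
  have : E 1 / E 0 - 1 = (E 1 - E 0) / E 0 := by field_simp
  rw [this, norm_div, div_le_iff₀ (norm_pos_iff.2 hne')]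
  calc ‖E 1 - E 0‖ ≤ ξ * (‖E 0‖ * Real.exp ξ) := hdiff
    _ = _ := by ring

end

end Pool.Agent.H972.FH
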