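import Pool.Agent.H972.FH.Bd2
import Pool.Agent.H972.FH.Fun

set_option autoImplicit false

open MeasureTheory Complex Filter Topology Set
open scoped ENNReal

namespace Pool.Agent.H972.FH

noncomputable section

variable {k : ℕ}

/-- the diagonal of the kernel -/
def kx (n : ℕ) (W : ℂ → ℂ) (x : ℂ) : ℂ :=
  Pe ((Gr n W)⁻¹.mulVec fun j => x ^ (j:ℕ)) (starRingEnd ℂ x) * ((om n x : ℂ) * W x)

/-- conjugate configuration -/
def cc (a : Fin k → ℂ) : Fin k → ℂ := fun i => starRingEnd ℂ (a i)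

lemma dc_conj (a b x : ℂ) : dc (starRingEnd ℂ a) (starRingEnd ℂ b) x = dc a b (starRingEnd ℂ x) := by
  unfold dc
  rw [RCLike.norm_conj]
  congr 2
  rw [← RCLike.norm_conj (a * starRingEnd ℂ x + b)]
  simp

lemma om_conj (n : ℕ) (x : ℂ) : om n (starRingEnd ℂ x) = om n x := by
  unfold om; rw [RCLike.norm_conj]

lemma Wt_conj (a b p : Fin k → ℂ) (x : ℂ) : Wt (cc a) (cc b) p x = Wt a b p (starRingEnd ℂ x) := by
  unfold Wt cc
  simp_rw [dc_conj]

lemma Y2_conj (n J : ℕ) (y1 : ℝ) (a b p : Fin k → ℂ) (x : ℂ) :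
    Y2 n J y1 (cc a) (cc b) p x = Y2 n J y1 a b p (starRingEnd ℂ x) := by
  unfold Y2 cc
  simp_rw [dc_conj]

lemma Cfg_conj {σ : ℝ} {a b : Fin k → ℂ} (h : Cfg σ a b) : Cfg σ (cc a) (cc b) := by
  refine ⟨fun i => ?_, fun i l hil => ?_⟩
  · unfold cc; rw [RCLike.norm_conj, RCLike.norm_conj]; exact h.unit i
  · unfold cc
    rw [← RCLike.norm_conj]
    simp only [map_sub, map_mul, Complex.conj_conj]
    exact h.sep i l hil

lemma int_conj {E : Type*} [NormedAddCommGroup E] [NormedSpace ℝ E] (F : ℂ → E) :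
    ∫ z, F (starRingEnd ℂ z) ∂mu = ∫ z, F z ∂mu := by
  have he : MeasurableEmbedding (starRingEnd ℂ) :=
    (Complex.conjCLE.toHomeomorph).measurableEmbedding
  exact mp_conj.integral_comp he F

lemma Bf_conj (n : ℕ) (a b p : Fin k → ℂ) (f g : Fin n → ℂ) :
    Bf n (Wt (cc a) (cc b) p) g f = Bf n (Wt a b p) f g := by
  unfold Bf
  rw [← int_conj]
  refine integral_congr_ae (Eventually.of_forall fun z => ?_)
  simp only
  rw [Wt_conj, om_conj, Complex.conj_conj]
  ring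

lemma nrl_conj (n : ℕ) (a b p : Fin k → ℂ) (f : Fin n → ℂ) :
    nrl n (Wt (cc a) (cc b) p) f = nrc n (Wt a b p) f := by
  unfold nrl nrc
  rw [← int_conj]
  refine integral_congr_ae (Eventually.of_forall fun z => ?_)
  simp only
  rw [Wt_conj, om_conj, Complex.conj_conj]

lemma nrc_conj (n : ℕ) (a b p : Fin k → ℂ) (f : Fin n → ℂ) :
    nrc n (Wt (cc a) (cc b) p) f = nrl n (Wt a b p) f := by
  unfold nrl nrc
  rw [← int_conj]
  refine integral_congr_ae (Eventually.of_forall fun z => ?_)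
  simp only
  rw [Wt_conj, om_conj, Complex.conj_conj]

lemma measurable_Y2 (n J : ℕ) (y1 : ℝ) (a b p : Fin k → ℂ) : Measurable (Y2 n J y1 a b p) := by
  unfold Y2
  refine measurable_const.add (Finset.measurable_sum _ fun l _ => ?_)
  have hX : Measurable (Xr n (p l) (NN n p) J) := by unfold Xr; fun_prop
  exact Measurable.ite (measurableSet_lt (measurable_dc _ _) measurable_const)
      (hX.comp (measurable_dc _ _)) measurable_const

lemma measurable_rl (p N : ℂ) (J : ℕ) : Measurable (rl p N J) := by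
  unfold rl
  refine Finset.measurable_sum _ fun j _ => ?_
  have h1 := measurable_bt (1 + p) (N - p)
  have h2 : Measurable fun y : ℝ => (((y / (1 - y)) ^ j : ℝ) : ℂ) :=
    Complex.measurable_ofReal.comp (by fun_prop)
  exact (h2.mul h1).div_const _

lemma measurable_rho (n J : ℕ) (y1 : ℝ) (a b p : Fin k → ℂ) : Measurable (rho n J y1 a b p) := by
  unfold rho
  refine measurable_const.add (Finset.measurable_sum _ fun l _ => ?_)
  exact Measurable.ite (measurableSet_lt (measurable_dc _ _) measurable_const)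
      (((measurable_rl _ _ _).comp (measurable_dc _ _)).sub_const _) measurable_const

lemma measurable_kx (n : ℕ) (a b p : Fin k → ℂ) : Measurable (kx n (Wt a b p)) := by
  unfold kx Pe
  refine Measurable.mul ?_ ?_
  · refine Finset.measurable_sum _ fun j _ => ?_
    refine Measurable.mul ?_ ?_
    · simp only [Matrix.mulVec, dotProduct]
      exact Finset.measurable_sum _ fun i _ => by fun_prop
    · exact (continuous_conj.pow _).measurable
  · exact (Complex.measurable_ofReal.comp (continuous_om' n).measurable).mul (measurable_Wt a b p)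

theorem ker (k : ℕ) (A η σ : ℝ) (hA : 0 ≤ A) (hη : 0 < η) (hη1 : η ≤ 1) (hσ : 0 < σ)
    (hσ1 : σ ≤ 1) : ∃ ε ys : ℝ, 0 < ε ∧ ε ≤ 1 / 4 ∧ 0 < ys ∧ ys ≤ σ ^ 2 / 16 ∧
    ∀ y1, 0 < y1 → y1 ≤ ys → ∃ c C K : ℝ, ∃ n0 : ℕ, 0 < c ∧ 0 < C ∧ 0 < K ∧
      ∀ (n : ℕ) (a b p : Fin k → ℂ), n0 ≤ n → Cfg σ a b → Adm A η p →
      (1 ≤ n ∧ 1 ≤ ⌊ε * n⌋₊ ∧ 2 * ⌊ε * n⌋₊ ≤ n ∧ 0 < (NN n p).re ∧ ∀ l, ∀ j : ℕ, (j:ℝ) ≤ ε * n →
        0 < (NN n p - j - p l).re ∧ 0 < Cj (p l) (NN n p) j ∧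
        Cj (p l) (NN n p) j ≤ K * ‖cj (p l) (NN n p) j‖) ∧
      (Gr n (Wt a b p)).det ≠ 0 ∧
      Integrable (fun x => Lt a b x *
        ‖kx n (Wt a b p) x - rho n ⌊ε * n⌋₊ y1 a b p x‖) mu ∧
      ∫ x, Lt a b x * ‖kx n (Wt a b p) x - rho n ⌊ε * n⌋₊ y1 a b p x‖ ∂mu ≤
        C * Real.exp (-(c * n)) := by
  obtain ⟨ε, ys, hε, hε4, hys, hysσ, hkey⟩ := key k A η σ hA hη hη1 hσ hσ1
  refine ⟨ε, ys, hε, hε4, hys, hysσ, fun y1 hy0 hy1 => ?_⟩
  obtain ⟨c, C, K, n0, hc, hC, hK, hk⟩ := hkey y1 hy0 hy1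
  obtain ⟨C3, n3, hC3, hY⟩ := Y2_int k A η σ (c / 4) hA hη hη1 hσ hσ1 (by positivity)
  obtain ⟨B2, hB2, hB2'⟩ := pow_exp 2 (c := c / 8) (by positivity)
  -- threshold for `Z τ ≤ 1/2`
  obtain ⟨n4, hn4⟩ := exists_nat_ge (Real.log (2 * (√C3 * C)) / (c / 2))
  refine ⟨c / 2, ((4 * √C3 * C ^ 2 + 1) * B2 * C * 2) * C3, K, max n0 (max n3 (max n4 1)),
    by positivity, by positivity, hK, fun n a b p hn hcfg hadm => ?_⟩
  have hnn : n0 ≤ n := (le_max_left _ _).trans hn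
  have hnn3 : n3 ≤ n := ((le_max_left _ _).trans (le_max_right _ _)).trans hn
  have hnn4 : n4 ≤ n :=
    (((le_max_left _ _).trans (le_max_right _ _)).trans (le_max_right _ _)).trans hn
  obtain ⟨hfacts, hgood⟩ := hk n a b p hnn hcfg hadm
  obtain ⟨-, hgood'⟩ := hk n (cc a) (cc b) p hnn (Cfg_conj hcfg) hadm
  refine ⟨hfacts, ?_⟩
  obtain ⟨hn1, hJ1, hJ2, hNre, hfl⟩ := hfacts
  set J := ⌊ε * n⌋₊ with hJ
  have hfl' : ∀ l, ∀ j < J, 0 < (NN n p - j - p l).re ∧ 0 < Cj (p l) (NN n p) j := by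
    intro l j hj
    obtain ⟨g1, g2, -⟩ := hfl l j (Nat.lt_of_lt_floor hj).le
    exact ⟨g1, g2⟩
  obtain ⟨hYi, hYb⟩ := hY n J a b p y1 hnn3 (by omega) hcfg hadm (hy1.trans hysσ) hNre hfl'
  have hy11 : y1 ≤ 1 := by nlinarith [hy1.trans hysσ]
  have hY20 : ∀ x, 0 ≤ Y2 n J y1 a b p x := by
    intro x
    unfold Y2
    have h1 := Finset.sum_nonneg fun l (_ : l ∈ Finset.univ) =>
      Y2_term_nonneg (n := n) (a := a) (b := b) hy11 (fun l j hj => (hfl' l j hj).2) x l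
    have h2 : 0 ≤ 1 + 1 / Cj 0 (NN n p) 0 := by rw [(cj0 hNre).2]; positivity
    linarith
  have hWi := (Wt_int (A := A) hσ hσ1 hη hη1 hcfg hadm).1
  have hWYi : Integrable (fun x => ‖Wt a b p x‖ * Y2 n J y1 a b p x) mu := by
    refine Integrable.mono' hYi
      ((measurable_Wt a b p).norm.mul (measurable_Y2 n J y1 a b p)).aestronglyMeasurable
      (Eventually.of_forall fun x => ?_)
    have h1 := one_le_Lt a b x
    have h2 : 0 ≤ ‖Wt a b p x‖ * Y2 n J y1 a b p x := mul_nonneg (norm_nonneg _) (hY20 x)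
    rw [Real.norm_eq_abs, abs_of_nonneg h2]
    nlinarith
  have hWYb : ∫ x, ‖Wt a b p x‖ * Y2 n J y1 a b p x ∂mu ≤ C3 * Real.exp (c / 4 * n) := by
    refine le_trans (integral_mono hWYi hYi fun x => ?_) hYb
    have h1 := one_le_Lt a b x
    have h2 : 0 ≤ ‖Wt a b p x‖ * Y2 n J y1 a b p x := mul_nonneg (norm_nonneg _) (hY20 x)
    simp only
    nlinarith
  set Z : ℝ := √C3 * Real.exp (c / 8 * n) with hZ
  have hZ0 : 0 ≤ Z := by positivity
  have hZ2 : Z ^ 2 = C3 * Real.exp (c / 4 * n) := by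
    rw [hZ, mul_pow, Real.sq_sqrt hC3.le, ← Real.exp_nat_mul]
    congr 2; push_cast; ring
  have hsm : Z * (C * Real.exp (-(c * n))) ≤ 1 / 2 := by
    have h1 : Z * (C * Real.exp (-(c * n))) ≤ √C3 * C * Real.exp (-(c / 2 * n)) := by
      calc Z * (C * Real.exp (-(c * n))) =
          √C3 * C * (Real.exp (c / 8 * n) * Real.exp (-(c * n))) := by rw [hZ]; ring
        _ ≤ _ := by
            rw [← Real.exp_add]
            have : c / 8 * n + -(c * n) ≤ -(c / 2 * n) := by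
              have : 0 ≤ c * n := by positivity
              linarith
            gcongr
    refine h1.trans ?_
    have h2 : Real.log (2 * (√C3 * C)) ≤ c / 2 * n := by
      have h3 : Real.log (2 * (√C3 * C)) / (c / 2) ≤ n := hn4.trans (by exact_mod_cast hnn4)
      rw [div_le_iff₀ (by positivity)] at h3
      linarith
    have h4 : 2 * (√C3 * C) ≤ Real.exp (c / 2 * n) :=
      (Real.log_le_iff_le_exp (by positivity)).1 h2
    rw [Real.exp_neg, ← div_eq_mul_inv, div_le_iff₀ (Real.exp_pos _)]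
    linarith
  obtain ⟨hdet, hbd⟩ := absker (n := n) (W := Wt a b p) hn1 hWi
    (fun z => by unfold Wt; exact Complex.exp_ne_zero _)
    (Y2 := Y2 n J y1 a b p) (Y2' := Y2 n J y1 a b p) (ρ := rho n J y1 a b p)
    (τ := C * Real.exp (-(c * n))) (Γ := C * n) (Z := Z) (by positivity) (by positivity) hZ0
    hY20 hY20 hWYi hWYi (by rw [hZ2]; exact hWYb) (by rw [hZ2]; exact hWYb) hsm hgood
    (fun x => by
      obtain ⟨kk, e1, e2, -⟩ := hgood' (starRingEnd ℂ x)
      refine ⟨kk, fun g => ?_, ?_⟩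
      · have := e1 g
        rw [Bf_conj, om_conj, Y2_conj, Complex.conj_conj, nrl_conj] at this
        exact this
      · rw [nrc_conj, om_conj, Y2_conj, Complex.conj_conj] at e2
        exact e2)
  refine ⟨hdet, ?_⟩
  set Q : ℝ := (2 * Z * (C * n) * (C * n + C * Real.exp (-(c * n))) + 1) *
    (C * Real.exp (-(c * n))) with hQ
  have hQ0 : 0 ≤ Q := by positivity
  have hpt : ∀ x, Lt a b x * ‖kx n (Wt a b p) x - rho n J y1 a b p x‖ ≤
      (Q * 2) * (Lt a b x * (‖Wt a b p x‖ * Y2 n J y1 a b p x)) := by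
    intro x
    have h1 := hbd x
    have h2 := Lt_nonneg a b x
    calc Lt a b x * ‖kx n (Wt a b p) x - rho n J y1 a b p x‖ ≤
        Lt a b x * (Q * (‖Wt a b p x‖ * (Y2 n J y1 a b p x + Y2 n J y1 a b p x))) := by
          refine mul_le_mul_of_nonneg_left h1 h2
      _ = _ := by ring
  have hi : Integrable (fun x => Lt a b x * ‖kx n (Wt a b p) x - rho n J y1 a b p x‖) mu := by
    refine Integrable.mono' (hYi.const_mul (Q * 2)) ((measurable_Lt a b).mul
      ((measurable_kx n a b p).sub (measurable_rho n J y1 a b p)).norm).aestronglyMeasurable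
      (Eventually.of_forall fun x => ?_)
    have h2 := Lt_nonneg a b x
    rw [Real.norm_eq_abs, abs_of_nonneg (by positivity)]
    exact hpt x
  refine ⟨hi, ?_⟩
  have hnr : (1:ℝ) ≤ n := by exact_mod_cast hn1
  have hn2 : (1:ℝ) ≤ (n:ℝ) ^ 2 := by nlinarith
  have hn2' : (n:ℝ) ≤ (n:ℝ) ^ 2 := by nlinarith
  have hex8 : 1 ≤ Real.exp (c / 8 * n) := by
    rw [← Real.exp_zero]; exact Real.exp_le_exp.2 (by positivity)
  have hexn : Real.exp (-(c * n)) ≤ 1 := by
    rw [← Real.exp_zero]; exact Real.exp_le_exp.2 (by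
      have : 0 ≤ c * n := by positivity
      linarith)
  have hQb : Q ≤ (4 * √C3 * C ^ 2 + 1) * B2 * C * Real.exp (-(3 * c / 4 * n)) := by
    have h1 : 2 * Z * (C * n) * (C * n + C * Real.exp (-(c * n))) + 1 ≤
        (4 * √C3 * C ^ 2 + 1) * ((n:ℝ) ^ 2 * Real.exp (c / 8 * n)) := by
      have h2 : C * n + C * Real.exp (-(c * n)) ≤ 2 * C * n := by nlinarith
      calc 2 * Z * (C * n) * (C * n + C * Real.exp (-(c * n))) + 1 ≤
          2 * Z * (C * n) * (2 * C * n) + 1 := by gcongr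
        _ = 4 * √C3 * C ^ 2 * ((n:ℝ) ^ 2 * Real.exp (c / 8 * n)) + 1 := by rw [hZ]; ring
        _ ≤ 4 * √C3 * C ^ 2 * ((n:ℝ) ^ 2 * Real.exp (c / 8 * n)) +
            1 * ((n:ℝ) ^ 2 * Real.exp (c / 8 * n)) := by
            have : 1 ≤ (n:ℝ) ^ 2 * Real.exp (c / 8 * n) := by nlinarith
            linarith
        _ = _ := by ring
    have h3 : (n:ℝ) ^ 2 ≤ B2 * Real.exp (c / 8 * n) := by
      have := hB2' n
      rw [Real.exp_neg, ← div_eq_mul_inv, div_le_iff₀ (Real.exp_pos _)] at this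
      exact this
    calc Q ≤ ((4 * √C3 * C ^ 2 + 1) * ((n:ℝ) ^ 2 * Real.exp (c / 8 * n))) *
          (C * Real.exp (-(c * n))) := by rw [hQ]; gcongr
      _ ≤ ((4 * √C3 * C ^ 2 + 1) * ((B2 * Real.exp (c / 8 * n)) * Real.exp (c / 8 * n))) *
          (C * Real.exp (-(c * n))) := by gcongr
      _ = (4 * √C3 * C ^ 2 + 1) * B2 * C * (Real.exp (c / 8 * n) * Real.exp (c / 8 * n) *
          Real.exp (-(c * n))) := by ring
      _ = _ := by
          rw [← Real.exp_add, ← Real.exp_add]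
          congr 2; ring
  calc _ ≤ ∫ x, (Q * 2) * (Lt a b x * (‖Wt a b p x‖ * Y2 n J y1 a b p x)) ∂mu :=
        integral_mono hi (hYi.const_mul _) hpt
    _ = (Q * 2) * ∫ x, Lt a b x * (‖Wt a b p x‖ * Y2 n J y1 a b p x) ∂mu := integral_const_mul _ _
    _ ≤ (((4 * √C3 * C ^ 2 + 1) * B2 * C * Real.exp (-(3 * c / 4 * n))) * 2) *
        (C3 * Real.exp (c / 4 * n)) := by
          have : 0 ≤ ∫ x, Lt a b x * (‖Wt a b p x‖ * Y2 n J y1 a b p x) ∂mu :=
            integral_nonneg fun x => by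
              have h1 := Lt_nonneg a b x
              have h2 := hY20 x
              positivity
          gcongr
    _ = ((4 * √C3 * C ^ 2 + 1) * B2 * C * 2) * C3 *
        (Real.exp (-(3 * c / 4 * n)) * Real.exp (c / 4 * n)) := by ring
    _ = _ := by
        rw [← Real.exp_add]
        congr 2; ring

end

end Pool.Agent.H972.FH
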