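import Pool.Agent.H972.FH.LocF

set_option autoImplicit false

open MeasureTheory Complex Filter Topology Set
open scoped ENNReal

namespace Pool.Agent.H972.FH

noncomputable section

lemma pow_exp (m : ℕ) {c : ℝ} (hc : 0 < c) : ∃ B : ℝ, 0 < B ∧ ∀ n : ℕ,
    (n:ℝ) ^ m * Real.exp (-(c * n)) ≤ B := by
  refine ⟨m.factorial / c ^ m, by positivity, fun n => ?_⟩
  have h := Real.pow_div_factorial_le_exp (c * n) (by positivity) m
  have hf : (0:ℝ) < m.factorial := by positivity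
  rw [div_le_iff₀ hf, mul_pow] at h
  have he := Real.exp_pos (c * n)
  rw [Real.exp_neg, le_div_iff₀ (by positivity), ← div_eq_mul_inv, div_mul_eq_mul_div,
    div_le_iff₀ he]
  linarith

theorem loc_final (k : ℕ) (A η lam CW : ℝ) (hA : 0 ≤ A) (hη : 0 < η) (hlam : 0 < lam)
    (hlam1 : lam ≤ 1) (hCW : 0 ≤ CW) :
    ∃ ε c C K δ : ℝ, ∃ n0 : ℕ, 0 < ε ∧ ε ≤ 1 / 4 ∧ 0 < c ∧ 0 < C ∧ 0 < K ∧
      0 < δ ∧ δ ≤ lam / 4 ∧ ∀ (n : ℕ) (p0 : ℂ) (a b p : Fin k → ℂ), n0 ≤ n → ‖p0‖ ≤ A →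
      -1 + η ≤ p0.re → (∀ i, ‖p i‖ ≤ A) → (∀ i, ‖a i‖ ^ 2 + ‖b i‖ ^ 2 = 1) → (∀ i, lam ≤ ‖b i‖) →
      Integrable (Wl p0 a b p) mu → ∫ ζ, ‖Wl p0 a b p ζ‖ ∂mu ≤ CW →
      (1 ≤ n ∧ 1 ≤ ⌊ε * n⌋₊ ∧ 2 * ⌊ε * n⌋₊ ≤ n ∧ ∀ j : ℕ, (j:ℝ) ≤ ε * n →
        0 < ((n + p0 + ∑ i, p i) - j - p0 : ℂ).re ∧ 0 < Cj p0 (n + p0 + ∑ i, p i) j ∧
        Cj p0 (n + p0 + ∑ i, p i) j ≤ K * ‖cj p0 (n + p0 + ∑ i, p i) j‖) ∧
      ∀ x : ℂ, ‖x‖ ≤ δ → 1 ≤ Xi2 p0 (n + p0 + ∑ i, p i) ⌊ε * n⌋₊ x ∧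
        ∃ P : Polynomial ℂ, P.natDegree < n ∧
        (∀ F : ℂ → ℂ, Differentiable ℂ F →
          Integrable (fun ζ => ‖F ζ‖ ^ 2 * (om n ζ * ‖Wl p0 a b p ζ‖)) mu →
          ‖∫ ζ, F ζ * P.eval (starRingEnd ℂ ζ) * ((om n ζ : ℂ) * Wl p0 a b p ζ) ∂mu - F x‖ ≤
          (C * Real.exp (-(c * n)) * √(Xi2 p0 (n + p0 + ∑ i, p i) ⌊ε * n⌋₊ x)) *
            √(∫ ζ, ‖F ζ‖ ^ 2 * (om n ζ * ‖Wl p0 a b p ζ‖) ∂mu)) ∧
        √(∫ ζ, ‖P.eval (starRingEnd ℂ ζ)‖ ^ 2 * (om n ζ * ‖Wl p0 a b p ζ‖) ∂mu) ≤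
          C * n * √(Xi2 p0 (n + p0 + ∑ i, p i) ⌊ε * n⌋₊ x) ∧
        ‖P.eval (starRingEnd ℂ x) * ((om n x : ℂ) * Wl p0 a b p x) -
          ∑ j ∈ Finset.range ⌊ε * n⌋₊, ((‖x‖ ^ (2 * j) : ℝ) : ℂ) *
            wr p0 (n + p0 + ∑ i, p i) ‖x‖ / cj p0 (n + p0 + ∑ i, p i) j‖ ≤
          C * Real.exp (-(c * n)) * (om n x * ‖Wl p0 a b p x‖ *
            Xi2 p0 (n + p0 + ∑ i, p i) ⌊ε * n⌋₊ x) := by
  obtain ⟨ε, c, C, K, C2, δ, n0, hε, hε4, hc, hC, hK, hC2, hδ, hδl, hctx⟩ :=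
    ctx_exists k A η lam hA hη hlam hlam1
  have hl2 : 0 < Real.log 2 := Real.log_pos (by norm_num)
  set c1 : ℝ := min (ε * Real.log 2) (min c 1) / 4 with hc1
  have hc10 : 0 < c1 := by
    rw [hc1]
    have : 0 < min (ε * Real.log 2) (min c 1) := lt_min (by positivity) (lt_min hc one_pos)
    positivity
  have hb1 : 4 * c1 ≤ ε * Real.log 2 := by
    rw [hc1]; linarith [min_le_left (ε * Real.log 2) (min c 1)]
  have hb2 : 4 * c1 ≤ c := by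
    rw [hc1]; linarith [(min_le_right (ε * Real.log 2) (min c 1)).trans (min_le_left _ _)]
  have hb3 : 4 * c1 ≤ 1 := by
    rw [hc1]; linarith [(min_le_right (ε * Real.log 2) (min c 1)).trans (min_le_right _ _)]
  obtain ⟨B2, hB2, hB2'⟩ := pow_exp 2 hc10
  obtain ⟨B1, hB1, hB1'⟩ := pow_exp 1 hc
  set U := cU k A with hU
  have hU0 : 0 < U := cU_pos k A
  set Kk := cK k A lam with hKk
  have hKk0 : 0 < Kk := cK_pos k A lam
  have hM1 := M1_nonneg k A lam K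
  have hM2 := M2_nonneg k A lam K hC.le
  set Q := Kk * U ^ 2 with hQ
  have hQ0 : 0 < Q := by positivity
  set B : ℝ := U * ((4 * U ^ 2 + 2 * C) * √Q * K + 2 * √(C2 * Q)) + √(M2 k A lam C K * CW) with hB
  have hB0 : 0 ≤ B := by positivity
  set G : ℝ := √(M1 k A lam K + M2 k A lam C K * CW * B1) with hG
  set D : ℝ := 2 * (2 * U ^ 2 * K * Kk * U ^ 2) with hD
  have hD0 : 0 ≤ D := by positivity
  refine ⟨ε, c1, B * B2 + G + D + 1, K, δ, n0, hε, hε4, hc10, by positivity, hK, hδ, hδl,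
    fun n p0 a b p hn hp0 hr hp hab hb hWi hWC => ?_⟩
  obtain ⟨hx, htail⟩ := hctx n p0 a b p hn hp0 hr hp hab hb
  have hn1 : (1:ℝ) ≤ n := by exact_mod_cast hx.hn
  have hhalf : ((1:ℝ) / 2) ^ ⌊ε * n⌋₊ ≤ 2 * Real.exp (-(4 * c1 * n)) := by
    have hfl : ε * n < ⌊ε * n⌋₊ + 1 := Nat.lt_floor_add_one _
    have e1 : ((1:ℝ) / 2) ^ ⌊ε * n⌋₊ = Real.exp (-(⌊ε * n⌋₊ * Real.log 2)) := by
      rw [← Real.exp_log (show (0:ℝ) < (1 / 2) ^ ⌊ε * n⌋₊ by positivity), Real.log_pow,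
        one_div, Real.log_inv]
      congr 1; ring
    have e2 : (2:ℝ) * Real.exp (-(4 * c1 * n)) = Real.exp (Real.log 2 + -(4 * c1 * n)) := by
      rw [Real.exp_add, Real.exp_log (by norm_num)]
    rw [e1, e2]
    refine Real.exp_le_exp.2 ?_
    have h1 : (ε * n - 1) * Real.log 2 ≤ ⌊ε * n⌋₊ * Real.log 2 := by
      refine mul_le_mul_of_nonneg_right ?_ hl2.le
      linarith
    have h2 : 4 * c1 * n ≤ ε * Real.log 2 * n := by gcongr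
    nlinarith
  have hexpc : Real.exp (-(c * n)) ≤ Real.exp (-(4 * c1 * n)) := by
    refine Real.exp_le_exp.2 ?_
    have : 4 * c1 * n ≤ c * n := by gcongr
    linarith
  have hexp42 : Real.exp (-(4 * c1 * n)) ≤ Real.exp (-(2 * c1 * n)) := by
    refine Real.exp_le_exp.2 ?_
    have : 0 ≤ c1 * n := by positivity
    linarith
  have hexp1 : √(C2 * Real.exp (-(n:ℝ)) * Q) ≤ √(C2 * Q) * Real.exp (-(2 * c1 * n)) := by
    refine Real.sqrt_le_iff.2 ⟨by positivity, ?_⟩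
    rw [mul_pow, Real.sq_sqrt (by positivity), ← Real.exp_nat_mul]
    have : Real.exp (-(n:ℝ)) ≤ Real.exp (((2:ℕ):ℝ) * -(2 * c1 * n)) := by
      refine Real.exp_le_exp.2 ?_
      push_cast
      have : 4 * c1 * n ≤ 1 * n := by gcongr
      linarith
    calc C2 * Real.exp (-(n:ℝ)) * Q = C2 * Q * Real.exp (-(n:ℝ)) := by ring
      _ ≤ _ := by gcongr
  have hexp3 : √(M2 k A lam C K * CW * (n:ℝ) ^ 3 * Real.exp (-(c * n))) ≤
      √(M2 k A lam C K * CW) * (n:ℝ) ^ 2 * Real.exp (-(2 * c1 * n)) := by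
    refine Real.sqrt_le_iff.2 ⟨by positivity, ?_⟩
    rw [mul_pow, mul_pow, Real.sq_sqrt (by positivity), ← Real.exp_nat_mul]
    have h1 : Real.exp (-(c * n)) ≤ Real.exp (((2:ℕ):ℝ) * -(2 * c1 * n)) := by
      refine Real.exp_le_exp.2 ?_
      push_cast
      have : 4 * c1 * n ≤ c * n := by gcongr
      linarith
    have h2 : (n:ℝ) ^ 3 ≤ ((n:ℝ) ^ 2) ^ 2 := by
      rw [← pow_mul]; exact pow_le_pow_right₀ hn1 (by norm_num)
    have h3 : 0 ≤ M2 k A lam C K * CW := by positivity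
    gcongr
  have hE : U * ((2 * U ^ 2 * (1 / 2) ^ ⌊ε * n⌋₊ + 2 * C * Real.exp (-(c * n))) *
        √Q * K * n + 2 * √(C2 * Real.exp (-(n:ℝ)) * Q)) +
        √(M2 k A lam C K * CW * (n:ℝ) ^ 3 * Real.exp (-(c * n))) ≤
      B * B2 * Real.exp (-(c1 * n)) := by
    have hnn : (n:ℝ) ≤ (n:ℝ) ^ 2 := by nlinarith
    have h1n : (1:ℝ) ≤ (n:ℝ) ^ 2 := by nlinarith
    have hex := Real.exp_pos (-(2 * c1 * n))
    calc _ ≤ U * ((2 * U ^ 2 * (2 * Real.exp (-(2 * c1 * n))) + 2 * C * Real.exp (-(2 * c1 * n))) *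
        √Q * K * (n:ℝ) ^ 2 + 2 * (√(C2 * Q) * Real.exp (-(2 * c1 * n)))) +
        √(M2 k A lam C K * CW) * (n:ℝ) ^ 2 * Real.exp (-(2 * c1 * n)) := by
          have g1 : ((1:ℝ) / 2) ^ ⌊ε * n⌋₊ ≤ 2 * Real.exp (-(2 * c1 * n)) := by linarith
          have g2 : Real.exp (-(c * n)) ≤ Real.exp (-(2 * c1 * n)) := hexpc.trans hexp42
          gcongr
      _ ≤ U * ((2 * U ^ 2 * (2 * Real.exp (-(2 * c1 * n))) + 2 * C * Real.exp (-(2 * c1 * n))) *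
        √Q * K * (n:ℝ) ^ 2 + 2 * (√(C2 * Q) * Real.exp (-(2 * c1 * n))) * (n:ℝ) ^ 2) +
        √(M2 k A lam C K * CW) * (n:ℝ) ^ 2 * Real.exp (-(2 * c1 * n)) := by
          have : 2 * (√(C2 * Q) * Real.exp (-(2 * c1 * n))) * 1 ≤
            2 * (√(C2 * Q) * Real.exp (-(2 * c1 * n))) * (n:ℝ) ^ 2 := by gcongr
          rw [mul_one] at this
          exact add_le_add (mul_le_mul_of_nonneg_left (add_le_add le_rfl this) hU0.le) le_rfl
      _ = B * ((n:ℝ) ^ 2 * Real.exp (-(c1 * n))) * Real.exp (-(c1 * n)) := by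
          have : Real.exp (-(2 * c1 * n)) = Real.exp (-(c1 * n)) * Real.exp (-(c1 * n)) := by
            rw [← Real.exp_add]; congr 1; ring
          rw [this, hB]; ring
      _ ≤ B * B2 * Real.exp (-(c1 * n)) := by
          gcongr
          exact hB2' n
  refine ⟨⟨hx.hn, hx.hJ1, hx.hJ, fun j hj => ?_⟩, fun x hxδ => ?_⟩
  · obtain ⟨h1, h2, h3, -, -⟩ := hx.est j hj
    exact ⟨h1, h2, h3⟩
  have hXi := (hx.Xi_ge x).1
  have hx4 : ‖x‖ ≤ lam / 4 := hxδ.trans hδl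
  refine ⟨hXi, Gp p0 (n + p0 + ∑ i, p i) a b p ⌊ε * n⌋₊ x, Gp_degree _ _ _ _ _ _ _ _ hx.hJ hx.hn,
    fun F hF hF2 => ?_, ?_, ?_⟩
  · have h := hx.repr hC2.le hWi hWC hx4 (htail x hxδ) hF hF2
    refine h.trans ?_
    have hcomb : B * B2 * Real.exp (-(c1 * n)) ≤ (B * B2 + G + D + 1) * Real.exp (-(c1 * n)) := by
      have := Real.sqrt_nonneg (M1 k A lam K + M2 k A lam C K * CW * B1)
      gcongr
      linarith
    have h0 := Real.sqrt_nonneg (nF n p0 a b p F)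
    have h0' := Real.sqrt_nonneg (Xi2 p0 (n + p0 + ∑ i, p i) ⌊ε * n⌋₊ x)
    calc _ ≤ ((B * B2 + G + D + 1) * Real.exp (-(c1 * n))) * √(nF n p0 a b p F) *
          √(Xi2 p0 (n + p0 + ∑ i, p i) ⌊ε * n⌋₊ x) := by
          refine mul_le_mul_of_nonneg_right (mul_le_mul_of_nonneg_right ?_ h0) h0'
          exact hE.trans hcomb
      _ = _ := by unfold nF; ring
  · have h := (hx.G_norm hWi hWC (show ‖x‖ ≤ lam / 2 by linarith)).2.1
    have h2 : (M1 k A lam K * n + M2 k A lam C K * CW * (n:ℝ) ^ 3 * Real.exp (-(c * n))) ≤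
        (M1 k A lam K + M2 k A lam C K * CW * B1) * (n:ℝ) ^ 2 := by
      have h3 := hB1' n
      rw [pow_one] at h3
      have h4 : 0 ≤ M2 k A lam C K * CW := by positivity
      calc M1 k A lam K * n + M2 k A lam C K * CW * (n:ℝ) ^ 3 * Real.exp (-(c * n)) =
          M1 k A lam K * n + M2 k A lam C K * CW * (n:ℝ) ^ 2 * (n * Real.exp (-(c * n))) := by ring
        _ ≤ M1 k A lam K * (n:ℝ) ^ 2 + M2 k A lam C K * CW * (n:ℝ) ^ 2 * B1 := by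
            have : (n:ℝ) ≤ (n:ℝ) ^ 2 := by nlinarith
            gcongr
        _ = _ := by ring
    have h3 : √(∫ ζ, ‖(Gp p0 (n + p0 + ∑ i, p i) a b p ⌊ε * n⌋₊ x).eval (starRingEnd ℂ ζ)‖ ^ 2 *
        (om n ζ * ‖Wl p0 a b p ζ‖) ∂mu) ≤
        G * n * √(Xi2 p0 (n + p0 + ∑ i, p i) ⌊ε * n⌋₊ x) := by
      refine Real.sqrt_le_iff.2 ⟨by positivity, ?_⟩
      rw [mul_pow, mul_pow, Real.sq_sqrt (by positivity), Real.sq_sqrt (by linarith)]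
      refine h.trans ?_
      gcongr
    refine h3.trans ?_
    have : G ≤ B * B2 + G + D + 1 := by
      have : 0 ≤ B * B2 := by positivity
      linarith
    gcongr
  · refine (hx.G_diag hx4).trans ?_
    have h1 : (2 * U ^ 2 * K * Kk * U ^ 2) * (1 / 2) ^ ⌊ε * n⌋₊ ≤
        (B * B2 + G + D + 1) * Real.exp (-(c1 * n)) := by
      have h2 : Real.exp (-(4 * c1 * n)) ≤ Real.exp (-(c1 * n)) := by
        refine Real.exp_le_exp.2 ?_
        have : 0 ≤ c1 * n := by positivity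
        linarith
      calc (2 * U ^ 2 * K * Kk * U ^ 2) * (1 / 2) ^ ⌊ε * n⌋₊ ≤
          (2 * U ^ 2 * K * Kk * U ^ 2) * (2 * Real.exp (-(c1 * n))) := by
            gcongr
            linarith
        _ = D * Real.exp (-(c1 * n)) := by rw [hD]; ring
        _ ≤ _ := by
            have : 0 ≤ B * B2 := by positivity
            have := Real.sqrt_nonneg (M1 k A lam K + M2 k A lam C K * CW * B1)
            gcongr
            linarith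
    have h3 : 0 ≤ om n x * ‖Wl p0 a b p x‖ * Xi2 p0 (n + p0 + ∑ i, p i) ⌊ε * n⌋₊ x := by
      have := om_pos n x
      positivity
    exact mul_le_mul_of_nonneg_right h1 h3

end

end Pool.Agent.H972.FH
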