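import Pool.Agent.H972.FH.Wgt
import Pool.Agent.H972.FH.LocG

set_option autoImplicit false

open MeasureTheory Complex Filter Topology Set
open scoped ENNReal

namespace Pool.Agent.H972.FH

noncomputable section

variable {k : ℕ}

/-- the effective number of points -/
def NN (n : ℕ) (p : Fin k → ℂ) : ℂ := n + ∑ i, p i

/-- the local size function -/
def Xr (n : ℕ) (p N : ℂ) (J : ℕ) (y : ℝ) : ℝ :=
  (1 - y) ^ (n - 1) * (1 + ∑ j ∈ Finset.range J, (y / (1 - y)) ^ j / Cj p N j)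

/-- the global size function -/
def Y2 (n J : ℕ) (y1 : ℝ) (a b p : Fin k → ℂ) (x : ℂ) : ℝ :=
  (1 + 1 / Cj 0 (NN n p) 0) +
    ∑ l, if dc (a l) (b l) x < y1 then Xr n (p l) (NN n p) J (dc (a l) (b l) x) else 0

/-- the local density -/
def rl (p N : ℂ) (J : ℕ) (y : ℝ) : ℂ :=
  ∑ j ∈ Finset.range J, (((y / (1 - y)) ^ j : ℝ) : ℂ) * bt (1 + p) (N - p) y / cj p N j

/-- the global density -/
def rho (n J : ℕ) (y1 : ℝ) (a b p : Fin k → ℂ) (x : ℂ) : ℂ :=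
  NN n p + ∑ l, if dc (a l) (b l) x < y1 then
    (rl (p l) (NN n p) J (dc (a l) (b l) x) - NN n p) else 0

lemma yr_eq (ζ : ℂ) : ‖ζ‖ ^ 2 / (1 + ‖ζ‖ ^ 2) / (1 - ‖ζ‖ ^ 2 / (1 + ‖ζ‖ ^ 2)) = ‖ζ‖ ^ 2 := by
  have : (0:ℝ) < 1 + ‖ζ‖ ^ 2 := by positivity
  field_simp
  ring

lemma one_sub_yr (ζ : ℂ) : 1 - ‖ζ‖ ^ 2 / (1 + ‖ζ‖ ^ 2) = (1 + ‖ζ‖ ^ 2)⁻¹ := by
  have : (0:ℝ) < 1 + ‖ζ‖ ^ 2 := by positivity
  field_simp
  ring

lemma om_yr (n : ℕ) (ζ : ℂ) : om n ζ = (1 - ‖ζ‖ ^ 2 / (1 + ‖ζ‖ ^ 2)) ^ (n - 1) := by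
  rw [one_sub_yr, inv_pow]; rfl

lemma wr_bt0 (p N : ℂ) (ζ : ℂ) : wr p N ‖ζ‖ = bt (1 + p) (N - p) (‖ζ‖ ^ 2 / (1 + ‖ζ‖ ^ 2)) := by
  rcases eq_or_ne ζ 0 with h | h
  · subst h
    unfold wr bt
    simp
  · have h1 := wr_bt (p0 := p) (N := N) (norm_pos_iff.2 h) 0
    simp only [mul_zero, pow_zero, Complex.ofReal_one, one_mul, Nat.cast_zero, zero_add,
      sub_zero] at h1
    exact h1

lemma rl_eq (p N : ℂ) (J : ℕ) (ζ : ℂ) :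
    ∑ j ∈ Finset.range J, ((‖ζ‖ ^ (2 * j) : ℝ) : ℂ) * wr p N ‖ζ‖ / cj p N j =
      rl p N J (‖ζ‖ ^ 2 / (1 + ‖ζ‖ ^ 2)) := by
  unfold rl
  refine Finset.sum_congr rfl fun j _ => ?_
  rw [yr_eq, wr_bt0, pow_mul]

lemma Xr_eq (n : ℕ) (p N : ℂ) (J : ℕ) (ζ : ℂ) :
    om n ζ * Xi2 p N J ζ = Xr n p N J (‖ζ‖ ^ 2 / (1 + ‖ζ‖ ^ 2)) := by
  unfold Xr Xi2
  rw [yr_eq, om_yr]
  simp_rw [pow_mul]

/-- the three properties of the approximate kernel -/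
def Good (n : ℕ) (W : ℂ → ℂ) (τ Γ Y : ℝ) (ρ x : ℂ) : Prop :=
  ∃ kx : Fin n → ℂ,
    (∀ f, ‖Bf n W f kx - Pe f x‖ * √(om n x) ≤ τ * √Y * √(nrl n W f)) ∧
    √(nrc n W kx) * √(om n x) ≤ Γ * √Y ∧
    ‖Pe kx (starRingEnd ℂ x) * ((om n x : ℂ) * W x) - ρ‖ ≤ τ * (‖W x‖ * Y)

lemma Good.mono {n : ℕ} {W : ℂ → ℂ} {τ Γ Y τ' Γ' Y' : ℝ} {ρ x : ℂ} (h : Good n W τ Γ Y ρ x)
    (h0 : 0 ≤ τ') (h0' : 0 ≤ Γ') (h1 : τ ≤ τ') (h2 : Γ ≤ Γ') (h3 : Y ≤ Y') (hY : 0 ≤ Y) :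
    Good n W τ' Γ' Y' ρ x := by
  obtain ⟨kx, a1, a2, a3⟩ := h
  refine ⟨kx, fun f => (a1 f).trans ?_, a2.trans ?_, a3.trans ?_⟩
  · have := Real.sqrt_nonneg (nrl n W f)
    have := Real.sqrt_le_sqrt h3
    gcongr
  · have := Real.sqrt_le_sqrt h3
    gcongr
  · gcongr

/-- one point -/
lemma key_pt {n : ℕ} (hn : 1 ≤ n) {s t : ℂ} (h : ‖s‖ ^ 2 + ‖t‖ ^ 2 = 1) {a b p : Fin k → ℂ}
    {p0 : ℂ} {a' b' p' : Fin k → ℂ} (hW : Integrable (Wt a b p) mu)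
    (hWr : ∀ ζ, rden s t ζ ≠ 0 → Wt a b p (rot s t ζ) = Wl p0 a' b' p' ζ) {ζ0 : ℂ}
    (h0 : rden s t ζ0 ≠ 0) {J : ℕ} {N : ℂ} {C E : ℝ} 
    (hX : 1 ≤ Xi2 p0 N J ζ0)
    (hex : ∃ P : Polynomial ℂ, P.natDegree < n ∧
        (∀ F : ℂ → ℂ, Differentiable ℂ F →
          Integrable (fun ζ => ‖F ζ‖ ^ 2 * (om n ζ * ‖Wl p0 a' b' p' ζ‖)) mu →
          ‖∫ ζ, F ζ * P.eval (starRingEnd ℂ ζ) * ((om n ζ : ℂ) * Wl p0 a' b' p' ζ) ∂mu - F ζ0‖ ≤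
          (E * √(Xi2 p0 N J ζ0)) *
            √(∫ ζ, ‖F ζ‖ ^ 2 * (om n ζ * ‖Wl p0 a' b' p' ζ‖) ∂mu)) ∧
        √(∫ ζ, ‖P.eval (starRingEnd ℂ ζ)‖ ^ 2 * (om n ζ * ‖Wl p0 a' b' p' ζ‖) ∂mu) ≤
          C * n * √(Xi2 p0 N J ζ0) ∧
        ‖P.eval (starRingEnd ℂ ζ0) * ((om n ζ0 : ℂ) * Wl p0 a' b' p' ζ0) -
          ∑ j ∈ Finset.range J, ((‖ζ0‖ ^ (2 * j) : ℝ) : ℂ) *
            wr p0 N ‖ζ0‖ / cj p0 N j‖ ≤
          E * (om n ζ0 * ‖Wl p0 a' b' p' ζ0‖ * Xi2 p0 N J ζ0)) :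
    Good n (Wt a b p) E (C * n) (Xr n p0 N J (‖ζ0‖ ^ 2 / (1 + ‖ζ0‖ ^ 2)))
      (rl p0 N J (‖ζ0‖ ^ 2 / (1 + ‖ζ0‖ ^ 2))) (rot s t ζ0) := by
  obtain ⟨P, hP, h1, h2, h3⟩ := hex
  obtain ⟨kx, e1, e2, e3⟩ := trans hn h hW hWr h0 hP h1 h2 h3
  have hs : √(Xi2 p0 N J ζ0) * √(om n ζ0) = √(Xr n p0 N J (‖ζ0‖ ^ 2 / (1 + ‖ζ0‖ ^ 2))) := by
    rw [← Xr_eq, mul_comm (om n ζ0), Real.sqrt_mul (by linarith)]
  refine ⟨kx, fun f => (e1 f).trans (le_of_eq ?_), e2.trans (le_of_eq ?_), ?_⟩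
  · rw [← hs]; ring
  · rw [← hs]; ring
  · rw [rl_eq, ← hWr ζ0 h0] at e3
    refine e3.trans (le_of_eq ?_)
    rw [← Xr_eq]; ring

/-- rotating the bulk point to the origin -/
lemma bulk_st (x : ℂ) : ∃ s t : ℂ, ‖s‖ ^ 2 + ‖t‖ ^ 2 = 1 ∧ rden s t 0 ≠ 0 ∧ rot s t 0 = x ∧
    ∀ a b : ℂ, ‖rb s t a b‖ ^ 2 = dc a b x := by
  set r : ℝ := √(1 + ‖x‖ ^ 2) with hr
  have hr0 : 0 < r := Real.sqrt_pos.2 (one_add_pos x)
  have hr2 : r ^ 2 = 1 + ‖x‖ ^ 2 := Real.sq_sqrt (one_add_pos x).le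
  have hrc : (r:ℂ) ≠ 0 := by exact_mod_cast hr0.ne'
  have hnr : ‖(r:ℂ)‖ = r := by rw [Complex.norm_real, Real.norm_eq_abs, abs_of_pos hr0]
  refine ⟨1 / r, x / r, ?_, ?_, ?_, fun a b => ?_⟩
  · rw [norm_div, norm_div, hnr, div_pow, div_pow, norm_one, hr2]
    have := one_add_pos x
    field_simp
  · unfold rden
    simp
    exact hr0.ne'
  · unfold rot
    simp
    field_simp
  · unfold rb dc
    have : a * (x / r) + b * starRingEnd ℂ (1 / r : ℂ) = (a * x + b) / r := by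
      simp
      field_simp
    rw [this, norm_div, hnr, div_pow, hr2]

/-- rotating a point near a charge -/
lemma near_st {a b : ℂ} (h : ‖a‖ ^ 2 + ‖b‖ ^ 2 = 1) {x : ℂ} (hx : dc a b x < 1) :
    ∃ ζ0 : ℂ, rden (starRingEnd ℂ a) (-b) ζ0 ≠ 0 ∧ rot (starRingEnd ℂ a) (-b) ζ0 = x ∧
      ‖ζ0‖ ^ 2 / (1 + ‖ζ0‖ ^ 2) = dc a b x := by
  have hd : -(starRingEnd ℂ b) * x + starRingEnd ℂ a ≠ 0 := by
    intro h0
    have h1 := lagr (s := a) (t := b) h x 1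
    simp only [mul_one, norm_one, one_pow] at h1
    rw [h0, norm_zero] at h1
    unfold dc at hx
    rw [div_lt_one (one_add_pos x)] at hx
    linarith
  set q := -(starRingEnd ℂ b) * x + starRingEnd ℂ a with hq
  have hs := st_eq h
  have h1 : rden (starRingEnd ℂ a) (-b) ((a * x + b) / q) = 1 / q := by
    unfold rden
    rw [eq_div_iff hd]
    field_simp
    rw [hq]
    simp only [map_neg, Complex.conj_conj]
    linear_combination hs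
  have hne : rden (starRingEnd ℂ a) (-b) ((a * x + b) / q) ≠ 0 := by
    rw [h1]; exact one_div_ne_zero hd
  have h2 : rot (starRingEnd ℂ a) (-b) ((a * x + b) / q) = x := by
    have e : rot (starRingEnd ℂ a) (-b) ((a * x + b) / q) =
        (starRingEnd ℂ a * ((a * x + b) / q) + -b) /
          rden (starRingEnd ℂ a) (-b) ((a * x + b) / q) := rfl
    rw [e, h1]
    field_simp
    rw [hq]
    linear_combination x * hs
  refine ⟨(a * x + b) / q, hne, h2, ?_⟩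
  rw [← dc_center h hne, h2]

lemma sum_update (p : Fin k → ℂ) (l : Fin k) :
    p l + ∑ i, (if i = l then 0 else p i) = ∑ i, p i := by
  rw [← Finset.add_sum_erase _ _ (Finset.mem_univ l), ← Finset.add_sum_erase _ p (Finset.mem_univ l)]
  simp only [if_true, zero_add]
  congr 1
  refine Finset.sum_congr rfl fun i hi => ?_
  rw [if_neg (Finset.ne_of_mem_erase hi)]

lemma Wl_near {a b p : Fin k → ℂ} (hu : ∀ i, ‖a i‖ ^ 2 + ‖b i‖ ^ 2 = 1) (l : Fin k) {ζ : ℂ}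
    (hz : rden (starRingEnd ℂ (a l)) (-b l) ζ ≠ 0) :
    Wt a b p (rot (starRingEnd ℂ (a l)) (-b l) ζ) =
      Wl (p l) (fun i => if i = l then 0 else ra (starRingEnd ℂ (a l)) (-b l) (a i) (b i))
        (fun i => if i = l then 1 else rb (starRingEnd ℂ (a l)) (-b l) (a i) (b i))
        (fun i => if i = l then 0 else p i) ζ := by
  obtain ⟨h1, h2, h3⟩ := rot_center (hu l)
  rw [Wt_rot h1 _ _ _ _ hz]
  unfold Wl Wt
  rw [← Complex.exp_add]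
  congr 1
  rw [← Finset.add_sum_erase _ _ (Finset.mem_univ l),
    ← Finset.add_sum_erase (s := Finset.univ) (f := fun i => (if i = l then 0 else p i) *
      ((Real.log (dc (if i = l then 0 else ra (starRingEnd ℂ (a l)) (-b l) (a i) (b i))
        (if i = l then 1 else rb (starRingEnd ℂ (a l)) (-b l) (a i) (b i)) ζ) : ℝ) : ℂ))
        (h := Finset.mem_univ l)]
  simp only [if_true, zero_mul, zero_add]
  rw [h2, h3]
  congr 1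
  · unfold dc; simp
  · refine Finset.sum_congr rfl fun i hi => ?_
    have : i ≠ l := Finset.ne_of_mem_erase hi
    simp only [if_neg this]

lemma cj0 {N : ℂ} (hN : 0 < N.re) : cj 0 N 0 = 1 / N ∧ Cj 0 N 0 = 1 / N.re := by
  have hN0 : N ≠ 0 := by intro h; rw [h] at hN; simp at hN
  obtain ⟨-, h2, h3⟩ := cj_eq (p0 := 0) (N := N) (j := 0) (by simp) (by simpa using hN)
  constructor
  · rw [h2, (int_bt (by simp) (by simpa using hN)).2]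
    simp only [Nat.cast_zero, zero_add, add_zero, sub_zero, Complex.Gamma_one, one_mul]
    rw [add_comm, Complex.Gamma_add_one N hN0]
    have : Complex.Gamma N ≠ 0 := Complex.Gamma_ne_zero_of_re_pos hN
    field_simp
  · rw [h3, int_norm_bt (by simp) (by simpa using hN)]
    simp only [Nat.cast_zero, zero_add, add_zero, sub_zero, Complex.one_re, Real.Gamma_one, one_mul]
    rw [add_comm, Real.Gamma_add_one hN.ne']
    have : Real.Gamma N.re ≠ 0 := (Real.Gamma_pos_of_pos hN).ne'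
    field_simp

end

end Pool.Agent.H972.FH
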