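import Pool.Agent.H972.FH.Key

set_option autoImplicit false

open MeasureTheory Complex Filter Topology Set
open scoped ENNReal

namespace Pool.Agent.H972.FH

noncomputable section

variable {k : ℕ}

lemma Wl_int {s t : ℂ} (h : ‖s‖ ^ 2 + ‖t‖ ^ 2 = 1) {a b p : Fin k → ℂ}
    {p0 : ℂ} {a' b' p' : Fin k → ℂ} {CW : ℝ} (hW : Integrable (Wt a b p) mu)
    (hCW : ∫ z, ‖Wt a b p z‖ ∂mu ≤ CW)
    (hWr : ∀ ζ, rden s t ζ ≠ 0 → Wt a b p (rot s t ζ) = Wl p0 a' b' p' ζ) :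
    Integrable (Wl p0 a' b' p') mu ∧ ∫ z, ‖Wl p0 a' b' p' z‖ ∂mu ≤ CW := by
  have hae : (fun ζ => Wt a b p (rot s t ζ)) =ᵐ[mu] Wl p0 a' b' p' := by
    filter_upwards [ae_rden h] with ζ hζ
    exact hWr ζ hζ
  refine ⟨(integrable_rot h hW).congr hae, ?_⟩
  have h2 : ∫ z, ‖Wl p0 a' b' p' z‖ ∂mu = ∫ z, ‖Wt a b p (rot s t z)‖ ∂mu := by
    refine integral_congr_ae ?_
    filter_upwards [hae] with ζ hζ
    rw [hζ]
  rw [h2, int_rot h (Φ := fun z => ‖Wt a b p z‖) hW.aestronglyMeasurable.norm]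
  exact hCW

lemma Xr_nonneg {n : ℕ} {p N : ℂ} {J : ℕ} {y : ℝ} (h0 : 0 ≤ y) (h1 : y < 1)
    (hC : ∀ j < J, 0 < Cj p N j) : 0 ≤ Xr n p N J y := by
  unfold Xr
  have h2 : 0 < 1 - y := by linarith
  have h3 : 0 ≤ ∑ j ∈ Finset.range J, (y / (1 - y)) ^ j / Cj p N j :=
    Finset.sum_nonneg fun j hj => by
      have := hC j (Finset.mem_range.1 hj)
      positivity
  positivity

lemma Y2_term_nonneg {n J : ℕ} {y1 : ℝ} {a b p : Fin k → ℂ} (hy1 : y1 ≤ 1)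
    (hC : ∀ l, ∀ j < J, 0 < Cj (p l) (NN n p) j) (x : ℂ) (l : Fin k) :
    0 ≤ if dc (a l) (b l) x < y1 then Xr n (p l) (NN n p) J (dc (a l) (b l) x) else 0 := by
  split_ifs with h
  · exact Xr_nonneg (dc_nonneg _ _ _) (by linarith) (hC l)
  · exact le_rfl

lemma Xr_zero {n J : ℕ} {N : ℂ} (hJ : 1 ≤ J) : Xr n 0 N J 0 = 1 + 1 / Cj 0 N 0 := by
  unfold Xr
  obtain ⟨J', rfl⟩ : ∃ J', J = J' + 1 := ⟨J - 1, by omega⟩
  rw [Finset.sum_range_succ']
  simp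

lemma rl_zero {J : ℕ} {N : ℂ} (hN : 0 < N.re) (hJ : 1 ≤ J) : rl 0 N J 0 = N := by
  unfold rl
  obtain ⟨J', rfl⟩ : ∃ J', J = J' + 1 := ⟨J - 1, by omega⟩
  rw [Finset.sum_range_succ', (cj0 hN).1]
  unfold bt
  simp

theorem key (k : ℕ) (A η σ : ℝ) (hA : 0 ≤ A) (hη : 0 < η) (hη1 : η ≤ 1) (hσ : 0 < σ)
    (hσ1 : σ ≤ 1) : ∃ ε ys : ℝ, 0 < ε ∧ ε ≤ 1 / 4 ∧ 0 < ys ∧ ys ≤ σ ^ 2 / 16 ∧
    ∀ y1, 0 < y1 → y1 ≤ ys → ∃ c C K : ℝ, ∃ n0 : ℕ, 0 < c ∧ 0 < C ∧ 0 < K ∧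
      ∀ (n : ℕ) (a b p : Fin k → ℂ), n0 ≤ n → Cfg σ a b → Adm A η p →
      (1 ≤ n ∧ 1 ≤ ⌊ε * n⌋₊ ∧ 2 * ⌊ε * n⌋₊ ≤ n ∧ 0 < (NN n p).re ∧ ∀ l, ∀ j : ℕ, (j:ℝ) ≤ ε * n →
        0 < (NN n p - j - p l).re ∧ 0 < Cj (p l) (NN n p) j ∧
        Cj (p l) (NN n p) j ≤ K * ‖cj (p l) (NN n p) j‖) ∧
      ∀ x, Good n (Wt a b p) (C * Real.exp (-(c * n))) (C * n) (Y2 n ⌊ε * n⌋₊ y1 a b p x)
        (rho n ⌊ε * n⌋₊ y1 a b p x) x := by
  set CW : ℝ := Real.exp (k * cM σ) * (1 + k * (1 / η)) with hCW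
  have hCW0 : 0 ≤ CW := by positivity
  obtain ⟨ε, c, C, K, δ, n0, hε, hε4, hc, hC, hK, hδ, hδl, hloc⟩ :=
    loc_final k A η σ CW hA hη hσ hσ1 hCW0
  have hσ16 : σ ^ 2 / 16 ≤ 1 / 16 := by nlinarith
  refine ⟨ε, min (δ ^ 2 / (1 + δ ^ 2)) (σ ^ 2 / 16), hε, hε4, by positivity, min_le_right _ _,
    fun y1 hy0 hy1 => ?_⟩
  have hy1a : y1 ≤ δ ^ 2 / (1 + δ ^ 2) := hy1.trans (min_le_left _ _)
  have hy1b : y1 ≤ σ ^ 2 / 16 := hy1.trans (min_le_right _ _)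
  have hs0 : 0 < √y1 := Real.sqrt_pos.2 hy0
  have hs1 : √y1 ≤ 1 := by
    rw [Real.sqrt_le_one]; linarith
  obtain ⟨ε', c', C', K', δ', n0', hε', hε4', hc', hC', hK', hδ', hδl', hloc'⟩ :=
    loc_final k A η (√y1) CW hA hη hs0 hs1 hCW0
  refine ⟨min c c', max C C', K, max (max n0 n0') (max (⌈k * A⌉₊ + 1) ⌈1 / ε⌉₊), lt_min hc hc',
    lt_max_of_lt_left hC, hK, fun n a b p hn hcfg hadm => ?_⟩
  have hnn : n0 ≤ n := ((le_max_left _ _).trans (le_max_left _ _)).trans hn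
  have hnn' : n0' ≤ n := ((le_max_right _ _).trans (le_max_left _ _)).trans hn
  have hn2 : ⌈k * A⌉₊ + 1 ≤ n := ((le_max_left _ _).trans (le_max_right _ _)).trans hn
  have hn3 : ⌈1 / ε⌉₊ ≤ n := ((le_max_right _ _).trans (le_max_right _ _)).trans hn
  have hn1 : 1 ≤ n := by omega
  have hJ1 : 1 ≤ ⌊ε * n⌋₊ := by
    refine Nat.le_floor ?_
    have h1 : 1 / ε ≤ n := (Nat.le_ceil _).trans (by exact_mod_cast hn3)
    rw [div_le_iff₀ hε] at h1
    push_cast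
    linarith
  have hJ2 : 2 * ⌊ε * n⌋₊ ≤ n := by
    have h1 : ((⌊ε * n⌋₊ : ℕ) : ℝ) ≤ ε * n := Nat.floor_le (by positivity)
    have h2 : ε * n ≤ 1 / 4 * n := by gcongr
    have h3 : (0:ℝ) ≤ n := Nat.cast_nonneg n
    have h4 : ((2 * ⌊ε * n⌋₊ : ℕ) : ℝ) ≤ n := by push_cast; linarith
    exact_mod_cast h4
  have hNN : 0 < (NN n p).re := by
    unfold NN
    rw [Complex.add_re, Complex.natCast_re, Complex.re_sum]
    have h1 : |∑ i, (p i).re| ≤ k * A := by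
      refine (Finset.abs_sum_le_sum_abs _ _).trans ?_
      calc ∑ i, |(p i).re| ≤ ∑ _i : Fin k, A := Finset.sum_le_sum fun i _ =>
            (Complex.abs_re_le_norm _).trans (hadm.bd i)
        _ = k * A := by simp
    have h2 : k * A ≤ ⌈k * A⌉₊ := Nat.le_ceil _
    have h3 : ((⌈k * A⌉₊ + 1 : ℕ) : ℝ) ≤ n := by exact_mod_cast hn2
    push_cast at h3
    have := (abs_le.1 h1).1
    linarith
  obtain ⟨hWi, hWC⟩ := Wt_int (A := A) hσ hσ1 hη hη1 hcfg hadm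
  have hex1 : C * Real.exp (-(c * n)) ≤ max C C' * Real.exp (-(min c c' * n)) := by
    have h1 : Real.exp (-(c * n)) ≤ Real.exp (-(min c c' * n)) := by
      refine Real.exp_le_exp.2 ?_
      have : min c c' * n ≤ c * n := by gcongr; exact min_le_left _ _
      linarith
    have h2 := le_max_left C C'
    gcongr
  have hex2 : C' * Real.exp (-(c' * n)) ≤ max C C' * Real.exp (-(min c c' * n)) := by
    have h1 : Real.exp (-(c' * n)) ≤ Real.exp (-(min c c' * n)) := by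
      refine Real.exp_le_exp.2 ?_
      have : min c c' * n ≤ c' * n := by gcongr; exact min_le_right _ _
      linarith
    have h2 := le_max_right C C'
    gcongr
  -- the bulk data
  have bulk : ∀ s t : ℂ, ‖s‖ ^ 2 + ‖t‖ ^ 2 = 1 → (∀ i, √y1 ≤ ‖rb s t (a i) (b i)‖) →
      (1 ≤ n ∧ 1 ≤ ⌊ε' * n⌋₊ ∧ 0 < (NN n p).re) ∧ (rden s t 0 ≠ 0 →
      Good n (Wt a b p) (C' * Real.exp (-(c' * n))) (C' * n) (1 + 1 / Cj 0 (NN n p) 0)
        (NN n p) (rot s t 0)) := by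
    intro s t hst hlam
    have hWr : ∀ ζ, rden s t ζ ≠ 0 → Wt a b p (rot s t ζ) =
        Wl 0 (fun i => ra s t (a i) (b i)) (fun i => rb s t (a i) (b i)) p ζ := by
      intro ζ hz
      rw [Wt_rot hst a b p ζ hz]
      unfold Wl
      simp
    obtain ⟨h1, h2⟩ := Wl_int hst hWi hWC hWr
    obtain ⟨⟨a1, a2, a3, a4⟩, hx⟩ := hloc' n 0 (fun i => ra s t (a i) (b i))
      (fun i => rb s t (a i) (b i)) p hnn' (by simpa using hA) (by simp; linarith) hadm.bd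
      (fun i => by rw [norm_rab hst]; exact hcfg.unit i) hlam h1 h2
    have eN : (n + 0 + ∑ i, p i : ℂ) = NN n p := by unfold NN; ring
    rw [eN] at hx a4
    have hNre : 0 < (NN n p).re := by
      have := (a4 0 (by simp; positivity)).1
      simpa using this
    refine ⟨⟨a1, a2, hNre⟩, fun hz => ?_⟩
    obtain ⟨hX, hP⟩ := hx 0 (by simpa using hδ'.le)
    have hg := key_pt a1 hst hWi hWr (ζ0 := 0) hz hX hP
    have e0 : ‖(0:ℂ)‖ ^ 2 / (1 + ‖(0:ℂ)‖ ^ 2) = 0 := by simp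
    rw [e0, Xr_zero a2, rl_zero hNre a2] at hg
    exact hg
  -- the near data
  have near : ∀ l, (1 ≤ n ∧ 1 ≤ ⌊ε * n⌋₊ ∧ 2 * ⌊ε * n⌋₊ ≤ n ∧ ∀ j : ℕ, (j:ℝ) ≤ ε * n →
        0 < (NN n p - j - p l).re ∧ 0 < Cj (p l) (NN n p) j ∧
        Cj (p l) (NN n p) j ≤ K * ‖cj (p l) (NN n p) j‖) ∧
      ∀ ζ0, ‖ζ0‖ ≤ δ → rden (starRingEnd ℂ (a l)) (-b l) ζ0 ≠ 0 →
      Good n (Wt a b p) (C * Real.exp (-(c * n))) (C * n)
        (Xr n (p l) (NN n p) ⌊ε * n⌋₊ (‖ζ0‖ ^ 2 / (1 + ‖ζ0‖ ^ 2)))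
        (rl (p l) (NN n p) ⌊ε * n⌋₊ (‖ζ0‖ ^ 2 / (1 + ‖ζ0‖ ^ 2)))
        (rot (starRingEnd ℂ (a l)) (-b l) ζ0) := by
    intro l
    obtain ⟨hst, r2, r3⟩ := rot_center (hcfg.unit l)
    have hWr : ∀ ζ, rden (starRingEnd ℂ (a l)) (-b l) ζ ≠ 0 →
        Wt a b p (rot (starRingEnd ℂ (a l)) (-b l) ζ) = _ := fun ζ hz => Wl_near hcfg.unit l hz
    obtain ⟨h1, h2⟩ := Wl_int hst hWi hWC hWr
    obtain ⟨⟨a1, a2, a3, a4⟩, hx⟩ := hloc n (p l) 
      (fun i => if i = l then 0 else ra (starRingEnd ℂ (a l)) (-b l) (a i) (b i))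
      (fun i => if i = l then 1 else rb (starRingEnd ℂ (a l)) (-b l) (a i) (b i))
      (fun i => if i = l then 0 else p i) hnn (hadm.bd l) (hadm.re l)
      (fun i => by
        by_cases h : i = l
        · simp only [if_pos h]; simpa using hA
        · simp only [if_neg h]; exact hadm.bd i)
      (fun i => by
        by_cases h : i = l
        · simp only [if_pos h]; simp
        · simp only [if_neg h]; rw [norm_rab hst]; exact hcfg.unit i)
      (fun i => by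
        by_cases h : i = l
        · simp only [if_pos h]; simpa using hσ1
        · simp only [if_neg h]
          have h3 := hcfg.sep i l h
          unfold rb
          rw [Complex.conj_conj, show a i * -b l + b i * a l = -(a i * b l - a l * b i) by ring,
            norm_neg]
          exact h3) h1 h2
    have eN : (n + p l + ∑ i, (if i = l then 0 else p i) : ℂ) = NN n p := by
      unfold NN
      rw [add_assoc, sum_update]
    rw [eN] at hx a4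
    refine ⟨⟨a1, a2, a3, a4⟩, fun ζ0 hζ hz => ?_⟩
    obtain ⟨hX, hP⟩ := hx ζ0 hζ
    exact key_pt a1 hst hWi hWr hz hX hP
  refine ⟨⟨hn1, hJ1, hJ2, hNN, fun l => (near l).1.2.2.2⟩, fun x => ?_⟩
  set J := ⌊ε * n⌋₊ with hJ
  have hCp : ∀ l, ∀ j < J, 0 < Cj (p l) (NN n p) j := by
    intro l j hj
    exact ((near l).1.2.2.2 j (Nat.lt_of_lt_floor hj).le).2.1
  have hC0 : 0 < Cj 0 (NN n p) 0 := by
    rw [(cj0 hNN).2]; positivity
  have hy11 : y1 ≤ 1 := by linarith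
  have hterm := fun l => Y2_term_nonneg (n := n) (a := a) (b := b) hy11 hCp x l
  by_cases hcase : ∃ l, dc (a l) (b l) x < y1
  · obtain ⟨l, hl⟩ := hcase
    have hfar : ∀ i, i ≠ l → ¬ dc (a i) (b i) x < y1 := by
      intro i hi
      have := (far hσ hcfg (z := x) (l := l) (i := i) (by linarith) hi).2
      linarith
    obtain ⟨ζ0, hz, hrot, hy⟩ := near_st (hcfg.unit l) (x := x) (by linarith)
    have hζ : ‖ζ0‖ ≤ δ := by
      have h1 : ‖ζ0‖ ^ 2 / (1 + ‖ζ0‖ ^ 2) < δ ^ 2 / (1 + δ ^ 2) := by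
        rw [hy]; linarith
      rw [div_lt_div_iff₀ (by positivity) (by positivity)] at h1
      refine le_of_sq_le_sq ?_ hδ.le
      linarith
    have hg := (near l).2 ζ0 hζ hz
    rw [hrot, hy] at hg
    have hrho : rho n J y1 a b p x = rl (p l) (NN n p) J (dc (a l) (b l) x) := by
      unfold rho
      rw [← Finset.add_sum_erase _ _ (Finset.mem_univ l), if_pos hl,
        Finset.sum_eq_zero fun i hi => if_neg (hfar i (Finset.ne_of_mem_erase hi))]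
      ring
    rw [hrho]
    refine hg.mono (by positivity) (by positivity) hex1 ?_ ?_ 
      (Xr_nonneg (dc_nonneg _ _ _) (by linarith) (hCp l))
    · gcongr
      exact le_max_left _ _
    · unfold Y2
      have h1 := Finset.single_le_sum (f := fun l => if dc (a l) (b l) x < y1 then
        Xr n (p l) (NN n p) J (dc (a l) (b l) x) else 0) (fun i _ => hterm i) (Finset.mem_univ l)
      simp only [if_pos hl] at h1
      have h2 : 0 ≤ 1 + 1 / Cj 0 (NN n p) 0 := by positivity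
      linarith
  · push Not at hcase
    obtain ⟨s, t, hst, hz, hrot, hdc⟩ := bulk_st x
    obtain ⟨-, hg⟩ := bulk s t hst (fun i => by
      have h1 := hcase i
      rw [← hdc] at h1
      have := Real.sqrt_le_sqrt h1
      rwa [Real.sqrt_sq (norm_nonneg _)] at this)
    have hg := hg hz
    rw [hrot] at hg
    have hrho : rho n J y1 a b p x = NN n p := by
      unfold rho
      rw [Finset.sum_eq_zero fun i _ => if_neg (not_lt.2 (hcase i)), add_zero]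
    have hY : Y2 n J y1 a b p x = 1 + 1 / Cj 0 (NN n p) 0 := by
      unfold Y2
      rw [Finset.sum_eq_zero fun i _ => if_neg (not_lt.2 (hcase i)), add_zero]
    rw [hrho, hY]
    refine hg.mono (by positivity) (by positivity) hex2 ?_ le_rfl (by positivity)
    gcongr
    exact le_max_right _ _

end

end Pool.Agent.H972.FH
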