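import Pool.Agent.H972.FH.JD
import Pool.Agent.H972.FH.Jac
import Pool.Graph.R_pool_sql_team_seeded_35f281b4.K7.H89.GMC.GEO

set_option autoImplicit false

open MeasureTheory Filter Topology Set
open scoped ENNReal

namespace Pool.Agent.H972.FH

open Pool.Agent.R923.SE Pool.Agent.K7.H95.GMC Pool.Agent.K7.H96.GMC

noncomputable section

/-- the matrix `A B⁻¹` -/
def qt {n : ℕ} (x : Mt n n × Mt n n) : Mt n n := fun i j => (Matrix.of x.1 * (Matrix.of x.2)⁻¹) i j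

lemma of_qt {n : ℕ} (x : Mt n n × Mt n n) : Matrix.of (qt x) = Matrix.of x.1 * (Matrix.of x.2)⁻¹ := rfl

lemma measurable_qt {n : ℕ} : Measurable (qt : Mt n n × Mt n n → Mt n n) := measurable_AB

theorem law_lint (n : ℕ) : ∃ C : ℝ≥0∞, C ≠ 0 ∧ C ≠ ∞ ∧
    ∀ G : Mt n n → ℝ≥0∞, Measurable G → Cls G →
    ∫⁻ x, G (qt x) ∂gg n = ∫⁻ z : Fin n → ℂ, G (dgm z) * (C * ENNReal.ofReal (dnr (n + 1) z)) := by
  have hn : (0 : ℝ) ≤ n := Nat.cast_nonneg n
  obtain ⟨C, hC0, hCt, h⟩ := JD n (2 * n) (by linarith)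
  have hIg := Ig_eq n (n + 0) (by linarith)
  have hIg0 : Ig n (n + 0) ≠ 0 := by
    rw [hIg]
    have : 0 < ∏ j ∈ Finset.range n, Real.Gamma (j + 1 + ((n:ℝ) + 0)) / Real.Gamma (j + 1) :=
      Finset.prod_pos fun j _ => by
        have hj0 : (0 : ℝ) ≤ j := Nat.cast_nonneg j
        have g1 := Real.Gamma_pos_of_pos (show 0 < (j : ℝ) + 1 + (n + 0) by linarith)
        have g2 := Real.Gamma_pos_of_pos (show 0 < (j : ℝ) + 1 by linarith)
        positivity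
    simpa using this
  have hIgt : Ig n (n + 0) ≠ ∞ := by rw [hIg]; exact ENNReal.ofReal_ne_top
  have hpi : ENNReal.ofReal ((Real.pi ^ (n * n))⁻¹) ≠ 0 := by
    have : 0 < (Real.pi ^ (n * n))⁻¹ := by positivity
    simpa using this
  refine ⟨ENNReal.ofReal ((Real.pi ^ (n * n))⁻¹) * Ig n (n + 0) * C,
    mul_ne_zero (mul_ne_zero hpi hIg0) hC0,
    ENNReal.mul_ne_top (ENNReal.mul_ne_top ENNReal.ofReal_ne_top hIgt) hCt, fun G hG hGc => ?_⟩
  have h1 := red 0 (by norm_num) G hG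
  have e1 : ∫⁻ x, G (qt x) ∂gg n = ∫⁻ x, PG 0 G x ∂gg n := by
    refine lintegral_congr fun x => ?_
    simp [PG]
    rfl
  have e2 : ∫⁻ X : Mt n n, G X * ENNReal.ofReal (yy (Matrix.of X) ^ (0:ℝ)) *
        ENNReal.ofReal ((dd (Matrix.of X)).re ^ (-(2 * (n : ℝ) + 0))) =
      ∫⁻ X : Mt n n, G X * ENNReal.ofReal ((dd (Matrix.of X)).re ^ (-(2 * (n : ℝ)))) := by
    refine lintegral_congr fun X => ?_
    simp
  rw [e1, h1, e2, h G hG hGc, show 2 * (n:ℝ) - n + 1 = n + 1 by ring, ← mul_assoc,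
    ← lintegral_const_mul' _ _ (ENNReal.mul_ne_top (ENNReal.mul_ne_top ENNReal.ofReal_ne_top
      hIgt) hCt)]
  refine lintegral_congr fun z => ?_
  ring

/-- equality of integrals of complex class functions -/
theorem cls_int {n : ℕ} {Ω₁ Ω₂ : Type*} [MeasurableSpace Ω₁] [MeasurableSpace Ω₂]
    {μ₁ : Measure Ω₁} {μ₂ : Measure Ω₂} {T₁ : Ω₁ → Mt n n} {T₂ : Ω₂ → Mt n n}
    (hT₁ : Measurable T₁) (hT₂ : Measurable T₂)
    (h : ∀ G : Mt n n → ℝ≥0∞, Measurable G → Cls G → ∫⁻ x, G (T₁ x) ∂μ₁ = ∫⁻ x, G (T₂ x) ∂μ₂)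
    {F : Mt n n → ℂ} (hF : Measurable F) (hFc : Cls F) :
    ∫ x, F (T₁ x) ∂μ₁ = ∫ x, F (T₂ x) ∂μ₂ := by
  have hnorm := h (fun X => ‖F X‖ₑ) hF.enorm (fun X X' hX => by
    simp only
    rw [hFc X X' hX])
  have hiff : Integrable (fun x => F (T₁ x)) μ₁ ↔ Integrable (fun x => F (T₂ x)) μ₂ := by
    have a1 : Integrable (fun x => F (T₁ x)) μ₁ ↔ ∫⁻ x, ‖F (T₁ x)‖ₑ ∂μ₁ < ∞ :=
      ⟨fun hh => hh.2, fun hh => ⟨(hF.comp hT₁).aestronglyMeasurable, hh⟩⟩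
    have a2 : Integrable (fun x => F (T₂ x)) μ₂ ↔ ∫⁻ x, ‖F (T₂ x)‖ₑ ∂μ₂ < ∞ :=
      ⟨fun hh => hh.2, fun hh => ⟨(hF.comp hT₂).aestronglyMeasurable, hh⟩⟩
    rw [a1, a2, hnorm]
  by_cases h1 : Integrable (fun x => F (T₁ x)) μ₁
  · have h2 := hiff.1 h1
    have hre : ∀ f : Mt n n → ℝ, Measurable f → Cls f → Integrable (fun x => f (T₁ x)) μ₁ →
        Integrable (fun x => f (T₂ x)) μ₂ → ∫ x, f (T₁ x) ∂μ₁ = ∫ x, f (T₂ x) ∂μ₂ := by
      intro f hf hfc i1 i2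
      rw [integral_eq_lintegral_pos_part_sub_lintegral_neg_part i1,
        integral_eq_lintegral_pos_part_sub_lintegral_neg_part i2,
        h (fun X => ENNReal.ofReal (f X)) hf.ennreal_ofReal (fun X X' hX => by
          simp only
          rw [hfc X X' hX]),
        h (fun X => ENNReal.ofReal (-f X)) hf.neg.ennreal_ofReal (fun X X' hX => by
          simp only
          rw [hfc X X' hX])]
    have r1 := hre (fun X => (F X).re) (Complex.measurable_re.comp hF)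
      (fun X X' hX => by simp only; rw [hFc X X' hX]) h1.re h2.re
    have r2 := hre (fun X => (F X).im) (Complex.measurable_im.comp hF)
      (fun X X' hX => by simp only; rw [hFc X X' hX]) h1.im h2.im
    have c1 := integral_re_add_im (𝕜 := ℂ) h1
    have c2 := integral_re_add_im (𝕜 := ℂ) h2
    rw [← c1, ← c2]
    have q1 : ∫ x, RCLike.re (F (T₁ x)) ∂μ₁ = ∫ x, RCLike.re (F (T₂ x)) ∂μ₂ := r1
    have q2 : ∫ x, RCLike.im (F (T₁ x)) ∂μ₁ = ∫ x, RCLike.im (F (T₂ x)) ∂μ₂ := r2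
    rw [q1, q2]
  · have h2 := fun hh => h1 (hiff.2 hh)
    rw [integral_undef h1, integral_undef h2]

end

end Pool.Agent.H972.FH
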