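import Pool.Agent.H972.FH.Est

set_option autoImplicit false

open MeasureTheory Complex Filter Topology Set
open scoped ENNReal

namespace Pool.Agent.H972.FH

noncomputable section

variable {k : ℕ}

/-- `∏ (1 + ωᵢ z)^{pᵢ}` -/
def hh (ω p : Fin k → ℂ) (z : ℂ) : ℂ := cexp (∑ i, p i * Complex.log (1 + ω i * z))

/-- the local weight -/
def Wl (p0 : ℂ) (a b p : Fin k → ℂ) (ζ : ℂ) : ℂ :=
  cexp (p0 * (Real.log (‖ζ‖ ^ 2 / (1 + ‖ζ‖ ^ 2)) : ℝ)) * Wt a b p ζ

/-- the constant factor of the local weight -/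
def kap (b p : Fin k → ℂ) : ℂ := cexp (∑ i, p i * (Real.log (‖b i‖ ^ 2) : ℝ))

/-- truncated Taylor polynomial of `1 / hh` -/
def Tp (ω p : Fin k → ℂ) (m : ℕ) : Polynomial ℂ :=
  ∑ l ∈ Finset.range m, Polynomial.C (tc (hh ω (-p)) l) * Polynomial.X ^ l

/-- the radial kernel -/
def Sp (p0 N : ℂ) (J : ℕ) (x : ℂ) : Polynomial ℂ :=
  ∑ j ∈ Finset.range J, Polynomial.C (x ^ j / cj p0 N j) * Polynomial.X ^ j

/-- the approximate kernel -/
def Gp (p0 N : ℂ) (a b p : Fin k → ℂ) (J : ℕ) (x : ℂ) : Polynomial ℂ :=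
  Polynomial.C ((kap b p * hh (fun i => a i / b i) p x)⁻¹) *
    (Tp (fun i => starRingEnd ℂ (a i / b i)) p J * Sp p0 N J x)

/-- the measure of the size of the kernel -/
def Xi2 (p0 N : ℂ) (J : ℕ) (x : ℂ) : ℝ := 1 + ∑ j ∈ Finset.range J, ‖x‖ ^ (2 * j) / Cj p0 N j

lemma hh_ne (ω p : Fin k → ℂ) (z : ℂ) : hh ω p z ≠ 0 := Complex.exp_ne_zero _

lemma hh_neg (ω p : Fin k → ℂ) (z : ℂ) : hh ω (-p) z * hh ω p z = 1 := by
  unfold hh
  rw [← Complex.exp_add, ← Complex.exp_zero]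
  congr 1
  rw [← Finset.sum_add_distrib]
  refine Finset.sum_eq_zero fun i _ => ?_
  simp only [Pi.neg_apply]
  ring

lemma kap_ne (b p : Fin k → ℂ) : kap b p ≠ 0 := Complex.exp_ne_zero _

lemma re_pos_of {ω z : ℂ} {lam : ℝ} (hlam : 0 < lam) (hω : ‖ω‖ ≤ 1 / lam) (hz : ‖z‖ < lam) :
    0 < (1 + ω * z).re := by
  have h1 : ‖ω * z‖ < 1 := by
    rw [norm_mul]
    calc ‖ω‖ * ‖z‖ ≤ 1 / lam * ‖z‖ := by gcongr
      _ < 1 / lam * lam := by gcongr
      _ = 1 := by field_simp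
  have h2 := Complex.abs_re_le_norm (ω * z)
  have h3 := abs_le.1 h2
  simp only [Complex.add_re, Complex.one_re]
  linarith

lemma hh_diff {ω p : Fin k → ℂ} {lam : ℝ} (hlam : 0 < lam) (hω : ∀ i, ‖ω i‖ ≤ 1 / lam) :
    DifferentiableOn ℂ (hh ω p) (Metric.ball 0 lam) := by
  intro z hz
  rw [mem_ball_zero_iff] at hz
  refine DifferentiableAt.differentiableWithinAt ?_
  unfold hh
  refine DifferentiableAt.cexp ?_
  refine DifferentiableAt.fun_sum fun i _ => ?_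
  refine (DifferentiableAt.clog ?_ ?_).const_mul _
  · exact ((differentiableAt_id.const_mul (ω i)).const_add 1)
  · exact Or.inl (re_pos_of hlam (hω i) hz)

lemma hh_bound {ω p : Fin k → ℂ} {lam A : ℝ} (hlam : 0 < lam) (hω : ∀ i, ‖ω i‖ ≤ 1 / lam)
    (hp : ∀ i, ‖p i‖ ≤ A) {z : ℂ} (hz : ‖z‖ ≤ lam / 2) : ‖hh ω p z‖ ≤ Real.exp (k * A) := by
  unfold hh
  rw [Complex.norm_exp]
  refine Real.exp_le_exp.2 ?_
  refine (Complex.re_le_norm _).trans ?_
  refine (norm_sum_le _ _).trans ?_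
  have h1 : ∀ i ∈ Finset.univ, ‖p i * Complex.log (1 + ω i * z)‖ ≤ A := by
    intro i _
    have h2 : ‖ω i * z‖ ≤ 1 / 2 := by
      rw [norm_mul]
      calc ‖ω i‖ * ‖z‖ ≤ 1 / lam * (lam / 2) := by
            gcongr
            exact hω i
        _ = 1 / 2 := by field_simp
    have h3 := Complex.norm_log_one_add_half_le_self h2
    rw [norm_mul]
    have hA : 0 ≤ A := (norm_nonneg _).trans (hp i)
    calc ‖p i‖ * ‖Complex.log (1 + ω i * z)‖ ≤ A * 1 := by
          gcongr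
          · exact hp i
          · linarith
      _ = A := mul_one A
  calc ∑ i, ‖p i * Complex.log (1 + ω i * z)‖ ≤ ∑ _i : Fin k, A := Finset.sum_le_sum h1
    _ = k * A := by simp

lemma kap_bound {b p : Fin k → ℂ} {lam A : ℝ} (hlam : 0 < lam) 
    (hb : ∀ i, lam ≤ ‖b i‖) (hb1 : ∀ i, ‖b i‖ ≤ 1) (hp : ∀ i, ‖p i‖ ≤ A) :
    ‖kap b p‖ ≤ Real.exp (k * A * (2 * Real.log (1 / lam))) ∧
    Real.exp (-(k * A * (2 * Real.log (1 / lam)))) ≤ ‖kap b p‖ := by
  have h0 : ∀ i, |Real.log (‖b i‖ ^ 2)| ≤ 2 * Real.log (1 / lam) := by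
    intro i
    have hbp : 0 < ‖b i‖ := hlam.trans_le (hb i)
    rw [Real.log_pow, Nat.cast_ofNat, abs_mul, abs_two, abs_of_nonpos (Real.log_nonpos hbp.le (hb1 i)),
      one_div, Real.log_inv]
    have := Real.log_le_log hlam (hb i)
    linarith
  have h1 : ‖∑ i, p i * ((Real.log (‖b i‖ ^ 2) : ℝ) : ℂ)‖ ≤ k * A * (2 * Real.log (1 / lam)) := by
    refine (norm_sum_le _ _).trans ?_
    calc ∑ i, ‖p i * ((Real.log (‖b i‖ ^ 2) : ℝ) : ℂ)‖ ≤ ∑ _i : Fin k, A * (2 * Real.log (1 / lam)) := by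
          refine Finset.sum_le_sum fun i _ => ?_
          rw [norm_mul, Complex.norm_real, Real.norm_eq_abs]
          have hA : 0 ≤ A := (norm_nonneg _).trans (hp i)
          exact mul_le_mul (hp i) (h0 i) (abs_nonneg _) hA
      _ = _ := by simp; ring
  have h2 := abs_le.1 (Complex.abs_re_le_norm (∑ i, p i * ((Real.log (‖b i‖ ^ 2) : ℝ) : ℂ)))
  unfold kap
  rw [Complex.norm_exp]
  constructor
  · exact Real.exp_le_exp.2 (by linarith)
  · exact Real.exp_le_exp.2 (by linarith)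

/-- the local factorisation of the weight -/
theorem lw_eq {a b p : Fin k → ℂ} {p0 : ℂ} {lam : ℝ} (hlam : 0 < lam)
    (hab : ∀ i, ‖a i‖ ^ 2 + ‖b i‖ ^ 2 = 1) (hb : ∀ i, lam ≤ ‖b i‖) {n : ℕ} (hn : 1 ≤ n) {ζ : ℂ}
    (hζ : ‖ζ‖ < lam) : (om n ζ : ℂ) * Wl p0 a b p ζ =
      kap b p * wr p0 (n + p0 + ∑ i, p i) ‖ζ‖ * hh (fun i => a i / b i) p ζ *
        hh (fun i => starRingEnd ℂ (a i / b i)) p (starRingEnd ℂ ζ) := by
  set lg : ℝ := Real.log (1 + ‖ζ‖ ^ 2) with hlg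
  have hpos : (0:ℝ) < 1 + ‖ζ‖ ^ 2 := by positivity
  have hω : ∀ i, ‖a i / b i‖ ≤ 1 / lam := by
    intro i
    rw [norm_div]
    have h1 : ‖a i‖ ≤ 1 := by nlinarith [hab i, norm_nonneg (a i), norm_nonneg (b i)]
    exact div_le_div₀ zero_le_one h1 hlam (hb i)
  have e1 : (om n ζ : ℂ) = cexp (-((n:ℂ) - 1) * (lg : ℂ)) := by
    rw [om_rpow n hn, Real.rpow_def_of_pos hpos, Complex.ofReal_exp]
    congr 1
    push_cast
    ring
  have e2 : Real.log (‖ζ‖ ^ 2 / (1 + ‖ζ‖ ^ 2)) = Real.log (‖ζ‖ ^ 2) - lg := by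
    rcases eq_or_ne (‖ζ‖ ^ 2) 0 with h | h
    · rw [hlg, h]; simp
    · rw [Real.log_div h hpos.ne']
  have e3 : ∀ i, ((Real.log (dc (a i) (b i) ζ) : ℝ) : ℂ) = ((Real.log (‖b i‖ ^ 2) : ℝ) : ℂ) +
      Complex.log (1 + a i / b i * ζ) +
      Complex.log (1 + starRingEnd ℂ (a i / b i) * starRingEnd ℂ ζ) - (lg : ℂ) := by
    intro i
    have hbp : 0 < ‖b i‖ := hlam.trans_le (hb i)
    have hb0 : b i ≠ 0 := norm_pos_iff.1 hbp
    have hre := re_pos_of hlam (hω i) hζ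
    set w : ℂ := 1 + a i / b i * ζ with hw
    have hw0 : w ≠ 0 := by intro h; rw [h] at hre; simp at hre
    have f1 : a i * ζ + b i = b i * w := by rw [hw]; field_simp; ring
    have f2 : (1 + starRingEnd ℂ (a i / b i) * starRingEnd ℂ ζ) = starRingEnd ℂ w := by
      rw [hw]; simp
    have f3 : w.arg ≠ Real.pi := by
      intro h
      have := (Complex.arg_eq_pi_iff.1 h).1
      linarith
    have f4 : Complex.log w + starRingEnd ℂ (Complex.log w) =
        ((Real.log (‖w‖ ^ 2) : ℝ) : ℂ) := by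
      rw [Complex.add_conj, Complex.log_re, Real.log_pow]
      push_cast; ring
    rw [f2, Complex.log_conj w f3]
    unfold dc
    rw [f1, norm_mul, mul_pow, Real.log_div (by positivity) hpos.ne', Real.log_mul (by positivity)
      (by have := norm_pos_iff.2 hw0; positivity), ← hlg]
    push_cast
    linear_combination -f4
  unfold Wl Wt kap hh wr
  rw [e1, e2, ← hlg, ← Complex.exp_add, ← Complex.exp_add, ← Complex.exp_add, ← Complex.exp_add,
    ← Complex.exp_add]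
  congr 1
  simp_rw [e3]
  have e4 : ∑ i, p i * (((Real.log (‖b i‖ ^ 2) : ℝ) : ℂ) + Complex.log (1 + a i / b i * ζ) +
      Complex.log (1 + starRingEnd ℂ (a i / b i) * starRingEnd ℂ ζ) - (lg : ℂ)) =
      ∑ i, p i * ((Real.log (‖b i‖ ^ 2) : ℝ) : ℂ) + ∑ i, p i * Complex.log (1 + a i / b i * ζ) +
      ∑ i, p i * Complex.log (1 + starRingEnd ℂ (a i / b i) * starRingEnd ℂ ζ) -
      (∑ i, p i) * (lg : ℂ) := by
    rw [Finset.sum_mul, ← Finset.sum_add_distrib, ← Finset.sum_add_distrib,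
      ← Finset.sum_sub_distrib]
    refine Finset.sum_congr rfl fun i _ => ?_
    ring
  rw [e4]
  push_cast
  ring

/-- Taylor truncation -/
theorem Tp_bound {ω p : Fin k → ℂ} {lam A : ℝ} (hlam : 0 < lam) (hω : ∀ i, ‖ω i‖ ≤ 1 / lam)
    (hp : ∀ i, ‖p i‖ ≤ A) (m : ℕ) :
    (∀ l, ‖tc (hh ω (-p)) l‖ ≤ Real.exp (k * A) / (lam / 2) ^ l) ∧
    (∀ w : ℂ, ‖w‖ ≤ lam / 4 → ‖(Tp ω p m).eval w * hh ω p w - 1‖ ≤
      2 * Real.exp (k * A) ^ 2 * (1 / 2) ^ m) ∧
    (∀ w : ℂ, lam / 4 ≤ ‖w‖ → ‖(Tp ω p m).eval w‖ ≤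
      Real.exp (k * A) * m * (‖w‖ / (lam / 4)) ^ m) := by
  have hdiff : DifferentiableOn ℂ (hh ω (-p)) (Metric.ball 0 lam) := hh_diff hlam hω
  have hp' : ∀ i, ‖(-p) i‖ ≤ A := fun i => by simpa using hp i
  have hb : ∀ l, ‖tc (hh ω (-p)) l‖ ≤ Real.exp (k * A) / (lam / 2) ^ l := fun l =>
    tc_bound hdiff (by positivity) (by linarith) (fun z hz => hh_bound hlam hω hp' hz.le) l
  have hev : ∀ w : ℂ, (Tp ω p m).eval w = ∑ l ∈ Finset.range m, tc (hh ω (-p)) l * w ^ l := by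
    intro w
    unfold Tp
    rw [Polynomial.eval_finsetSum]
    simp
  refine ⟨hb, fun w hw => ?_, fun w hw => ?_⟩
  · have hs := hasSum_tc hdiff (z := w) (by linarith)
    have h1 : ‖(Tp ω p m).eval w - hh ω (-p) w‖ ≤ 2 * Real.exp (k * A) * (1 / 2) ^ m := by
      rw [hev, norm_sub_rev, ← hs.tsum_eq, ← hs.summable.sum_add_tsum_nat_add m, add_sub_cancel_left]
      have hg : HasSum (fun i : ℕ => Real.exp (k * A) * (1 / 2) ^ m * (1 / 2 : ℝ) ^ i)
          (Real.exp (k * A) * (1 / 2) ^ m * 2) := by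
        have := hasSum_geometric_two.mul_left (Real.exp (k * A) * (1 / 2 : ℝ) ^ m)
        simpa using this
      refine (tsum_of_norm_bounded hg fun i => ?_).trans (by linarith)
      rw [norm_mul, norm_pow]
      calc ‖tc (hh ω (-p)) (i + m)‖ * ‖w‖ ^ (i + m) ≤
          Real.exp (k * A) / (lam / 2) ^ (i + m) * (lam / 4) ^ (i + m) := by
            gcongr
            exact hb _
        _ = Real.exp (k * A) * (1 / 2) ^ m * (1 / 2 : ℝ) ^ i := by
            rw [mul_assoc, ← pow_add, add_comm m i, div_mul_eq_mul_div, mul_div_assoc, ← div_pow]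
            congr 2
            field_simp
            norm_num
    have h2 : (Tp ω p m).eval w * hh ω p w - 1 =
        ((Tp ω p m).eval w - hh ω (-p) w) * hh ω p w := by
      rw [sub_mul, hh_neg]
    rw [h2, norm_mul]
    calc ‖(Tp ω p m).eval w - hh ω (-p) w‖ * ‖hh ω p w‖ ≤
        (2 * Real.exp (k * A) * (1 / 2) ^ m) * Real.exp (k * A) := by
          gcongr
          exact hh_bound hlam hω hp (by linarith)
      _ = _ := by ring
  · rw [hev]
    refine (norm_sum_le _ _).trans ?_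
    have hq : 1 ≤ ‖w‖ / (lam / 4) := by rwa [le_div_iff₀ (by positivity), one_mul]
    calc ∑ l ∈ Finset.range m, ‖tc (hh ω (-p)) l * w ^ l‖ ≤
        ∑ l ∈ Finset.range m, Real.exp (k * A) * (‖w‖ / (lam / 4)) ^ m := by
          refine Finset.sum_le_sum fun l hl => ?_
          rw [norm_mul, norm_pow]
          have hl' : l ≤ m := (Finset.mem_range.1 hl).le
          calc ‖tc (hh ω (-p)) l‖ * ‖w‖ ^ l ≤ Real.exp (k * A) / (lam / 2) ^ l * ‖w‖ ^ l := by
                gcongr; exact hb l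
            _ ≤ Real.exp (k * A) / (lam / 4) ^ l * ‖w‖ ^ l := by
                gcongr
                linarith
            _ = Real.exp (k * A) * (‖w‖ / (lam / 4)) ^ l := by
                rw [div_pow ‖w‖, div_mul_eq_mul_div, mul_div_assoc]
            _ ≤ _ := by gcongr
      _ = _ := by rw [Finset.sum_const, Finset.card_range, nsmul_eq_mul]; ring

lemma Gp_eval (p0 N : ℂ) (a b p : Fin k → ℂ) (J : ℕ) (x w : ℂ) :
    (Gp p0 N a b p J x).eval w = (kap b p * hh (fun i => a i / b i) p x)⁻¹ *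
      ((Tp (fun i => starRingEnd ℂ (a i / b i)) p J).eval w *
        ∑ j ∈ Finset.range J, x ^ j / cj p0 N j * w ^ j) := by
  unfold Gp Sp
  rw [Polynomial.eval_mul, Polynomial.eval_mul, Polynomial.eval_C, Polynomial.eval_finsetSum]
  simp

lemma natDegree_sum_lt (f : ℕ → ℂ) (J : ℕ) :
    (∑ l ∈ Finset.range J, Polynomial.C (f l) * Polynomial.X ^ l).natDegree ≤ J - 1 := by
  refine Polynomial.natDegree_sum_le_of_forall_le _ _ fun i hi => ?_
  have : i ≤ J - 1 := by have := Finset.mem_range.1 hi; omega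
  exact (Polynomial.natDegree_C_mul_X_pow_le _ _).trans this

lemma Gp_degree (p0 N : ℂ) (a b p : Fin k → ℂ) (J n : ℕ) (x : ℂ) (h : 2 * J ≤ n) (hn : 1 ≤ n) :
    (Gp p0 N a b p J x).natDegree < n := by
  unfold Gp
  have h1 : (Tp (fun i => starRingEnd ℂ (a i / b i)) p J).natDegree ≤ J - 1 :=
    natDegree_sum_lt _ _
  have h2 : (Sp p0 N J x).natDegree ≤ J - 1 := natDegree_sum_lt _ _
  have h3 := Polynomial.natDegree_C_mul_le ((kap b p * hh (fun i => a i / b i) p x)⁻¹)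
    (Tp (fun i => starRingEnd ℂ (a i / b i)) p J * Sp p0 N J x)
  have h4 := Polynomial.natDegree_mul_le (p := Tp (fun i => starRingEnd ℂ (a i / b i)) p J)
    (q := Sp p0 N J x)
  omega

end

end Pool.Agent.H972.FH
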