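import Pool.Agent.H972.FH.LocA

set_option autoImplicit false

open MeasureTheory Complex Filter Topology Set
open scoped ENNReal

namespace Pool.Agent.H972.FH

noncomputable section

variable {k : ℕ}

/-- all the data of the local lemma -/
structure Ctx (A η lam ε c C K : ℝ) (n : ℕ) (p0 N : ℂ) (a b p : Fin k → ℂ) : Prop where
  hlam : 0 < lam
  hlam1 : lam ≤ 1
  hA : 0 ≤ A
  hε : 0 < ε
  hC : 0 < C
  hK : 0 < K
  hη : 0 < η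
  hab : ∀ i, ‖a i‖ ^ 2 + ‖b i‖ ^ 2 = 1
  hb : ∀ i, lam ≤ ‖b i‖
  hp : ∀ i, ‖p i‖ ≤ A
  hN : N = n + p0 + ∑ i, p i
  hn : 1 ≤ n
  hJ : 2 * ⌊ε * n⌋₊ ≤ n
  hJ1 : 1 ≤ ⌊ε * n⌋₊
  hrC : C * Real.exp (-(c * n)) ≤ 1 / 2
  par : Par A ((k + 1) * A) η n p0 N
  est : ∀ j : ℕ, (j:ℝ) ≤ ε * n →
      0 < (N - j - p0).re ∧ 0 < Cj p0 N j ∧ Cj p0 N j ≤ K * ‖cj p0 N j‖ ∧
      (∀ i : ℕ, (i:ℝ) ≤ ε * n → ∀ ζ : ℂ, (lam / 4) ^ 2 ≤ ‖ζ‖ ^ 2 →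
        (‖ζ‖ ^ 2 / (lam / 4) ^ 2) ^ i * ‖ζ‖ ^ (2 * j) * om n ζ ≤
          C * Real.exp (-(c * n)) * Cj p0 N j) ∧
      ∫ ζ in (Metric.ball (0:ℂ) (lam / 4))ᶜ, ‖ζ‖ ^ (2 * j) * ‖wr p0 N ‖ζ‖‖ ∂mu ≤
        C * Real.exp (-(c * n)) * Cj p0 N j

/-- bound for `hh` and its inverse -/
def cU (k : ℕ) (A : ℝ) : ℝ := Real.exp (k * A)

/-- bound for `kap` and its inverse -/
def cK (k : ℕ) (A lam : ℝ) : ℝ := Real.exp (k * A * (2 * Real.log (1 / lam)))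

lemma cU_pos (k : ℕ) (A : ℝ) : 0 < cU k A := Real.exp_pos _
lemma cK_pos (k : ℕ) (A lam : ℝ) : 0 < cK k A lam := Real.exp_pos _

section

variable {A η lam ε c C K : ℝ} {n : ℕ} {p0 N : ℂ} {a b p : Fin k → ℂ}

lemma Ctx.s_gt (h : Ctx A η lam ε c C K n p0 N a b p) : -1 < p0.re := by
  linarith [h.par.hr, h.hη]

lemma Ctx.jle (_h : Ctx A η lam ε c C K n p0 N a b p) {j : ℕ} (hj : j ∈ Finset.range ⌊ε * n⌋₊) :
    (j:ℝ) ≤ ε * n := by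
  have h1 := Finset.mem_range.1 hj
  exact (Nat.lt_of_lt_floor h1).le

lemma Ctx.Jle (h : Ctx A η lam ε c C K n p0 N a b p) : ((⌊ε * n⌋₊ : ℕ) : ℝ) ≤ ε * n :=
  Nat.floor_le (by have := h.hε; positivity)

lemma Ctx.ω (h : Ctx A η lam ε c C K n p0 N a b p) (i : Fin k) : ‖a i / b i‖ ≤ 1 / lam := by
  rw [norm_div]
  have h1 : ‖a i‖ ≤ 1 := by nlinarith [h.hab i, norm_nonneg (a i), norm_nonneg (b i)]
  exact div_le_div₀ zero_le_one h1 h.hlam (h.hb i)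

lemma Ctx.ωc (h : Ctx A η lam ε c C K n p0 N a b p) (i : Fin k) :
    ‖starRingEnd ℂ (a i / b i)‖ ≤ 1 / lam := by
  rw [RCLike.norm_conj]; exact h.ω i

lemma Ctx.b1 (h : Ctx A η lam ε c C K n p0 N a b p) (i : Fin k) : ‖b i‖ ≤ 1 := by
  nlinarith [h.hab i, norm_nonneg (a i), norm_nonneg (b i)]

lemma Ctx.hbd (h : Ctx A η lam ε c C K n p0 N a b p) {z : ℂ} (hz : ‖z‖ ≤ lam / 2) :
    ‖hh (fun i => a i / b i) p z‖ ≤ cU k A := hh_bound h.hlam h.ω h.hp hz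

lemma Ctx.hbd2 (h : Ctx A η lam ε c C K n p0 N a b p) {z : ℂ} (hz : ‖z‖ ≤ lam / 2) :
    ‖hh (fun i => starRingEnd ℂ (a i / b i)) p z‖ ≤ cU k A := hh_bound h.hlam h.ωc h.hp hz

lemma inv_hh {ω p : Fin k → ℂ} {z : ℂ} : ‖hh ω p z‖⁻¹ = ‖hh ω (-p) z‖ := by
  have h1 := congrArg norm (hh_neg ω p z)
  rw [norm_mul, norm_one] at h1
  have h2 : 0 < ‖hh ω p z‖ := norm_pos_iff.2 (hh_ne _ _ _)
  field_simp
  linarith

lemma Ctx.hinv (h : Ctx A η lam ε c C K n p0 N a b p) {z : ℂ} (hz : ‖z‖ ≤ lam / 2) :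
    ‖hh (fun i => a i / b i) p z‖⁻¹ ≤ cU k A := by
  rw [inv_hh]; exact hh_bound h.hlam h.ω (fun i => by simpa using h.hp i) hz

lemma Ctx.hinv2 (h : Ctx A η lam ε c C K n p0 N a b p) {z : ℂ} (hz : ‖z‖ ≤ lam / 2) :
    ‖hh (fun i => starRingEnd ℂ (a i / b i)) p z‖⁻¹ ≤ cU k A := by
  rw [inv_hh]; exact hh_bound h.hlam h.ωc (fun i => by simpa using h.hp i) hz

lemma Ctx.kbd (h : Ctx A η lam ε c C K n p0 N a b p) : ‖kap b p‖ ≤ cK k A lam :=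
  (kap_bound h.hlam h.hb h.b1 h.hp).1

lemma Ctx.kinv (h : Ctx A η lam ε c C K n p0 N a b p) : ‖kap b p‖⁻¹ ≤ cK k A lam := by
  have h1 := (kap_bound h.hlam h.hb h.b1 h.hp).2
  rw [Real.exp_neg] at h1
  have h2 : 0 < ‖kap b p‖ := norm_pos_iff.2 (kap_ne _ _)
  have h3 := cK_pos k A lam
  unfold cK at *
  rw [inv_le_comm₀ h2 h3]
  exact h1

/-- the factorisation of the norm of the weight -/
lemma Ctx.nq (h : Ctx A η lam ε c C K n p0 N a b p) {ζ : ℂ} (hζ : ‖ζ‖ < lam) :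
    om n ζ * ‖Wl p0 a b p ζ‖ = ‖kap b p‖ * ‖wr p0 N ‖ζ‖‖ * ‖hh (fun i => a i / b i) p ζ‖ *
      ‖hh (fun i => starRingEnd ℂ (a i / b i)) p (starRingEnd ℂ ζ)‖ := by
  have h1 := congrArg norm (lw_eq (p := p) (p0 := p0) h.hlam h.hab h.hb h.hn hζ)
  rw [← h.hN] at h1
  rw [norm_mul, Complex.norm_real, Real.norm_eq_abs, abs_of_pos (om_pos n ζ)] at h1
  rw [h1]
  simp only [norm_mul]

/-- comparison with the radial weight on the disc -/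
lemma Ctx.wr_le (h : Ctx A η lam ε c C K n p0 N a b p) {ζ : ℂ} (hζ : ‖ζ‖ ≤ lam / 4) :
    ‖hh (fun i => a i / b i) p ζ‖ ^ 2 * ‖wr p0 N ‖ζ‖‖ ≤
      cK k A lam * cU k A ^ 2 * (om n ζ * ‖Wl p0 a b p ζ‖) := by
  have hl := h.hlam
  rw [h.nq (by linarith)]
  have h2 : ‖ζ‖ ≤ lam / 2 := by linarith
  have h2' : ‖starRingEnd ℂ ζ‖ ≤ lam / 2 := by rw [RCLike.norm_conj]; exact h2
  set x := ‖hh (fun i => a i / b i) p ζ‖
  set y := ‖hh (fun i => starRingEnd ℂ (a i / b i)) p (starRingEnd ℂ ζ)‖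
  set κ := ‖kap b p‖
  set w := ‖wr p0 N ‖ζ‖‖
  have hx : 0 < x := norm_pos_iff.2 (hh_ne _ _ _)
  have hy : 0 < y := norm_pos_iff.2 (hh_ne _ _ _)
  have hκ : 0 < κ := norm_pos_iff.2 (kap_ne _ _)
  have hw : 0 < w := norm_wr_pos _ _ _
  have e1 : x ≤ cU k A := h.hbd h2
  have e2 : 1 ≤ cU k A * y := by
    have := h.hinv2 h2'
    rwa [inv_le_iff_one_le_mul₀ hy] at this
  have e3 : 1 ≤ cK k A lam * κ := by
    have := h.kinv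
    rwa [inv_le_iff_one_le_mul₀ hκ] at this
  have hU := cU_pos k A
  have hKK := cK_pos k A lam
  calc x ^ 2 * w = x * x * w * 1 * 1 := by ring
    _ ≤ x * cU k A * w * (cU k A * y) * (cK k A lam * κ) := by gcongr
    _ = _ := by ring

lemma Ctx.wr_le' (h : Ctx A η lam ε c C K n p0 N a b p) {ζ : ℂ} (hζ : ‖ζ‖ ≤ lam / 4) :
    om n ζ * ‖Wl p0 a b p ζ‖ ≤ cK k A lam * cU k A ^ 2 * ‖wr p0 N ‖ζ‖‖ := by
  have hl := h.hlam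
  rw [h.nq (by linarith)]
  have h2 : ‖ζ‖ ≤ lam / 2 := by linarith
  have h2' : ‖starRingEnd ℂ ζ‖ ≤ lam / 2 := by rw [RCLike.norm_conj]; exact h2
  have e1 := h.hbd h2
  have e2 := h.hbd2 h2'
  have e3 := h.kbd
  have hw : 0 < ‖wr p0 N ‖ζ‖‖ := norm_wr_pos _ _ _
  have hU := cU_pos k A
  have hKK := cK_pos k A lam
  calc _ ≤ cK k A lam * ‖wr p0 N ‖ζ‖‖ * cU k A * cU k A := by gcongr
    _ = _ := by ring

/-- sum bound -/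
lemma Ctx.sum_bd (h : Ctx A η lam ε c C K n p0 N a b p) (x w : ℂ) :
    ‖∑ j ∈ Finset.range ⌊ε * n⌋₊, x ^ j / cj p0 N j * w ^ j‖ ^ 2 ≤
      K ^ 2 * (⌊ε * n⌋₊ : ℝ) * ∑ j ∈ Finset.range ⌊ε * n⌋₊,
        (‖x‖ ^ (2 * j) / Cj p0 N j) * (‖w‖ ^ (2 * j) / Cj p0 N j) := by
  have h1 : ‖∑ j ∈ Finset.range ⌊ε * n⌋₊, x ^ j / cj p0 N j * w ^ j‖ ≤
      ∑ j ∈ Finset.range ⌊ε * n⌋₊, K * (‖x‖ ^ j * ‖w‖ ^ j / Cj p0 N j) := by
    refine (norm_sum_le _ _).trans (Finset.sum_le_sum fun j hj => ?_)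
    obtain ⟨-, h2, h3, -⟩ := h.est j (h.jle hj)
    have h4 : 0 < ‖cj p0 N j‖ := by
      by_contra hc
      have : ‖cj p0 N j‖ = 0 := le_antisymm (not_lt.1 hc) (norm_nonneg _)
      rw [this, mul_zero] at h3
      linarith
    rw [norm_mul, norm_div, norm_pow, norm_pow]
    have h5 : ‖cj p0 N j‖⁻¹ ≤ K * (Cj p0 N j)⁻¹ := by
      rw [inv_le_iff_one_le_mul₀ h4]
      calc 1 = Cj p0 N j * (Cj p0 N j)⁻¹ := by field_simp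
        _ ≤ (K * ‖cj p0 N j‖) * (Cj p0 N j)⁻¹ := by gcongr
        _ = _ := by ring
    calc ‖x‖ ^ j / ‖cj p0 N j‖ * ‖w‖ ^ j = ‖x‖ ^ j * ‖w‖ ^ j * ‖cj p0 N j‖⁻¹ := by ring
      _ ≤ ‖x‖ ^ j * ‖w‖ ^ j * (K * (Cj p0 N j)⁻¹) := by gcongr
      _ = _ := by ring
  calc ‖∑ j ∈ Finset.range ⌊ε * n⌋₊, x ^ j / cj p0 N j * w ^ j‖ ^ 2 ≤
      (∑ j ∈ Finset.range ⌊ε * n⌋₊, K * (‖x‖ ^ j * ‖w‖ ^ j / Cj p0 N j)) ^ 2 := by gcongr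
    _ = K ^ 2 * (∑ j ∈ Finset.range ⌊ε * n⌋₊, (‖x‖ ^ j * ‖w‖ ^ j / Cj p0 N j)) ^ 2 := by
        rw [← Finset.mul_sum, mul_pow]
    _ ≤ K ^ 2 * ((Finset.range ⌊ε * n⌋₊).card * ∑ j ∈ Finset.range ⌊ε * n⌋₊,
          (‖x‖ ^ j * ‖w‖ ^ j / Cj p0 N j) ^ 2) := by
        gcongr
        exact sq_sum_le_card_mul_sum_sq
    _ = _ := by
        rw [Finset.card_range, mul_assoc]
        congr 2
        refine Finset.sum_congr rfl fun j _ => ?_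
        rw [div_mul_div_comm, div_pow]
        ring

lemma Ctx.Xi_ge (h : Ctx A η lam ε c C K n p0 N a b p) (x : ℂ) :
    1 ≤ Xi2 p0 N ⌊ε * n⌋₊ x ∧ ∑ j ∈ Finset.range ⌊ε * n⌋₊, ‖x‖ ^ (2 * j) / Cj p0 N j ≤
      Xi2 p0 N ⌊ε * n⌋₊ x := by
  have h1 : 0 ≤ ∑ j ∈ Finset.range ⌊ε * n⌋₊, ‖x‖ ^ (2 * j) / Cj p0 N j :=
    Finset.sum_nonneg fun j hj => by
      have := (h.est j (h.jle hj)).2.1
      positivity
  unfold Xi2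
  constructor <;> linarith

/-- size of the kernel outside the disc -/
theorem Ctx.G_out (h : Ctx A η lam ε c C K n p0 N a b p) {x : ℂ} (hx : ‖x‖ ≤ lam / 2) {ζ : ℂ}
    (hζ : lam / 4 ≤ ‖ζ‖) :
    ‖(Gp p0 N a b p ⌊ε * n⌋₊ x).eval (starRingEnd ℂ ζ)‖ ^ 2 * om n ζ ≤
      (cK k A lam ^ 2 * cU k A ^ 4 * K ^ 2 * C) * (n:ℝ) ^ 3 * Real.exp (-(c * n)) *
        Xi2 p0 N ⌊ε * n⌋₊ x := by
  set J := ⌊ε * n⌋₊ with hJ
  have hU := cU_pos k A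
  have hKK := cK_pos k A lam
  have hK := h.hK
  have hC := h.hC
  have hl := h.hlam
  rw [Gp_eval, norm_mul, norm_mul, norm_inv, norm_mul, mul_pow, mul_pow]
  have hcζ : ‖starRingEnd ℂ ζ‖ = ‖ζ‖ := RCLike.norm_conj ζ
  have e1 : ((‖kap b p‖ * ‖hh (fun i => a i / b i) p x‖)⁻¹) ^ 2 ≤ (cK k A lam * cU k A) ^ 2 := by
    rw [mul_inv]
    have := h.kinv
    have := h.hinv hx
    gcongr
  have e2 : ‖(Tp (fun i => starRingEnd ℂ (a i / b i)) p J).eval (starRingEnd ℂ ζ)‖ ^ 2 ≤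
      (cU k A * J * (‖ζ‖ / (lam / 4)) ^ J) ^ 2 := by
    have := (Tp_bound h.hlam h.ωc h.hp J).2.2 (starRingEnd ℂ ζ) (by rw [hcζ]; exact hζ)
    rw [hcζ] at this
    unfold cU
    gcongr
  have e3 := h.sum_bd x (starRingEnd ℂ ζ)
  rw [hcζ, ← hJ] at e3
  have hJn : (J:ℝ) ≤ n := by
    have := h.hJ
    have h2 : J ≤ n := by omega
    exact_mod_cast h2
  have hζ2 : (lam / 4) ^ 2 ≤ ‖ζ‖ ^ 2 := by gcongr
  have hom := om_pos n ζ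
  have e4 : (‖ζ‖ / (lam / 4)) ^ (2 * J) * (∑ j ∈ Finset.range J,
      (‖x‖ ^ (2 * j) / Cj p0 N j) * (‖ζ‖ ^ (2 * j) / Cj p0 N j)) * om n ζ ≤
      C * Real.exp (-(c * n)) * Xi2 p0 N J x := by
    rw [Finset.mul_sum, Finset.sum_mul]
    calc ∑ j ∈ Finset.range J, (‖ζ‖ / (lam / 4)) ^ (2 * J) *
          ((‖x‖ ^ (2 * j) / Cj p0 N j) * (‖ζ‖ ^ (2 * j) / Cj p0 N j)) * om n ζ ≤
        ∑ j ∈ Finset.range J, C * Real.exp (-(c * n)) * (‖x‖ ^ (2 * j) / Cj p0 N j) := by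
          refine Finset.sum_le_sum fun j hj => ?_
          obtain ⟨-, h2, h3, h4, -⟩ := h.est j (h.jle hj)
          have h5 := h4 J h.Jle ζ hζ2
          have h6 : (‖ζ‖ / (lam / 4)) ^ (2 * J) = (‖ζ‖ ^ 2 / (lam / 4) ^ 2) ^ J := by
            rw [pow_mul, div_pow ‖ζ‖]
          rw [h6]
          calc (‖ζ‖ ^ 2 / (lam / 4) ^ 2) ^ J *
                ((‖x‖ ^ (2 * j) / Cj p0 N j) * (‖ζ‖ ^ (2 * j) / Cj p0 N j)) * om n ζ =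
              ((‖ζ‖ ^ 2 / (lam / 4) ^ 2) ^ J * ‖ζ‖ ^ (2 * j) * om n ζ) *
                ((‖x‖ ^ (2 * j) / Cj p0 N j) * (Cj p0 N j)⁻¹) := by ring
            _ ≤ (C * Real.exp (-(c * n)) * Cj p0 N j) *
                ((‖x‖ ^ (2 * j) / Cj p0 N j) * (Cj p0 N j)⁻¹) := by gcongr
            _ = _ := by field_simp
      _ = C * Real.exp (-(c * n)) * ∑ j ∈ Finset.range J, ‖x‖ ^ (2 * j) / Cj p0 N j := by
          rw [Finset.mul_sum]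
      _ ≤ _ := by
          gcongr
          exact (h.Xi_ge x).2
  have hX := (h.Xi_ge x).1
  rw [← hJ] at hX
  have hS0 : 0 ≤ ∑ j ∈ Finset.range J,
      (‖x‖ ^ (2 * j) / Cj p0 N j) * (‖ζ‖ ^ (2 * j) / Cj p0 N j) :=
    Finset.sum_nonneg fun j hj => by
      have := (h.est j (h.jle hj)).2.1
      positivity
  calc ((‖kap b p‖ * ‖hh (fun i => a i / b i) p x‖)⁻¹) ^ 2 *
        (‖(Tp (fun i => starRingEnd ℂ (a i / b i)) p J).eval (starRingEnd ℂ ζ)‖ ^ 2 *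
        ‖∑ j ∈ Finset.range J, x ^ j / cj p0 N j * (starRingEnd ℂ ζ) ^ j‖ ^ 2) * om n ζ ≤
      (cK k A lam * cU k A) ^ 2 * ((cU k A * J * (‖ζ‖ / (lam / 4)) ^ J) ^ 2 *
        (K ^ 2 * J * ∑ j ∈ Finset.range J,
        (‖x‖ ^ (2 * j) / Cj p0 N j) * (‖ζ‖ ^ (2 * j) / Cj p0 N j))) * om n ζ := by gcongr
    _ = (cK k A lam ^ 2 * cU k A ^ 4 * K ^ 2) * (J:ℝ) ^ 3 *
        ((‖ζ‖ / (lam / 4)) ^ (2 * J) * (∑ j ∈ Finset.range J,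
        (‖x‖ ^ (2 * j) / Cj p0 N j) * (‖ζ‖ ^ (2 * j) / Cj p0 N j)) * om n ζ) := by
        have e5 : (‖ζ‖ / (lam / 4)) ^ (2 * J) = ((‖ζ‖ / (lam / 4)) ^ J) ^ 2 := by
          rw [mul_comm 2 J, pow_mul]
        rw [e5]
        ring
    _ ≤ (cK k A lam ^ 2 * cU k A ^ 4 * K ^ 2) * (n:ℝ) ^ 3 *
        (C * Real.exp (-(c * n)) * Xi2 p0 N J x) := by gcongr
    _ = _ := by ring

/-- size of the kernel inside the disc -/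
theorem Ctx.G_in (h : Ctx A η lam ε c C K n p0 N a b p) {x : ℂ} (hx : ‖x‖ ≤ lam / 2) {ζ : ℂ}
    (hζ : ‖ζ‖ ≤ lam / 4) :
    ‖(Gp p0 N a b p ⌊ε * n⌋₊ x).eval (starRingEnd ℂ ζ)‖ ^ 2 * (om n ζ * ‖Wl p0 a b p ζ‖) ≤
      (cK k A lam ^ 3 * cU k A ^ 4 * (2 * cU k A ^ 2 + 1) ^ 2 * cU k A ^ 2 * K ^ 2) * n *
        ∑ j ∈ Finset.range ⌊ε * n⌋₊, (‖x‖ ^ (2 * j) / Cj p0 N j) *
          (‖ζ‖ ^ (2 * j) * ‖wr p0 N ‖ζ‖‖ / Cj p0 N j) := by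
  set J := ⌊ε * n⌋₊ with hJ
  have hU := cU_pos k A
  have hKK := cK_pos k A lam
  have hK := h.hK
  have hl := h.hlam
  rw [Gp_eval, norm_mul, norm_mul, norm_inv, norm_mul, mul_pow, mul_pow]
  have hcζ : ‖starRingEnd ℂ ζ‖ = ‖ζ‖ := RCLike.norm_conj ζ
  have e1 : ((‖kap b p‖ * ‖hh (fun i => a i / b i) p x‖)⁻¹) ^ 2 ≤ (cK k A lam * cU k A) ^ 2 := by
    rw [mul_inv]
    have := h.kinv
    have := h.hinv hx
    gcongr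
  have e2 : ‖(Tp (fun i => starRingEnd ℂ (a i / b i)) p J).eval (starRingEnd ℂ ζ)‖ ≤
      (2 * cU k A ^ 2 + 1) * cU k A := by
    have h1 := (Tp_bound h.hlam h.ωc h.hp J).2.1 (starRingEnd ℂ ζ) (by rw [hcζ]; exact hζ)
    set T := (Tp (fun i => starRingEnd ℂ (a i / b i)) p J).eval (starRingEnd ℂ ζ)
    set H := hh (fun i => starRingEnd ℂ (a i / b i)) p (starRingEnd ℂ ζ)
    have h2 : ‖T * H‖ ≤ 2 * cU k A ^ 2 + 1 := by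
      calc ‖T * H‖ = ‖(T * H - 1) + 1‖ := by rw [sub_add_cancel]
        _ ≤ ‖T * H - 1‖ + ‖(1:ℂ)‖ := norm_add_le _ _
        _ ≤ 2 * cU k A ^ 2 * 1 + 1 := by
            rw [norm_one]
            gcongr
            refine h1.trans ?_
            unfold cU
            gcongr
            exact pow_le_one₀ (by norm_num) (by norm_num)
        _ = _ := by ring
    have h3 : ‖H‖⁻¹ ≤ cU k A := h.hinv2 (by rw [hcζ]; linarith)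
    have h4 : 0 < ‖H‖ := norm_pos_iff.2 (hh_ne _ _ _)
    calc ‖T‖ = ‖T * H‖ * ‖H‖⁻¹ := by rw [norm_mul]; field_simp
      _ ≤ _ := by gcongr
  have e3 := h.sum_bd x (starRingEnd ℂ ζ)
  rw [hcζ, ← hJ] at e3
  have e4 := h.wr_le' hζ
  have hJn : (J:ℝ) ≤ n := by
    have := h.hJ
    have h2 : J ≤ n := by omega
    exact_mod_cast h2
  have hom := om_pos n ζ
  have hS0 : 0 ≤ ∑ j ∈ Finset.range J,
      (‖x‖ ^ (2 * j) / Cj p0 N j) * (‖ζ‖ ^ (2 * j) / Cj p0 N j) :=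
    Finset.sum_nonneg fun j hj => by
      have := (h.est j (h.jle hj)).2.1
      positivity
  calc ((‖kap b p‖ * ‖hh (fun i => a i / b i) p x‖)⁻¹) ^ 2 *
        (‖(Tp (fun i => starRingEnd ℂ (a i / b i)) p J).eval (starRingEnd ℂ ζ)‖ ^ 2 *
        ‖∑ j ∈ Finset.range J, x ^ j / cj p0 N j * (starRingEnd ℂ ζ) ^ j‖ ^ 2) *
        (om n ζ * ‖Wl p0 a b p ζ‖) ≤
      (cK k A lam * cU k A) ^ 2 * (((2 * cU k A ^ 2 + 1) * cU k A) ^ 2 *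
        (K ^ 2 * n * ∑ j ∈ Finset.range J,
        (‖x‖ ^ (2 * j) / Cj p0 N j) * (‖ζ‖ ^ (2 * j) / Cj p0 N j))) *
        (cK k A lam * cU k A ^ 2 * ‖wr p0 N ‖ζ‖‖) := by
        gcongr
        refine e3.trans ?_
        gcongr
    _ = (cK k A lam ^ 3 * cU k A ^ 4 * (2 * cU k A ^ 2 + 1) ^ 2 * cU k A ^ 2 * K ^ 2) * n *
        ((∑ j ∈ Finset.range J, (‖x‖ ^ (2 * j) / Cj p0 N j) * (‖ζ‖ ^ (2 * j) / Cj p0 N j)) *
          ‖wr p0 N ‖ζ‖‖) := by ring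
    _ = _ := by
        rw [Finset.sum_mul]
        congr 1
        refine Finset.sum_congr rfl fun j _ => ?_
        ring

end

end

end Pool.Agent.H972.FH
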