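import Pool.Agent.H972.FH.LocB

set_option autoImplicit false

open MeasureTheory Complex Filter Topology Set
open scoped ENNReal

namespace Pool.Agent.H972.FH

noncomputable section

/-- weighted Cauchy–Schwarz -/
theorem csw {α : Type*} [MeasurableSpace α] {μ : Measure α} {F G : α → ℂ} {w : α → ℝ}
    (hw : ∀ x, 0 ≤ w x) (hwm : AEStronglyMeasurable w μ)
    (hF : AEStronglyMeasurable F μ) (hG : AEStronglyMeasurable G μ)
    (hF2 : Integrable (fun x => ‖F x‖ ^ 2 * w x) μ) (hG2 : Integrable (fun x => ‖G x‖ ^ 2 * w x) μ) :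
    Integrable (fun x => ‖F x‖ * ‖G x‖ * w x) μ ∧
    ∫ x, ‖F x‖ * ‖G x‖ * w x ∂μ ≤ √(∫ x, ‖F x‖ ^ 2 * w x ∂μ) * √(∫ x, ‖G x‖ ^ 2 * w x ∂μ) := by
  have hs : AEStronglyMeasurable (fun x => ((√(w x) : ℝ) : ℂ)) μ :=
    Complex.continuous_ofReal.comp_aestronglyMeasurable
      (Real.continuous_sqrt.comp_aestronglyMeasurable hwm)
  have e : ∀ (H : α → ℂ) (x : α), ‖H x * ((√(w x) : ℝ) : ℂ)‖ ^ 2 = ‖H x‖ ^ 2 * w x := by
    intro H x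
    rw [norm_mul, mul_pow, Complex.norm_real, Real.norm_eq_abs, sq_abs, Real.sq_sqrt (hw x)]
  have e2 : ∀ x, ‖F x * ((√(w x) : ℝ) : ℂ)‖ * ‖G x * ((√(w x) : ℝ) : ℂ)‖ = ‖F x‖ * ‖G x‖ * w x := by
    intro x
    rw [norm_mul, norm_mul, Complex.norm_real, Real.norm_eq_abs, abs_of_nonneg (Real.sqrt_nonneg _)]
    have := Real.mul_self_sqrt (hw x)
    calc ‖F x‖ * √(w x) * (‖G x‖ * √(w x)) = ‖F x‖ * ‖G x‖ * (√(w x) * √(w x)) := by ring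
      _ = _ := by rw [this]
  have h := cs (hF.mul hs) (hG.mul hs) (by simp only [Pi.mul_apply]; simp_rw [e]; exact hF2)
    (by simp only [Pi.mul_apply]; simp_rw [e]; exact hG2)
  simp only [Pi.mul_apply] at h
  simp_rw [e, e2] at h
  refine ⟨?_, h.2⟩
  refine h.1.norm.congr (Eventually.of_forall fun x => ?_)
  simp only
  rw [norm_mul, e2]

variable {k : ℕ}

section

variable {A η lam ε c C K : ℝ} {n : ℕ} {p0 N : ℂ} {a b p : Fin k → ℂ}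

/-- constants -/
def M1 (k : ℕ) (A lam K : ℝ) : ℝ :=
  cK k A lam ^ 3 * cU k A ^ 4 * (2 * cU k A ^ 2 + 1) ^ 2 * cU k A ^ 2 * K ^ 2

def M2 (k : ℕ) (A lam C K : ℝ) : ℝ := cK k A lam ^ 2 * cU k A ^ 4 * K ^ 2 * C

lemma M1_nonneg (k : ℕ) (A lam K : ℝ) : 0 ≤ M1 k A lam K := by
  have := cU_pos k A; have := cK_pos k A lam; unfold M1; positivity

lemma M2_nonneg (k : ℕ) (A lam K : ℝ) {C : ℝ} (hC : 0 ≤ C) : 0 ≤ M2 k A lam C K := by
  have := cU_pos k A; have := cK_pos k A lam; unfold M2; positivity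

/-- the dominating function -/
lemma Ctx.G_dom (h : Ctx A η lam ε c C K n p0 N a b p) {x : ℂ} (hx : ‖x‖ ≤ lam / 2) (ζ : ℂ) :
    ‖(Gp p0 N a b p ⌊ε * n⌋₊ x).eval (starRingEnd ℂ ζ)‖ ^ 2 * (om n ζ * ‖Wl p0 a b p ζ‖) ≤
      M1 k A lam K * n * (∑ j ∈ Finset.range ⌊ε * n⌋₊, (‖x‖ ^ (2 * j) / Cj p0 N j) *
          (‖ζ‖ ^ (2 * j) * ‖wr p0 N ‖ζ‖‖ / Cj p0 N j)) +
      M2 k A lam C K * (n:ℝ) ^ 3 * Real.exp (-(c * n)) * Xi2 p0 N ⌊ε * n⌋₊ x *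
        ‖Wl p0 a b p ζ‖ := by
  have hS0 : 0 ≤ ∑ j ∈ Finset.range ⌊ε * n⌋₊, (‖x‖ ^ (2 * j) / Cj p0 N j) *
          (‖ζ‖ ^ (2 * j) * ‖wr p0 N ‖ζ‖‖ / Cj p0 N j) :=
    Finset.sum_nonneg fun j hj => by
      have := (h.est j (h.jle hj)).2.1
      positivity
  have hM1 := M1_nonneg k A lam K
  have hM2 := M2_nonneg k A lam K h.hC.le
  have hX := (h.Xi_ge x).1
  have hXp : 0 ≤ Xi2 p0 N ⌊ε * n⌋₊ x := by linarith
  rcases le_total ‖ζ‖ (lam / 4) with hz | hz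
  · have h1 := h.G_in hx hz
    have h2 : 0 ≤ M2 k A lam C K * (n:ℝ) ^ 3 * Real.exp (-(c * n)) * Xi2 p0 N ⌊ε * n⌋₊ x *
        ‖Wl p0 a b p ζ‖ := by positivity
    unfold M1
    linarith
  · have h1 := h.G_out hx hz
    have h2 : 0 ≤ M1 k A lam K * n * (∑ j ∈ Finset.range ⌊ε * n⌋₊, (‖x‖ ^ (2 * j) / Cj p0 N j) *
          (‖ζ‖ ^ (2 * j) * ‖wr p0 N ‖ζ‖‖ / Cj p0 N j)) := by positivity
    have h3 := mul_le_mul_of_nonneg_right h1 (norm_nonneg (Wl p0 a b p ζ))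
    rw [mul_assoc] at h3
    unfold M2
    linarith

lemma Ctx.int_term (h : Ctx A η lam ε c C K n p0 N a b p) {j : ℕ} (hj : j ∈ Finset.range ⌊ε * n⌋₊) :
    Integrable (fun ζ : ℂ => ‖ζ‖ ^ (2 * j) * ‖wr p0 N ‖ζ‖‖) mu :=
  integrable_Cj h.s_gt (h.est j (h.jle hj)).1

/-- norm of the kernel -/
theorem Ctx.G_norm (h : Ctx A η lam ε c C K n p0 N a b p) {CW : ℝ}
    (hW : Integrable (Wl p0 a b p) mu) (hCW : ∫ ζ, ‖Wl p0 a b p ζ‖ ∂mu ≤ CW)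
    {x : ℂ} (hx : ‖x‖ ≤ lam / 2) :
    Integrable (fun ζ => ‖(Gp p0 N a b p ⌊ε * n⌋₊ x).eval (starRingEnd ℂ ζ)‖ ^ 2 *
      (om n ζ * ‖Wl p0 a b p ζ‖)) mu ∧
    ∫ ζ, ‖(Gp p0 N a b p ⌊ε * n⌋₊ x).eval (starRingEnd ℂ ζ)‖ ^ 2 *
      (om n ζ * ‖Wl p0 a b p ζ‖) ∂mu ≤ (M1 k A lam K * n +
        M2 k A lam C K * CW * (n:ℝ) ^ 3 * Real.exp (-(c * n))) * Xi2 p0 N ⌊ε * n⌋₊ x ∧
    ∫ ζ in (Metric.ball (0:ℂ) (lam / 4))ᶜ,
      ‖(Gp p0 N a b p ⌊ε * n⌋₊ x).eval (starRingEnd ℂ ζ)‖ ^ 2 *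
      (om n ζ * ‖Wl p0 a b p ζ‖) ∂mu ≤
        M2 k A lam C K * CW * (n:ℝ) ^ 3 * Real.exp (-(c * n)) * Xi2 p0 N ⌊ε * n⌋₊ x := by
  have hM1 := M1_nonneg k A lam K
  have hM2 := M2_nonneg k A lam K h.hC.le
  have hX := (h.Xi_ge x).1
  have hXp : 0 ≤ Xi2 p0 N ⌊ε * n⌋₊ x := by linarith
  set J := ⌊ε * n⌋₊ with hJ
  have hCc : Continuous fun ζ : ℂ => (Gp p0 N a b p J x).eval (starRingEnd ℂ ζ) :=
    (Gp p0 N a b p J x).continuous.comp continuous_conj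
  have hom : Continuous fun ζ : ℂ => om n ζ := by
    unfold om
    exact (Continuous.inv₀ (by fun_prop) fun ζ => by positivity)
  have hdint : Integrable (fun ζ : ℂ => M1 k A lam K * n * (∑ j ∈ Finset.range J,
      (‖x‖ ^ (2 * j) / Cj p0 N j) * (‖ζ‖ ^ (2 * j) * ‖wr p0 N ‖ζ‖‖ / Cj p0 N j)) +
      M2 k A lam C K * (n:ℝ) ^ 3 * Real.exp (-(c * n)) * Xi2 p0 N J x *
        ‖Wl p0 a b p ζ‖) mu := by
    refine Integrable.add ?_ (hW.norm.const_mul _)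
    refine Integrable.const_mul (integrable_finsetSum _ fun j hj => ?_) _
    exact ((h.int_term hj).div_const _).const_mul _
  have hmeas : AEStronglyMeasurable (fun ζ => ‖(Gp p0 N a b p J x).eval (starRingEnd ℂ ζ)‖ ^ 2 *
      (om n ζ * ‖Wl p0 a b p ζ‖)) mu :=
    (hCc.norm.pow 2).aestronglyMeasurable.mul
      (hom.aestronglyMeasurable.mul hW.aestronglyMeasurable.norm)
  have hint : Integrable (fun ζ => ‖(Gp p0 N a b p J x).eval (starRingEnd ℂ ζ)‖ ^ 2 *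
      (om n ζ * ‖Wl p0 a b p ζ‖)) mu := by
    refine hdint.mono' hmeas (Eventually.of_forall fun ζ => ?_)
    have := om_pos n ζ
    rw [Real.norm_eq_abs, abs_of_nonneg (by positivity)]
    exact h.G_dom hx ζ
  refine ⟨hint, ?_, ?_⟩
  · have h1 := integral_mono hint hdint fun ζ => h.G_dom hx ζ
    refine h1.trans ?_
    rw [integral_add (Integrable.const_mul (integrable_finsetSum _ fun j hj =>
      ((h.int_term hj).div_const _).const_mul _) _) (hW.norm.const_mul _), integral_const_mul,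
      integral_const_mul, integral_finsetSum _ fun j hj =>
      ((h.int_term hj).div_const _).const_mul _]
    have e1 : ∑ j ∈ Finset.range J, ∫ ζ : ℂ, (‖x‖ ^ (2 * j) / Cj p0 N j) *
        (‖ζ‖ ^ (2 * j) * ‖wr p0 N ‖ζ‖‖ / Cj p0 N j) ∂mu =
        ∑ j ∈ Finset.range J, ‖x‖ ^ (2 * j) / Cj p0 N j := by
      refine Finset.sum_congr rfl fun j hj => ?_
      have h2 := (h.est j (h.jle hj)).2.1
      rw [integral_const_mul, integral_div]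
      have : ∫ ζ : ℂ, ‖ζ‖ ^ (2 * j) * ‖wr p0 N ‖ζ‖‖ ∂mu = Cj p0 N j := rfl
      rw [this, div_self h2.ne', mul_one]
    rw [e1]
    have h3 := (h.Xi_ge x).2
    have hn0 : (0:ℝ) ≤ n := Nat.cast_nonneg n
    calc M1 k A lam K * n * ∑ j ∈ Finset.range J, ‖x‖ ^ (2 * j) / Cj p0 N j +
          M2 k A lam C K * (n:ℝ) ^ 3 * Real.exp (-(c * n)) * Xi2 p0 N J x *
            ∫ ζ, ‖Wl p0 a b p ζ‖ ∂mu ≤
        M1 k A lam K * n * Xi2 p0 N J x +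
          M2 k A lam C K * (n:ℝ) ^ 3 * Real.exp (-(c * n)) * Xi2 p0 N J x * CW := by
          gcongr
      _ = _ := by ring
  · have hms : MeasurableSet (Metric.ball (0:ℂ) (lam / 4))ᶜ := Metric.isOpen_ball.measurableSet.compl
    calc ∫ ζ in (Metric.ball (0:ℂ) (lam / 4))ᶜ,
          ‖(Gp p0 N a b p J x).eval (starRingEnd ℂ ζ)‖ ^ 2 * (om n ζ * ‖Wl p0 a b p ζ‖) ∂mu ≤
        ∫ ζ in (Metric.ball (0:ℂ) (lam / 4))ᶜ,
          M2 k A lam C K * (n:ℝ) ^ 3 * Real.exp (-(c * n)) * Xi2 p0 N J x *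
            ‖Wl p0 a b p ζ‖ ∂mu := by
          refine setIntegral_mono_on hint.integrableOn (hW.norm.const_mul _).integrableOn hms
            fun ζ hζ => ?_
          rw [mem_compl_iff, mem_ball_zero_iff, not_lt] at hζ
          have h1 := h.G_out hx hζ
          have h3 := mul_le_mul_of_nonneg_right h1 (norm_nonneg (Wl p0 a b p ζ))
          rw [mul_assoc] at h3
          exact h3
      _ ≤ ∫ ζ, M2 k A lam C K * (n:ℝ) ^ 3 * Real.exp (-(c * n)) * Xi2 p0 N J x *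
            ‖Wl p0 a b p ζ‖ ∂mu := 
          setIntegral_le_integral (hW.norm.const_mul _)
            (Eventually.of_forall fun ζ => by positivity)
      _ = M2 k A lam C K * (n:ℝ) ^ 3 * Real.exp (-(c * n)) * Xi2 p0 N J x *
            ∫ ζ, ‖Wl p0 a b p ζ‖ ∂mu := integral_const_mul _ _
      _ ≤ M2 k A lam C K * (n:ℝ) ^ 3 * Real.exp (-(c * n)) * Xi2 p0 N J x * CW := by gcongr
      _ = _ := by ring

lemma Ctx.wr_le2 (h : Ctx A η lam ε c C K n p0 N a b p) {ζ : ℂ} (hζ : ‖ζ‖ ≤ lam / 4) :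
    ‖wr p0 N ‖ζ‖‖ ≤ cK k A lam * cU k A ^ 2 * (om n ζ * ‖Wl p0 a b p ζ‖) := by
  have hl := h.hlam
  rw [h.nq (by linarith)]
  have h2 : ‖ζ‖ ≤ lam / 2 := by linarith
  have h2' : ‖starRingEnd ℂ ζ‖ ≤ lam / 2 := by rw [RCLike.norm_conj]; exact h2
  set x := ‖hh (fun i => a i / b i) p ζ‖
  set y := ‖hh (fun i => starRingEnd ℂ (a i / b i)) p (starRingEnd ℂ ζ)‖
  set κ := ‖kap b p‖
  set w := ‖wr p0 N ‖ζ‖‖
  have hx : 0 < x := norm_pos_iff.2 (hh_ne _ _ _)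
  have hy : 0 < y := norm_pos_iff.2 (hh_ne _ _ _)
  have hκ : 0 < κ := norm_pos_iff.2 (kap_ne _ _)
  have hw : 0 < w := norm_wr_pos _ _ _
  have e1 : 1 ≤ cU k A * x := by
    have := h.hinv h2
    rwa [inv_le_iff_one_le_mul₀ hx] at this
  have e2 : 1 ≤ cU k A * y := by
    have := h.hinv2 h2'
    rwa [inv_le_iff_one_le_mul₀ hy] at this
  have e3 : 1 ≤ cK k A lam * κ := by
    have := h.kinv
    rwa [inv_le_iff_one_le_mul₀ hκ] at this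
  have hU := cU_pos k A
  have hKK := cK_pos k A lam
  calc w = w * 1 * 1 * 1 := by ring
    _ ≤ w * (cU k A * x) * (cU k A * y) * (cK k A lam * κ) := by gcongr
    _ = _ := by ring

lemma Ctx.inv_c (h : Ctx A η lam ε c C K n p0 N a b p) {j : ℕ} (hj : j ∈ Finset.range ⌊ε * n⌋₊) :
    0 < ‖cj p0 N j‖ ∧ ‖cj p0 N j‖⁻¹ ≤ K * (Cj p0 N j)⁻¹ := by
  obtain ⟨-, h2, h3, -⟩ := h.est j (h.jle hj)
  have h4 : 0 < ‖cj p0 N j‖ := by
    by_contra hc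
    have : ‖cj p0 N j‖ = 0 := le_antisymm (not_lt.1 hc) (norm_nonneg _)
    rw [this, mul_zero] at h3
    linarith
  refine ⟨h4, ?_⟩
  rw [inv_le_iff_one_le_mul₀ h4]
  calc 1 = Cj p0 N j * (Cj p0 N j)⁻¹ := by field_simp
    _ ≤ (K * ‖cj p0 N j‖) * (Cj p0 N j)⁻¹ := by gcongr
    _ = _ := by ring

/-- the diagonal of the kernel -/
theorem Ctx.G_diag (h : Ctx A η lam ε c C K n p0 N a b p) {x : ℂ} (hx : ‖x‖ ≤ lam / 4) :
    ‖(Gp p0 N a b p ⌊ε * n⌋₊ x).eval (starRingEnd ℂ x) * ((om n x : ℂ) * Wl p0 a b p x) -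
      ∑ j ∈ Finset.range ⌊ε * n⌋₊, ((‖x‖ ^ (2 * j) : ℝ) : ℂ) * wr p0 N ‖x‖ / cj p0 N j‖ ≤
      (2 * cU k A ^ 2 * K * cK k A lam * cU k A ^ 2) * (1 / 2) ^ ⌊ε * n⌋₊ *
        (om n x * ‖Wl p0 a b p x‖ * Xi2 p0 N ⌊ε * n⌋₊ x) := by
  have hl := h.hlam
  have hlw := lw_eq (p := p) (p0 := p0) h.hlam h.hab h.hb h.hn (show ‖x‖ < lam by linarith)
  rw [← h.hN] at hlw
  rw [hlw, Gp_eval]
  set J := ⌊ε * n⌋₊ with hJ
  set T := (Tp (fun i => starRingEnd ℂ (a i / b i)) p J).eval (starRingEnd ℂ x) with hT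
  set H2 := hh (fun i => starRingEnd ℂ (a i / b i)) p (starRingEnd ℂ x) with hH2
  have hkn := kap_ne b p
  have hhn := hh_ne (fun i => a i / b i) p x
  have e1 : (kap b p * hh (fun i => a i / b i) p x)⁻¹ *
      (T * ∑ j ∈ Finset.range J, x ^ j / cj p0 N j * (starRingEnd ℂ x) ^ j) *
      (kap b p * wr p0 N ‖x‖ * hh (fun i => a i / b i) p x * H2) -
      ∑ j ∈ Finset.range J, ((‖x‖ ^ (2 * j) : ℝ) : ℂ) * wr p0 N ‖x‖ / cj p0 N j =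
      (T * H2 - 1) * ∑ j ∈ Finset.range J, ((‖x‖ ^ (2 * j) : ℝ) : ℂ) * wr p0 N ‖x‖ / cj p0 N j := by
    have e2 : ∑ j ∈ Finset.range J, ((‖x‖ ^ (2 * j) : ℝ) : ℂ) * wr p0 N ‖x‖ / cj p0 N j =
        wr p0 N ‖x‖ * ∑ j ∈ Finset.range J, x ^ j / cj p0 N j * (starRingEnd ℂ x) ^ j := by
      rw [Finset.mul_sum]
      refine Finset.sum_congr rfl fun j _ => ?_
      have : x ^ j * (starRingEnd ℂ x) ^ j = ((‖x‖ ^ (2 * j) : ℝ) : ℂ) := by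
        rw [← mul_pow, conj_mul_self_eq, pow_mul]
        push_cast
        ring
      rw [← this]
      ring
    rw [e2]
    field_simp
  rw [e1, norm_mul]
  have h1 := (Tp_bound h.hlam h.ωc h.hp J).2.1 (starRingEnd ℂ x) (by rw [RCLike.norm_conj]; exact hx)
  rw [← hT, ← hH2] at h1
  have h2 : ‖∑ j ∈ Finset.range J, ((‖x‖ ^ (2 * j) : ℝ) : ℂ) * wr p0 N ‖x‖ / cj p0 N j‖ ≤
      K * ‖wr p0 N ‖x‖‖ * Xi2 p0 N J x := by
    refine (norm_sum_le _ _).trans ?_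
    have h3 := (h.Xi_ge x).2
    rw [← hJ] at h3
    have hK := h.hK
    calc ∑ j ∈ Finset.range J, ‖((‖x‖ ^ (2 * j) : ℝ) : ℂ) * wr p0 N ‖x‖ / cj p0 N j‖ ≤
        ∑ j ∈ Finset.range J, K * ‖wr p0 N ‖x‖‖ * (‖x‖ ^ (2 * j) / Cj p0 N j) := by
          refine Finset.sum_le_sum fun j hj => ?_
          rw [norm_div, norm_mul, Complex.norm_real, Real.norm_eq_abs,
            abs_of_nonneg (by positivity), div_eq_mul_inv]
          have := (h.inv_c hj).2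
          calc ‖x‖ ^ (2 * j) * ‖wr p0 N ‖x‖‖ * ‖cj p0 N j‖⁻¹ ≤
              ‖x‖ ^ (2 * j) * ‖wr p0 N ‖x‖‖ * (K * (Cj p0 N j)⁻¹) := by gcongr
            _ = _ := by ring
      _ = K * ‖wr p0 N ‖x‖‖ * ∑ j ∈ Finset.range J, ‖x‖ ^ (2 * j) / Cj p0 N j := by
          rw [Finset.mul_sum]
      _ ≤ _ := by gcongr
  have h4 := h.wr_le2 hx
  have hX := (h.Xi_ge x).1
  rw [← hJ] at hX
  have hK := h.hK
  have hU := cU_pos k A
  have hKK := cK_pos k A lam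
  have hom := om_pos n x
  calc ‖T * H2 - 1‖ * ‖∑ j ∈ Finset.range J, ((‖x‖ ^ (2 * j) : ℝ) : ℂ) * wr p0 N ‖x‖ / cj p0 N j‖ ≤
      (2 * cU k A ^ 2 * (1 / 2) ^ J) * (K * (cK k A lam * cU k A ^ 2 *
        (om n x * ‖Wl p0 a b p x‖)) * Xi2 p0 N J x) := by
        refine mul_le_mul h1 (h2.trans ?_) (norm_nonneg _) (by positivity)
        gcongr
    _ = _ := by ring

/-- sum of `|x|^j / √C_j` -/
lemma Ctx.sum_sqrt (h : Ctx A η lam ε c C K n p0 N a b p) (x : ℂ) :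
    ∑ j ∈ Finset.range ⌊ε * n⌋₊, ‖x‖ ^ j / √(Cj p0 N j) ≤ n * √(Xi2 p0 N ⌊ε * n⌋₊ x) := by
  set J := ⌊ε * n⌋₊ with hJ
  have h1 : (∑ j ∈ Finset.range J, ‖x‖ ^ j / √(Cj p0 N j)) ^ 2 ≤ J * Xi2 p0 N J x := by
    calc (∑ j ∈ Finset.range J, ‖x‖ ^ j / √(Cj p0 N j)) ^ 2 ≤
        (Finset.range J).card * ∑ j ∈ Finset.range J, (‖x‖ ^ j / √(Cj p0 N j)) ^ 2 :=
          sq_sum_le_card_mul_sum_sq
      _ = J * ∑ j ∈ Finset.range J, ‖x‖ ^ (2 * j) / Cj p0 N j := by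
          rw [Finset.card_range]
          congr 1
          refine Finset.sum_congr rfl fun j hj => ?_
          rw [div_pow, Real.sq_sqrt (h.est j (h.jle hj)).2.1.le]
          ring
      _ ≤ _ := by
          gcongr
          exact (h.Xi_ge x).2
  have hJn : (J:ℝ) ≤ n := by
    have := h.hJ
    have h2 : J ≤ n := by omega
    exact_mod_cast h2
  have hn1 : (1:ℝ) ≤ n := by exact_mod_cast h.hn
  have hX := (h.Xi_ge x).1
  rw [← hJ] at hX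
  refine le_of_sq_le_sq (h1.trans ?_) (by positivity)
  rw [mul_pow, Real.sq_sqrt (by linarith)]
  have : (J:ℝ) ≤ (n:ℝ) ^ 2 := by nlinarith
  gcongr

end

end

end Pool.Agent.H972.FH
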