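import Pool.Agent.H972.FH.LocC

set_option autoImplicit false

open MeasureTheory Complex Filter Topology Set
open scoped ENNReal

namespace Pool.Agent.H972.FH

noncomputable section

variable {k : ℕ} {A η lam ε c C K : ℝ} {n : ℕ} {p0 N : ℂ} {a b p : Fin k → ℂ}

/-- abbreviation: the squared norm of `F` -/
def nF (n : ℕ) (p0 : ℂ) (a b p : Fin k → ℂ) (F : ℂ → ℂ) : ℝ :=
  ∫ ζ, ‖F ζ‖ ^ 2 * (om n ζ * ‖Wl p0 a b p ζ‖) ∂mu

lemma measurable_Wl (p0 : ℂ) (a b p : Fin k → ℂ) : Measurable (Wl p0 a b p) := by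
  have h1 : Measurable fun ζ : ℂ => (Real.log (‖ζ‖ ^ 2 / (1 + ‖ζ‖ ^ 2)) : ℂ) :=
    Complex.measurable_ofReal.comp (Real.measurable_log.comp (by fun_prop))
  have h2 : ∀ i, Measurable fun ζ : ℂ => ((Real.log (dc (a i) (b i) ζ) : ℝ) : ℂ) := by
    intro i
    unfold dc
    exact Complex.measurable_ofReal.comp (Real.measurable_log.comp (by fun_prop))
  unfold Wl Wt
  refine Measurable.mul ?_ ?_
  · exact Complex.measurable_exp.comp (h1.const_mul _)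
  · exact Complex.measurable_exp.comp (Finset.measurable_sum _ fun i _ => (h2 i).const_mul _)

lemma continuous_om (n : ℕ) : Continuous fun ζ : ℂ => om n ζ := by
  unfold om
  exact (Continuous.inv₀ (by fun_prop) fun ζ => by positivity)

lemma nF_nonneg (n : ℕ) (p0 : ℂ) (a b p : Fin k → ℂ) (F : ℂ → ℂ) : 0 ≤ nF n p0 a b p F :=
  integral_nonneg fun ζ => by have := om_pos n ζ; positivity

/-- `‖F h‖² |wr|` on the disc -/
lemma Ctx.H_int (h : Ctx A η lam ε c C K n p0 N a b p) {F : ℂ → ℂ} (hF : Differentiable ℂ F)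
    (hF2 : Integrable (fun ζ => ‖F ζ‖ ^ 2 * (om n ζ * ‖Wl p0 a b p ζ‖)) mu) :
    IntegrableOn (fun ζ => ‖F ζ * hh (fun i => a i / b i) p ζ‖ ^ 2 * ‖wr p0 N ‖ζ‖‖)
      (Metric.ball 0 (lam / 4)) mu ∧
    ∫ ζ in Metric.ball 0 (lam / 4), ‖F ζ * hh (fun i => a i / b i) p ζ‖ ^ 2 * ‖wr p0 N ‖ζ‖‖ ∂mu ≤
      cK k A lam * cU k A ^ 2 * nF n p0 a b p F := by
  have hball : MeasurableSet (Metric.ball (0:ℂ) (lam / 4)) := Metric.isOpen_ball.measurableSet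
  have hl := h.hlam
  have hpt : ∀ ζ ∈ Metric.ball (0:ℂ) (lam / 4),
      ‖F ζ * hh (fun i => a i / b i) p ζ‖ ^ 2 * ‖wr p0 N ‖ζ‖‖ ≤
        cK k A lam * cU k A ^ 2 * (‖F ζ‖ ^ 2 * (om n ζ * ‖Wl p0 a b p ζ‖)) := by
    intro ζ hζ
    rw [mem_ball_zero_iff] at hζ
    have h1 := h.wr_le hζ.le
    calc ‖F ζ * hh (fun i => a i / b i) p ζ‖ ^ 2 * ‖wr p0 N ‖ζ‖‖ =
        ‖F ζ‖ ^ 2 * (‖hh (fun i => a i / b i) p ζ‖ ^ 2 * ‖wr p0 N ‖ζ‖‖) := by
          rw [norm_mul, mul_pow]; ring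
      _ ≤ ‖F ζ‖ ^ 2 * (cK k A lam * cU k A ^ 2 * (om n ζ * ‖Wl p0 a b p ζ‖)) := by gcongr
      _ = _ := by ring
  have hdiff : ContinuousOn (fun ζ => F ζ * hh (fun i => a i / b i) p ζ)
      (Metric.ball (0:ℂ) (lam / 4)) :=
    (hF.continuous.continuousOn).mul
      ((hh_diff h.hlam h.ω).continuousOn.mono (Metric.ball_subset_ball (by linarith)))
  have hm : AEStronglyMeasurable
      (fun ζ => ‖F ζ * hh (fun i => a i / b i) p ζ‖ ^ 2 * ‖wr p0 N ‖ζ‖‖)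
      (mu.restrict (Metric.ball 0 (lam / 4))) :=
    ((hdiff.norm.pow 2).aestronglyMeasurable hball).mul
      ((measurable_wr p0 N).comp measurable_norm).norm.aestronglyMeasurable
  have hdom : Integrable (fun ζ => cK k A lam * cU k A ^ 2 *
      (‖F ζ‖ ^ 2 * (om n ζ * ‖Wl p0 a b p ζ‖))) mu := hF2.const_mul _
  have hint : IntegrableOn (fun ζ => ‖F ζ * hh (fun i => a i / b i) p ζ‖ ^ 2 * ‖wr p0 N ‖ζ‖‖)
      (Metric.ball 0 (lam / 4)) mu := by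
    refine Integrable.mono' hdom.integrableOn hm ?_
    refine (ae_restrict_iff' hball).2 (Eventually.of_forall fun ζ hζ => ?_)
    rw [Real.norm_eq_abs, abs_of_nonneg (by positivity)]
    exact hpt ζ hζ
  refine ⟨hint, ?_⟩
  calc ∫ ζ in Metric.ball 0 (lam / 4),
        ‖F ζ * hh (fun i => a i / b i) p ζ‖ ^ 2 * ‖wr p0 N ‖ζ‖‖ ∂mu ≤
      ∫ ζ in Metric.ball 0 (lam / 4), cK k A lam * cU k A ^ 2 *
      (‖F ζ‖ ^ 2 * (om n ζ * ‖Wl p0 a b p ζ‖)) ∂mu :=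
        setIntegral_mono_on hint hdom.integrableOn hball hpt
    _ ≤ ∫ ζ, cK k A lam * cU k A ^ 2 * (‖F ζ‖ ^ 2 * (om n ζ * ‖Wl p0 a b p ζ‖)) ∂mu := by
        have hU := cU_pos k A
        have hKK := cK_pos k A lam
        exact setIntegral_le_integral hdom
          (Eventually.of_forall fun ζ => by have := om_pos n ζ; positivity)
    _ = _ := by rw [integral_const_mul]; rfl

lemma Ctx.wr_int (h : Ctx A η lam ε c C K n p0 N a b p) : Integrable (fun ζ => wr p0 N ‖ζ‖) mu := by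
  have h1 : (0:ℕ) ∈ Finset.range ⌊ε * n⌋₊ := Finset.mem_range.2 (by have := h.hJ1; omega)
  have h2 := (cj_eq (p0 := p0) (N := N) (j := 0) h.s_gt (h.est 0 (h.jle h1)).1).1
  simpa using h2

lemma Ctx.wrj_int (h : Ctx A η lam ε c C K n p0 N a b p) (j : ℕ) :
    IntegrableOn (fun ζ => ‖ζ‖ ^ (2 * j) * ‖wr p0 N ‖ζ‖‖) (Metric.ball 0 (lam / 4)) mu := by
  have hball : MeasurableSet (Metric.ball (0:ℂ) (lam / 4)) := Metric.isOpen_ball.measurableSet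
  refine Integrable.bdd_mul (c := 1) h.wr_int.norm.integrableOn
    ((continuous_norm.pow (2 * j)).aestronglyMeasurable) ?_
  refine (ae_restrict_iff' hball).2 (Eventually.of_forall fun z hz => ?_)
  rw [mem_ball_zero_iff] at hz
  rw [Real.norm_eq_abs, abs_of_nonneg (by positivity)]
  have := h.hlam1
  exact pow_le_one₀ (norm_nonneg _) (by linarith)

/-- partial moments -/
def Cl (lam : ℝ) (p0 N : ℂ) (j : ℕ) : ℝ :=
  ∫ ζ in Metric.ball (0:ℂ) (lam / 4), ‖ζ‖ ^ (2 * j) * ‖wr p0 N ‖ζ‖‖ ∂mu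

/-- coefficient bound -/
lemma Ctx.coef (h : Ctx A η lam ε c C K n p0 N a b p) {F : ℂ → ℂ} (hF : Differentiable ℂ F)
    (hF2 : Integrable (fun ζ => ‖F ζ‖ ^ 2 * (om n ζ * ‖Wl p0 a b p ζ‖)) mu) (j : ℕ) :
    ‖tc (fun ζ => F ζ * hh (fun i => a i / b i) p ζ) j‖ ^ 2 * Cl lam p0 N j ≤
      cK k A lam * cU k A ^ 2 * nF n p0 a b p F := by
  have hl := h.hlam
  have h1 := tc_sq_bound (φ := fun t => ‖wr p0 N t‖) (r := lam / 4) (R := lam) (by linarith)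
    (H := fun ζ => F ζ * hh (fun i => a i / b i) p ζ)
    (hF.differentiableOn.mul (hh_diff h.hlam h.ω)) (fun t => norm_nonneg _)
    (measurable_wr p0 N).norm h.wr_int.norm.integrableOn j
  exact h1.trans (h.H_int hF hF2).2

lemma Ctx.Cl_half (h : Ctx A η lam ε c C K n p0 N a b p) {j : ℕ}
    (hj : j ∈ Finset.range ⌊ε * n⌋₊) : Cj p0 N j ≤ 2 * Cl lam p0 N j := by
  have hball : MeasurableSet (Metric.ball (0:ℂ) (lam / 4)) := Metric.isOpen_ball.measurableSet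
  obtain ⟨-, h2, -, -, h5⟩ := h.est j (h.jle hj)
  have h6 : Cl lam p0 N j + ∫ ζ in (Metric.ball (0:ℂ) (lam / 4))ᶜ,
      ‖ζ‖ ^ (2 * j) * ‖wr p0 N ‖ζ‖‖ ∂mu = Cj p0 N j := integral_add_compl hball (h.int_term hj)
  have h7 : C * Real.exp (-(c * n)) * Cj p0 N j ≤ 1 / 2 * Cj p0 N j := by
    gcongr
    exact h.hrC
  linarith

/-- the inner integral -/
lemma Ctx.inner (h : Ctx A η lam ε c C K n p0 N a b p) {F : ℂ → ℂ} (hF : Differentiable ℂ F)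
    (hF2 : Integrable (fun ζ => ‖F ζ‖ ^ 2 * (om n ζ * ‖Wl p0 a b p ζ‖)) mu) {j : ℕ}
    (hj : j ∈ Finset.range ⌊ε * n⌋₊) :
    IntegrableOn (fun ζ => F ζ * hh (fun i => a i / b i) p ζ * (starRingEnd ℂ ζ) ^ j *
      wr p0 N ‖ζ‖ * ((Tp (fun i => starRingEnd ℂ (a i / b i)) p ⌊ε * n⌋₊).eval (starRingEnd ℂ ζ) *
        hh (fun i => starRingEnd ℂ (a i / b i)) p (starRingEnd ℂ ζ)))
        (Metric.ball 0 (lam / 4)) mu ∧
    ‖∫ ζ in Metric.ball 0 (lam / 4), F ζ * hh (fun i => a i / b i) p ζ * (starRingEnd ℂ ζ) ^ j *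
      wr p0 N ‖ζ‖ * ((Tp (fun i => starRingEnd ℂ (a i / b i)) p ⌊ε * n⌋₊).eval (starRingEnd ℂ ζ) *
        hh (fun i => starRingEnd ℂ (a i / b i)) p (starRingEnd ℂ ζ)) ∂mu -
      tc (fun ζ => F ζ * hh (fun i => a i / b i) p ζ) j * cj p0 N j‖ ≤
      (2 * cU k A ^ 2 * (1 / 2) ^ ⌊ε * n⌋₊ + 2 * C * Real.exp (-(c * n))) *
        √(cK k A lam * cU k A ^ 2 * nF n p0 a b p F) * √(Cj p0 N j) := by
  set J := ⌊ε * n⌋₊ with hJ
  set H : ℂ → ℂ := fun ζ => F ζ * hh (fun i => a i / b i) p ζ with hH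
  set B : Set ℂ := Metric.ball (0:ℂ) (lam / 4) with hB
  have hball : MeasurableSet B := Metric.isOpen_ball.measurableSet
  have hl := h.hlam
  have hU := cU_pos k A
  have hKK := cK_pos k A lam
  have hC := h.hC
  have hHd : DifferentiableOn ℂ H (Metric.ball 0 lam) :=
    hF.differentiableOn.mul (hh_diff h.hlam h.ω)
  have horth := orth (φ := wr p0 N) (r := lam / 4) (R := lam) (by linarith) hHd
    h.wr_int.integrableOn j
  set TE : ℂ → ℂ := fun ζ => (Tp (fun i => starRingEnd ℂ (a i / b i)) p J).eval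
    (starRingEnd ℂ ζ) * hh (fun i => starRingEnd ℂ (a i / b i)) p (starRingEnd ℂ ζ) with hTE
  have hTEb : ∀ ζ ∈ B, ‖TE ζ - 1‖ ≤ 2 * cU k A ^ 2 * (1 / 2) ^ J := by
    intro ζ hζ
    rw [hB, mem_ball_zero_iff] at hζ
    exact (Tp_bound h.hlam h.ωc h.hp J).2.1 (starRingEnd ℂ ζ)
      (by rw [RCLike.norm_conj]; exact hζ.le)
  have hTEc : ContinuousOn TE B := by
    refine ContinuousOn.mul ?_ ?_
    · exact ((Tp (fun i => starRingEnd ℂ (a i / b i)) p J).continuous.comp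
        continuous_conj).continuousOn
    · refine (hh_diff h.hlam h.ωc).continuousOn.comp continuous_conj.continuousOn ?_
      intro ζ hζ
      rw [hB, mem_ball_zero_iff] at hζ
      rw [mem_ball_zero_iff, RCLike.norm_conj]
      linarith
  -- the error term
  have hHc : ContinuousOn H B :=
    hHd.continuousOn.mono (Metric.ball_subset_ball (by linarith))
  have hwn : Measurable fun ζ : ℂ => ‖wr p0 N ‖ζ‖‖ :=
    ((measurable_wr p0 N).comp measurable_norm).norm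
  have hcs := csw (μ := mu.restrict B) (F := H) (G := fun ζ => (starRingEnd ℂ ζ) ^ j)
    (w := fun ζ => ‖wr p0 N ‖ζ‖‖) (fun ζ => norm_nonneg _) hwn.aestronglyMeasurable
    (hHc.aestronglyMeasurable hball) (continuous_conj.pow j).aestronglyMeasurable
    (h.H_int hF hF2).1 (by
      have := h.wrj_int j
      refine this.congr (Eventually.of_forall fun ζ => ?_)
      simp only
      rw [norm_pow, RCLike.norm_conj]
      ring)
  have hcs2 : ∫ ζ in B, ‖H ζ‖ * ‖(starRingEnd ℂ ζ) ^ j‖ * ‖wr p0 N ‖ζ‖‖ ∂mu ≤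
      √(cK k A lam * cU k A ^ 2 * nF n p0 a b p F) * √(Cj p0 N j) := by
    refine hcs.2.trans ?_
    have e1 : ∫ ζ in B, ‖(starRingEnd ℂ ζ) ^ j‖ ^ 2 * ‖wr p0 N ‖ζ‖‖ ∂mu ≤ Cj p0 N j := by
      calc ∫ ζ in B, ‖(starRingEnd ℂ ζ) ^ j‖ ^ 2 * ‖wr p0 N ‖ζ‖‖ ∂mu =
          ∫ ζ in B, ‖ζ‖ ^ (2 * j) * ‖wr p0 N ‖ζ‖‖ ∂mu := by
            refine integral_congr_ae (Eventually.of_forall fun ζ => ?_)
            simp only
            rw [norm_pow, RCLike.norm_conj]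
            ring
        _ ≤ _ := setIntegral_le_integral (h.int_term hj)
            (Eventually.of_forall fun ζ => by positivity)
    have e2 := (h.H_int hF hF2).2
    exact mul_le_mul (Real.sqrt_le_sqrt e2) (Real.sqrt_le_sqrt e1) (Real.sqrt_nonneg _)
      (Real.sqrt_nonneg _)
  -- integrand = main + error
  have hmain : IntegrableOn (fun ζ => H ζ * (starRingEnd ℂ ζ) ^ j * wr p0 N ‖ζ‖) B mu := horth.1
  have herr : IntegrableOn (fun ζ => (H ζ * (starRingEnd ℂ ζ) ^ j * wr p0 N ‖ζ‖) * (TE ζ - 1))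
      B mu := by
    refine Integrable.mul_bdd (c := 2 * cU k A ^ 2 * (1 / 2) ^ J) hmain
      ((hTEc.sub continuousOn_const).aestronglyMeasurable hball) ?_
    exact (ae_restrict_iff' hball).2 (Eventually.of_forall hTEb)
  have hsplit : ∀ ζ, F ζ * hh (fun i => a i / b i) p ζ * (starRingEnd ℂ ζ) ^ j *
      wr p0 N ‖ζ‖ * ((Tp (fun i => starRingEnd ℂ (a i / b i)) p J).eval (starRingEnd ℂ ζ) *
        hh (fun i => starRingEnd ℂ (a i / b i)) p (starRingEnd ℂ ζ)) =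
      H ζ * (starRingEnd ℂ ζ) ^ j * wr p0 N ‖ζ‖ +
        (H ζ * (starRingEnd ℂ ζ) ^ j * wr p0 N ‖ζ‖) * (TE ζ - 1) := by
    intro ζ
    simp only [hH, hTE]
    ring
  simp_rw [hsplit]
  refine ⟨hmain.add herr, ?_⟩
  rw [integral_add hmain herr, horth.2]
  -- the partial moment
  have hms : MeasurableSet Bᶜ := hball.compl
  have hcint := (cj_eq (p0 := p0) (N := N) (j := j) h.s_gt (h.est j (h.jle hj)).1).1
  have hcj : cj p0 N j = (∫ ζ in B, ((‖ζ‖ ^ (2 * j) : ℝ) : ℂ) * wr p0 N ‖ζ‖ ∂mu) +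
      ∫ ζ in Bᶜ, ((‖ζ‖ ^ (2 * j) : ℝ) : ℂ) * wr p0 N ‖ζ‖ ∂mu :=
    (integral_add_compl hball hcint).symm
  have hout : ‖∫ ζ in Bᶜ, ((‖ζ‖ ^ (2 * j) : ℝ) : ℂ) * wr p0 N ‖ζ‖ ∂mu‖ ≤
      C * Real.exp (-(c * n)) * Cj p0 N j := by
    refine (norm_integral_le_integral_norm _).trans ?_
    refine le_trans (le_of_eq ?_) (h.est j (h.jle hj)).2.2.2.2
    refine integral_congr_ae (Eventually.of_forall fun ζ => ?_)
    simp only
    rw [norm_mul, Complex.norm_real, Real.norm_eq_abs, abs_of_nonneg (by positivity)]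
  have hcoef : ‖tc H j‖ * √(Cj p0 N j) ≤
      2 * √(cK k A lam * cU k A ^ 2 * nF n p0 a b p F) := by
    have h1 := h.coef hF hF2 j
    have h2 := h.Cl_half hj
    have h3 : (‖tc H j‖ * √(Cj p0 N j)) ^ 2 ≤
        (2 * √(cK k A lam * cU k A ^ 2 * nF n p0 a b p F)) ^ 2 := by
      have hnn : 0 ≤ cK k A lam * cU k A ^ 2 * nF n p0 a b p F := by
        have := nF_nonneg n p0 a b p F; positivity
      rw [mul_pow, mul_pow, Real.sq_sqrt (h.est j (h.jle hj)).2.1.le, Real.sq_sqrt hnn]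
      have h4 : ‖tc H j‖ ^ 2 * Cj p0 N j ≤ ‖tc H j‖ ^ 2 * (2 * Cl lam p0 N j) := by gcongr
      nlinarith
    exact le_of_sq_le_sq h3 (by positivity)
  have e3 : tc H j * (∫ ζ in B, ((‖ζ‖ ^ (2 * j) : ℝ) : ℂ) * wr p0 N ‖ζ‖ ∂mu) +
      (∫ ζ in B, (H ζ * (starRingEnd ℂ ζ) ^ j * wr p0 N ‖ζ‖) * (TE ζ - 1) ∂mu) -
      tc H j * cj p0 N j =
      (∫ ζ in B, (H ζ * (starRingEnd ℂ ζ) ^ j * wr p0 N ‖ζ‖) * (TE ζ - 1) ∂mu) -
      tc H j * ∫ ζ in Bᶜ, ((‖ζ‖ ^ (2 * j) : ℝ) : ℂ) * wr p0 N ‖ζ‖ ∂mu := by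
    rw [hcj]; ring
  rw [e3]
  have herr2 : ‖∫ ζ in B, (H ζ * (starRingEnd ℂ ζ) ^ j * wr p0 N ‖ζ‖) * (TE ζ - 1) ∂mu‖ ≤
      2 * cU k A ^ 2 * (1 / 2) ^ J *
        (√(cK k A lam * cU k A ^ 2 * nF n p0 a b p F) * √(Cj p0 N j)) := by
    refine (norm_integral_le_integral_norm _).trans ?_
    calc ∫ ζ in B, ‖(H ζ * (starRingEnd ℂ ζ) ^ j * wr p0 N ‖ζ‖) * (TE ζ - 1)‖ ∂mu ≤
        ∫ ζ in B, (2 * cU k A ^ 2 * (1 / 2) ^ J) *
          (‖H ζ‖ * ‖(starRingEnd ℂ ζ) ^ j‖ * ‖wr p0 N ‖ζ‖‖) ∂mu := by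
          refine setIntegral_mono_on herr.norm (hcs.1.const_mul _) hball fun ζ hζ => ?_
          rw [norm_mul, norm_mul, norm_mul, mul_comm]
          have := hTEb ζ hζ
          gcongr
      _ = (2 * cU k A ^ 2 * (1 / 2) ^ J) *
          ∫ ζ in B, ‖H ζ‖ * ‖(starRingEnd ℂ ζ) ^ j‖ * ‖wr p0 N ‖ζ‖‖ ∂mu := integral_const_mul _ _
      _ ≤ _ := by gcongr
  refine (norm_sub_le _ _).trans ?_
  rw [norm_mul]
  have hCj := (h.est j (h.jle hj)).2.1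
  have h9 : ‖tc H j‖ * ‖∫ ζ in Bᶜ, ((‖ζ‖ ^ (2 * j) : ℝ) : ℂ) * wr p0 N ‖ζ‖ ∂mu‖ ≤
      2 * C * Real.exp (-(c * n)) *
        (√(cK k A lam * cU k A ^ 2 * nF n p0 a b p F) * √(Cj p0 N j)) := by
    calc ‖tc H j‖ * ‖∫ ζ in Bᶜ, ((‖ζ‖ ^ (2 * j) : ℝ) : ℂ) * wr p0 N ‖ζ‖ ∂mu‖ ≤
        ‖tc H j‖ * (C * Real.exp (-(c * n)) * Cj p0 N j) := by gcongr
      _ = C * Real.exp (-(c * n)) * (‖tc H j‖ * √(Cj p0 N j)) * √(Cj p0 N j) := by
          nth_rewrite 1 [← Real.mul_self_sqrt hCj.le]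
          ring
      _ ≤ C * Real.exp (-(c * n)) *
          (2 * √(cK k A lam * cU k A ^ 2 * nF n p0 a b p F)) * √(Cj p0 N j) := by gcongr
      _ = _ := by ring
  calc _ ≤ 2 * cU k A ^ 2 * (1 / 2) ^ J *
        (√(cK k A lam * cU k A ^ 2 * nF n p0 a b p F) * √(Cj p0 N j)) +
      2 * C * Real.exp (-(c * n)) *
        (√(cK k A lam * cU k A ^ 2 * nF n p0 a b p F) * √(Cj p0 N j)) := add_le_add herr2 h9
    _ = _ := by ring

end

end Pool.Agent.H972.FH
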