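import Pool.Agent.H972.FH.LocD

set_option autoImplicit false

open MeasureTheory Complex Filter Topology Set
open scoped ENNReal

namespace Pool.Agent.H972.FH

noncomputable section

variable {k : ℕ} {A η lam ε c C K : ℝ} {n : ℕ} {p0 N : ℂ} {a b p : Fin k → ℂ}

/-- the reproducing property -/
theorem Ctx.repr (h : Ctx A η lam ε c C K n p0 N a b p) {CW C2 : ℝ} (hC2 : 0 ≤ C2)
    (hW : Integrable (Wl p0 a b p) mu) (hCW : ∫ ζ, ‖Wl p0 a b p ζ‖ ∂mu ≤ CW)
    {x : ℂ} (hx : ‖x‖ ≤ lam / 4)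
    (htail : ∀ j : ℕ, ⌊ε * n⌋₊ ≤ j → (4:ℝ) ^ j * ‖x‖ ^ (2 * j) ≤
      C2 * Real.exp (-(n:ℝ)) * Cl lam p0 N j)
    {F : ℂ → ℂ} (hF : Differentiable ℂ F)
    (hF2 : Integrable (fun ζ => ‖F ζ‖ ^ 2 * (om n ζ * ‖Wl p0 a b p ζ‖)) mu) :
    ‖∫ ζ, F ζ * (Gp p0 N a b p ⌊ε * n⌋₊ x).eval (starRingEnd ℂ ζ) *
      ((om n ζ : ℂ) * Wl p0 a b p ζ) ∂mu - F x‖ ≤
      (cU k A * ((2 * cU k A ^ 2 * (1 / 2) ^ ⌊ε * n⌋₊ + 2 * C * Real.exp (-(c * n))) *
        √(cK k A lam * cU k A ^ 2) * K * n + 2 * √(C2 * Real.exp (-(n:ℝ)) *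
          (cK k A lam * cU k A ^ 2))) +
        √(M2 k A lam C K * CW * (n:ℝ) ^ 3 * Real.exp (-(c * n)))) *
        √(nF n p0 a b p F) * √(Xi2 p0 N ⌊ε * n⌋₊ x) := by
  set J := ⌊ε * n⌋₊ with hJ
  set H : ℂ → ℂ := fun ζ => F ζ * hh (fun i => a i / b i) p ζ with hH
  set B : Set ℂ := Metric.ball (0:ℂ) (lam / 4) with hB
  set G : ℂ → ℂ := fun ζ => (Gp p0 N a b p J x).eval (starRingEnd ℂ ζ) with hG
  have hball : MeasurableSet B := Metric.isOpen_ball.measurableSet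
  have hms : MeasurableSet Bᶜ := hball.compl
  have hl := h.hlam
  have hU := cU_pos k A
  have hKK := cK_pos k A lam
  have hC := h.hC
  have hK := h.hK
  have hx2 : ‖x‖ ≤ lam / 2 := by linarith
  set NF := nF n p0 a b p F with hNF
  have hNF0 : 0 ≤ NF := nF_nonneg n p0 a b p F
  set Q := cK k A lam * cU k A ^ 2 with hQ
  have hQ0 : 0 < Q := by positivity
  have hX1 : 1 ≤ Xi2 p0 N J x := (h.Xi_ge x).1
  have hX : 0 ≤ Xi2 p0 N J x := by linarith
  have hHd : DifferentiableOn ℂ H (Metric.ball 0 lam) :=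
    hF.differentiableOn.mul (hh_diff h.hlam h.ω)
  obtain ⟨hG1, -, hG3⟩ := h.G_norm hW hCW hx2
  -- Cauchy–Schwarz on the complement
  have hGc : Continuous G := (Gp p0 N a b p J x).continuous.comp continuous_conj
  have hwm : AEStronglyMeasurable (fun ζ => om n ζ * ‖Wl p0 a b p ζ‖) mu :=
    (continuous_om n).aestronglyMeasurable.mul hW.aestronglyMeasurable.norm
  have hw0 : ∀ ζ, 0 ≤ om n ζ * ‖Wl p0 a b p ζ‖ := fun ζ => by
    have := om_pos n ζ; positivity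
  have hcsAll := csw (μ := mu) (F := F) (G := G) (w := fun ζ => om n ζ * ‖Wl p0 a b p ζ‖) hw0 hwm
    hF.continuous.aestronglyMeasurable hGc.aestronglyMeasurable hF2 hG1
  have hcsC := csw (μ := mu.restrict Bᶜ) (F := F) (G := G)
    (w := fun ζ => om n ζ * ‖Wl p0 a b p ζ‖) hw0 hwm.restrict
    hF.continuous.aestronglyMeasurable hGc.aestronglyMeasurable hF2.integrableOn hG1.integrableOn
  have hnorm : ∀ ζ, ‖F ζ * G ζ * ((om n ζ : ℂ) * Wl p0 a b p ζ)‖ =
      ‖F ζ‖ * ‖G ζ‖ * (om n ζ * ‖Wl p0 a b p ζ‖) := by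
    intro ζ
    rw [norm_mul, norm_mul, norm_mul, Complex.norm_real, Real.norm_eq_abs,
      abs_of_pos (om_pos n ζ)]
  have hint : Integrable (fun ζ => F ζ * G ζ * ((om n ζ : ℂ) * Wl p0 a b p ζ)) mu := by
    have hm : AEStronglyMeasurable (fun ζ => F ζ * G ζ * ((om n ζ : ℂ) * Wl p0 a b p ζ)) mu :=
      (hF.continuous.mul hGc).aestronglyMeasurable.mul
        ((Complex.continuous_ofReal.comp (continuous_om n)).aestronglyMeasurable.mul
          hW.aestronglyMeasurable)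
    refine (integrable_norm_iff hm).1 ?_
    exact hcsAll.1.congr (Eventually.of_forall fun ζ => (hnorm ζ).symm)
  have hout : ‖∫ ζ in Bᶜ, F ζ * G ζ * ((om n ζ : ℂ) * Wl p0 a b p ζ) ∂mu‖ ≤
      √NF * √(M2 k A lam C K * CW * (n:ℝ) ^ 3 * Real.exp (-(c * n)) * Xi2 p0 N J x) := by
    refine (norm_integral_le_integral_norm _).trans ?_
    simp_rw [hnorm]
    refine hcsC.2.trans ?_
    refine mul_le_mul (Real.sqrt_le_sqrt ?_) (Real.sqrt_le_sqrt hG3) (Real.sqrt_nonneg _)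
      (Real.sqrt_nonneg _)
    exact setIntegral_le_integral hF2 (Eventually.of_forall fun ζ =>
      mul_nonneg (by positivity) (hw0 ζ))
  -- the inner part
  set Ij : ℕ → ℂ := fun j => ∫ ζ in B, F ζ * hh (fun i => a i / b i) p ζ * (starRingEnd ℂ ζ) ^ j *
      wr p0 N ‖ζ‖ * ((Tp (fun i => starRingEnd ℂ (a i / b i)) p J).eval (starRingEnd ℂ ζ) *
        hh (fun i => starRingEnd ℂ (a i / b i)) p (starRingEnd ℂ ζ)) ∂mu with hIj
  have hhx := hh_ne (fun i => a i / b i) p x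
  have hin : ∫ ζ in B, F ζ * G ζ * ((om n ζ : ℂ) * Wl p0 a b p ζ) ∂mu =
      (hh (fun i => a i / b i) p x)⁻¹ * ∑ j ∈ Finset.range J, x ^ j / cj p0 N j * Ij j := by
    have e1 : ∀ ζ ∈ B, F ζ * G ζ * ((om n ζ : ℂ) * Wl p0 a b p ζ) =
        (hh (fun i => a i / b i) p x)⁻¹ * ∑ j ∈ Finset.range J, x ^ j / cj p0 N j *
        (F ζ * hh (fun i => a i / b i) p ζ * (starRingEnd ℂ ζ) ^ j *
      wr p0 N ‖ζ‖ * ((Tp (fun i => starRingEnd ℂ (a i / b i)) p J).eval (starRingEnd ℂ ζ) *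
        hh (fun i => starRingEnd ℂ (a i / b i)) p (starRingEnd ℂ ζ))) := by
      intro ζ hζ
      rw [hB, mem_ball_zero_iff] at hζ
      have hlw := lw_eq (p := p) (p0 := p0) h.hlam h.hab h.hb h.hn (show ‖ζ‖ < lam by linarith)
      rw [← h.hN] at hlw
      rw [hlw]
      simp only [hG]
      rw [Gp_eval]
      have hkn := kap_ne b p
      have e2 : ∑ j ∈ Finset.range J, x ^ j / cj p0 N j *
        (F ζ * hh (fun i => a i / b i) p ζ * (starRingEnd ℂ ζ) ^ j *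
      wr p0 N ‖ζ‖ * ((Tp (fun i => starRingEnd ℂ (a i / b i)) p J).eval (starRingEnd ℂ ζ) *
        hh (fun i => starRingEnd ℂ (a i / b i)) p (starRingEnd ℂ ζ))) =
        (F ζ * hh (fun i => a i / b i) p ζ * wr p0 N ‖ζ‖ *
        ((Tp (fun i => starRingEnd ℂ (a i / b i)) p J).eval (starRingEnd ℂ ζ) *
        hh (fun i => starRingEnd ℂ (a i / b i)) p (starRingEnd ℂ ζ))) *
        ∑ j ∈ Finset.range J, x ^ j / cj p0 N j * (starRingEnd ℂ ζ) ^ j := by
        rw [Finset.mul_sum]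
        refine Finset.sum_congr rfl fun j _ => ?_
        ring
      rw [e2]
      field_simp
    rw [setIntegral_congr_fun hball e1, integral_const_mul, integral_finsetSum]
    · congr 1
      refine Finset.sum_congr rfl fun j _ => ?_
      rw [integral_const_mul]
    · intro j hj
      exact (h.inner hF hF2 hj).1.const_mul _
  -- expansion of `F x`
  have hsx := hasSum_tc hHd (z := x) (by linarith)
  have hFx : F x = (hh (fun i => a i / b i) p x)⁻¹ *
      (∑ j ∈ Finset.range J, tc H j * x ^ j + ∑' i, tc H (i + J) * x ^ (i + J)) := by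
    rw [hsx.summable.sum_add_tsum_nat_add J, hsx.tsum_eq]
    simp only [hH]
    field_simp
  have htl : ‖∑' i, tc H (i + J) * x ^ (i + J)‖ ≤ 2 * √(C2 * Real.exp (-(n:ℝ)) * (Q * NF)) := by
    have hg : HasSum (fun i : ℕ => √(C2 * Real.exp (-(n:ℝ)) * (Q * NF)) * (1 / 2 : ℝ) ^ i)
        (√(C2 * Real.exp (-(n:ℝ)) * (Q * NF)) * 2) := by
      have := hasSum_geometric_two.mul_left (√(C2 * Real.exp (-(n:ℝ)) * (Q * NF)))
      simpa using this
    refine (tsum_of_norm_bounded hg fun i => ?_).trans (by linarith)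
    have h1 := htail (i + J) (by omega)
    have h2 := h.coef hF hF2 (i + J)
    have hCl0 : 0 ≤ Cl lam p0 N (i + J) := integral_nonneg fun ζ => by positivity
    have h3 : (‖tc H (i + J) * x ^ (i + J)‖ * 2 ^ (i + J)) ^ 2 ≤
        C2 * Real.exp (-(n:ℝ)) * (Q * NF) := by
      rw [norm_mul, norm_pow]
      calc (‖tc H (i + J)‖ * ‖x‖ ^ (i + J) * 2 ^ (i + J)) ^ 2 =
          ‖tc H (i + J)‖ ^ 2 * ((4:ℝ) ^ (i + J) * ‖x‖ ^ (2 * (i + J))) := by
            rw [mul_pow, mul_pow, ← pow_mul ‖x‖, ← pow_mul (2:ℝ), mul_comm (i + J) 2,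
              pow_mul (2:ℝ)]
            norm_num
            ring
        _ ≤ ‖tc H (i + J)‖ ^ 2 * (C2 * Real.exp (-(n:ℝ)) * Cl lam p0 N (i + J)) := by gcongr
        _ = C2 * Real.exp (-(n:ℝ)) * (‖tc H (i + J)‖ ^ 2 * Cl lam p0 N (i + J)) := by ring
        _ ≤ _ := by gcongr
    have h4 := Real.le_sqrt_of_sq_le h3
    have h5 : ‖tc H (i + J) * x ^ (i + J)‖ ≤
        √(C2 * Real.exp (-(n:ℝ)) * (Q * NF)) * (1 / 2 : ℝ) ^ (i + J) := by
      rw [one_div, inv_pow, ← div_eq_mul_inv, le_div_iff₀ (by positivity)]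
      exact h4
    refine h5.trans ?_
    have h6 : (1 / 2 : ℝ) ^ (i + J) ≤ (1 / 2 : ℝ) ^ i :=
      pow_le_pow_of_le_one (by norm_num) (by norm_num) (by omega)
    gcongr
  -- error of the inner part
  set E1 : ℝ := 2 * cU k A ^ 2 * (1 / 2) ^ J + 2 * C * Real.exp (-(c * n)) with hE1
  have hE10 : 0 ≤ E1 := by positivity
  have hsum : ‖∑ j ∈ Finset.range J, x ^ j / cj p0 N j * Ij j -
      ∑ j ∈ Finset.range J, tc H j * x ^ j‖ ≤ E1 * √(Q * NF) * K * (n * √(Xi2 p0 N J x)) := by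
    rw [← Finset.sum_sub_distrib]
    refine (norm_sum_le _ _).trans ?_
    calc ∑ j ∈ Finset.range J, ‖x ^ j / cj p0 N j * Ij j - tc H j * x ^ j‖ ≤
        ∑ j ∈ Finset.range J, E1 * √(Q * NF) * K * (‖x‖ ^ j / √(Cj p0 N j)) := by
          refine Finset.sum_le_sum fun j hj => ?_
          obtain ⟨hc0, hc1⟩ := h.inv_c hj
          have hcn : cj p0 N j ≠ 0 := norm_pos_iff.1 hc0
          have h7 := (h.inner hF hF2 hj).2
          have e3 : x ^ j / cj p0 N j * Ij j - tc H j * x ^ j =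
              x ^ j / cj p0 N j * (Ij j - tc H j * cj p0 N j) := by
            field_simp
          rw [e3, norm_mul, norm_div, norm_pow, div_eq_mul_inv]
          have hCj := (h.est j (h.jle hj)).2.1
          calc ‖x‖ ^ j * ‖cj p0 N j‖⁻¹ * ‖Ij j - tc H j * cj p0 N j‖ ≤
              ‖x‖ ^ j * (K * (Cj p0 N j)⁻¹) * (E1 * √(Q * NF) * √(Cj p0 N j)) := by
                gcongr
            _ = E1 * √(Q * NF) * K * (‖x‖ ^ j * ((Cj p0 N j)⁻¹ * √(Cj p0 N j))) := by ring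
            _ = _ := by
                congr 1
                have h8 : (Cj p0 N j)⁻¹ * √(Cj p0 N j) = (√(Cj p0 N j))⁻¹ := by
                  have hs := Real.sqrt_pos.2 hCj
                  have := Real.mul_self_sqrt hCj.le
                  nth_rewrite 1 [← this]
                  field_simp
                rw [h8, div_eq_mul_inv]
      _ = E1 * √(Q * NF) * K * ∑ j ∈ Finset.range J, ‖x‖ ^ j / √(Cj p0 N j) := by
          rw [Finset.mul_sum]
      _ ≤ _ := by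
          have := h.sum_sqrt x
          gcongr
  have hfin : ∫ ζ, F ζ * G ζ * ((om n ζ : ℂ) * Wl p0 a b p ζ) ∂mu - F x =
      (hh (fun i => a i / b i) p x)⁻¹ * ((∑ j ∈ Finset.range J, x ^ j / cj p0 N j * Ij j -
      ∑ j ∈ Finset.range J, tc H j * x ^ j) - ∑' i, tc H (i + J) * x ^ (i + J)) +
      ∫ ζ in Bᶜ, F ζ * G ζ * ((om n ζ : ℂ) * Wl p0 a b p ζ) ∂mu := by
    rw [← integral_add_compl hball hint, hin, hFx]
    ring
  rw [hfin]
  have hinvx : ‖(hh (fun i => a i / b i) p x)⁻¹‖ ≤ cU k A := by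
    rw [norm_inv]; exact h.hinv hx2
  have s1 : √(Q * NF) = √Q * √NF := Real.sqrt_mul hQ0.le _
  have s2 : √(C2 * Real.exp (-(n:ℝ)) * (Q * NF)) = √(C2 * Real.exp (-(n:ℝ)) * Q) * √NF := by
    rw [← mul_assoc, Real.sqrt_mul (by positivity)]
  have s3 : √(M2 k A lam C K * CW * (n:ℝ) ^ 3 * Real.exp (-(c * n)) * Xi2 p0 N J x) =
      √(M2 k A lam C K * CW * (n:ℝ) ^ 3 * Real.exp (-(c * n))) * √(Xi2 p0 N J x) :=
    Real.sqrt_mul' _ hX
  rw [s1] at hsum
  rw [s2] at htl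
  rw [s3] at hout
  have hsX : 1 ≤ √(Xi2 p0 N J x) := Real.one_le_sqrt.2 hX1
  calc _ ≤ ‖(hh (fun i => a i / b i) p x)⁻¹ * ((∑ j ∈ Finset.range J, x ^ j / cj p0 N j * Ij j -
      ∑ j ∈ Finset.range J, tc H j * x ^ j) - ∑' i, tc H (i + J) * x ^ (i + J))‖ +
      ‖∫ ζ in Bᶜ, F ζ * G ζ * ((om n ζ : ℂ) * Wl p0 a b p ζ) ∂mu‖ := norm_add_le _ _
    _ ≤ cU k A * (E1 * (√Q * √NF) * K * (n * √(Xi2 p0 N J x)) +
          2 * (√(C2 * Real.exp (-(n:ℝ)) * Q) * √NF) * √(Xi2 p0 N J x)) +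
        √NF * (√(M2 k A lam C K * CW * (n:ℝ) ^ 3 * Real.exp (-(c * n))) * √(Xi2 p0 N J x)) := by
        refine add_le_add ?_ hout
        rw [norm_mul]
        refine mul_le_mul hinvx ?_ (norm_nonneg _) hU.le
        refine (norm_sub_le _ _).trans (add_le_add hsum ?_)
        refine htl.trans ?_
        have h9 : 0 ≤ 2 * (√(C2 * Real.exp (-(n:ℝ)) * Q) * √NF) := by positivity
        nlinarith
    _ = _ := by ring

end

end Pool.Agent.H972.FH
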