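import Pool.Agent.H972.FH.LocE

set_option autoImplicit false

open MeasureTheory Complex Filter Topology Set
open scoped ENNReal

namespace Pool.Agent.H972.FH

noncomputable section

theorem ctx_exists (k : ℕ) (A η lam : ℝ) (hA : 0 ≤ A) (hη : 0 < η) (hlam : 0 < lam)
    (hlam1 : lam ≤ 1) : ∃ ε c C K C2 δ : ℝ, ∃ n0 : ℕ, 0 < ε ∧ ε ≤ 1 / 4 ∧ 0 < c ∧ 0 < C ∧ 0 < K ∧
      0 < C2 ∧ 0 < δ ∧ δ ≤ lam / 4 ∧ ∀ (n : ℕ) (p0 : ℂ) (a b p : Fin k → ℂ), n0 ≤ n → ‖p0‖ ≤ A →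
      -1 + η ≤ p0.re → (∀ i, ‖p i‖ ≤ A) → (∀ i, ‖a i‖ ^ 2 + ‖b i‖ ^ 2 = 1) → (∀ i, lam ≤ ‖b i‖) →
      Ctx A η lam ε c C K n p0 (n + p0 + ∑ i, p i) a b p ∧
      ∀ x : ℂ, ‖x‖ ≤ δ → ∀ j : ℕ, ⌊ε * n⌋₊ ≤ j → (4:ℝ) ^ j * ‖x‖ ^ (2 * j) ≤
      C2 * Real.exp (-(n:ℝ)) * Cl lam p0 (n + p0 + ∑ i, p i) j := by
  have ht1 : 0 < (lam / 4) ^ 2 := by positivity
  have ht2 : (lam / 4) ^ 2 ≤ 1 := by nlinarith
  have hsq : √((lam / 4) ^ 2) = lam / 4 := Real.sqrt_sq (by positivity)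
  set D : ℝ := (k + 1) * A with hD
  have hD0 : 0 ≤ D := by positivity
  obtain ⟨ε, c, C, K, n1, hε, hε4, hc, hC, hK, hn1, hest⟩ := est A D η ((lam / 4) ^ 2) hA hD0 hη ht1 ht2
  obtain ⟨δ, C2, hδ, hC2, htail⟩ := tail_est A D ((lam / 4) ^ 2) (ε / 2) hA hD0 ht1 ht2 (by positivity)
  rw [hsq] at hest htail
  obtain ⟨n2, hn2⟩ := exists_nat_ge (2 / ε)
  obtain ⟨n3, hn3⟩ := exists_nat_ge (Real.log (2 * C) / c)
  refine ⟨ε, c, C, K, C2, min δ (lam / 4), max n1 (max n2 n3), hε, hε4, hc, hC, hK, hC2,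
    lt_min hδ (by positivity), min_le_right _ _, fun n p0 a b p hn hp0 hr hp hab hb => ?_⟩
  have hnn1 : n1 ≤ n := (le_max_left _ _).trans hn
  have hnn2 : n2 ≤ n := ((le_max_left _ _).trans (le_max_right _ _)).trans hn
  have hnn3 : n3 ≤ n := ((le_max_right _ _).trans (le_max_right _ _)).trans hn
  have hn2' : 2 / ε ≤ n := hn2.trans (by exact_mod_cast hnn2)
  have hn2'' : 2 ≤ ε * n := by
    rw [div_le_iff₀ hε] at hn2'; linarith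
  have hn3' : Real.log (2 * C) / c ≤ n := hn3.trans (by exact_mod_cast hnn3)
  have hn0 : (0:ℝ) ≤ n := Nat.cast_nonneg n
  have hpar : Par A D η n p0 (n + p0 + ∑ i, p i) := by
    refine ⟨hp0, hr, ?_⟩
    have e : (n + p0 + ∑ i, p i : ℂ) - n = p0 + ∑ i, p i := by ring
    rw [e, hD]
    refine (norm_add_le _ _).trans ?_
    have h1 : ‖∑ i, p i‖ ≤ k * A := by
      refine (norm_sum_le _ _).trans ?_
      calc ∑ i, ‖p i‖ ≤ ∑ _i : Fin k, A := Finset.sum_le_sum fun i _ => hp i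
        _ = k * A := by simp
    linarith
  have hfl : ε * n < ⌊ε * n⌋₊ + 1 := Nat.lt_floor_add_one _
  have hfl2 : ((⌊ε * n⌋₊ : ℕ) : ℝ) ≤ ε * n := Nat.floor_le (by positivity)
  have hctx : Ctx A η lam ε c C K n p0 (n + p0 + ∑ i, p i) a b p := by
    refine ⟨hlam, hlam1, hA, hε, hC, hK, hη, hab, hb, hp, rfl, by omega, ?_, ?_, ?_, hpar, ?_⟩
    · have : ((2 * ⌊ε * n⌋₊ : ℕ) : ℝ) ≤ n := by
        push_cast
        nlinarith
      exact_mod_cast this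
    · have : (1:ℝ) < ((⌊ε * n⌋₊ : ℕ) : ℝ) + 1 := by linarith
      have h2 : (0:ℝ) < ((⌊ε * n⌋₊ : ℕ) : ℝ) := by linarith
      exact_mod_cast h2
    · rw [div_le_iff₀ hc] at hn3'
      have h3 : 2 * C ≤ Real.exp (c * n) := by
        rw [← Real.log_le_iff_le_exp (by positivity)]
        linarith
      rw [Real.exp_neg]
      have h4 := Real.exp_pos (c * n)
      rw [← div_eq_mul_inv, div_le_iff₀ h4]
      linarith
    · exact fun j hj => hest n p0 _ hnn1 hpar j hj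
  refine ⟨hctx, fun x hx j hj => ?_⟩
  have hj' : ε / 2 * n ≤ j := by
    have : ((⌊ε * n⌋₊ : ℕ) : ℝ) ≤ j := by exact_mod_cast hj
    linarith
  exact htail n p0 _ j hpar.re_le hpar.N_re (hctx.wrj_int j) hj' x (hx.trans (min_le_left _ _))

end

end Pool.Agent.H972.FH
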