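import Pool.Agent.H972.FH.Rad3

set_option autoImplicit false

open MeasureTheory Complex Filter Topology Set
open scoped ENNReal

namespace Pool.Agent.H972.FH

noncomputable section

/-- interaction of a radial density with the logarithm of another charge -/
theorem cross {σ y1 : ℝ} (hσ : 0 < σ) (hσ1 : σ ≤ 1) (hy1 : y1 ≤ σ ^ 2 / 16)
    {a b a' b' : ℂ} (h : ‖a‖ ^ 2 + ‖b‖ ^ 2 = 1) (h' : ‖a'‖ ^ 2 + ‖b'‖ ^ 2 = 1)
    (hsep : σ ≤ ‖a * b' - a' * b‖) {R : ℝ → ℂ} (hRm : Measurable R)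
    (hR : IntegrableOn R (Ioo 0 1)) (hR0 : ∀ y, y1 ≤ y → R y = 0)
    (hR2 : IntegrableOn (fun y => ((Real.log (1 - y) : ℝ) : ℂ) * R y) (Ioo 0 1)) :
    Integrable (fun x => ((Real.log (dc a' b' x) : ℝ) : ℂ) * R (dc a b x)) mu ∧
    ∫ x, ((Real.log (dc a' b' x) : ℝ) : ℂ) * R (dc a b x) ∂mu =
      ((Real.log (‖a * b' - a' * b‖ ^ 2) : ℝ) : ℂ) * (∫ y in Ioo (0:ℝ) 1, R y) +
      ∫ y in Ioo (0:ℝ) 1, ((Real.log (1 - y) : ℝ) : ℂ) * R y := by
  obtain ⟨hst, -, -⟩ := rot_center h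
  set s := starRingEnd ℂ a with hs
  set t := -b with ht
  set α := ra s t a' b' with hα
  set β := rb s t a' b' with hβ
  have hβe : β = a * b' - a' * b := by
    rw [hβ, hs, ht]; unfold rb; rw [Complex.conj_conj]; ring
  have hβσ : σ ≤ ‖β‖ := by rw [hβe]; exact hsep
  have hβ0 : β ≠ 0 := by
    intro h0; rw [h0, norm_zero] at hβσ; linarith
  have hαβ : ‖α‖ ^ 2 + ‖β‖ ^ 2 = 1 := by rw [hα, hβ, norm_rab hst]; exact h'
  set ω := α / β with hω
  have hωn : ‖ω‖ ≤ 1 / σ := by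
    rw [hω, norm_div]
    have : ‖α‖ ≤ 1 := by nlinarith [norm_nonneg α, norm_nonneg β]
    gcongr
  set φ : ℝ → ℂ := fun r => R (r ^ 2 / (1 + r ^ 2)) with hφ
  set H : ℂ → ℂ := fun ζ => Complex.log (1 + ω * ζ) with hH
  have hHd : DifferentiableOn ℂ H (Metric.ball 0 σ) := by
    intro z hz
    rw [mem_ball_zero_iff] at hz
    have h1 := re_pos_of hσ hωn hz
    refine DifferentiableAt.differentiableWithinAt ?_
    refine DifferentiableAt.clog (by fun_prop) (Or.inl h1)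
  have hφi : Integrable (fun ζ : ℂ => φ ‖ζ‖) mu := integrable_rad R hR
  have hball : MeasurableSet (Metric.ball (0:ℂ) (σ / 2)) := Metric.isOpen_ball.measurableSet
  have htc : tc H 0 = 0 := by
    unfold tc
    simp [hH]
  obtain ⟨o1, o2⟩ := orth (φ := φ) (r := σ / 2) (R := σ) (by linarith) hHd hφi.integrableOn 0
  rw [htc, zero_mul] at o2
  simp only [pow_zero, mul_one] at o1 o2
  have hφci : Integrable (fun ζ : ℂ => starRingEnd ℂ (φ ‖ζ‖)) mu :=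
    (hφi.norm.mono' (continuous_conj.measurable.comp
      ((hRm.comp (by fun_prop : Measurable fun ζ : ℂ => ‖ζ‖ ^ 2 / (1 + ‖ζ‖ ^ 2)))
      )).aestronglyMeasurable
      (Eventually.of_forall fun ζ => by simp [RCLike.norm_conj]))
  obtain ⟨c1, c2⟩ := orth (φ := fun r => starRingEnd ℂ (φ r)) (r := σ / 2) (R := σ) (by linarith) hHd
    hφci.integrableOn 0
  rw [htc, zero_mul] at c2
  simp only [pow_zero, mul_one] at c1 c2
  -- conjugated version
  have hconjm : ∀ ζ : ℂ, starRingEnd ℂ (H ζ) * φ ‖ζ‖ =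
      starRingEnd ℂ (H ζ * starRingEnd ℂ (φ ‖ζ‖)) := by
    intro ζ; rw [map_mul, Complex.conj_conj]
  have d1 : IntegrableOn (fun ζ => starRingEnd ℂ (H ζ) * φ ‖ζ‖) (Metric.ball 0 (σ / 2)) mu := by
    simp_rw [hconjm]
    exact (Complex.conjCLE.toContinuousLinearMap.integrable_comp c1)
  have d2 : ∫ ζ in Metric.ball 0 (σ / 2), starRingEnd ℂ (H ζ) * φ ‖ζ‖ ∂mu = 0 := by
    simp_rw [hconjm]
    rw [integral_conj, c2, map_zero]
  -- the decomposition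
  set Fζ : ℂ → ℂ := fun ζ => ((Real.log (‖β‖ ^ 2) : ℝ) : ℂ) * R (‖ζ‖ ^ 2 / (1 + ‖ζ‖ ^ 2)) +
    (Metric.ball (0:ℂ) (σ / 2)).indicator (fun ζ => H ζ * φ ‖ζ‖) ζ +
    (Metric.ball (0:ℂ) (σ / 2)).indicator (fun ζ => starRingEnd ℂ (H ζ) * φ ‖ζ‖) ζ +
    ((Real.log (1 - ‖ζ‖ ^ 2 / (1 + ‖ζ‖ ^ 2)) : ℝ) : ℂ) * R (‖ζ‖ ^ 2 / (1 + ‖ζ‖ ^ 2)) with hFζ
  have hdec : ∀ ζ : ℂ, rden s t ζ ≠ 0 →
      ((Real.log (dc a' b' (rot s t ζ)) : ℝ) : ℂ) * R (dc a b (rot s t ζ)) = Fζ ζ := by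
    intro ζ hz
    rw [dc_rot hst a' b' ζ hz, hs, ht, dc_center h (by rw [← hs, ← ht]; exact hz), ← hs, ← ht, ← hα,
      ← hβ, hFζ]
    by_cases hb : ζ ∈ Metric.ball (0:ℂ) (σ / 2)
    · simp only [indicator_of_mem hb]
      rw [mem_ball_zero_iff] at hb
      have h1 := re_pos_of hσ hωn (show ‖ζ‖ < σ by linarith)
      have hne : 1 + ω * ζ ≠ 0 := by intro h0; rw [h0] at h1; simp at h1
      have hlog : Real.log (dc α β ζ) = Real.log (‖β‖ ^ 2) + 2 * (H ζ).re +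
          Real.log (1 - ‖ζ‖ ^ 2 / (1 + ‖ζ‖ ^ 2)) := by
        rw [one_sub_yr, Real.log_inv]
        unfold dc
        have e1 : α * ζ + β = β * (1 + ω * ζ) := by rw [hω]; field_simp; ring
        rw [e1, norm_mul, mul_pow, Real.log_div (by positivity) (one_add_pos ζ).ne',
          Real.log_mul (by positivity) (by positivity)]
        have e2 : (H ζ).re = Real.log ‖1 + ω * ζ‖ := by rw [hH]; exact Complex.log_re _
        rw [e2, Real.log_pow ‖1 + ω * ζ‖]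
        push_cast
        ring
      have e3 : ((2 * (H ζ).re : ℝ) : ℂ) = H ζ + starRingEnd ℂ (H ζ) := by
        rw [Complex.add_conj]
      rw [hlog, Complex.ofReal_add, Complex.ofReal_add, e3]
      simp only [hφ]
      ring
    · simp only [indicator_of_notMem hb]
      have hy : y1 ≤ ‖ζ‖ ^ 2 / (1 + ‖ζ‖ ^ 2) := by
        rw [mem_ball_zero_iff, not_lt] at hb
        rw [le_div_iff₀ (one_add_pos ζ)]
        have h1 : σ ^ 2 / 4 ≤ ‖ζ‖ ^ 2 := by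
          have := pow_le_pow_left₀ (by positivity) hb 2
          linarith [show (σ / 2) ^ 2 = σ ^ 2 / 4 by ring]
        have h2 : y1 ≤ 1 / 16 := by nlinarith
        nlinarith
      rw [hR0 _ hy]
      ring
  have hi4 : Integrable (fun ζ : ℂ => ((Real.log (1 - ‖ζ‖ ^ 2 / (1 + ‖ζ‖ ^ 2)) : ℝ) : ℂ) *
      R (‖ζ‖ ^ 2 / (1 + ‖ζ‖ ^ 2))) mu := integrable_rad _ hR2
  have hi1 : Integrable (fun ζ : ℂ => ((Real.log (‖β‖ ^ 2) : ℝ) : ℂ) *
      R (‖ζ‖ ^ 2 / (1 + ‖ζ‖ ^ 2))) mu := hφi.const_mul _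
  have hi2 := o1.integrable_indicator hball
  have hi3 := d1.integrable_indicator hball
  have hFi : Integrable Fζ mu := ((hi1.add hi2).add hi3).add hi4
  have hFv : ∫ ζ, Fζ ζ ∂mu = ((Real.log (‖a * b' - a' * b‖ ^ 2) : ℝ) : ℂ) *
      (∫ y in Ioo (0:ℝ) 1, R y) + ∫ y in Ioo (0:ℝ) 1, ((Real.log (1 - y) : ℝ) : ℂ) * R y := by
    have hi12 : Integrable (fun ζ => ((Real.log (‖β‖ ^ 2) : ℝ) : ℂ) * R (‖ζ‖ ^ 2 / (1 + ‖ζ‖ ^ 2)) +
      (Metric.ball (0:ℂ) (σ / 2)).indicator (fun ζ => H ζ * φ ‖ζ‖) ζ) mu := hi1.add hi2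
    have hi123 : Integrable (fun ζ => ((Real.log (‖β‖ ^ 2) : ℝ) : ℂ) * R (‖ζ‖ ^ 2 / (1 + ‖ζ‖ ^ 2)) +
      (Metric.ball (0:ℂ) (σ / 2)).indicator (fun ζ => H ζ * φ ‖ζ‖) ζ +
      (Metric.ball (0:ℂ) (σ / 2)).indicator (fun ζ => starRingEnd ℂ (H ζ) * φ ‖ζ‖) ζ) mu :=
      hi12.add hi3
    rw [hFζ]
    rw [integral_add hi123 hi4, integral_add hi12 hi3, integral_add hi1 hi2,
      integral_indicator hball, integral_indicator hball, o2, d2, integral_const_mul,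
      int_rad R hR.aestronglyMeasurable,
      int_rad (fun y => ((Real.log (1 - y) : ℝ) : ℂ) * R y) hR2.aestronglyMeasurable, hβe]
    ring
  have hGm : Measurable fun x => ((Real.log (dc a' b' x) : ℝ) : ℂ) * R (dc a b x) :=
    (Complex.measurable_ofReal.comp (Real.measurable_log.comp (measurable_dc _ _))).mul
      (hRm.comp (measurable_dc _ _))
  have hae : (fun ζ => ((Real.log (dc a' b' (rot s t ζ)) : ℝ) : ℂ) * R (dc a b (rot s t ζ)))
      =ᵐ[mu] Fζ := by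
    filter_upwards [ae_rden hst] with ζ hζ
    exact hdec ζ hζ
  constructor
  · have h2 := (mp_rot hst).integrable_comp (g := fun x => ((Real.log (dc a' b' x) : ℝ) : ℂ) *
      R (dc a b x)) hGm.aestronglyMeasurable
    exact h2.1 (hFi.congr hae.symm)
  · rw [← hFv, ← integral_congr_ae hae]
    exact (int_rot hst (Φ := fun x => ((Real.log (dc a' b' x) : ℝ) : ℂ) * R (dc a b x))
      hGm.aestronglyMeasurable).symm

lemma int_log_dc {a b : ℂ} (h : ‖a‖ ^ 2 + ‖b‖ ^ 2 = 1) :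
    Integrable (fun x => ((Real.log (dc a b x) : ℝ) : ℂ)) mu ∧
      ∫ x, ((Real.log (dc a b x) : ℝ) : ℂ) ∂mu = -1 := by
  have h1 : IntegrableOn Real.log (Ioo 0 1) := by
    have := intervalIntegral.intervalIntegrable_log' (a := 0) (b := 1)
    rwa [intervalIntegrable_iff_integrableOn_Ioo_of_le zero_le_one] at this
  have h2 : ∫ y in Ioo (0:ℝ) 1, Real.log y = -1 := by
    rw [← integral_Ioc_eq_integral_Ioo, ← intervalIntegral.integral_of_le zero_le_one, integral_log]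
    simp
  obtain ⟨h3, h4⟩ := int_dc h h1 Real.measurable_log
  refine ⟨h3.ofReal, ?_⟩
  rw [integral_complex_ofReal, h4, h2]
  simp

end

end Pool.Agent.H972.FH
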