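import Pool.Agent.H972.FH.Main

set_option autoImplicit false

open MeasureTheory Complex Filter Topology Set
open scoped ENNReal

namespace Pool.Agent.H972.FH

noncomputable section

variable {k : ℕ}

/-- the logarithmic derivative of the weight -/
def ph (a b q : Fin k → ℂ) (x : ℂ) : ℂ := ∑ i, q i * ((Real.log (dc (a i) (b i) x) : ℝ) : ℂ)

/-- squared distance of two charges -/
def dl (a b : Fin k → ℂ) (i l : Fin k) : ℂ := ((Real.log (‖a l * b i - a i * b l‖ ^ 2) : ℝ) : ℂ)

/-- the limit of the trace -/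
def Tn (n : ℕ) (a b p q : Fin k → ℂ) : ℂ :=
  -(NN n p) * (∑ i, q i) + ∑ i, q i * (p i * ((Real.log n : ℝ) : ℂ) + p i - p i * ps (p i) -
    ∑ l ∈ Finset.univ.erase i, p l * dl a b i l)

lemma measurable_ph (a b q : Fin k → ℂ) : Measurable (ph a b q) := by
  unfold ph
  refine Finset.measurable_sum _ fun i _ => ?_
  exact (Complex.measurable_ofReal.comp (Real.measurable_log.comp (measurable_dc _ _))).const_mul _

lemma ph_le {A : ℝ} {a b q : Fin k → ℂ} (hA : 0 ≤ A) (hq : ∀ i, ‖q i‖ ≤ A) (x : ℂ) :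
    ‖ph a b q x‖ ≤ A * Lt a b x := by
  unfold ph Lt
  refine (norm_sum_le _ _).trans ?_
  calc ∑ i, ‖q i * ((Real.log (dc (a i) (b i) x) : ℝ) : ℂ)‖ ≤
      ∑ i, A * |Real.log (dc (a i) (b i) x)| := by
        refine Finset.sum_le_sum fun i _ => ?_
        rw [norm_mul, Complex.norm_real, Real.norm_eq_abs]
        have := hq i
        gcongr
    _ = A * ∑ i, |Real.log (dc (a i) (b i) x)| := by rw [Finset.mul_sum]
    _ ≤ _ := by
        have : 0 ≤ ∑ i, |Real.log (dc (a i) (b i) x)| := by positivity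
        gcongr
        linarith

lemma dl_bound {σ : ℝ} (hσ : 0 < σ) {a b : Fin k → ℂ} (hc : Cfg σ a b) {i l : Fin k} (h : l ≠ i) :
    ‖dl a b i l‖ ≤ 2 * |Real.log σ| + 2 := by
  unfold dl
  rw [Complex.norm_real, Real.norm_eq_abs, Real.log_pow]
  have h1 := hc.sep l i h
  have h2 : ‖a l * b i - a i * b l‖ ≤ 2 := by
    refine (norm_sub_le _ _).trans ?_
    rw [norm_mul, norm_mul]
    have u1 := hc.unit i
    have u2 := hc.unit l
    have v1 : ‖a i‖ ≤ 1 := by nlinarith [norm_nonneg (a i), norm_nonneg (b i)]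
    have v2 : ‖b i‖ ≤ 1 := by nlinarith [norm_nonneg (a i), norm_nonneg (b i)]
    have v3 : ‖a l‖ ≤ 1 := by nlinarith [norm_nonneg (a l), norm_nonneg (b l)]
    have v4 : ‖b l‖ ≤ 1 := by nlinarith [norm_nonneg (a l), norm_nonneg (b l)]
    have w1 : ‖a l‖ * ‖b i‖ ≤ 1 * 1 := by gcongr
    have w2 : ‖a i‖ * ‖b l‖ ≤ 1 * 1 := by gcongr
    linarith
  have h3 : Real.log σ ≤ Real.log ‖a l * b i - a i * b l‖ := Real.log_le_log hσ h1
  have h4 : Real.log ‖a l * b i - a i * b l‖ ≤ 1 := by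
    have := Real.log_le_sub_one_of_pos (hσ.trans_le h1)
    linarith
  push_cast
  rw [abs_le]
  have := neg_abs_le (Real.log σ)
  have := abs_nonneg (Real.log σ)
  constructor
  · linarith
  · linarith

/-- exact evaluation -/
theorem phi_rho {σ y1 : ℝ} (hσ : 0 < σ) (hσ1 : σ ≤ 1) (hy0 : 0 < y1) (hy1 : y1 ≤ σ ^ 2 / 16)
    {a b p q : Fin k → ℂ} (hc : Cfg σ a b) {n J : ℕ}
    (h0 : ∀ l, IntegrableOn (fun y : ℝ => rl (p l) (NN n p) J y - NN n p) (Ioo 0 y1))
    (h1 : ∀ l, IntegrableOn (fun y : ℝ => ((Real.log y : ℝ) : ℂ) *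
      (rl (p l) (NN n p) J y - NN n p)) (Ioo 0 y1))
    (h2 : ∀ l, IntegrableOn (fun y : ℝ => ((Real.log (1 - y) : ℝ) : ℂ) *
      (rl (p l) (NN n p) J y - NN n p)) (Ioo 0 y1)) :
    Integrable (fun x => ph a b q x * rho n J y1 a b p x) mu ∧
    ∫ x, ph a b q x * rho n J y1 a b p x ∂mu = -(NN n p) * (∑ i, q i) + ∑ i, q i *
      ((∫ y in Ioo 0 y1, ((Real.log y : ℝ) : ℂ) * (rl (p i) (NN n p) J y - NN n p)) +
      ∑ l ∈ Finset.univ.erase i, (dl a b i l *
        (∫ y in Ioo 0 y1, (rl (p l) (NN n p) J y - NN n p)) +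
        ∫ y in Ioo 0 y1, ((Real.log (1 - y) : ℝ) : ℂ) * (rl (p l) (NN n p) J y - NN n p))) := by
  have hy1lt : y1 < 1 := by nlinarith
  set N := NN n p with hN
  set R : Fin k → ℝ → ℂ := fun l y => if y < y1 then rl (p l) N J y - N else 0 with hRdef
  have hRm : ∀ l, Measurable (R l) := fun l =>
    Measurable.ite measurableSet_Iio ((measurable_rl _ _ _).sub_const _) measurable_const
  have hset : Ioo (0:ℝ) 1 ∩ Iio y1 = Ioo 0 y1 := by
    ext y
    simp only [mem_inter_iff, mem_Ioo, mem_Iio]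
    constructor
    · rintro ⟨⟨u, _⟩, v⟩; exact ⟨u, v⟩
    · rintro ⟨u, v⟩; exact ⟨⟨u, by linarith⟩, v⟩
  have hind : ∀ (l : Fin k) (g : ℝ → ℂ), (fun y => g y * R l y) =
      (Iio y1).indicator (fun y => g y * (rl (p l) N J y - N)) := by
    intro l g
    funext y
    by_cases h : y < y1
    · rw [indicator_of_mem (show y ∈ Iio y1 from h)]
      simp only [hRdef, if_pos h]
    · rw [indicator_of_notMem (show y ∉ Iio y1 from h)]
      simp only [hRdef, if_neg h, mul_zero]
  have hgi : ∀ (l : Fin k) (g : ℝ → ℂ), IntegrableOn (fun y => g y * (rl (p l) N J y - N))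
      (Ioo 0 y1) → IntegrableOn (fun y => g y * R l y) (Ioo 0 1) ∧
      ∫ y in Ioo (0:ℝ) 1, g y * R l y = ∫ y in Ioo 0 y1, g y * (rl (p l) N J y - N) := by
    intro l g hg
    constructor
    · rw [hind l g, integrableOn_indicator_iff measurableSet_Iio, inter_comm, hset]
      exact hg
    · rw [hind l g, setIntegral_indicator measurableSet_Iio, hset]
  have hR1 : ∀ l, IntegrableOn (R l) (Ioo 0 1) ∧
      ∫ y in Ioo (0:ℝ) 1, R l y = ∫ y in Ioo 0 y1, (rl (p l) N J y - N) := by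
    intro l
    have := hgi l (fun _ => 1) (by simpa using h0 l)
    simpa using this
  have hRlog := fun l => hgi l (fun y => ((Real.log y : ℝ) : ℂ)) (h1 l)
  have hRlog1 := fun l => hgi l (fun y => ((Real.log (1 - y) : ℝ) : ℂ)) (h2 l)
  have hrho : ∀ x, rho n J y1 a b p x = N + ∑ l, R l (dc (a l) (b l) x) := fun x => rfl
  -- pairwise integrals
  have hpair : ∀ i l, Integrable (fun x => ((Real.log (dc (a i) (b i) x) : ℝ) : ℂ) *
      R l (dc (a l) (b l) x)) mu ∧
      ∫ x, ((Real.log (dc (a i) (b i) x) : ℝ) : ℂ) * R l (dc (a l) (b l) x) ∂mu =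
      if l = i then ∫ y in Ioo 0 y1, ((Real.log y : ℝ) : ℂ) * (rl (p i) N J y - N) else
        (dl a b i l * (∫ y in Ioo 0 y1, (rl (p l) N J y - N)) +
        ∫ y in Ioo 0 y1, ((Real.log (1 - y) : ℝ) : ℂ) * (rl (p l) N J y - N)) := by
    intro i l
    by_cases hil : l = i
    · subst hil
      rw [if_pos rfl]
      obtain ⟨e1, e2⟩ := int_dc_c (hc.unit l) (hRlog l).1
        ((Complex.measurable_ofReal.comp Real.measurable_log).mul (hRm l))
      exact ⟨e1, e2.trans (hRlog l).2⟩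
    · rw [if_neg hil]
      obtain ⟨e1, e2⟩ := cross hσ hσ1 hy1 (hc.unit l) (hc.unit i) (hc.sep l i hil) (hRm l)
        (hR1 l).1 (fun y hy => by simp only [hRdef, if_neg (not_lt.2 hy)]) (hRlog1 l).1
      refine ⟨e1, e2.trans ?_⟩
      rw [(hR1 l).2, (hRlog1 l).2]
      rfl
  have hexp : ∀ x, ph a b q x * rho n J y1 a b p x = ∑ i, (q i * N) *
      ((Real.log (dc (a i) (b i) x) : ℝ) : ℂ) + ∑ i, ∑ l, q i *
      (((Real.log (dc (a i) (b i) x) : ℝ) : ℂ) * R l (dc (a l) (b l) x)) := by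
    intro x
    rw [hrho]
    unfold ph
    rw [mul_add, Finset.sum_mul, Finset.sum_mul]
    congr 1
    · refine Finset.sum_congr rfl fun i _ => ?_
      ring
    · refine Finset.sum_congr rfl fun i _ => ?_
      rw [Finset.mul_sum]
      refine Finset.sum_congr rfl fun l _ => ?_
      ring
  have I1 : Integrable (fun x => ∑ i, (q i * N) * ((Real.log (dc (a i) (b i) x) : ℝ) : ℂ)) mu :=
    integrable_finsetSum _ fun i _ => (int_log_dc (hc.unit i)).1.const_mul _
  have I2 : Integrable (fun x => ∑ i, ∑ l, q i *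
      (((Real.log (dc (a i) (b i) x) : ℝ) : ℂ) * R l (dc (a l) (b l) x))) mu :=
    integrable_finsetSum _ fun i _ => integrable_finsetSum _ fun l _ => (hpair i l).1.const_mul _
  simp_rw [hexp]
  refine ⟨I1.add I2, ?_⟩
  rw [integral_add I1 I2, integral_finsetSum _ fun i _ => (int_log_dc (hc.unit i)).1.const_mul _,
    integral_finsetSum _ fun i _ => integrable_finsetSum _ fun l _ => (hpair i l).1.const_mul _]
  congr 1
  · rw [Finset.mul_sum]
    refine Finset.sum_congr rfl fun i _ => ?_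
    rw [integral_const_mul, (int_log_dc (hc.unit i)).2]
    ring
  · refine Finset.sum_congr rfl fun i _ => ?_
    rw [integral_finsetSum _ fun l _ => (hpair i l).1.const_mul _]
    simp_rw [integral_const_mul, (hpair i _).2]
    rw [← Finset.mul_sum, ← Finset.add_sum_erase _ _ (Finset.mem_univ i), if_pos rfl]
    congr 2
    refine Finset.sum_congr rfl fun l hl => ?_
    rw [if_neg (Finset.ne_of_mem_erase hl)]

/-- asymptotics of the trace -/
theorem trace_asymp (k : ℕ) (A η σ : ℝ) (hA : 0 ≤ A) (hη : 0 < η) (hη1 : η ≤ 1) (hσ : 0 < σ)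
    (hσ1 : σ ≤ 1) {ξ : ℝ} (hξ : 0 < ξ) : ∃ n0 : ℕ, ∀ (n : ℕ) (a b p q : Fin k → ℂ), n0 ≤ n →
      Cfg σ a b → Adm A η p → (∀ i, ‖q i‖ ≤ A) → (Gr n (Wt a b p)).det ≠ 0 ∧
      Integrable (fun x => ph a b q x * kx n (Wt a b p) x) mu ∧
      ‖∫ x, ph a b q x * kx n (Wt a b p) x ∂mu - Tn n a b p q‖ ≤ ξ := by
  obtain ⟨ε, ys, hε, hε4, hys, hysσ, hker⟩ := ker k A η σ hA hη hη1 hσ hσ1
  have hD : 0 ≤ (k:ℝ) * A := by positivity
  obtain ⟨yt, hyt0, -, hrad⟩ := rad A (k * A) η ε hA hD hη hε hε4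
  set y1 : ℝ := min ys yt with hy1
  have hy0 : 0 < y1 := lt_min hys hyt0
  obtain ⟨c, C, K, n1, hc, hC, hK, hk⟩ := hker y1 hy0 (min_le_left _ _)
  set LM : ℝ := 2 * |Real.log σ| + 2 with hLM
  have hLM0 : 0 ≤ LM := by positivity
  set Q : ℝ := k * (A * (1 + k * (LM + 1))) with hQ
  have hQ0 : 0 ≤ Q := by positivity
  set ξ' : ℝ := ξ / (2 * (Q + 1)) with hξ'
  have hξ'0 : 0 < ξ' := by positivity
  obtain ⟨n2, hr⟩ := hrad K y1 hK hy0 (min_le_right _ _) ξ' hξ'0
  have hexp : ∀ᶠ n : ℕ in atTop, A * (C * Real.exp (-(c * n))) ≤ ξ / 2 := by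
    have h1 : Tendsto (fun n : ℕ => A * (C * Real.exp (-(c * n)))) atTop (𝓝 (A * (C * 0))) := by
      refine Tendsto.const_mul _ (Tendsto.const_mul _ (Real.tendsto_exp_neg_atTop_nhds_zero.comp ?_))
      exact tendsto_natCast_atTop_atTop.const_mul_atTop hc
    rw [mul_zero, mul_zero] at h1
    exact h1.eventually_le_const (by positivity)
  obtain ⟨n3, hn3⟩ := eventually_atTop.1 hexp
  refine ⟨max n1 (max n2 n3), fun n a b p q hn hcfg hadm hq => ?_⟩
  have g1 : n1 ≤ n := (le_max_left _ _).trans hn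
  have g2 : n2 ≤ n := ((le_max_left _ _).trans (le_max_right _ _)).trans hn
  have g3 : n3 ≤ n := ((le_max_right _ _).trans (le_max_right _ _)).trans hn
  obtain ⟨⟨-, -, -, -, hfl⟩, hdet, hi, hb⟩ := hk n a b p g1 hcfg hadm
  set J := ⌊ε * n⌋₊ with hJ
  have hNN : ‖NN n p - n‖ ≤ k * A := by
    have e : NN n p - n = ∑ i, p i := by unfold NN; ring
    rw [e]
    refine (norm_sum_le _ _).trans ?_
    calc ∑ i, ‖p i‖ ≤ ∑ _i : Fin k, A := Finset.sum_le_sum fun i _ => hadm.bd i
      _ = k * A := by simp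
  have hR := fun l => hr n (p l) (NN n p) g2 (hadm.bd l) (hadm.re l) hNN (hfl l)
  obtain ⟨hI, hV⟩ := phi_rho (q := q) hσ hσ1 hy0 ((min_le_left _ _).trans hysσ) hcfg
    (fun l => (hR l).1.1) (fun l => (hR l).2.1.1) (fun l => (hR l).2.2.1)
  have hdiff : Integrable (fun x => ph a b q x * (kx n (Wt a b p) x - rho n J y1 a b p x)) mu ∧
      ‖∫ x, ph a b q x * (kx n (Wt a b p) x - rho n J y1 a b p x) ∂mu‖ ≤ ξ / 2 := by
    have hpt : ∀ x, ‖ph a b q x * (kx n (Wt a b p) x - rho n J y1 a b p x)‖ ≤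
        A * (Lt a b x * ‖kx n (Wt a b p) x - rho n J y1 a b p x‖) := by
      intro x
      rw [norm_mul]
      have := ph_le (a := a) (b := b) hA hq x
      calc ‖ph a b q x‖ * ‖kx n (Wt a b p) x - rho n J y1 a b p x‖ ≤
          (A * Lt a b x) * ‖kx n (Wt a b p) x - rho n J y1 a b p x‖ := by gcongr
        _ = _ := by ring
    refine ⟨Integrable.mono' (hi.const_mul A) ((measurable_ph a b q).mul
      ((measurable_kx n a b p).sub (measurable_rho n J y1 a b p))).aestronglyMeasurable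
      (Eventually.of_forall hpt), ?_⟩
    refine (norm_integral_le_of_norm_le (hi.const_mul A) (Eventually.of_forall hpt)).trans ?_
    rw [integral_const_mul]
    refine le_trans ?_ (hn3 n g3)
    gcongr
  have hsum : (fun x => ph a b q x * kx n (Wt a b p) x) = fun x =>
      ph a b q x * (kx n (Wt a b p) x - rho n J y1 a b p x) + ph a b q x * rho n J y1 a b p x := by
    funext x; ring
  refine ⟨hdet, ?_, ?_⟩
  · rw [hsum]; exact hdiff.1.add hI
  · rw [hsum, integral_add hdiff.1 hI, hV]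
    set I0 : Fin k → ℂ := fun l => ∫ y in Ioo 0 y1, (rl (p l) (NN n p) J y - NN n p) with hI0
    set I1 : Fin k → ℂ := fun l => ∫ y in Ioo 0 y1, ((Real.log y : ℝ) : ℂ) *
      (rl (p l) (NN n p) J y - NN n p) with hI1
    set I2 : Fin k → ℂ := fun l => ∫ y in Ioo 0 y1, ((Real.log (1 - y) : ℝ) : ℂ) *
      (rl (p l) (NN n p) J y - NN n p) with hI2
    have hb0 : ∀ l, ‖I0 l + p l‖ ≤ ξ' := fun l => (hR l).1.2
    have hb1 : ∀ l, ‖I1 l - (p l * ((Real.log n : ℝ) : ℂ) + p l - p l * ps (p l))‖ ≤ ξ' :=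
      fun l => (hR l).2.1.2
    have hb2 : ∀ l, ‖I2 l‖ ≤ ξ' := fun l => (hR l).2.2.2
    have hmain : -(NN n p) * (∑ i, q i) + (∑ i, q i * (I1 i + ∑ l ∈ Finset.univ.erase i,
        (dl a b i l * I0 l + I2 l))) - Tn n a b p q =
        ∑ i, q i * ((I1 i - (p i * ((Real.log n : ℝ) : ℂ) + p i - p i * ps (p i))) +
          ∑ l ∈ Finset.univ.erase i, (dl a b i l * (I0 l + p l) + I2 l)) := by
      unfold Tn
      rw [add_sub_add_left_eq_sub, ← Finset.sum_sub_distrib]
      refine Finset.sum_congr rfl fun i _ => ?_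
      rw [← mul_sub]
      congr 1
      have : ∑ l ∈ Finset.univ.erase i, (dl a b i l * (I0 l + p l) + I2 l) =
          ∑ l ∈ Finset.univ.erase i, (dl a b i l * I0 l + I2 l) +
          ∑ l ∈ Finset.univ.erase i, p l * dl a b i l := by
        rw [← Finset.sum_add_distrib]
        refine Finset.sum_congr rfl fun l _ => ?_
        ring
      rw [this]
      ring
    have hmb : ‖∑ i, q i * ((I1 i - (p i * ((Real.log n : ℝ) : ℂ) + p i - p i * ps (p i))) +
          ∑ l ∈ Finset.univ.erase i, (dl a b i l * (I0 l + p l) + I2 l))‖ ≤ ξ / 2 := by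
      have hterm : ∀ i, ‖q i * ((I1 i - (p i * ((Real.log n : ℝ) : ℂ) + p i - p i * ps (p i))) +
          ∑ l ∈ Finset.univ.erase i, (dl a b i l * (I0 l + p l) + I2 l))‖ ≤
          A * (1 + k * (LM + 1)) * ξ' := by
        intro i
        rw [norm_mul]
        have hs : ‖∑ l ∈ Finset.univ.erase i, (dl a b i l * (I0 l + p l) + I2 l)‖ ≤
            k * ((LM + 1) * ξ') := by
          refine (norm_sum_le _ _).trans ?_
          calc ∑ l ∈ Finset.univ.erase i, ‖dl a b i l * (I0 l + p l) + I2 l‖ ≤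
              ∑ _l ∈ Finset.univ.erase i, (LM + 1) * ξ' := by
                refine Finset.sum_le_sum fun l hl => ?_
                refine (norm_add_le _ _).trans ?_
                rw [norm_mul]
                have e1 := dl_bound hσ hcfg (Finset.ne_of_mem_erase hl)
                have e2 := hb0 l
                have e3 := hb2 l
                calc ‖dl a b i l‖ * ‖I0 l + p l‖ + ‖I2 l‖ ≤ LM * ξ' + ξ' := by gcongr
                  _ = _ := by ring
            _ ≤ ∑ _l : Fin k, (LM + 1) * ξ' :=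
                Finset.sum_le_sum_of_subset_of_nonneg (Finset.erase_subset _ _)
                  fun _ _ _ => by positivity
            _ = _ := by simp
        calc ‖q i‖ * ‖(I1 i - (p i * ((Real.log n : ℝ) : ℂ) + p i - p i * ps (p i))) +
            ∑ l ∈ Finset.univ.erase i, (dl a b i l * (I0 l + p l) + I2 l)‖ ≤
            A * (ξ' + k * ((LM + 1) * ξ')) := by
              have e1 := hq i
              have e2 := (norm_add_le (I1 i - (p i * ((Real.log n : ℝ) : ℂ) + p i -
                p i * ps (p i))) (∑ l ∈ Finset.univ.erase i, (dl a b i l * (I0 l + p l) + I2 l)))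
              have e3 := hb1 i
              gcongr
              linarith
          _ = _ := by ring
      calc _ ≤ ∑ i : Fin k, A * (1 + k * (LM + 1)) * ξ' :=
            (norm_sum_le _ _).trans (Finset.sum_le_sum fun i _ => hterm i)
        _ = Q * ξ' := by simp [hQ]; ring
        _ ≤ (Q + 1) * ξ' := by gcongr; linarith
        _ = ξ / 2 := by
            rw [hξ']
            have : Q + 1 ≠ 0 := by positivity
            field_simp
    rw [add_sub_assoc, hmain]
    refine (norm_add_le _ _).trans ?_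
    linarith [hdiff.2]

end

end Pool.Agent.H972.FH
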