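import Pool.Agent.H972.FH.Gam

set_option autoImplicit false

open MeasureTheory Complex Filter Topology Set
open scoped ENNReal

namespace Pool.Agent.H972.FH

noncomputable section

/-- radial weight `r^{2 p₀} (1 + r²)^{-(N-1)}` -/
def wr (p0 N : ℂ) (r : ℝ) : ℂ :=
  cexp (p0 * (Real.log (r ^ 2) : ℝ) - (N - 1) * (Real.log (1 + r ^ 2) : ℝ))

/-- radial moments -/
def cj (p0 N : ℂ) (j : ℕ) : ℂ := ∫ ζ : ℂ, ((‖ζ‖ ^ (2 * j) : ℝ) : ℂ) * wr p0 N ‖ζ‖ ∂mu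

/-- absolute radial moments -/
def Cj (p0 N : ℂ) (j : ℕ) : ℝ := ∫ ζ : ℂ, ‖ζ‖ ^ (2 * j) * ‖wr p0 N ‖ζ‖‖ ∂mu

lemma measurable_wr (p0 N : ℂ) : Measurable (wr p0 N) := by
  unfold wr
  refine Complex.measurable_exp.comp ?_
  exact ((Complex.measurable_ofReal.comp (Real.measurable_log.comp (by fun_prop))).const_mul _).sub
    ((Complex.measurable_ofReal.comp (Real.measurable_log.comp (by fun_prop))).const_mul _)

lemma norm_wr (p0 N : ℂ) (r : ℝ) : ‖wr p0 N r‖ =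
    Real.exp (p0.re * Real.log (r ^ 2) - (N.re - 1) * Real.log (1 + r ^ 2)) := by
  unfold wr
  rw [Complex.norm_exp]
  congr 1
  simp

lemma wr_bt {p0 N : ℂ} {r : ℝ} (hr : 0 < r) (j : ℕ) : ((r ^ (2 * j) : ℝ) : ℂ) * wr p0 N r =
    bt (j + 1 + p0) (N - j - p0) (r ^ 2 / (1 + r ^ 2)) := by
  unfold wr bt
  have h1 : 1 - r ^ 2 / (1 + r ^ 2) = (1 + r ^ 2)⁻¹ := by field_simp; ring
  rw [h1, Real.log_inv, Real.log_div (by positivity) (by positivity)]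
  have h2 : ((r ^ (2 * j) : ℝ) : ℂ) = cexp (j * (Real.log (r ^ 2) : ℝ)) := by
    rw [pow_mul, Complex.exp_nat_mul, ← Complex.ofReal_exp, Real.exp_log (by positivity)]
    push_cast; rfl
  rw [h2, ← Complex.exp_add]
  congr 1
  push_cast
  ring

lemma ae_norm_pos : ∀ᵐ ζ ∂mu, 0 < ‖ζ‖ := by
  have h : ∀ᵐ ζ : ℂ, ζ ≠ 0 := by
    rw [ae_iff]
    simp
  filter_upwards [mu_ac h] with ζ hζ
  exact norm_pos_iff.2 hζ

theorem cj_eq {p0 N : ℂ} {j : ℕ} (h0 : -1 < p0.re) (h1 : 0 < (N - j - p0).re) :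
    Integrable (fun ζ : ℂ => ((‖ζ‖ ^ (2 * j) : ℝ) : ℂ) * wr p0 N ‖ζ‖) mu ∧
    cj p0 N j = ∫ y in Ioo 0 1, bt (j + 1 + p0) (N - j - p0) y ∧
    Cj p0 N j = ∫ y in Ioo 0 1, ‖bt (j + 1 + p0) (N - j - p0) y‖ := by
  have hu : 0 < (j + 1 + p0 : ℂ).re := by
    simp only [Complex.add_re, Complex.natCast_re, Complex.one_re]
    have : (0:ℝ) ≤ j := Nat.cast_nonneg j
    linarith
  have hi := int_bt hu h1
  have hae : (fun ζ : ℂ => ((‖ζ‖ ^ (2 * j) : ℝ) : ℂ) * wr p0 N ‖ζ‖) =ᵐ[mu]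
      fun ζ => bt (j + 1 + p0) (N - j - p0) (‖ζ‖ ^ 2 / (1 + ‖ζ‖ ^ 2)) := by
    filter_upwards [ae_norm_pos] with ζ hζ
    exact wr_bt hζ j
  refine ⟨(integrable_rad _ hi.1).congr hae.symm, ?_, ?_⟩
  · unfold cj
    rw [integral_congr_ae hae]
    exact int_rad _ hi.1.aestronglyMeasurable
  · unfold Cj
    have hae2 : (fun ζ : ℂ => ‖ζ‖ ^ (2 * j) * ‖wr p0 N ‖ζ‖‖) =ᵐ[mu]
        fun ζ => ‖bt (j + 1 + p0) (N - j - p0) (‖ζ‖ ^ 2 / (1 + ‖ζ‖ ^ 2))‖ := by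
      filter_upwards [hae] with ζ hζ
      rw [← hζ, norm_mul, Complex.norm_real, Real.norm_eq_abs, abs_of_nonneg (by positivity)]
    rw [integral_congr_ae hae2]
    exact int_rad_real (fun y => ‖bt (j + 1 + p0) (N - j - p0) y‖)
      hi.1.aestronglyMeasurable.norm

theorem integrable_Cj {p0 N : ℂ} {j : ℕ} (h0 : -1 < p0.re) (h1 : 0 < (N - j - p0).re) :
    Integrable (fun ζ : ℂ => ‖ζ‖ ^ (2 * j) * ‖wr p0 N ‖ζ‖‖) mu := by
  have h := (cj_eq h0 h1).1.norm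
  refine h.congr (Eventually.of_forall fun ζ => ?_)
  simp only
  rw [norm_mul, Complex.norm_real, Real.norm_eq_abs, abs_of_nonneg (by positivity)]

theorem norm_wr_pos (p0 N : ℂ) (r : ℝ) : 0 < ‖wr p0 N r‖ := by
  rw [norm_wr]; exact Real.exp_pos _

/-- the sup bound outside the disc -/
theorem sup_bound {t1 t E : ℝ} (h0 : 0 < t1) (h1 : t1 ≤ 1) (ht : t1 ≤ t) (i j : ℕ)
    (hE : (1 + 1 / t1) * (i + j) ≤ E) :
    (t / t1) ^ i * t ^ j * (1 + t) ^ (-E) ≤ (1 + t1) ^ (-E) := by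
  have ht0 : 0 < t := h0.trans_le ht
  set K : ℝ := 1 + 1 / t1 with hK
  have hK1 : 1 ≤ K := by rw [hK]; have : 0 < 1 / t1 := by positivity
                         linarith
  have hx : -1 ≤ (t - t1) / (1 + t1) := by
    have : 0 ≤ (t - t1) / (1 + t1) := div_nonneg (by linarith) (by linarith)
    linarith
  have hb := one_add_mul_self_le_rpow_one_add hx hK1
  have e1 : 1 + K * ((t - t1) / (1 + t1)) = t / t1 := by
    rw [hK]; field_simp; ring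
  have e2 : 1 + (t - t1) / (1 + t1) = (1 + t) / (1 + t1) := by field_simp; ring
  rw [e1, e2] at hb
  have hq : 1 ≤ (1 + t) / (1 + t1) := by rw [le_div_iff₀ (by linarith)]; linarith
  have h3 : (t / t1) ^ (i + j) ≤ ((1 + t) / (1 + t1)) ^ E := by
    calc (t / t1) ^ (i + j) ≤ (((1 + t) / (1 + t1)) ^ K) ^ (i + j) := by gcongr
      _ = ((1 + t) / (1 + t1)) ^ (K * (i + j)) := by
          rw [← Real.rpow_natCast, ← Real.rpow_mul (by positivity)]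
          push_cast; rfl
      _ ≤ _ := Real.rpow_le_rpow_of_exponent_le hq hE
  have h4 : t ^ j ≤ (t / t1) ^ j := by
    refine pow_le_pow_left₀ ht0.le ?_ j
    rw [le_div_iff₀ h0]; nlinarith
  calc (t / t1) ^ i * t ^ j * (1 + t) ^ (-E) ≤ (t / t1) ^ i * (t / t1) ^ j * (1 + t) ^ (-E) := by
        gcongr
    _ = (t / t1) ^ (i + j) * (1 + t) ^ (-E) := by rw [pow_add]
    _ ≤ ((1 + t) / (1 + t1)) ^ E * (1 + t) ^ (-E) := by gcongr
    _ = (1 + t1) ^ (-E) := by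
        rw [Real.div_rpow (by positivity) (by positivity), Real.rpow_neg (by positivity),
          Real.rpow_neg (by positivity)]
        have : (1 + t) ^ E ≠ 0 := (Real.rpow_pos_of_pos (by positivity) E).ne'
        field_simp

/-- lower bound for the absolute moments -/
theorem low_bound (t A D : ℝ) (h0 : 0 < t) (h1 : t ≤ 1) (hA : 0 ≤ A) (hD : 0 ≤ D) :
    ∃ m : ℝ, 0 < m ∧ ∀ (n : ℕ) (p0 N : ℂ) (j : ℕ), 
    |p0.re| ≤ A → |N.re - n| ≤ D →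
    IntegrableOn (fun ζ : ℂ => ‖ζ‖ ^ (2 * j) * ‖wr p0 N ‖ζ‖‖) (Metric.ball 0 (√t)) mu →
    m * (t / 2) ^ j * (1 + t) ^ (-(n:ℝ)) ≤
      ∫ ζ in Metric.ball (0:ℂ) (√t), ‖ζ‖ ^ (2 * j) * ‖wr p0 N ‖ζ‖‖ ∂mu := by
  set S : Set ℂ := {ζ | t / 2 ≤ ‖ζ‖ ^ 2 ∧ ‖ζ‖ ^ 2 < t} with hS
  have hSm : MeasurableSet S := (measurable_norm.pow_const 2) measurableSet_Ico
  have hSsub : S ⊆ Metric.ball 0 (√t) := by
    intro ζ hζ
    rw [mem_ball_zero_iff]
    exact Real.lt_sqrt_of_sq_lt hζ.2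
  have hSpos : 0 < (mu S).toReal := by
    rw [ENNReal.toReal_pos_iff]
    refine ⟨?_, measure_lt_top _ _⟩
    have hopen : IsOpen {ζ : ℂ | t / 2 < ‖ζ‖ ^ 2 ∧ ‖ζ‖ ^ 2 < t} :=
      isOpen_Ioo.preimage (continuous_norm.pow 2)
    have hne : ({ζ : ℂ | t / 2 < ‖ζ‖ ^ 2 ∧ ‖ζ‖ ^ 2 < t}).Nonempty := by
      refine ⟨((√(3 * t / 4) : ℝ) : ℂ), ?_⟩
      have : ‖((√(3 * t / 4) : ℝ) : ℂ)‖ ^ 2 = 3 * t / 4 := by
        rw [Complex.norm_real, Real.norm_eq_abs, sq_abs, Real.sq_sqrt (by positivity)]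
      constructor
      · rw [this]; linarith
      · rw [this]; linarith
    have h3 : 0 < (volume : Measure ℂ) {ζ : ℂ | t / 2 < ‖ζ‖ ^ 2 ∧ ‖ζ‖ ^ 2 < t} :=
      hopen.measure_pos _ hne
    refine pos_iff_ne_zero.2 fun h => ?_
    have h4 := volume_ac h
    refine h3.ne' (measure_mono_null ?_ h4)
    intro ζ hζ
    exact ⟨hζ.1.le, hζ.2⟩
  refine ⟨(mu S).toReal * ((t / 2) ^ A * (1 + t) ^ (-D)), by positivity,
    fun n p0 N j hp hN hint => ?_⟩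
  have hkey : ∀ ζ ∈ S, (t / 2) ^ A * (1 + t) ^ (-D) * (t / 2) ^ j * (1 + t) ^ (-(n:ℝ)) ≤
      ‖ζ‖ ^ (2 * j) * ‖wr p0 N ‖ζ‖‖ := by
    intro ζ hζ
    set x : ℝ := ‖ζ‖ ^ 2 with hx
    have hx1 : t / 2 ≤ x := hζ.1
    have hx2 : x < t := hζ.2
    have hx0 : 0 < x := by linarith
    rw [norm_wr, pow_mul, ← hx, Real.exp_sub]
    have e1 : Real.exp (p0.re * Real.log x) = x ^ p0.re := by
      rw [Real.rpow_def_of_pos hx0, mul_comm]
    have e2 : (Real.exp ((N.re - 1) * Real.log (1 + x)))⁻¹ = (1 + x) ^ (-(N.re - 1)) := by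
      rw [Real.rpow_def_of_pos (by linarith), ← Real.exp_neg]
      congr 1; ring
    rw [div_eq_mul_inv (Real.exp _) (Real.exp _), e1, e2]
    have h5 : (t / 2) ^ A ≤ x ^ p0.re := by
      have hpa := abs_le.1 hp
      calc (t / 2) ^ A ≤ x ^ A := Real.rpow_le_rpow (by positivity) hx1 hA
        _ ≤ x ^ p0.re := Real.rpow_le_rpow_of_exponent_ge hx0 (by linarith) hpa.2
    have h6 : (1 + t) ^ (-D) * (1 + t) ^ (-(n:ℝ)) ≤ (1 + x) ^ (-(N.re - 1)) := by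
      have hNa := abs_le.1 hN
      rw [← Real.rpow_add (by linarith)]
      calc (1 + t) ^ (-D + -(n:ℝ)) ≤ (1 + x) ^ (-D + -(n:ℝ)) := by
            refine Real.rpow_le_rpow_of_nonpos (by linarith) (by linarith) ?_
            have : (0:ℝ) ≤ n := Nat.cast_nonneg n
            linarith
        _ ≤ _ := Real.rpow_le_rpow_of_exponent_le (by linarith) (by linarith)
    have h7 : (t / 2) ^ j ≤ x ^ j := by gcongr
    calc (t / 2) ^ A * (1 + t) ^ (-D) * (t / 2) ^ j * (1 + t) ^ (-(n:ℝ)) =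
        (t / 2) ^ j * ((t / 2) ^ A * ((1 + t) ^ (-D) * (1 + t) ^ (-(n:ℝ)))) := by ring
      _ ≤ x ^ j * (x ^ p0.re * (1 + x) ^ (-(N.re - 1))) := by gcongr
  calc (mu S).toReal * ((t / 2) ^ A * (1 + t) ^ (-D)) * (t / 2) ^ j * (1 + t) ^ (-(n:ℝ)) =
      ∫ ζ in S, (t / 2) ^ A * (1 + t) ^ (-D) * (t / 2) ^ j * (1 + t) ^ (-(n:ℝ)) ∂mu := by
        rw [setIntegral_const, smul_eq_mul]
        simp only [Measure.real]
        ring
    _ ≤ ∫ ζ in S, ‖ζ‖ ^ (2 * j) * ‖wr p0 N ‖ζ‖‖ ∂mu := by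
        refine setIntegral_mono_on (integrable_const _) (hint.mono_set hSsub) hSm hkey
    _ ≤ _ := setIntegral_mono_set hint
        (Eventually.of_forall fun ζ => by positivity) (LE.le.eventuallyLE hSsub)

end

end Pool.Agent.H972.FH
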