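import Pool.Agent.H972.FH.Defs
import Pool.Graph.R_pool_sql_team_seeded_35f281b4.K7.H96.GMC.Area

set_option autoImplicit false

open MeasureTheory Complex Filter Topology Set
open scoped ENNReal

namespace Pool.Agent.H972.FH

noncomputable section

lemma measurable_dens :
    Measurable fun z : ℂ => ENNReal.ofReal ((Real.pi * (1 + ‖z‖ ^ 2) ^ 2)⁻¹) := by fun_prop

lemma lint_mu (f : ℂ → ℝ≥0∞) (hf : Measurable f) :
    ∫⁻ z, f z ∂mu = ∫⁻ z, ENNReal.ofReal ((Real.pi * (1 + ‖z‖ ^ 2) ^ 2)⁻¹) * f z := by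
  unfold mu
  rw [lintegral_withDensity_eq_lintegral_mul _ measurable_dens hf]
  rfl

/-- the map `r ↦ r² / (1 + r²)` -/
def yr (r : ℝ) : ℝ := r ^ 2 / (1 + r ^ 2)

lemma hasDerivAt_yr (r : ℝ) : HasDerivAt yr (2 * r / (1 + r ^ 2) ^ 2) r := by
  have h0 : (1 + r ^ 2) ≠ 0 := by positivity
  have h := ((hasDerivAt_pow 2 r).div ((hasDerivAt_pow 2 r).const_add 1) h0)
  refine (h.congr_deriv ?_)
  simp only [Nat.cast_ofNat, Nat.add_one_sub_one, pow_one]
  congr 1
  ring

lemma yr_image : yr '' (Ioi 0) = Ioo 0 1 := by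
  ext y
  constructor
  · rintro ⟨r, hr, rfl⟩
    have hr' : 0 < r := hr
    refine ⟨by unfold yr; positivity, ?_⟩
    unfold yr
    rw [div_lt_one (by positivity)]
    linarith
  · rintro ⟨h0, h1⟩
    refine ⟨√(y / (1 - y)), ?_, ?_⟩
    · have : 0 < y / (1 - y) := div_pos h0 (by linarith)
      exact Real.sqrt_pos.2 this
    · unfold yr
      have : 0 < y / (1 - y) := div_pos h0 (by linarith)
      rw [Real.sq_sqrt this.le]
      have h2 : 1 - y ≠ 0 := by linarith
      field_simp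
      ring

lemma yr_inj : InjOn yr (Ioi 0) := by
  intro r hr s hs h
  unfold yr at h
  have hr' : (0:ℝ) < r := hr
  have hs' : (0:ℝ) < s := hs
  rw [div_eq_div_iff (by positivity) (by positivity)] at h
  have h2 : r ^ 2 = s ^ 2 := by nlinarith
  exact (sq_eq_sq₀ hr'.le hs'.le).1 h2

theorem lint_rad (g : ℝ → ℝ≥0∞) (hg : Measurable g) :
    ∫⁻ z, g (‖z‖ ^ 2 / (1 + ‖z‖ ^ 2)) ∂mu = ∫⁻ y in Ioo 0 1, g y := by
  have hm : Measurable fun z : ℂ => g (‖z‖ ^ 2 / (1 + ‖z‖ ^ 2)) := hg.comp (by fun_prop)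
  rw [lint_mu _ hm, ← Complex.lintegral_comp_polarCoord_symm]
  have e1 : ∀ p : ℝ × ℝ, ENNReal.ofReal p.1 • (ENNReal.ofReal
      ((Real.pi * (1 + ‖Complex.polarCoord.symm p‖ ^ 2) ^ 2)⁻¹) *
      g (‖Complex.polarCoord.symm p‖ ^ 2 / (1 + ‖Complex.polarCoord.symm p‖ ^ 2))) =
      ENNReal.ofReal p.1 * (ENNReal.ofReal ((Real.pi * (1 + p.1 ^ 2) ^ 2)⁻¹) *
      g (yr p.1)) := by
    intro p
    rw [Complex.norm_polarCoord_symm, sq_abs, smul_eq_mul]
    rfl
  simp_rw [e1]
  have htar : polarCoord.target = Ioi (0:ℝ) ×ˢ Ioo (-Real.pi) Real.pi := rfl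
  rw [htar, Measure.volume_eq_prod, ← Measure.prod_restrict]
  have hyr : Measurable yr := by unfold yr; fun_prop
  rw [lintegral_prod _ (by
    refine Measurable.aemeasurable ?_
    exact (ENNReal.measurable_ofReal.comp measurable_fst).mul
      ((ENNReal.measurable_ofReal.comp (by fun_prop)).mul
        ((hg.comp hyr).comp measurable_fst)))]
  simp only [lintegral_const, Measure.restrict_apply MeasurableSet.univ, univ_inter,
    Real.volume_Ioo]
  rw [← yr_image, lintegral_image_eq_lintegral_abs_deriv_mul measurableSet_Ioi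
    (fun x _ => (hasDerivAt_yr x).hasDerivWithinAt) yr_inj]
  refine setLIntegral_congr_fun measurableSet_Ioi fun r hr => ?_
  have hr' : 0 < r := hr
  rw [abs_of_pos (by positivity)]
  have hpi := Real.pi_pos
  have h3 : 0 ≤ Real.pi - -Real.pi := by linarith
  rw [mul_comm (_ * _) (ENNReal.ofReal (Real.pi - -Real.pi)), ← mul_assoc (ENNReal.ofReal r),
    ← mul_assoc, ← mul_assoc, ← ENNReal.ofReal_mul h3,
    ← ENNReal.ofReal_mul (mul_nonneg h3 hr'.le)]
  congr 2
  field_simp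
  ring

instance : IsProbabilityMeasure mu := by
  constructor
  have h := lint_rad (fun _ => 1) measurable_const
  simpa using h

theorem map_rad : Measure.map (fun z : ℂ => ‖z‖ ^ 2 / (1 + ‖z‖ ^ 2)) mu =
    (volume : Measure ℝ).restrict (Ioo 0 1) := by
  refine Measure.ext_of_lintegral _ fun g hg => ?_
  rw [lintegral_map hg (by fun_prop), lint_rad g hg]

theorem int_rad (g : ℝ → ℂ) (hg : AEStronglyMeasurable g (volume.restrict (Ioo 0 1))) :
    ∫ z : ℂ, g (‖z‖ ^ 2 / (1 + ‖z‖ ^ 2)) ∂mu = ∫ y in Ioo 0 1, g y := by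
  rw [← map_rad] at hg ⊢
  rw [integral_map (by fun_prop) hg]

theorem int_rad_real (g : ℝ → ℝ) (hg : AEStronglyMeasurable g (volume.restrict (Ioo 0 1))) :
    ∫ z : ℂ, g (‖z‖ ^ 2 / (1 + ‖z‖ ^ 2)) ∂mu = ∫ y in Ioo 0 1, g y := by
  rw [← map_rad] at hg ⊢
  rw [integral_map (by fun_prop) hg]

theorem integrable_rad (g : ℝ → ℂ) (hg : IntegrableOn g (Ioo 0 1)) :
    Integrable (fun z : ℂ => g (‖z‖ ^ 2 / (1 + ‖z‖ ^ 2))) mu := by
  have h : Integrable g (Measure.map (fun z : ℂ => ‖z‖ ^ 2 / (1 + ‖z‖ ^ 2)) mu) := by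
    rw [map_rad]; exact hg
  exact h.comp_measurable (by fun_prop)

theorem integrable_rad_real (g : ℝ → ℝ) (hg : IntegrableOn g (Ioo 0 1)) :
    Integrable (fun z : ℂ => g (‖z‖ ^ 2 / (1 + ‖z‖ ^ 2))) mu := by
  have h : Integrable g (Measure.map (fun z : ℂ => ‖z‖ ^ 2 / (1 + ‖z‖ ^ 2)) mu) := by
    rw [map_rad]; exact hg
  exact h.comp_measurable (by fun_prop)

theorem mu_ac : mu ≪ (volume : Measure ℂ) := withDensity_absolutelyContinuous _ _

theorem volume_ac : (volume : Measure ℂ) ≪ mu := by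
  unfold mu
  refine withDensity_absolutelyContinuous' (by fun_prop) ?_
  refine Filter.Eventually.of_forall fun z => ?_
  have : 0 < ENNReal.ofReal ((Real.pi * (1 + ‖z‖ ^ 2) ^ 2)⁻¹) := by
    have := Real.pi_pos
    exact ENNReal.ofReal_pos.2 (by positivity)
  exact this.ne'

/-- conjugation preserves the measure -/
theorem mp_conj : MeasurePreserving (starRingEnd ℂ) mu mu := by
  refine ⟨continuous_conj.measurable, ?_⟩
  refine Measure.ext_of_lintegral _ fun g hg => ?_
  rw [lintegral_map hg continuous_conj.measurable, lint_mu _ hg,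
    lint_mu (fun z => g (starRingEnd ℂ z)) (hg.comp continuous_conj.measurable)]
  have h := (Complex.conjLIE.measurePreserving).lintegral_comp_emb
    (Complex.conjLIE.toHomeomorph.measurableEmbedding)
    (fun z => ENNReal.ofReal ((Real.pi * (1 + ‖z‖ ^ 2) ^ 2)⁻¹) * g z)
  rw [← h]
  refine lintegral_congr fun z => ?_
  simp

/-- the rotation of the sphere, in the chart -/
def rot (s t ζ : ℂ) : ℂ := (s * ζ + t) / (-(starRingEnd ℂ t) * ζ + starRingEnd ℂ s)

/-- the denominator -/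
def rden (s t ζ : ℂ) : ℂ := -(starRingEnd ℂ t) * ζ + starRingEnd ℂ s

lemma measurable_rot (s t : ℂ) : Measurable (rot s t) := by
  unfold rot; fun_prop

lemma conj_mul_self_eq (s : ℂ) : s * starRingEnd ℂ s = ((‖s‖ ^ 2 : ℝ) : ℂ) := by
  rw [Complex.mul_conj, Complex.normSq_eq_norm_sq]

lemma st_eq {s t : ℂ} (h : ‖s‖ ^ 2 + ‖t‖ ^ 2 = 1) :
    s * starRingEnd ℂ s + t * starRingEnd ℂ t = 1 := by
  rw [conj_mul_self_eq, conj_mul_self_eq, ← Complex.ofReal_add, h, Complex.ofReal_one]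

lemma hasDerivAt_rot {s t : ℂ} (h : ‖s‖ ^ 2 + ‖t‖ ^ 2 = 1) (ζ : ℂ) (hz : rden s t ζ ≠ 0) :
    HasDerivAt (rot s t) ((rden s t ζ ^ 2)⁻¹) ζ := by
  have h1 : HasDerivAt (fun ζ => s * ζ + t) s ζ := by
    simpa using ((hasDerivAt_id ζ).const_mul s).add_const t
  have h2 : HasDerivAt (fun ζ => -(starRingEnd ℂ t) * ζ + starRingEnd ℂ s) (-(starRingEnd ℂ t)) ζ := by
    simpa using ((hasDerivAt_id ζ).const_mul (-(starRingEnd ℂ t))).add_const (starRingEnd ℂ s)
  have h3 := h1.div h2 hz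
  refine h3.congr_deriv ?_
  unfold rden at *
  rw [div_eq_iff (pow_ne_zero 2 hz), inv_mul_cancel₀ (pow_ne_zero 2 hz)]
  linear_combination st_eq h

lemma norm_conj' (z : ℂ) : ‖starRingEnd ℂ z‖ = ‖z‖ := RCLike.norm_conj z

/-- Lagrange identity -/
lemma lagr {s t : ℂ} (h : ‖s‖ ^ 2 + ‖t‖ ^ 2 = 1) (x y : ℂ) :
    ‖s * x + t * y‖ ^ 2 + ‖-(starRingEnd ℂ t) * x + starRingEnd ℂ s * y‖ ^ 2 =
      ‖x‖ ^ 2 + ‖y‖ ^ 2 := by
  have e : ∀ w : ℂ, ((‖w‖ ^ 2 : ℝ) : ℂ) = w * starRingEnd ℂ w := fun w => (conj_mul_self_eq w).symm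
  have : (((‖s * x + t * y‖ ^ 2 + ‖-(starRingEnd ℂ t) * x + starRingEnd ℂ s * y‖ ^ 2 : ℝ)) : ℂ) =
      ((‖x‖ ^ 2 + ‖y‖ ^ 2 : ℝ) : ℂ) := by
    rw [Complex.ofReal_add, Complex.ofReal_add, e, e, e, e]
    simp only [map_add, map_mul, map_neg, Complex.conj_conj]
    linear_combination (x * starRingEnd ℂ x + y * starRingEnd ℂ y) * st_eq h
  exact_mod_cast this

lemma norm_rot_add {s t : ℂ} (h : ‖s‖ ^ 2 + ‖t‖ ^ 2 = 1) (ζ : ℂ) (hz : rden s t ζ ≠ 0) :
    1 + ‖rot s t ζ‖ ^ 2 = (1 + ‖ζ‖ ^ 2) / ‖rden s t ζ‖ ^ 2 := by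
  have h1 := lagr h ζ 1
  simp only [mul_one, norm_one, one_pow] at h1
  have h2 : ‖rot s t ζ‖ ^ 2 = ‖s * ζ + t‖ ^ 2 / ‖rden s t ζ‖ ^ 2 := by
    unfold rot rden; rw [norm_div, div_pow]
  have h3 : ‖rden s t ζ‖ ^ 2 ≠ 0 := pow_ne_zero 2 (norm_ne_zero_iff.2 hz)
  rw [h2, eq_div_iff h3]
  have h4 : ‖-(starRingEnd ℂ t) * ζ + starRingEnd ℂ s‖ = ‖rden s t ζ‖ := rfl
  rw [h4] at h1
  field_simp
  linarith

/-- rotations preserve the measure -/
theorem mp_rot {s t : ℂ} (h : ‖s‖ ^ 2 + ‖t‖ ^ 2 = 1) : MeasurePreserving (rot s t) mu mu := by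
  refine ⟨measurable_rot s t, ?_⟩
  refine Measure.ext_of_lintegral _ fun g hg => ?_
  set U : Set ℂ := {ζ | rden s t ζ ≠ 0} with hU
  have hcont : Continuous (rden s t) := by unfold rden; fun_prop
  have hUo : IsOpen U := isOpen_ne_fun hcont continuous_const
  have hst : s ≠ 0 ∨ t ≠ 0 := by
    by_contra hc
    push Not at hc
    rw [hc.1, hc.2] at h
    norm_num at h
  -- the complement of `U` has at most one point
  have hUc : (Uᶜ).Subsingleton := by
    intro x hx y hy
    simp only [hU, mem_compl_iff, mem_ofPred_eq, not_not] at hx hy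
    unfold rden at hx hy
    rcases eq_or_ne t 0 with ht | ht
    · exfalso
      rw [ht] at hx
      simp at hx
      rcases hst with h' | h'
      · exact h' hx
      · exact h' ht
    · have h1 : (starRingEnd ℂ t) * (x - y) = 0 := by linear_combination hy - hx
      have h2 : (starRingEnd ℂ t) ≠ 0 := by simpa using ht
      have h3 := (mul_eq_zero.1 h1).resolve_left h2
      exact sub_eq_zero.1 h3
  have hnull : mu Uᶜ = 0 := mu_ac (hUc.measure_zero volume)
  have key := Pool.Agent.K7.H96.GMC.area_eq (rot s t) (fun ζ => (rden s t ζ ^ 2)⁻¹)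
    hUo.measurableSet (fun ζ hζ => hasDerivAt_rot h ζ hζ)
    (fun ζ hζ => inv_ne_zero (pow_ne_zero 2 hζ)) 1 (by
      -- a.e. point has one preimage
      have hne : ∀ᵐ w : ℂ, (starRingEnd ℂ t) * w + s ≠ 0 := by
        have hs : ({w : ℂ | (starRingEnd ℂ t) * w + s = 0}).Subsingleton := by
          intro x hx y hy
          simp only [mem_ofPred_eq] at hx hy
          rcases eq_or_ne t 0 with ht | ht
          · exfalso
            rw [ht] at hx
            simp at hx
            rcases hst with h' | h'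
            · exact h' hx
            · exact h' ht
          · have h1 : (starRingEnd ℂ t) * (x - y) = 0 := by linear_combination hx - hy
            have h2 : (starRingEnd ℂ t) ≠ 0 := by simpa using ht
            have h3 := (mul_eq_zero.1 h1).resolve_left h2
            exact sub_eq_zero.1 h3
        have := hs.measure_zero (volume : Measure ℂ)
        rw [ae_iff]
        simpa using this
      filter_upwards [hne] with w hw
      refine ⟨{((starRingEnd ℂ s) * w - t) / ((starRingEnd ℂ t) * w + s)}, by simp, fun z => ?_⟩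
      rw [Finset.mem_singleton]
      have hS := st_eq h
      constructor
      · intro hz
        have hd : rden s t z ≠ 0 := by
          have e1 : rden s t z = 1 / ((starRingEnd ℂ t) * w + s) := by
            rw [hz]
            unfold rden
            field_simp
            linear_combination hS
          rw [e1]
          exact one_div_ne_zero hw
        refine ⟨hd, ?_⟩
        unfold rot
        unfold rden at hd
        rw [div_eq_iff hd]
        rw [eq_div_iff hw] at hz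
        linear_combination hz
      · rintro ⟨hz1, hz2⟩
        have hd : rden s t z ≠ 0 := hz1
        unfold rot at hz2
        unfold rden at hd
        rw [div_eq_iff hd] at hz2
        rw [eq_div_iff hw]
        linear_combination hz2) 
    (fun z => ENNReal.ofReal ((Real.pi * (1 + ‖z‖ ^ 2) ^ 2)⁻¹) * g z)
    (measurable_dens.mul hg)
  rw [lintegral_map hg (measurable_rot s t), lint_mu _ hg]
  rw [Nat.cast_one, one_mul] at key
  rw [← key]
  have hg2 : Measurable fun ζ => g (rot s t ζ) := hg.comp (measurable_rot s t)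
  have e1 : ∫⁻ ζ, g (rot s t ζ) ∂mu = ∫⁻ ζ in U, g (rot s t ζ) ∂mu := by
    rw [← lintegral_add_compl _ hUo.measurableSet, Measure.restrict_eq_zero.2 hnull]
    simp
  rw [e1]
  have e2 : mu.restrict U = ((volume : Measure ℂ).restrict U).withDensity
      (fun z => ENNReal.ofReal ((Real.pi * (1 + ‖z‖ ^ 2) ^ 2)⁻¹)) := by
    unfold mu
    rw [restrict_withDensity hUo.measurableSet]
  rw [e2, lintegral_withDensity_eq_lintegral_mul _ measurable_dens hg2]
  refine setLIntegral_congr_fun hUo.measurableSet fun ζ hζ => ?_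
  have hd : rden s t ζ ≠ 0 := hζ
  simp only [Pi.mul_apply]
  rw [← mul_assoc, ← ENNReal.ofReal_mul (by positivity), norm_rot_add h ζ hd]
  congr 2
  have hn : ‖rden s t ζ‖ ≠ 0 := norm_ne_zero_iff.2 hd
  have hpi := Real.pi_pos
  rw [norm_inv, norm_pow]
  field_simp

end

end Pool.Agent.H972.FH
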