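import Pool.Agent.H972.FH.Mu

set_option autoImplicit false

open MeasureTheory Complex Filter Topology Set
open scoped ENNReal

namespace Pool.Agent.H972.FH

noncomputable section

/-- Cauchy–Schwarz -/
theorem cs {α : Type*} [MeasurableSpace α] {μ : Measure α} {f g : α → ℂ}
    (hf : AEStronglyMeasurable f μ) (hg : AEStronglyMeasurable g μ)
    (hf2 : Integrable (fun x => ‖f x‖ ^ 2) μ) (hg2 : Integrable (fun x => ‖g x‖ ^ 2) μ) :
    Integrable (fun x => f x * g x) μ ∧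
    ∫ x, ‖f x‖ * ‖g x‖ ∂μ ≤ √(∫ x, ‖f x‖ ^ 2 ∂μ) * √(∫ x, ‖g x‖ ^ 2 ∂μ) := by
  have hf' : MemLp f 2 μ := (memLp_two_iff_integrable_sq_norm hf).2 hf2
  have hg' : MemLp g 2 μ := (memLp_two_iff_integrable_sq_norm hg).2 hg2
  refine ⟨hf'.integrable_mul hg', ?_⟩
  have e2 : ENNReal.ofReal (2:ℝ) = 2 := by norm_num
  have h := integral_mul_norm_le_Lp_mul_Lq (μ := μ) (f := f) (g := g)
    (p := 2) (q := 2) Real.HolderConjugate.two_two (by rw [e2]; exact hf') (by rw [e2]; exact hg')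
  simp only [Real.rpow_two] at h
  rwa [← Real.sqrt_eq_rpow, ← Real.sqrt_eq_rpow] at h

theorem cs_norm {α : Type*} [MeasurableSpace α] {μ : Measure α} {f g : α → ℂ}
    (hf : AEStronglyMeasurable f μ) (hg : AEStronglyMeasurable g μ)
    (hf2 : Integrable (fun x => ‖f x‖ ^ 2) μ) (hg2 : Integrable (fun x => ‖g x‖ ^ 2) μ) :
    ‖∫ x, f x * g x ∂μ‖ ≤ √(∫ x, ‖f x‖ ^ 2 ∂μ) * √(∫ x, ‖g x‖ ^ 2 ∂μ) := by
  refine (norm_integral_le_integral_norm _).trans ?_
  simp only [norm_mul]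
  exact (cs hf hg hf2 hg2).2

/-- Taylor coefficients at `0` -/
def tc (H : ℂ → ℂ) (j : ℕ) : ℂ := (j.factorial : ℂ)⁻¹ * iteratedDeriv j H 0

theorem hasSum_tc {H : ℂ → ℂ} {R : ℝ} (hH : DifferentiableOn ℂ H (Metric.ball 0 R)) {z : ℂ}
    (hz : ‖z‖ < R) : HasSum (fun j => tc H j * z ^ j) (H z) := by
  have h := hasSum_taylorSeries_on_ball hH (z := z) (by simpa using hz)
  have e : (fun n : ℕ => (n.factorial : ℂ)⁻¹ • (z - 0) ^ n • iteratedDeriv n H 0) =
      fun j => tc H j * z ^ j := by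
    funext j
    simp only [tc, sub_zero, smul_eq_mul]
    ring
  rwa [e] at h

theorem tc_bound {H : ℂ → ℂ} {R ρ M : ℝ} (hH : DifferentiableOn ℂ H (Metric.ball 0 R))
    (hρ : 0 < ρ) (hρR : ρ < R) (hM : ∀ z, ‖z‖ = ρ → ‖H z‖ ≤ M) (j : ℕ) :
    ‖tc H j‖ ≤ M / ρ ^ j := by
  have h := norm_iteratedDeriv_le_of_forall_mem_sphere_norm_le (f := H) (c := 0) (R := ρ) (C := M)
    j hρ ?_ ?_
  · unfold tc
    rw [norm_mul, norm_inv, Complex.norm_natCast]
    have hj : (0:ℝ) < (j.factorial : ℝ) := by exact_mod_cast Nat.factorial_pos j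
    calc ((j.factorial : ℝ))⁻¹ * ‖iteratedDeriv j H 0‖ ≤ ((j.factorial : ℝ))⁻¹ * ((j.factorial : ℝ) * M / ρ ^ j) := by gcongr
      _ = M / ρ ^ j := by field_simp
  · exact hH.diffContOnCl_ball (Metric.closedBall_subset_ball hρR)
  · intro z hz
    exact hM z (by simpa using hz)

theorem bdd_ball {H : ℂ → ℂ} {R r : ℝ} (hH : DifferentiableOn ℂ H (Metric.ball 0 R))
    (hrR : r < R) : ∃ M, 0 ≤ M ∧ ∀ z : ℂ, ‖z‖ ≤ r → ‖H z‖ ≤ M := by
  have hc : IsCompact (Metric.closedBall (0:ℂ) r) := isCompact_closedBall 0 r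
  obtain ⟨M, hM⟩ := hc.exists_bound_of_continuousOn
    (hH.continuousOn.mono (Metric.closedBall_subset_ball hrR))
  exact ⟨max M 0, le_max_right _ _, fun z hz => (hM z (by simpa using hz)).trans (le_max_left _ _)⟩

theorem summable_tc {H : ℂ → ℂ} {R r : ℝ} (hH : DifferentiableOn ℂ H (Metric.ball 0 R))
    (hr : 0 ≤ r) (hrR : r < R) : Summable fun j => ‖tc H j‖ * r ^ j := by
  obtain ⟨M, hM0, hM⟩ := bdd_ball hH (show (r + R) / 2 < R by linarith)
  have hρ : 0 < (r + R) / 2 := by linarith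
  have hb := fun j => tc_bound hH hρ (show (r + R) / 2 < R by linarith) (fun z hz => hM z hz.le) j
  refine Summable.of_nonneg_of_le (fun j => by positivity) (fun j => ?_)
    ((summable_geometric_of_lt_one (r := r / ((r + R) / 2)) (by positivity)
      ((div_lt_one hρ).2 (by linarith))).mul_left M)
  calc ‖tc H j‖ * r ^ j ≤ M / ((r + R) / 2) ^ j * r ^ j := by gcongr; exact hb j
    _ = M * (r / ((r + R) / 2)) ^ j := by
        rw [div_pow r]
        field_simp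

theorem mp_mul {u : ℂ} (hu : ‖u‖ = 1) : MeasurePreserving (fun ζ => u * ζ) mu mu := by
  have hc : Measurable fun ζ : ℂ => u * ζ := by fun_prop
  refine ⟨hc, ?_⟩
  refine Measure.ext_of_lintegral _ fun g hg => ?_
  rw [lintegral_map hg hc, lint_mu _ hg, lint_mu (fun z => g (u * z)) (hg.comp hc)]
  let c : Circle := ⟨u, by simpa [Submonoid.unitSphere] using hu⟩
  have h := ((rotation c).measurePreserving).lintegral_comp_emb
    ((rotation c).toHomeomorph.measurableEmbedding)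
    (fun z => ENNReal.ofReal ((Real.pi * (1 + ‖z‖ ^ 2) ^ 2)⁻¹) * g z)
  rw [← h]
  refine lintegral_congr fun z => ?_
  have e : (rotation c) z = u * z := rfl
  have e2 : ‖u * z‖ = ‖z‖ := by rw [norm_mul, hu, one_mul]
  simp only [e, e2]

theorem int_mul {u : ℂ} (hu : ‖u‖ = 1) (F : ℂ → ℂ) : ∫ z, F (u * z) ∂mu = ∫ z, F z ∂mu := by
  have hu0 : u ≠ 0 := by intro h; rw [h] at hu; norm_num at hu
  exact (mp_mul hu).integral_comp (Homeomorph.mulLeft₀ u hu0).measurableEmbedding F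

/-- orthogonality of monomials for radial weights -/
theorem mono_orth (φ : ℝ → ℂ) (r : ℝ) (m j : ℕ) (hmj : m ≠ j) :
    ∫ ζ in Metric.ball 0 r, ζ ^ m * (starRingEnd ℂ ζ) ^ j * φ ‖ζ‖ ∂mu = 0 := by
  rw [← integral_indicator Metric.isOpen_ball.measurableSet]
  set F : ℂ → ℂ := (Metric.ball (0:ℂ) r).indicator
    fun ζ => ζ ^ m * (starRingEnd ℂ ζ) ^ j * φ ‖ζ‖ with hF
  set θ : ℝ := Real.pi / ((m:ℝ) - j) with hθ
  have hmj' : ((m:ℝ) - j) ≠ 0 := sub_ne_zero.2 (by exact_mod_cast hmj)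
  set u : ℂ := cexp ((θ : ℂ) * I) with hu
  have hu1 : ‖u‖ = 1 := by rw [hu, Complex.norm_exp_ofReal_mul_I]
  have hfac : u ^ m * (starRingEnd ℂ u) ^ j = -1 := by
    rw [hu, ← Complex.exp_conj, ← Complex.exp_nat_mul, ← Complex.exp_nat_mul, ← Complex.exp_add]
    rw [← Complex.exp_pi_mul_I]
    congr 1
    simp only [map_mul, Complex.conj_ofReal, Complex.conj_I]
    have : ((Real.pi : ℝ) : ℂ) = θ * ((m:ℂ) - j) := by
      rw [hθ]
      push_cast
      have h0 : ((m:ℂ) - j) ≠ 0 := by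
        intro h
        apply hmj'
        have : (((m:ℝ) - j : ℝ) : ℂ) = 0 := by push_cast; exact h
        exact_mod_cast this
      field_simp
    rw [this]
    ring
  have h1 : ∀ z, F (u * z) = -F z := by
    intro z
    have hn : ‖u * z‖ = ‖z‖ := by rw [norm_mul, hu1, one_mul]
    by_cases hz : z ∈ Metric.ball (0:ℂ) r
    · have hz2 : u * z ∈ Metric.ball (0:ℂ) r := by
        rw [mem_ball_zero_iff] at hz ⊢; rwa [hn]
      rw [hF, indicator_of_mem hz, indicator_of_mem hz2, hn, map_mul, mul_pow, mul_pow]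
      linear_combination (z ^ m * (starRingEnd ℂ z) ^ j * φ ‖z‖) * hfac
    · have hz2 : u * z ∉ Metric.ball (0:ℂ) r := by
        rw [mem_ball_zero_iff] at hz ⊢; rwa [hn]
      rw [hF, indicator_of_notMem hz, indicator_of_notMem hz2, neg_zero]
  have h2 := int_mul hu1 F
  simp_rw [h1] at h2
  rw [integral_neg] at h2
  have h3 : (2:ℂ) * ∫ z, F z ∂mu = 0 := by linear_combination -h2
  exact (mul_eq_zero.1 h3).resolve_left two_ne_zero

/-- integration of a holomorphic function against a monomial and a radial weight -/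
theorem orth {φ : ℝ → ℂ} {R r : ℝ} (hrR : r < R) {H : ℂ → ℂ}
    (hH : DifferentiableOn ℂ H (Metric.ball 0 R))
    (hφ : IntegrableOn (fun ζ : ℂ => φ ‖ζ‖) (Metric.ball 0 r) mu) (j : ℕ) :
    IntegrableOn (fun ζ => H ζ * (starRingEnd ℂ ζ) ^ j * φ ‖ζ‖) (Metric.ball 0 r) mu ∧
    ∫ ζ in Metric.ball 0 r, H ζ * (starRingEnd ℂ ζ) ^ j * φ ‖ζ‖ ∂mu =
      tc H j * ∫ ζ in Metric.ball 0 r, ((‖ζ‖ ^ (2 * j) : ℝ) : ℂ) * φ ‖ζ‖ ∂mu := by
  rcases le_or_gt r 0 with hr | hr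
  · rw [Metric.ball_eq_empty.2 hr]
    simp
  have hball : MeasurableSet (Metric.ball (0:ℂ) r) := Metric.isOpen_ball.measurableSet
  obtain ⟨M, hM0, hM⟩ := bdd_ball hH hrR
  have hHc : ContinuousOn H (Metric.ball (0:ℂ) r) :=
    hH.continuousOn.mono (Metric.ball_subset_ball hrR.le)
  have hconj : Continuous (starRingEnd ℂ) := continuous_conj
  have hInt : ∀ G : ℂ → ℂ, ContinuousOn G (Metric.ball (0:ℂ) r) → (∀ z ∈ Metric.ball (0:ℂ) r,
      ‖G z‖ ≤ M * r ^ j) → IntegrableOn (fun ζ => G ζ * φ ‖ζ‖) (Metric.ball 0 r) mu := by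
    intro G hG hGM
    refine Integrable.bdd_mul (c := M * r ^ j) hφ (hG.aestronglyMeasurable hball) ?_
    exact (ae_restrict_iff' hball).2 (Eventually.of_forall hGM)
  refine ⟨hInt _ (hHc.mul (hconj.continuousOn.pow j)) ?_, ?_⟩
  · intro z hz
    rw [mem_ball_zero_iff] at hz
    rw [norm_mul, norm_pow, RCLike.norm_conj]
    exact mul_le_mul (hM z hz.le) (pow_le_pow_left₀ (norm_nonneg _) hz.le j) (by positivity) hM0
  have hS := summable_tc hH hr.le hrR
  set F : ℕ → ℂ → ℂ := fun i ζ => tc H i * (ζ ^ i * (starRingEnd ℂ ζ) ^ j * φ ‖ζ‖) with hFdef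
  have hFi : ∀ i, IntegrableOn (fun ζ : ℂ => ζ ^ i * (starRingEnd ℂ ζ) ^ j * φ ‖ζ‖)
      (Metric.ball 0 r) mu := by
    intro i
    refine Integrable.bdd_mul (c := r ^ i * r ^ j) hφ
      (((continuous_pow i).mul (hconj.pow j)).aestronglyMeasurable) ?_
    refine (ae_restrict_iff' hball).2 (Eventually.of_forall fun z hz => ?_)
    rw [mem_ball_zero_iff] at hz
    rw [norm_mul, norm_pow, norm_pow, RCLike.norm_conj]
    gcongr
  have h1 := hasSum_integral_of_summable_integral_norm (μ := mu.restrict (Metric.ball 0 r))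
    (F := F) (fun i => (hFi i).const_mul (tc H i)) ?_
  · have h2 : ∀ i, ∫ ζ in Metric.ball 0 r, F i ζ ∂mu = if i = j then
        tc H j * ∫ ζ in Metric.ball 0 r, ((‖ζ‖ ^ (2 * j) : ℝ) : ℂ) * φ ‖ζ‖ ∂mu else 0 := by
      intro i
      split_ifs with hij
      · subst hij
        simp only [hFdef]
        rw [integral_const_mul]
        congr 1
        refine integral_congr_ae (Eventually.of_forall fun z => ?_)
        have : z ^ i * (starRingEnd ℂ z) ^ i = ((‖z‖ ^ (2 * i) : ℝ) : ℂ) := by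
          rw [← mul_pow, conj_mul_self_eq, pow_mul]
          push_cast
          ring
        simp only
        rw [this]
      · simp only [hFdef]
        rw [integral_const_mul, mono_orth φ r i j hij, mul_zero]
    simp_rw [h2] at h1
    have h3 := h1.unique (hasSum_ite_eq j _)
    rw [← h3]
    refine setIntegral_congr_fun hball fun z hz => ?_
    rw [mem_ball_zero_iff] at hz
    have h4 := (hasSum_tc hH (hz.trans hrR)).mul_right ((starRingEnd ℂ z) ^ j * φ ‖z‖)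
    have h5 : (fun i => F i z) = fun i => tc H i * z ^ i * ((starRingEnd ℂ z) ^ j * φ ‖z‖) := by
      funext i; simp only [hFdef]; ring
    rw [h5, h4.tsum_eq]
    ring
  · refine Summable.of_nonneg_of_le (fun i => integral_nonneg fun z => norm_nonneg _) (fun i => ?_)
      (hS.mul_right (r ^ j * ∫ ζ in Metric.ball 0 r, ‖φ ‖ζ‖‖ ∂mu))
    calc ∫ z in Metric.ball 0 r, ‖F i z‖ ∂mu ≤
        ∫ z in Metric.ball 0 r, ‖tc H i‖ * r ^ i * r ^ j * ‖φ ‖z‖‖ ∂mu := by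
          refine setIntegral_mono_on ((hFi i).const_mul (tc H i)).norm (hφ.norm.const_mul _) hball
            fun z hz => ?_
          rw [mem_ball_zero_iff] at hz
          simp only [hFdef, norm_mul, norm_pow, RCLike.norm_conj]
          have e1 : ‖z‖ ^ i ≤ r ^ i := by gcongr
          have e2 : ‖z‖ ^ j ≤ r ^ j := by gcongr
          calc ‖tc H i‖ * (‖z‖ ^ i * ‖z‖ ^ j * ‖φ ‖z‖‖) ≤ ‖tc H i‖ * (r ^ i * r ^ j * ‖φ ‖z‖‖) := by
                gcongr
            _ = _ := by ring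
      _ = _ := by rw [integral_const_mul]; ring

/-- coefficient bound -/
theorem tc_sq_bound {φ : ℝ → ℝ} {R r : ℝ} (hrR : r < R) {H : ℂ → ℂ}
    (hH : DifferentiableOn ℂ H (Metric.ball 0 R)) (hφ0 : ∀ t, 0 ≤ φ t) (hφm : Measurable φ)
    (hφ : IntegrableOn (fun ζ : ℂ => φ ‖ζ‖) (Metric.ball 0 r) mu) (j : ℕ) :
    ‖tc H j‖ ^ 2 * ∫ ζ in Metric.ball 0 r, ‖ζ‖ ^ (2 * j) * φ ‖ζ‖ ∂mu ≤
      ∫ ζ in Metric.ball 0 r, ‖H ζ‖ ^ 2 * φ ‖ζ‖ ∂mu := by
  have hball : MeasurableSet (Metric.ball (0:ℂ) r) := Metric.isOpen_ball.measurableSet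
  have h := (orth (φ := fun t => (φ t : ℂ)) hrR hH hφ.ofReal j).2
  set Cj : ℝ := ∫ ζ in Metric.ball 0 r, ‖ζ‖ ^ (2 * j) * φ ‖ζ‖ ∂mu with hCj
  have hCj0 : 0 ≤ Cj := integral_nonneg fun z => mul_nonneg (by positivity) (hφ0 _)
  have e1 : ∫ ζ in Metric.ball 0 r, ((‖ζ‖ ^ (2 * j) : ℝ) : ℂ) * ((φ ‖ζ‖ : ℝ) : ℂ) ∂mu = (Cj : ℂ) := by
    rw [hCj, ← integral_complex_ofReal]
    refine integral_congr_ae (Eventually.of_forall fun z => ?_)
    simp
  rw [e1] at h
  obtain ⟨M, hM0, hM⟩ := bdd_ball hH hrR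
  have hHc : ContinuousOn H (Metric.ball (0:ℂ) r) :=
    hH.continuousOn.mono (Metric.ball_subset_ball hrR.le)
  have hφm' : Measurable fun ζ : ℂ => φ ‖ζ‖ := hφm.comp measurable_norm
  have hs : ∀ t, √(φ t) * √(φ t) = φ t := fun t => Real.mul_self_sqrt (hφ0 t)
  set f : ℂ → ℂ := fun ζ => H ζ * ((√(φ ‖ζ‖) : ℝ) : ℂ) with hf
  set g : ℂ → ℂ := fun ζ => (starRingEnd ℂ ζ) ^ j * ((√(φ ‖ζ‖) : ℝ) : ℂ) with hg
  have hsm : Measurable fun ζ : ℂ => ((√(φ ‖ζ‖) : ℝ) : ℂ) :=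
    Complex.measurable_ofReal.comp (hφm'.sqrt)
  have hfm : AEStronglyMeasurable f (mu.restrict (Metric.ball 0 r)) :=
    (hHc.aestronglyMeasurable hball).mul hsm.aestronglyMeasurable
  have hgm : AEStronglyMeasurable g (mu.restrict (Metric.ball 0 r)) :=
    ((continuous_conj.pow j).measurable.mul hsm).aestronglyMeasurable
  have hf2e : ∀ z, ‖f z‖ ^ 2 = ‖H z‖ ^ 2 * φ ‖z‖ := by
    intro z
    simp only [hf]
    rw [norm_mul, mul_pow, Complex.norm_real, Real.norm_eq_abs, sq_abs, Real.sq_sqrt (hφ0 _)]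
  have hg2e : ∀ z, ‖g z‖ ^ 2 = ‖z‖ ^ (2 * j) * φ ‖z‖ := by
    intro z
    simp only [hg]
    rw [norm_mul, mul_pow, Complex.norm_real, Real.norm_eq_abs, sq_abs, Real.sq_sqrt (hφ0 _),
      norm_pow, RCLike.norm_conj, ← pow_mul, mul_comm j 2]
  have hr : ∀ z ∈ Metric.ball (0:ℂ) r, ‖z‖ ≤ |r| := fun z hz => by
    rw [mem_ball_zero_iff] at hz; exact hz.le.trans (le_abs_self r)
  have hf2 : Integrable (fun x => ‖f x‖ ^ 2) (mu.restrict (Metric.ball 0 r)) := by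
    simp_rw [hf2e]
    refine Integrable.bdd_mul (c := M ^ 2) hφ
      ((hHc.norm.pow 2).aestronglyMeasurable hball) ?_
    refine (ae_restrict_iff' hball).2 (Eventually.of_forall fun z hz => ?_)
    rw [mem_ball_zero_iff] at hz
    have := hM z hz.le
    rw [Real.norm_eq_abs, abs_of_nonneg (by positivity)]
    gcongr
  have hg2 : Integrable (fun x => ‖g x‖ ^ 2) (mu.restrict (Metric.ball 0 r)) := by
    simp_rw [hg2e]
    refine Integrable.bdd_mul (c := |r| ^ (2 * j)) hφ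
      ((continuous_norm.pow (2 * j)).aestronglyMeasurable) ?_
    refine (ae_restrict_iff' hball).2 (Eventually.of_forall fun z hz => ?_)
    have := hr z hz
    rw [Real.norm_eq_abs, abs_of_nonneg (by positivity)]
    gcongr
  have hcs := cs_norm hfm hgm hf2 hg2
  simp_rw [hf2e, hg2e] at hcs
  have e2 : ∫ x in Metric.ball 0 r, f x * g x ∂mu = tc H j * Cj := by
    rw [← h]
    refine integral_congr_ae (Eventually.of_forall fun z => ?_)
    simp only [hf, hg]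
    have : ((φ ‖z‖ : ℝ) : ℂ) = ((√(φ ‖z‖) : ℝ) : ℂ) * ((√(φ ‖z‖) : ℝ) : ℂ) := by
      rw [← Complex.ofReal_mul, hs]
    rw [this]
    ring
  rw [e2, norm_mul, Complex.norm_real, Real.norm_eq_abs, abs_of_nonneg hCj0] at hcs
  set A : ℝ := ∫ ζ in Metric.ball 0 r, ‖H ζ‖ ^ 2 * φ ‖ζ‖ ∂mu with hA
  have hA0 : 0 ≤ A := integral_nonneg fun z => mul_nonneg (by positivity) (hφ0 _)
  rcases hCj0.eq_or_lt with h0 | h0
  · rw [← h0, mul_zero]; exact hA0
  have h6 : (‖tc H j‖ * Cj) ^ 2 ≤ A * Cj := by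
    calc (‖tc H j‖ * Cj) ^ 2 ≤ (√A * √Cj) ^ 2 := by
          gcongr
      _ = A * Cj := by rw [mul_pow, Real.sq_sqrt hA0, Real.sq_sqrt hCj0]
  have h7 : (‖tc H j‖ ^ 2 * Cj) * Cj ≤ A * Cj := by nlinarith
  exact le_of_mul_le_mul_right h7 h0

end

end Pool.Agent.H972.FH
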