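import Mathlib

set_option autoImplicit false

open MeasureTheory Complex Filter Topology Set

namespace Pool.Agent.H972.FH

noncomputable section

/-- Euler's constant -/
def eg : ℂ := (Real.eulerMascheroniConstant : ℂ)

/-- the digamma function at `1 + x` -/
def ps (x : ℂ) : ℂ := -eg + ∑' k : ℕ, x / ((k + 1) * (k + 1 + x))

/-- logarithm of `Γ(1+x)` -/
def LG (x : ℂ) : ℂ := -eg * x + ∑' k : ℕ, (x / (k + 1) - Complex.log (1 + x / (k + 1)))

/-- `½ log 2π - ½` -/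
def kp0 : ℂ := ((Real.log (2 * Real.pi) / 2 - 1 / 2 : ℝ) : ℂ)

/-- logarithm of `G(1+x)` -/
def Lam (x : ℂ) : ℂ := kp0 * x - (1 + eg) * x ^ 2 / 2 +
  ∑' k : ℕ, ((k + 1) * Complex.log (1 + x / (k + 1)) - x + x ^ 2 / (2 * (k + 1)))

/-- the Barnes `G`-function at `1 + x` (Weierstrass product) -/
def GB (x : ℂ) : ℂ :=
  cexp (kp0 * x - (1 + eg) * x ^ 2 / 2) *
    ∏' k : ℕ, ((1 + x / ((k : ℂ) + 1)) ^ (k + 1) * cexp (x ^ 2 / (2 * ((k : ℂ) + 1)) - x))

/-- the domain -/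
def UR (δ R : ℝ) : Set ℂ := {x | -1 + δ < x.re ∧ ‖x‖ < R}

lemma UR_open (δ R : ℝ) : IsOpen (UR δ R) :=
  (isOpen_lt continuous_const Complex.continuous_re).inter (isOpen_lt continuous_norm continuous_const)

lemma UR_convex (δ R : ℝ) : Convex ℝ (UR δ R) := by
  have h1 : Convex ℝ {x : ℂ | -1 + δ < x.re} := convex_halfSpace_re_gt _
  have h2 : Convex ℝ {x : ℂ | ‖x‖ < R} := by
    have : {x : ℂ | ‖x‖ < R} = Metric.ball 0 R := by ext; simp
    rw [this]; exact convex_ball _ _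
  exact h1.inter h2

lemma UR_pre (δ R : ℝ) : IsPreconnected (UR δ R) := (UR_convex δ R).isPreconnected

lemma den_bound {δ R : ℝ} (hδ : 0 < δ) (hδ1 : δ ≤ 1) {x : ℂ} (hx : x ∈ UR δ R) (k : ℕ) :
    δ * (k + 1) ≤ ‖(k:ℂ) + 1 + x‖ := by
  have h1 : ((k:ℂ) + 1 + x).re ≤ ‖(k:ℂ) + 1 + x‖ := Complex.re_le_norm _
  have h2 : ((k:ℂ) + 1 + x).re = k + 1 + x.re := by simp
  have h3 := hx.1
  have h4 : (0:ℝ) ≤ k := Nat.cast_nonneg k
  nlinarith

lemma slit {x : ℂ} (hx : -1 < x.re) (k : ℕ) : (1 + x / ((k:ℂ) + 1)) ∈ Complex.slitPlane := by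
  left
  have h4 : (0:ℝ) ≤ k := Nat.cast_nonneg k
  have h5 : (x / ((k:ℂ) + 1)).re = x.re / (k + 1) := by
    rw [show ((k:ℂ) + 1) = (((k:ℝ) + 1 : ℝ) : ℂ) by push_cast; rfl, Complex.div_ofReal_re]
  rw [Complex.add_re, Complex.one_re, h5]
  have : -1 < x.re / (k + 1) := by
    rw [lt_div_iff₀ (by positivity)]
    linarith
  linarith

lemma ne1 (k : ℕ) : ((k:ℂ) + 1) ≠ 0 := by exact_mod_cast Nat.succ_ne_zero k

lemma ne2 {x : ℂ} (hx : -1 < x.re) (k : ℕ) : ((k:ℂ) + 1 + x) ≠ 0 := by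
  intro h
  have := congrArg Complex.re h
  simp at this
  have h4 : (0:ℝ) ≤ k := Nat.cast_nonneg k
  linarith

lemma hasDerivAt_log1 {x : ℂ} (hx : -1 < x.re) (k : ℕ) :
    HasDerivAt (fun x => Complex.log (1 + x / ((k:ℂ) + 1))) (1 / ((k:ℂ) + 1 + x)) x := by
  have h1 : HasDerivAt (fun x : ℂ => 1 + x / ((k:ℂ) + 1)) (1 / ((k:ℂ) + 1)) x :=
    ((hasDerivAt_id x).div_const _).const_add 1
  have h2 := h1.clog (slit hx k)
  refine h2.congr_deriv ?_
  have := ne1 k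
  have := ne2 hx k
  have h3 : 1 + x / ((k:ℂ) + 1) = ((k:ℂ) + 1 + x) / (k + 1) := by field_simp
  rw [h3]
  field_simp

lemma summable_sq : Summable fun k : ℕ => (1:ℝ) / ((k:ℝ) + 1) ^ 2 := by
  have h := (summable_nat_add_iff (f := fun k : ℕ => (1:ℝ) / (k:ℝ) ^ 2) 1).2
    (Real.summable_one_div_nat_pow.2 (by norm_num))
  refine h.congr fun k => ?_
  push_cast; rfl

/-- the two series of derivatives are dominated -/
lemma dom1 {δ R : ℝ} (hδ : 0 < δ) (hδ1 : δ ≤ 1) (k : ℕ) {x : ℂ} (hx : x ∈ UR δ R) (m : ℕ) :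
    ‖x ^ m / ((k + 1) * (k + 1 + x))‖ ≤ R ^ m / δ * (1 / ((k:ℝ) + 1) ^ 2) := by
  have hR : 0 < R := (norm_nonneg x).trans_lt hx.2
  rw [norm_div, norm_mul, norm_pow]
  have h1 : ‖(k:ℂ) + 1‖ = k + 1 := by
    rw [show ((k:ℂ) + 1) = (((k:ℝ) + 1 : ℝ) : ℂ) by push_cast; rfl, Complex.norm_real,
      Real.norm_eq_abs, abs_of_nonneg (by positivity)]
  rw [h1]
  have h2 := den_bound hδ hδ1 hx k
  have h3 := hx.2.le
  calc ‖x‖ ^ m / ((k + 1) * ‖(k:ℂ) + 1 + x‖) ≤ R ^ m / ((k + 1) * (δ * (k + 1))) := by gcongr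
    _ = _ := by field_simp

lemma hasDerivAt_LG' {δ R : ℝ} (hδ : 0 < δ) (hδ1 : δ ≤ 1) {x : ℂ} (hx : x ∈ UR δ R) :
    Summable (fun k : ℕ => x / ((k:ℂ) + 1) - Complex.log (1 + x / (k + 1))) ∧
      HasDerivAt LG (ps x) x := by
  have hR : 0 < R := (norm_nonneg x).trans_lt hx.2
  have h0 : (0:ℂ) ∈ UR (δ / 2) R := ⟨by simp; linarith, by simpa using hR⟩
  have hx' : x ∈ UR (δ / 2) R := ⟨by have := hx.1; linarith, hx.2⟩
  have hu : Summable fun k : ℕ => R ^ 1 / (δ / 2) * (1 / ((k:ℝ) + 1) ^ 2) := summable_sq.mul_left _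
  have hre : ∀ y ∈ UR (δ / 2) R, -1 < y.re := fun y hy => by have := hy.1; linarith
  have hg : ∀ (k : ℕ) (y : ℂ), y ∈ UR (δ / 2) R →
      HasDerivAt (fun x : ℂ => x / ((k:ℂ) + 1) - Complex.log (1 + x / (k + 1)))
        (y ^ 1 / ((k + 1) * (k + 1 + y))) y := by
    intro k y hy
    refine (((hasDerivAt_id y).div_const _).sub (hasDerivAt_log1 (hre y hy) k)).congr_deriv ?_
    have := ne1 k
    have := ne2 (hre y hy) k
    field_simp
    ring
  have hd : ∀ (k : ℕ) (y : ℂ), y ∈ UR (δ / 2) R →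
      ‖y ^ 1 / ((k + 1) * (k + 1 + y))‖ ≤ R ^ 1 / (δ / 2) * (1 / ((k:ℝ) + 1) ^ 2) :=
    fun k y hy => dom1 (by positivity) (by linarith) k hy 1
  have hs0 : Summable fun k : ℕ => (0:ℂ) / ((k:ℂ) + 1) - Complex.log (1 + 0 / (k + 1)) := by
    simp [summable_zero]
  constructor
  · exact summable_of_summable_hasDerivAt_of_isPreconnected hu (UR_open _ _) (UR_pre _ _) hg hd h0 hs0 hx'
  · have h1 := hasDerivAt_tsum_of_isPreconnected hu (UR_open _ _) (UR_pre _ _) hg hd h0 hs0 hx'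
    have h2 : HasDerivAt (fun x : ℂ => -eg * x) (-eg) x := by
      simpa using (hasDerivAt_id x).const_mul (-eg)
    unfold LG ps
    refine (h2.add h1).congr_deriv ?_
    simp only [pow_one]

lemma mem_UR {x : ℂ} (hx : -1 < x.re) : ∃ δ R : ℝ, 0 < δ ∧ δ ≤ 1 ∧ x ∈ UR δ R := by
  refine ⟨min 1 ((1 + x.re) / 2), ‖x‖ + 1, lt_min one_pos (by linarith), min_le_left _ _, ?_, by
    simp⟩
  have := min_le_right 1 ((1 + x.re) / 2)
  linarith

lemma hasDerivAt_LG {x : ℂ} (hx : -1 < x.re) : HasDerivAt LG (ps x) x := by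
  obtain ⟨δ, R, h1, h2, h3⟩ := mem_UR hx
  exact (hasDerivAt_LG' h1 h2 h3).2

lemma hasDerivAt_Lam' {δ R : ℝ} (hδ : 0 < δ) (hδ1 : δ ≤ 1) {x : ℂ} (hx : x ∈ UR δ R) :
    Summable (fun k : ℕ => ((k:ℂ) + 1) * Complex.log (1 + x / (k + 1)) - x +
      x ^ 2 / (2 * (k + 1))) ∧
      HasDerivAt Lam (kp0 - x + x * ps x) x := by
  have hR : 0 < R := (norm_nonneg x).trans_lt hx.2
  have h0 : (0:ℂ) ∈ UR (δ / 2) R := ⟨by simp; linarith, by simpa using hR⟩
  have hx' : x ∈ UR (δ / 2) R := ⟨by have := hx.1; linarith, hx.2⟩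
  have hu : Summable fun k : ℕ => R ^ 2 / (δ / 2) * (1 / ((k:ℝ) + 1) ^ 2) := summable_sq.mul_left _
  have hre : ∀ y ∈ UR (δ / 2) R, -1 < y.re := fun y hy => by have := hy.1; linarith
  have hg : ∀ (k : ℕ) (y : ℂ), y ∈ UR (δ / 2) R →
      HasDerivAt (fun x : ℂ => ((k:ℂ) + 1) * Complex.log (1 + x / (k + 1)) - x +
        x ^ 2 / (2 * (k + 1))) (y ^ 2 / ((k + 1) * (k + 1 + y))) y := by
    intro k y hy
    have e1 := (hasDerivAt_log1 (hre y hy) k).const_mul ((k:ℂ) + 1)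
    have e2 : HasDerivAt (fun x : ℂ => x ^ 2 / (2 * ((k:ℂ) + 1))) ((2 * y) / (2 * (k + 1))) y := by
      simpa using (hasDerivAt_pow 2 y).div_const (2 * ((k:ℂ) + 1))
    refine ((e1.sub (hasDerivAt_id y)).add e2).congr_deriv ?_
    have := ne1 k
    have := ne2 (hre y hy) k
    field_simp
    ring
  have hd : ∀ (k : ℕ) (y : ℂ), y ∈ UR (δ / 2) R →
      ‖y ^ 2 / ((k + 1) * (k + 1 + y))‖ ≤ R ^ 2 / (δ / 2) * (1 / ((k:ℝ) + 1) ^ 2) :=
    fun k y hy => dom1 (by positivity) (by linarith) k hy 2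
  have hs0 : Summable fun k : ℕ => ((k:ℂ) + 1) * Complex.log (1 + 0 / (k + 1)) - 0 +
      0 ^ 2 / (2 * (k + 1)) := by
    simp [summable_zero]
  constructor
  · exact summable_of_summable_hasDerivAt_of_isPreconnected hu (UR_open _ _) (UR_pre _ _) hg hd h0 hs0 hx'
  · have h1 := hasDerivAt_tsum_of_isPreconnected hu (UR_open _ _) (UR_pre _ _) hg hd h0 hs0 hx'
    have h2 : HasDerivAt (fun x : ℂ => kp0 * x - (1 + eg) * x ^ 2 / 2) (kp0 - (1 + eg) * x) x := by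
      have e1 : HasDerivAt (fun x : ℂ => kp0 * x) kp0 x := by
        simpa using (hasDerivAt_id x).const_mul kp0
      have e2 : HasDerivAt (fun x : ℂ => (1 + eg) * x ^ 2 / 2) ((1 + eg) * x) x := by
        refine (((hasDerivAt_pow 2 x).const_mul (1 + eg)).div_const 2).congr_deriv ?_
        simp; ring
      exact e1.sub e2
    unfold Lam
    refine (h2.add h1).congr_deriv ?_
    unfold ps
    have e3 : ∑' k : ℕ, x ^ 2 / (((k:ℂ) + 1) * (k + 1 + x)) =
        x * ∑' k : ℕ, x / (((k:ℂ) + 1) * (k + 1 + x)) := by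
      rw [← tsum_mul_left]
      refine tsum_congr fun k => ?_
      ring
    rw [e3]
    ring

lemma hasDerivAt_Lam {x : ℂ} (hx : -1 < x.re) : HasDerivAt Lam (kp0 - x + x * ps x) x := by
  obtain ⟨δ, R, h1, h2, h3⟩ := mem_UR hx
  exact (hasDerivAt_Lam' h1 h2 h3).2

/-- `exp Λ = G(1+·)` -/
theorem exp_Lam {x : ℂ} (hx : -1 < x.re) : cexp (Lam x) = GB x := by
  obtain ⟨δ, R, h1, h2, h3⟩ := mem_UR hx
  have hs := (hasDerivAt_Lam' h1 h2 h3).1
  have hp := hs.hasSum.cexp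
  unfold Lam GB
  rw [Complex.exp_add]
  congr 1
  rw [← hp.tprod_eq]
  refine tprod_congr fun k => ?_
  simp only [Function.comp_apply]
  have hne : 1 + x / ((k:ℂ) + 1) ≠ 0 := Complex.slitPlane_ne_zero (slit hx k)
  rw [show ((k:ℂ) + 1) * Complex.log (1 + x / (k + 1)) - x + x ^ 2 / (2 * (k + 1)) =
    ((k + 1 : ℕ) : ℂ) * Complex.log (1 + x / (k + 1)) + (x ^ 2 / (2 * (k + 1)) - x) by
      push_cast; ring]
  rw [Complex.exp_add, Complex.exp_nat_mul, Complex.exp_log hne]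

/-- `exp LG = Γ(1+·)` -/
theorem exp_LG {x : ℂ} (hx : -1 < x.re) : cexp (LG x) = Complex.Gamma (1 + x) := by
  obtain ⟨δ, R, h1, h2, h3⟩ := mem_UR hx
  have hs := (hasDerivAt_LG' h1 h2 h3).1
  have ht := hs.hasSum.tendsto_sum_nat
  rcases eq_or_ne x 0 with h0 | h0
  · subst h0
    unfold LG
    simp
  -- the sequence
  have e1 : ∀ n : ℕ, 1 ≤ n → cexp (-eg * x + ∑ k ∈ Finset.range n,
      (x / ((k:ℂ) + 1) - Complex.log (1 + x / (k + 1)))) =
      x * Complex.GammaSeq x n * cexp (x * (((harmonic n : ℝ) - Real.log n -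
        Real.eulerMascheroniConstant : ℝ) : ℂ)) := by
    intro n hn
    have hprod : cexp (∑ k ∈ Finset.range n, Complex.log (1 + x / ((k:ℂ) + 1))) =
        (∏ k ∈ Finset.range n, (x + (k + 1 : ℕ))) / n.factorial := by
      rw [Complex.exp_sum, ← Finset.prod_range_add_one_eq_factorial]
      push_cast
      rw [← Finset.prod_div_distrib]
      refine Finset.prod_congr rfl fun k _ => ?_
      rw [Complex.exp_log (Complex.slitPlane_ne_zero (slit hx k))]
      have := ne1 k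
      field_simp
      ring
    have hharm : ∑ k ∈ Finset.range n, x / ((k:ℂ) + 1) = x * ((harmonic n : ℝ) : ℂ) := by
      unfold harmonic
      push_cast
      rw [Finset.mul_sum]
      rfl
    have hP : (∏ k ∈ Finset.range n, (x + ((k + 1 : ℕ) : ℂ))) ≠ 0 := by
      refine Finset.prod_ne_zero_iff.2 fun k _ => ?_
      have := ne2 hx k
      push_cast
      intro h
      apply this
      rw [← h]; ring
    have hf : (n.factorial : ℂ) ≠ 0 := by exact_mod_cast n.factorial_ne_zero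
    have hnc : (n : ℂ) ≠ 0 := by exact_mod_cast (by omega : n ≠ 0)
    rw [Finset.sum_sub_distrib, hharm]
    unfold Complex.GammaSeq
    rw [Finset.prod_range_succ', Complex.cpow_def_of_ne_zero hnc, ← Complex.natCast_log]
    rw [show -eg * x + (x * ((harmonic n : ℝ) : ℂ) - ∑ k ∈ Finset.range n,
      Complex.log (1 + x / ((k:ℂ) + 1))) = (-eg * x + x * ((harmonic n : ℝ) : ℂ)) -
      ∑ k ∈ Finset.range n, Complex.log (1 + x / ((k:ℂ) + 1)) by ring, Complex.exp_sub, hprod]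
    simp only [Nat.cast_zero, add_zero]
    have hE : cexp (-eg * x + x * ((harmonic n : ℝ) : ℂ)) = cexp (((Real.log n : ℝ) : ℂ) * x) *
        cexp (x * (((harmonic n : ℝ) - Real.log n - Real.eulerMascheroniConstant : ℝ) : ℂ)) := by
      rw [← Complex.exp_add]
      congr 1
      unfold eg
      push_cast
      ring
    rw [hE]
    field_simp
  have t1 : Tendsto (fun n : ℕ => cexp (-eg * x + ∑ k ∈ Finset.range n,
      (x / ((k:ℂ) + 1) - Complex.log (1 + x / (k + 1))))) atTop (𝓝 (cexp (LG x))) := by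
    unfold LG
    exact (Complex.continuous_exp.tendsto _).comp (ht.const_add _)
  have t2 : Tendsto (fun n : ℕ => x * Complex.GammaSeq x n * cexp (x * (((harmonic n : ℝ) -
      Real.log n - Real.eulerMascheroniConstant : ℝ) : ℂ))) atTop
      (𝓝 (x * Complex.Gamma x * cexp (x * ((0 : ℝ) : ℂ)))) := by
    refine ((Complex.GammaSeq_tendsto_Gamma x).const_mul x).mul
      ((Complex.continuous_exp.tendsto _).comp ?_)
    refine Tendsto.const_mul x ((Complex.continuous_ofReal.tendsto _).comp ?_)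
    have := Real.tendsto_harmonic_sub_log.sub_const Real.eulerMascheroniConstant
    rwa [sub_self] at this
  have t3 := t1.congr' ((eventually_ge_atTop 1).mono fun n hn => e1 n hn)
  have h4 := tendsto_nhds_unique t3 t2
  rw [h4, add_comm, Complex.Gamma_add_one x h0]
  simp

/-- recursion -/
lemma ps_succ {x : ℂ} (hx : -1 < x.re) : ps (x + 1) = ps x + 1 / (1 + x) := by
  have hx1 : -1 < (x + 1).re := by simp; linarith
  have hne : 1 + x ≠ 0 := by
    have := ne2 hx 0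
    simpa using this
  have h1 : HasDerivAt (fun y => cexp (LG (y + 1))) (cexp (LG (x + 1)) * ps (x + 1)) x := by
    have h := (hasDerivAt_LG hx1).comp_add_const x 1
    exact h.cexp
  have h2 : HasDerivAt (fun y => (1 + y) * cexp (LG y))
      (1 * cexp (LG x) + (1 + x) * (cexp (LG x) * ps x)) x := by
    exact ((hasDerivAt_id x).const_add 1).mul (hasDerivAt_LG hx).cexp
  have h3 : (fun y => cexp (LG (y + 1))) =ᶠ[𝓝 x] fun y => (1 + y) * cexp (LG y) := by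
    have ho : IsOpen {y : ℂ | -1 < y.re} := isOpen_lt continuous_const Complex.continuous_re
    filter_upwards [ho.mem_nhds hx] with y hy
    have hy1 : -1 < (y + 1).re := by
      have : -1 < y.re := hy
      simp; linarith
    have hyne : 1 + y ≠ 0 := by
      have := ne2 hy 0
      simpa using this
    rw [exp_LG hy, exp_LG hy1, show 1 + (y + 1) = (1 + y) + 1 by ring, Complex.Gamma_add_one _ hyne]
  have h4 := h1.unique (h2.congr_of_eventuallyEq h3)
  have h5 : cexp (LG (x + 1)) = (1 + x) * cexp (LG x) := h3.self_of_nhds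
  rw [h5] at h4
  have h6 := Complex.exp_ne_zero (LG x)
  have h7 : (1 + x) * cexp (LG x) ≠ 0 := mul_ne_zero hne h6
  have h8 : ((1 + x) * cexp (LG x)) * ps (x + 1) = ((1 + x) * cexp (LG x)) * (ps x + 1 / (1 + x)) := by
    rw [h4]
    field_simp
    ring
  exact mul_left_cancel₀ h7 h8

lemma ps_nat (n : ℕ) : ps n = ((harmonic n : ℝ) : ℂ) - eg := by
  induction n with
  | zero =>
    unfold ps
    simp
  | succ n ih =>
    have h := ps_succ (x := n) (by simp; have : (0:ℝ) ≤ n := Nat.cast_nonneg n; linarith)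
    push_cast
    rw [h, ih, harmonic_succ]
    push_cast
    ring

lemma ps_summable {x : ℂ} (hx : -1 < x.re) :
    Summable fun k : ℕ => x / (((k:ℂ) + 1) * (k + 1 + x)) := by
  obtain ⟨δ, R, h1, h2, h3⟩ := mem_UR hx
  refine Summable.of_norm_bounded (g := fun k : ℕ => R ^ 1 / δ * (1 / ((k:ℝ) + 1) ^ 2))
    (summable_sq.mul_left _) fun k => ?_
  have := dom1 h1 h2 k h3 1
  rwa [pow_one] at this

/-- uniform asymptotics of the digamma function -/
theorem ps_asymp (D : ℝ) (hD : 0 ≤ D) {ξ : ℝ} (hξ : 0 < ξ) : ∃ n0 : ℕ, ∀ n : ℕ, n0 ≤ n → ∀ z : ℂ,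
    ‖z‖ ≤ D → ‖ps (n + z) - ((Real.log n : ℝ) : ℂ)‖ ≤ ξ := by
  have h1 : ∀ᶠ n : ℕ in atTop, ‖ps n - ((Real.log n : ℝ) : ℂ)‖ ≤ ξ / 2 := by
    have h2 : Tendsto (fun n : ℕ => (harmonic n : ℝ) - Real.log n - Real.eulerMascheroniConstant)
        atTop (𝓝 0) := by
      have := Real.tendsto_harmonic_sub_log.sub_const Real.eulerMascheroniConstant
      rwa [sub_self] at this
    have h3 := (tendsto_iff_norm_sub_tendsto_zero.1 h2).eventually_le_const
      (show (0:ℝ) < ξ / 2 by positivity)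
    filter_upwards [h3] with n hn
    rw [ps_nat]
    unfold eg
    rw [sub_zero] at hn
    have e : ((harmonic n : ℝ) : ℂ) - ((Real.eulerMascheroniConstant : ℝ) : ℂ) -
        ((Real.log n : ℝ) : ℂ) =
        (((harmonic n : ℝ) - Real.log n - Real.eulerMascheroniConstant : ℝ) : ℂ) := by
      push_cast; ring
    rw [e, Complex.norm_real]
    exact hn
  obtain ⟨n1, hn1⟩ := eventually_atTop.1 h1
  have h4 : Tendsto (fun i : ℕ => ∑' k : ℕ, (1:ℝ) / (((k + i : ℕ) : ℝ) + 1) ^ 2) atTop (𝓝 0) :=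
    tendsto_sum_nat_add (fun k : ℕ => (1:ℝ) / ((k:ℝ) + 1) ^ 2)
  have h5 : ∀ᶠ i : ℕ in atTop, ∑' k : ℕ, (1:ℝ) / (((k + i : ℕ) : ℝ) + 1) ^ 2 ≤ ξ / (4 * (D + 1)) :=
    h4.eventually_le_const (by positivity)
  obtain ⟨n2, hn2⟩ := eventually_atTop.1 h5
  obtain ⟨n3, hn3⟩ := exists_nat_ge (2 * D)
  refine ⟨max n1 (max n2 n3), fun n hn z hz => ?_⟩
  have g1 := hn1 n ((le_max_left _ _).trans hn)
  have g2 := hn2 n (((le_max_left _ _).trans (le_max_right _ _)).trans hn)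
  have g3 : 2 * D ≤ n := hn3.trans (by
    exact_mod_cast ((le_max_right _ _).trans (le_max_right _ _)).trans hn)
  have hn0 : (0:ℝ) ≤ n := Nat.cast_nonneg n
  have hzre := (abs_le.1 ((Complex.abs_re_le_norm z).trans hz)).1
  have hr1 : -1 < ((n:ℂ) + z).re := by simp; linarith
  have hr2 : -1 < (n:ℂ).re := by simp; linarith
  have hterm : ∀ k : ℕ, ((n:ℂ) + z) / (((k:ℂ) + 1) * (k + 1 + ((n:ℂ) + z))) -
      (n:ℂ) / (((k:ℂ) + 1) * (k + 1 + n)) = z / ((k + 1 + n) * (k + 1 + (n + z))) := by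
    intro k
    have a1 := ne1 k
    have a2 := ne2 hr1 k
    have a3 := ne2 hr2 k
    field_simp
    ring
  have hdiff : ps (n + z) - ps n = ∑' k : ℕ, z / (((k:ℂ) + 1 + n) * (k + 1 + (n + z))) := by
    unfold ps
    rw [add_sub_add_left_eq_sub, ← (ps_summable hr1).tsum_sub (ps_summable hr2)]
    exact tsum_congr hterm
  have hb : ∀ k : ℕ, ‖z / (((k:ℂ) + 1 + n) * (k + 1 + (n + z)))‖ ≤
      2 * D * (1 / (((k + n : ℕ) : ℝ) + 1) ^ 2) := by
    intro k
    have hk : (0:ℝ) ≤ k := Nat.cast_nonneg k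
    have n1 : ‖(k:ℂ) + 1 + n‖ = k + n + 1 := by
      rw [show ((k:ℂ) + 1 + n) = (((k:ℝ) + n + 1 : ℝ) : ℂ) by push_cast; ring, Complex.norm_real,
        Real.norm_eq_abs, abs_of_nonneg (by positivity)]
    have n2 : ((k:ℝ) + n + 1) / 2 ≤ ‖(k:ℂ) + 1 + (n + z)‖ := by
      have h6 : ((k:ℂ) + 1 + (n + z)).re ≤ ‖(k:ℂ) + 1 + (n + z)‖ := Complex.re_le_norm _
      have h7 : ((k:ℂ) + 1 + (n + z)).re = k + 1 + (n + z.re) := by simp
      linarith
    rw [norm_div, norm_mul, n1]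
    push_cast
    calc ‖z‖ / ((k + n + 1) * ‖(k:ℂ) + 1 + (n + z)‖) ≤
        D / ((k + n + 1) * (((k:ℝ) + n + 1) / 2)) := by gcongr
      _ = _ := by field_simp
  have hsum : Summable fun k : ℕ => 2 * D * (1 / (((k + n : ℕ) : ℝ) + 1) ^ 2) :=
    ((summable_nat_add_iff (f := fun k : ℕ => (1:ℝ) / ((k:ℝ) + 1) ^ 2) n).2 summable_sq).mul_left _
  have h8 : ‖ps (n + z) - ps n‖ ≤ ξ / 2 := by
    rw [hdiff]
    refine (tsum_of_norm_bounded hsum.hasSum hb).trans ?_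
    rw [tsum_mul_left]
    calc 2 * D * ∑' k : ℕ, (1:ℝ) / (((k + n : ℕ) : ℝ) + 1) ^ 2 ≤
        2 * (D + 1) * (ξ / (4 * (D + 1))) := by
          have h9 : 0 ≤ ∑' k : ℕ, (1:ℝ) / (((k + n : ℕ) : ℝ) + 1) ^ 2 :=
            tsum_nonneg fun k => by positivity
          have : 2 * D ≤ 2 * (D + 1) := by linarith
          gcongr
      _ = ξ / 2 := by
          have : D + 1 ≠ 0 := by positivity
          field_simp
          ring
  calc ‖ps (n + z) - ((Real.log n : ℝ) : ℂ)‖ =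
      ‖(ps (n + z) - ps n) + (ps n - ((Real.log n : ℝ) : ℂ))‖ := by congr 1; ring
    _ ≤ ‖ps (n + z) - ps n‖ + ‖ps n - ((Real.log n : ℝ) : ℂ)‖ := norm_add_le _ _
    _ ≤ ξ / 2 + ξ / 2 := by gcongr
    _ = ξ := by ring

end

end Pool.Agent.H972.FH
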