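import Pool.Agent.H972.FH.Ker
import Pool.Agent.H972.FH.Spec

set_option autoImplicit false

open MeasureTheory Complex Filter Topology Set
open scoped ENNReal

namespace Pool.Agent.H972.FH

noncomputable section

/-- the boundary terms -/
def ee (p N : ℂ) (j : ℕ) (y : ℝ) : ℂ := ((j + p) / cj p N j) * bt (j + p) (N - j - p) y

lemma cj_gam {p N : ℂ} {j : ℕ} (h0 : -1 < p.re) (h1 : 0 < (N - j - p).re) :
    cj p N j = Complex.Gamma (j + 1 + p) * Complex.Gamma (N - j - p) / Complex.Gamma (N + 1) ∧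
      cj p N j ≠ 0 := by
  have hu : 0 < (j + 1 + p : ℂ).re := by
    simp only [Complex.add_re, Complex.natCast_re, Complex.one_re]
    have : (0:ℝ) ≤ j := Nat.cast_nonneg j
    linarith
  have h2 := (cj_eq h0 h1).2.1
  rw [(int_bt hu h1).2, show (j + 1 + p + (N - j - p) : ℂ) = N + 1 by ring] at h2
  refine ⟨h2, ?_⟩
  rw [h2]
  have e1 := Complex.Gamma_ne_zero_of_re_pos hu
  have e2 := Complex.Gamma_ne_zero_of_re_pos h1
  have e3 : Complex.Gamma (N + 1) ≠ 0 := by
    refine Complex.Gamma_ne_zero_of_re_pos ?_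
    rw [show (N + 1 : ℂ) = (j + 1 + p) + (N - j - p) by ring, Complex.add_re]
    linarith
  exact div_ne_zero (mul_ne_zero e1 e2) e3

lemma cj_succ {p N : ℂ} {j : ℕ} (h0 : -1 < p.re) (h1 : 0 < (N - (j + 1 : ℕ) - p).re) :
    (j + 1 + p) / cj p N (j + 1) = (N - j - p - 1) / cj p N j := by
  have h1' : 0 < (N - j - p).re := by
    have : (N - j - p).re = (N - (j + 1 : ℕ) - p).re + 1 := by simp; ring
    rw [this]; linarith
  obtain ⟨e1, n1⟩ := cj_gam h0 h1'
  obtain ⟨e2, n2⟩ := cj_gam h0 h1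
  have hu : 0 < (j + 1 + p : ℂ).re := by
    simp only [Complex.add_re, Complex.natCast_re, Complex.one_re]
    have : (0:ℝ) ≤ j := Nat.cast_nonneg j
    linarith
  have hu0 : (j + 1 + p : ℂ) ≠ 0 := by intro h; rw [h] at hu; simp at hu
  have hv0 : (N - (j + 1 : ℕ) - p : ℂ) ≠ 0 := by intro h; rw [h] at h1; simp at h1
  have hv1 : (N - j - p - 1 : ℂ) = N - (j + 1 : ℕ) - p := by push_cast; ring
  have g1 : Complex.Gamma (((j + 1 : ℕ) : ℂ) + 1 + p) = (j + 1 + p) * Complex.Gamma (j + 1 + p) := by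
    rw [show (((j + 1 : ℕ) : ℂ) + 1 + p) = (j + 1 + p) + 1 by push_cast; ring,
      Complex.Gamma_add_one _ hu0]
  have g2 : Complex.Gamma (N - j - p) = (N - (j + 1 : ℕ) - p) * Complex.Gamma (N - (j + 1 : ℕ) - p) := by
    rw [show (N - j - p : ℂ) = (N - (j + 1 : ℕ) - p) + 1 by push_cast; ring,
      Complex.Gamma_add_one _ hv0]
  have g3 : Complex.Gamma (N + 1) ≠ 0 := by
    refine Complex.Gamma_ne_zero_of_re_pos ?_
    rw [show (N + 1 : ℂ) = (j + 1 + p) + (N - j - p) by ring, Complex.add_re]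
    linarith
  have g4 := Complex.Gamma_ne_zero_of_re_pos hu
  have g5 := Complex.Gamma_ne_zero_of_re_pos h1
  rw [e1, e2, g1, g2, hv1]
  field_simp

lemma hasDerivAt_bt (u v : ℂ) {y : ℝ} (h0 : 0 < y) (h1 : y < 1) :
    HasDerivAt (bt u v) ((u - 1) * bt (u - 1) v y - (v - 1) * bt u (v - 1) y) y := by
  have e1 : HasDerivAt (fun y : ℝ => ((Real.log y : ℝ) : ℂ)) ((y⁻¹ : ℝ) : ℂ) y :=
    (Real.hasDerivAt_log h0.ne').ofReal_comp
  have e2 : HasDerivAt (fun y : ℝ => ((Real.log (1 - y) : ℝ) : ℂ)) ((-(1 - y)⁻¹ : ℝ) : ℂ) y := by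
    have h2 : HasDerivAt (fun y : ℝ => 1 - y) (-1) y := by
      simpa using (hasDerivAt_id y).const_sub 1
    have h3 := (Real.hasDerivAt_log (show (1 - y) ≠ 0 by linarith)).comp y h2
    have h4 : (1 - y)⁻¹ * -1 = -(1 - y)⁻¹ := by ring
    rw [h4] at h3
    exact h3.ofReal_comp
  have e3 := ((e1.const_mul (u - 1)).add (e2.const_mul (v - 1))).cexp
  refine e3.congr_deriv ?_
  have f1 : bt (u - 1) v y = bt u v y * ((y⁻¹ : ℝ) : ℂ) := by
    unfold bt
    rw [show ((y⁻¹ : ℝ) : ℂ) = cexp (-((Real.log y : ℝ) : ℂ)) by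
      rw [← Complex.ofReal_neg, ← Complex.ofReal_exp, Real.exp_neg, Real.exp_log h0],
      ← Complex.exp_add]
    congr 1; ring
  have f2 : bt u (v - 1) y = bt u v y * (((1 - y)⁻¹ : ℝ) : ℂ) := by
    unfold bt
    rw [show (((1 - y)⁻¹ : ℝ) : ℂ) = cexp (-((Real.log (1 - y) : ℝ) : ℂ)) by
      rw [← Complex.ofReal_neg, ← Complex.ofReal_exp, Real.exp_neg, Real.exp_log (by linarith)],
      ← Complex.exp_add]
    congr 1; ring
  rw [f1, f2]
  unfold bt
  simp only [Pi.add_apply]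
  push_cast
  ring

lemma rl_bt {p N : ℂ} {J : ℕ} {y : ℝ} (h0 : 0 < y) (h1 : y < 1) :
    rl p N J y = ∑ j ∈ Finset.range J, bt (j + 1 + p) (N - j - p) y / cj p N j := by
  unfold rl
  refine Finset.sum_congr rfl fun j _ => ?_
  congr 1
  unfold bt
  have e : (((y / (1 - y)) ^ j : ℝ) : ℂ) =
      cexp (j * (((Real.log y : ℝ) : ℂ) - ((Real.log (1 - y) : ℝ) : ℂ))) := by
    rw [Complex.exp_nat_mul, Complex.exp_sub, ← Complex.ofReal_exp, ← Complex.ofReal_exp,
      Real.exp_log h0, Real.exp_log (by linarith)]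
    push_cast; rfl
  rw [e, ← Complex.exp_add]
  congr 1; ring

lemma hasDerivAt_rl {p N : ℂ} {J : ℕ} (hp : -1 < p.re) (hJ : 0 < (N - J - p).re) {y : ℝ}
    (h0 : 0 < y) (h1 : y < 1) : HasDerivAt (rl p N J) (ee p N 0 y - ee p N J y) y := by
  have hev : (rl p N J) =ᶠ[𝓝 y] fun y => ∑ j ∈ Finset.range J,
      bt (j + 1 + p) (N - j - p) y / cj p N j := by
    filter_upwards [Ioo_mem_nhds h0 h1] with z hz
    exact rl_bt hz.1 hz.2
  have hd : HasDerivAt (fun y => ∑ j ∈ Finset.range J,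
      bt (j + 1 + p) (N - j - p) y / cj p N j) (∑ j ∈ Finset.range J,
      (((j + 1 + p : ℂ) - 1) * bt ((j + 1 + p : ℂ) - 1) (N - j - p) y -
        ((N - j - p : ℂ) - 1) * bt (j + 1 + p) ((N - j - p : ℂ) - 1) y) / cj p N j) y := by
    refine HasDerivAt.fun_sum fun j _ => ?_
    exact (hasDerivAt_bt _ _ h0 h1).div_const _
  refine (hd.congr_of_eventuallyEq hev).congr_deriv ?_
  have hterm : ∀ j ∈ Finset.range J, (((j + 1 + p : ℂ) - 1) * bt ((j + 1 + p : ℂ) - 1) (N - j - p) y -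
        ((N - j - p : ℂ) - 1) * bt (j + 1 + p) ((N - j - p : ℂ) - 1) y) / cj p N j =
      ee p N j y - ee p N (j + 1) y := by
    intro j hj
    have hj' := Finset.mem_range.1 hj
    have h2 : 0 < (N - (j + 1 : ℕ) - p).re := by
      have h3 : ((j + 1 : ℕ) : ℝ) ≤ J := by exact_mod_cast hj'
      have h4 : (N - J - p).re = N.re - J - p.re := by simp
      have h5 : (N - (j + 1 : ℕ) - p).re = N.re - (j + 1 : ℕ) - p.re := by
        rw [Complex.sub_re, Complex.sub_re, Complex.natCast_re]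
      rw [h5]
      rw [h4] at hJ
      linarith
    unfold ee
    have e0 := cj_succ hp h2
    have e1 : ((((j + 1 : ℕ) : ℂ) + p) / cj p N (j + 1)) = (N - j - p - 1) / cj p N j := by
      rw [← e0]; push_cast; ring
    have e2 : (((j + 1 : ℕ) : ℂ) + p) = j + 1 + p := by push_cast; ring
    have e3 : (N - ((j + 1 : ℕ) : ℂ) - p) = N - j - p - 1 := by push_cast; ring
    have e4 : (j + 1 + p : ℂ) - 1 = j + p := by ring
    rw [e1, e2, e3, e4]
    ring
  rw [Finset.sum_congr rfl hterm, Finset.sum_range_sub']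

lemma log_lt_tendsto : Tendsto (fun y : ℝ => Real.log (1 - y)) (𝓝[<] 1) atBot := by
  have h1 : Tendsto (fun y : ℝ => 1 - y) (𝓝[<] 1) (𝓝[>] 0) := by
    refine tendsto_nhdsWithin_iff.2 ⟨?_, ?_⟩
    · have : Tendsto (fun y : ℝ => 1 - y) (𝓝 1) (𝓝 (1 - 1)) := (continuous_const.sub continuous_id).tendsto _
      rw [sub_self] at this
      exact this.mono_left nhdsWithin_le_nhds
    · filter_upwards [self_mem_nhdsWithin] with y hy
      have : y < 1 := hy
      simpa using this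
  exact Real.tendsto_log_nhdsGT_zero.comp h1

lemma rl_lim {p N : ℂ} {J : ℕ} (hJ : 0 < (N - J - p).re) :
    Tendsto (rl p N J) (𝓝[<] 1) (𝓝 0) := by
  have hev : (fun y => ∑ j ∈ Finset.range J, bt (j + 1 + p) (N - j - p) y / cj p N j)
      =ᶠ[𝓝[<] 1] rl p N J := by
    filter_upwards [Ioo_mem_nhdsLT (show (0:ℝ) < 1 by norm_num)] with z hz
    exact (rl_bt hz.1 hz.2).symm
  refine Tendsto.congr' hev ?_
  rw [show (0:ℂ) = ∑ j ∈ Finset.range J, 0 / cj p N j by simp]
  refine tendsto_finsetSum _ fun j hj => Tendsto.div_const ?_ _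
  have hj' := Finset.mem_range.1 hj
  have hv : 0 < (N - j - p).re - 1 := by
    have h3 : ((j + 1 : ℕ) : ℝ) ≤ J := by exact_mod_cast hj'
    have h4 : (N - J - p).re = N.re - J - p.re := by simp
    have h5 : (N - j - p).re = N.re - j - p.re := by simp
    rw [h5]
    rw [h4] at hJ
    push_cast at h3
    linarith
  rw [tendsto_zero_iff_norm_tendsto_zero]
  simp_rw [norm_bt, Real.exp_add]
  have t1 : Tendsto (fun y : ℝ => Real.exp (((j + 1 + p : ℂ).re - 1) * Real.log y)) (𝓝[<] 1)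
      (𝓝 (Real.exp (((j + 1 + p : ℂ).re - 1) * Real.log 1))) := by
    refine Tendsto.mono_left ?_ nhdsWithin_le_nhds
    exact (Real.continuous_exp.tendsto _).comp
      (Tendsto.const_mul _ (Real.continuousAt_log one_ne_zero).tendsto)
  have t2 : Tendsto (fun y : ℝ => Real.exp (((N - j - p : ℂ).re - 1) * Real.log (1 - y))) (𝓝[<] 1)
      (𝓝 0) := Real.tendsto_exp_atBot.comp (log_lt_tendsto.const_mul_atBot hv)
  have := t1.mul t2
  rwa [mul_zero] at this

/-- total mass of the last boundary term -/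
lemma ee_mass {p N : ℂ} {J : ℕ} (hp : -1 < p.re) (h1 : 1 ≤ J) (hJ : 0 < (N - J - p).re) :
    IntegrableOn (ee p N J) (Ioo 0 1) ∧ ∫ y in Ioo 0 1, ee p N J y = N := by
  have hJr : (1:ℝ) ≤ J := by exact_mod_cast h1
  have hu : 0 < ((J:ℂ) + p).re := by simp; linarith
  have hu1 : 0 < ((J:ℂ) + 1 + p).re := by simp; linarith
  obtain ⟨e1, n1⟩ := cj_gam hp hJ
  obtain ⟨i1, i2⟩ := int_bt hu hJ
  refine ⟨i1.const_mul _, ?_⟩
  unfold ee
  rw [integral_const_mul, i2, e1]
  have hu0 : ((J:ℂ) + p) ≠ 0 := by intro h; rw [h] at hu; simp at hu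
  have hN : 0 < N.re := by
    have : (N - J - p).re + ((J:ℂ) + p).re = N.re := by simp
    linarith
  have hN0 : N ≠ 0 := by intro h; rw [h] at hN; simp at hN
  have g1 := Complex.Gamma_ne_zero_of_re_pos hu
  have g2 := Complex.Gamma_ne_zero_of_re_pos hJ
  have g3 := Complex.Gamma_ne_zero_of_re_pos hN
  have g4 : Complex.Gamma (J + 1 + p) = (J + p) * Complex.Gamma (J + p) := by
    rw [show (J + 1 + p : ℂ) = (J + p) + 1 by ring, Complex.Gamma_add_one _ hu0]
  rw [show ((J:ℂ) + p + (N - J - p)) = N by ring, g4, Complex.Gamma_add_one _ hN0]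
  field_simp

/-- `(1 + |log y|) y^α → 0` -/
lemma lim_log {α : ℝ} (hα : 0 < α) :
    Tendsto (fun y : ℝ => (1 + |Real.log y|) * Real.exp (α * Real.log y)) (𝓝[>] 0) (𝓝 0) := by
  have t2 : Tendsto (fun y : ℝ => (1 + 2 / α) * Real.exp (α / 2 * Real.log y)) (𝓝[>] 0)
      (𝓝 ((1 + 2 / α) * 0)) := Tendsto.const_mul _ (Real.tendsto_exp_atBot.comp
        (Real.tendsto_log_nhdsGT_zero.const_mul_atBot (by positivity)))
  rw [mul_zero] at t2
  refine squeeze_zero' (Eventually.of_forall fun y => by positivity) ?_ t2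
  filter_upwards [Ioo_mem_nhdsGT (show (0:ℝ) < 1 by norm_num)] with y hy
  have hL : Real.log y ≤ 0 := Real.log_nonpos hy.1.le hy.2.le
  have h2 := neg_log_le (θ := α / 2) (L := Real.log y) (by positivity)
  have h4 : 1 ≤ Real.exp (-(α / 2) * Real.log y) := by
    rw [← Real.exp_zero]
    refine Real.exp_le_exp.2 ?_
    nlinarith
  have e : 1 / (α / 2) = 2 / α := by field_simp
  rw [e] at h2
  rw [abs_of_nonpos hL]
  have h5 : 1 + -Real.log y ≤ (1 + 2 / α) * Real.exp (-(α / 2) * Real.log y) := by linarith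
  calc (1 + -Real.log y) * Real.exp (α * Real.log y) ≤
      ((1 + 2 / α) * Real.exp (-(α / 2) * Real.log y)) * Real.exp (α * Real.log y) := by gcongr
    _ = _ := by
        rw [mul_assoc, ← Real.exp_add]
        congr 2; ring

/-- integrability of `(1+|log|) |bt|` -/
lemma bt_log_int {p N : ℂ} {j : ℕ} (hp : -1 < p.re) (hN1 : 1 ≤ (N - p).re)
    (h1 : 0 < (N - j - p).re) :
    IntegrableOn (fun y : ℝ => (1 + |Real.log y|) * ‖bt (j + 1 + p) (N - j - p) y‖) (Ioo 0 1) := by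
  set η : ℝ := min 1 (1 + p.re) with hη
  have hη0 : 0 < η := lt_min one_pos (by linarith)
  obtain ⟨C, -, h⟩ := bt_log ‖p‖ |N.re - (0:ℕ)| η 1 (norm_nonneg _) (abs_nonneg _) hη0
    (min_le_left _ _) one_pos
  exact (h 0 p N j le_rfl (by have := min_le_right 1 (1 + p.re); linarith) le_rfl hN1 h1).1

/-- `Φ` times the first boundary term -/
lemma ee0_bound {p N : ℂ} {Φ : ℝ → ℝ} {M y : ℝ} (h0 : 0 < y) 
    (hb : |Φ y| ≤ M * (y * (1 + |Real.log y|))) :
    ‖(Φ y : ℂ) * ee p N 0 y‖ ≤ M * ‖p / cj p N 0‖ *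
      ((1 + |Real.log y|) * ‖bt (((0:ℕ):ℂ) + 1 + p) (N - ((0:ℕ):ℂ) - p) y‖) := by
  unfold ee
  have e : ‖bt (((0:ℕ):ℂ) + 1 + p) (N - ((0:ℕ):ℂ) - p) y‖ =
      y * ‖bt (((0:ℕ):ℂ) + p) (N - ((0:ℕ):ℂ) - p) y‖ := by
    rw [norm_bt, norm_bt]
    nth_rewrite 3 [← Real.exp_log h0]
    rw [← Real.exp_add]
    congr 1
    simp
    ring
  rw [e, norm_mul, norm_mul, Complex.norm_real, Real.norm_eq_abs]
  simp only [Nat.cast_zero, zero_add]
  calc |Φ y| * (‖p / cj p N 0‖ * ‖bt p (N - 0 - p) y‖) ≤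
      (M * (y * (1 + |Real.log y|))) * (‖p / cj p N 0‖ * ‖bt p (N - 0 - p) y‖) := by gcongr
    _ = _ := by ring

lemma measurable_ee (p N : ℂ) (j : ℕ) : Measurable (ee p N j) := by
  unfold ee
  exact (measurable_bt _ _).const_mul _

/-- the first boundary term away from zero -/
lemma ee0_int {p N : ℂ} (hp : -1 < p.re) (h1 : 0 < (N - p).re) {y1 : ℝ} (hy0 : 0 < y1)  :
    IntegrableOn (ee p N 0) (Ioo y1 1) := by
  have hu : 0 < ((0:ℂ) + 1 + p).re := by simp; linarith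
  have h1' : 0 < (N - 0 - p).re := by simpa using h1
  have hi := (int_bt hu h1').1.norm.const_mul (‖p / cj p N 0‖ / y1)
  have hi2 : IntegrableOn (fun y => ‖p / cj p N 0‖ / y1 * ‖bt (0 + 1 + p) (N - 0 - p) y‖)
      (Ioo y1 1) := IntegrableOn.mono_set hi (Ioo_subset_Ioo_left hy0.le)
  refine Integrable.mono' hi2 (measurable_ee p N 0).aestronglyMeasurable ?_
  filter_upwards [ae_restrict_mem measurableSet_Ioo] with y hy
  have hy0' : 0 < y := hy0.trans hy.1
  have e : ‖bt ((0:ℂ) + 1 + p) (N - (0:ℂ) - p) y‖ = y * ‖bt ((0:ℂ) + p) (N - (0:ℂ) - p) y‖ := by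
    rw [norm_bt, norm_bt]
    nth_rewrite 3 [← Real.exp_log hy0']
    rw [← Real.exp_add]
    congr 1
    simp
    ring
  unfold ee
  rw [e, norm_mul]
  simp only [Nat.cast_zero, zero_add]
  have : 1 ≤ y / y1 := by rw [le_div_iff₀ hy0]; linarith [hy.1]
  calc ‖p / cj p N 0‖ * ‖bt p (N - 0 - p) y‖ = ‖p / cj p N 0‖ * (1 * ‖bt p (N - 0 - p) y‖) := by ring
    _ ≤ ‖p / cj p N 0‖ * (y / y1 * ‖bt p (N - 0 - p) y‖) := by gcongr
    _ = _ := by ring

/-- the value of the local density at `y1` -/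
lemma rl_val {p N : ℂ} {J : ℕ} (hp : -1 < p.re) (h1 : 1 ≤ J) (hJ : 0 < (N - J - p).re)
    {y1 : ℝ} (hy0 : 0 < y1) (hy1 : y1 < 1) :
    ‖rl p N J y1 - N‖ ≤ (∫ y in Ioo y1 1, ‖ee p N 0 y‖) + ∫ y in Ioo 0 y1, ‖ee p N J y‖ := by
  have hNp : 0 < (N - p).re := by
    have h2 : (N - J - p).re = N.re - J - p.re := by simp
    have h3 : (N - p).re = N.re - p.re := by simp
    have h4 : (0:ℝ) ≤ J := Nat.cast_nonneg J
    rw [h2] at hJ; rw [h3]; linarith
  obtain ⟨m1, m2⟩ := ee_mass hp h1 hJ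
  have i0 := ee0_int hp hNp hy0
  have iJ : IntegrableOn (ee p N J) (Ioo y1 1) := m1.mono_set (Ioo_subset_Ioo_left hy0.le)
  have iJ' : IntegrableOn (ee p N J) (Ioo 0 y1) := m1.mono_set (Ioo_subset_Ioo_right hy1.le)
  have hsplit : (∫ y in Ioo 0 y1, ee p N J y) + ∫ y in Ioo y1 1, ee p N J y = N := by
    have e1 : ∀ a b : ℝ, a ≤ b → ∫ y in Ioo a b, ee p N J y = ∫ y in a..b, ee p N J y := by
      intro a b hab
      rw [intervalIntegral.integral_of_le hab, integral_Ioc_eq_integral_Ioo]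
    rw [e1 _ _ hy0.le, e1 _ _ hy1.le, intervalIntegral.integral_add_adjacent_intervals, ← e1 _ _
      zero_le_one, m2]
    · rwa [intervalIntegrable_iff_integrableOn_Ioo_of_le hy0.le]
    · rwa [intervalIntegrable_iff_integrableOn_Ioo_of_le hy1.le]
  have hftc : ∫ y in y1..1, (ee p N 0 y - ee p N J y) = 0 - rl p N J y1 := by
    refine intervalIntegral.integral_eq_sub_of_hasDerivAt_of_tendsto hy1
      (fun y hy => hasDerivAt_rl hp hJ (hy0.trans hy.1) hy.2) ?_ ?_ (rl_lim hJ)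
    · rw [intervalIntegrable_iff_integrableOn_Ioo_of_le hy1.le]
      exact i0.sub iJ
    · exact (hasDerivAt_rl hp hJ hy0 hy1).continuousAt.tendsto.mono_left nhdsWithin_le_nhds
  rw [intervalIntegral.integral_of_le hy1.le, integral_Ioc_eq_integral_Ioo,
    integral_sub i0 iJ] at hftc
  have hval : rl p N J y1 - N = -(∫ y in Ioo y1 1, ee p N 0 y) - ∫ y in Ioo 0 y1, ee p N J y := by
    linear_combination hftc + hsplit
  rw [hval]
  refine (norm_sub_le _ _).trans ?_
  rw [norm_neg]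
  exact add_le_add (norm_integral_le_integral_norm _) (norm_integral_le_integral_norm _)

/-- integration by parts against the local density -/
theorem parts {p N : ℂ} {J : ℕ} (hp : -1 < p.re) (h1 : 1 ≤ J) (hJ : 0 < (N - J - p).re)
    (hN1 : 1 ≤ (N - p).re) {y1 M : ℝ} (hy0 : 0 < y1) (hy1 : y1 < 1) (hM : 0 ≤ M) {φ Φ : ℝ → ℝ}
    (hφm : Measurable φ) (hΦm : Measurable Φ) (hd : ∀ y ∈ Ioo (0:ℝ) 1, HasDerivAt Φ (φ y) y)
    (hb1 : ∀ y ∈ Ioo (0:ℝ) 1, |Φ y| ≤ M * (y * (1 + |Real.log y|)))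
    (hb2 : ∀ y ∈ Ioo (0:ℝ) 1, |Φ y| ≤ M) (hb3 : ∀ y ∈ Ioo 0 y1, |φ y| ≤ M * (1 + |Real.log y|)) :
    IntegrableOn (fun y => (φ y : ℂ) * (rl p N J y - N)) (Ioo 0 y1) ∧
    IntegrableOn (fun y => (Φ y : ℂ) * ee p N 0 y) (Ioo 0 1) ∧
    ‖(∫ y in Ioo 0 y1, (φ y : ℂ) * (rl p N J y - N)) + ∫ y in Ioo 0 1, (Φ y : ℂ) * ee p N 0 y‖ ≤
      2 * M * ((∫ y in Ioo y1 1, ‖ee p N 0 y‖) + ∫ y in Ioo 0 y1, ‖ee p N J y‖) := by
  have hfac : ∀ j < J, 0 < (N - j - p).re := by
    intro j hj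
    have h3 : (j : ℝ) ≤ J := by exact_mod_cast hj.le
    have h4 : (N - J - p).re = N.re - J - p.re := by simp
    have h5 : (N - j - p).re = N.re - j - p.re := by simp
    rw [h5]
    rw [h4] at hJ
    linarith
  have h0J : 0 < (N - ((0:ℕ):ℂ) - p).re := hfac 0 (by omega)
  have hNp : 0 < (N - p).re := by linarith
  have hφc : Measurable fun y => (φ y : ℂ) := Complex.measurable_ofReal.comp hφm
  have hΦc : Measurable fun y => (Φ y : ℂ) := Complex.measurable_ofReal.comp hΦm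
  obtain ⟨m1, -⟩ := ee_mass hp h1 hJ
  have i0 := ee0_int hp hNp hy0
  have iJ' : IntegrableOn (ee p N J) (Ioo 0 y1) := m1.mono_set (Ioo_subset_Ioo_right hy1.le)
  -- integrability
  have I1 : IntegrableOn (fun y => (φ y : ℂ) * (rl p N J y - N)) (Ioo 0 y1) := by
    have hb : IntegrableOn (fun y : ℝ => M * (∑ j ∈ Finset.range J, ‖cj p N j‖⁻¹ *
        ((1 + |Real.log y|) * ‖bt (j + 1 + p) (N - j - p) y‖) +
        ‖N‖ * ((1 + |Real.log y|) * Real.exp (0 * Real.log y)))) (Ioo 0 1) := by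
      refine Integrable.const_mul (Integrable.add (integrable_finsetSum _ fun j hj => ?_) ?_) _
      · exact (bt_log_int hp hN1 (hfac j (Finset.mem_range.1 hj))).const_mul _
      · exact (one_add_log_int (η := 1) (s := 0) one_pos (by norm_num)).1.const_mul _
    refine Integrable.mono' (IntegrableOn.mono_set hb (Ioo_subset_Ioo_right hy1.le))
      (hφc.mul ((measurable_rl p N J).sub_const _)).aestronglyMeasurable ?_
    filter_upwards [ae_restrict_mem measurableSet_Ioo] with y hy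
    rw [norm_mul, Complex.norm_real, Real.norm_eq_abs, rl_bt hy.1 (hy.2.trans hy1)]
    have e1 : ‖∑ j ∈ Finset.range J, bt (j + 1 + p) (N - j - p) y / cj p N j - N‖ ≤
        ∑ j ∈ Finset.range J, ‖cj p N j‖⁻¹ * ‖bt (j + 1 + p) (N - j - p) y‖ + ‖N‖ := by
      refine (norm_sub_le _ _).trans (add_le_add ((norm_sum_le _ _).trans ?_) le_rfl)
      refine Finset.sum_le_sum fun j _ => ?_
      rw [norm_div, div_eq_inv_mul]
    calc |φ y| * ‖∑ j ∈ Finset.range J, bt (j + 1 + p) (N - j - p) y / cj p N j - N‖ ≤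
        (M * (1 + |Real.log y|)) *
        (∑ j ∈ Finset.range J, ‖cj p N j‖⁻¹ * ‖bt (j + 1 + p) (N - j - p) y‖ + ‖N‖) := by
          have := hb3 y hy
          gcongr
      _ = _ := by
          rw [zero_mul, Real.exp_zero, mul_one, mul_assoc, mul_add, Finset.mul_sum]
          congr 2
          · refine Finset.sum_congr rfl fun j _ => ?_
            ring
          · ring
  have I2 : IntegrableOn (fun y => (Φ y : ℂ) * ee p N 0 y) (Ioo 0 1) := by
    refine Integrable.mono' ((bt_log_int (j := 0) hp hN1 h0J).const_mul (M * ‖p / cj p N 0‖))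
      (hΦc.mul (measurable_ee p N 0)).aestronglyMeasurable ?_
    filter_upwards [ae_restrict_mem measurableSet_Ioo] with y hy
    exact ee0_bound hy.1 (hb1 y hy)
  have I3 : IntegrableOn (fun y => (Φ y : ℂ) * ee p N J y) (Ioo 0 y1) := by
    refine Integrable.mono' (iJ'.norm.const_mul M)
      (hΦc.mul (measurable_ee p N J)).aestronglyMeasurable ?_
    filter_upwards [ae_restrict_mem measurableSet_Ioo] with y hy
    rw [norm_mul, Complex.norm_real, Real.norm_eq_abs]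
    have := hb2 y ⟨hy.1, hy.2.trans hy1⟩
    gcongr
  have I2a : IntegrableOn (fun y => (Φ y : ℂ) * ee p N 0 y) (Ioo 0 y1) :=
    I2.mono_set (Ioo_subset_Ioo_right hy1.le)
  have I2b : IntegrableOn (fun y => (Φ y : ℂ) * ee p N 0 y) (Ioo y1 1) :=
    I2.mono_set (Ioo_subset_Ioo_left hy0.le)
  refine ⟨I1, I2, ?_⟩
  set T := (∫ y in Ioo y1 1, ‖ee p N 0 y‖) + ∫ y in Ioo 0 y1, ‖ee p N J y‖ with hT
  have hval := rl_val hp h1 hJ hy0 hy1
  -- FTC
  have hftc : ∫ y in (0:ℝ)..y1, ((φ y : ℂ) * (rl p N J y - N) +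
      (Φ y : ℂ) * (ee p N 0 y - ee p N J y)) = (Φ y1 : ℂ) * (rl p N J y1 - N) - 0 := by
    refine intervalIntegral.integral_eq_sub_of_hasDerivAt_of_tendsto (f := fun y =>
      (Φ y : ℂ) * (rl p N J y - N)) hy0 (fun y hy => ?_) ?_ ?_ ?_
    · exact (hd y ⟨hy.1, hy.2.trans hy1⟩).ofReal_comp.mul
        ((hasDerivAt_rl hp hJ hy.1 (hy.2.trans hy1)).sub_const N)
    · rw [intervalIntegrable_iff_integrableOn_Ioo_of_le hy0.le]
      have : IntegrableOn (fun y => (φ y : ℂ) * (rl p N J y - N) +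
          ((Φ y : ℂ) * ee p N 0 y - (Φ y : ℂ) * ee p N J y)) (Ioo 0 y1) := I1.add (I2a.sub I3)
      refine this.congr (Eventually.of_forall fun y => ?_)
      simp only
      ring
    · -- the limit at zero
      have hmaj : Tendsto (fun y : ℝ => M * (∑ j ∈ Finset.range J, ‖cj p N j‖⁻¹ *
          (((1 + |Real.log y|) * Real.exp ((1 + p.re) * Real.log y)) *
            Real.exp (((N - j - p : ℂ).re - 1) * Real.log (1 - y))) +
          ‖N‖ * ((1 + |Real.log y|) * Real.exp (1 * Real.log y)))) (𝓝[>] 0)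
          (𝓝 (M * (∑ j ∈ Finset.range J, ‖cj p N j‖⁻¹ *
          (0 * Real.exp (((N - j - p : ℂ).re - 1) * Real.log (1 - 0))) + ‖N‖ * 0))) := by
        refine Tendsto.const_mul _ (Tendsto.add (tendsto_finsetSum _ fun j _ => ?_) ?_)
        · refine Tendsto.const_mul _ ((lim_log (by linarith)).mul ?_)
          refine Tendsto.mono_left ?_ nhdsWithin_le_nhds
          have hc : ContinuousAt (fun y : ℝ => Real.log (1 - y)) 0 := by
            refine ContinuousAt.log (by fun_prop) (by norm_num)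
          exact (Real.continuous_exp.tendsto _).comp (Tendsto.const_mul _ hc.tendsto)
        · exact Tendsto.const_mul _ (lim_log one_pos)
      have hz : M * (∑ j ∈ Finset.range J, ‖cj p N j‖⁻¹ *
          (0 * Real.exp (((N - j - p : ℂ).re - 1) * Real.log (1 - 0))) + ‖N‖ * 0) = 0 := by
        simp
      rw [hz] at hmaj
      rw [tendsto_zero_iff_norm_tendsto_zero]
      refine squeeze_zero' (Eventually.of_forall fun y => norm_nonneg _) ?_ hmaj
      filter_upwards [Ioo_mem_nhdsGT (show (0:ℝ) < 1 by norm_num)] with y hy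
      rw [norm_mul, Complex.norm_real, Real.norm_eq_abs, rl_bt hy.1 hy.2]
      have e1 : ‖∑ j ∈ Finset.range J, bt (j + 1 + p) (N - j - p) y / cj p N j - N‖ ≤
          ∑ j ∈ Finset.range J, ‖cj p N j‖⁻¹ * (Real.exp (p.re * Real.log y) *
            Real.exp (((N - j - p : ℂ).re - 1) * Real.log (1 - y))) + ‖N‖ := by
        refine (norm_sub_le _ _).trans (add_le_add ((norm_sum_le _ _).trans ?_) le_rfl)
        refine Finset.sum_le_sum fun j _ => ?_
        rw [norm_div, div_eq_inv_mul, norm_bt, Real.exp_add]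
        have hjr : (0:ℝ) ≤ j := Nat.cast_nonneg j
        have hL : Real.log y ≤ 0 := Real.log_nonpos hy.1.le hy.2.le
        have e2 : ((j:ℂ) + 1 + p).re - 1 = j + p.re := by simp; ring
        have e3 : Real.exp ((((j:ℂ) + 1 + p).re - 1) * Real.log y) ≤
            Real.exp (p.re * Real.log y) := by
          rw [e2]
          refine Real.exp_le_exp.2 ?_
          nlinarith
        gcongr
      calc |Φ y| * ‖∑ j ∈ Finset.range J, bt (j + 1 + p) (N - j - p) y / cj p N j - N‖ ≤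
          (M * (y * (1 + |Real.log y|))) * (∑ j ∈ Finset.range J, ‖cj p N j‖⁻¹ *
            (Real.exp (p.re * Real.log y) *
            Real.exp (((N - j - p : ℂ).re - 1) * Real.log (1 - y))) + ‖N‖) := by
            have := hb1 y hy
            have := hy.1
            gcongr
        _ = _ := by
            have hy' : Real.exp (1 * Real.log y) = y := by rw [one_mul, Real.exp_log hy.1]
            have hy'' : Real.exp ((1 + p.re) * Real.log y) = y * Real.exp (p.re * Real.log y) := by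
              rw [add_mul, Real.exp_add, hy']
            rw [hy', hy'', mul_assoc, mul_add, Finset.mul_sum]
            congr 2
            · refine Finset.sum_congr rfl fun j _ => ?_
              ring
            · ring
    · have hc1 := ((hd y1 ⟨hy0, hy1⟩).ofReal_comp.mul
        ((hasDerivAt_rl hp hJ hy0 hy1).sub_const N)).continuousAt.tendsto
      exact hc1.mono_left nhdsWithin_le_nhds
  rw [intervalIntegral.integral_of_le hy0.le, integral_Ioc_eq_integral_Ioo] at hftc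
  have hadd : ∫ y in Ioo 0 y1, ((φ y : ℂ) * (rl p N J y - N) +
      (Φ y : ℂ) * (ee p N 0 y - ee p N J y)) = (∫ y in Ioo 0 y1, (φ y : ℂ) * (rl p N J y - N)) +
      ((∫ y in Ioo 0 y1, (Φ y : ℂ) * ee p N 0 y) - ∫ y in Ioo 0 y1, (Φ y : ℂ) * ee p N J y) := by
    have I23 : IntegrableOn (fun y => (Φ y : ℂ) * ee p N 0 y - (Φ y : ℂ) * ee p N J y)
        (Ioo 0 y1) := I2a.sub I3
    rw [← integral_sub I2a I3, ← integral_add I1 I23]
    refine integral_congr_ae (Eventually.of_forall fun y => ?_)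
    simp only
    ring
  rw [hadd] at hftc
  have hsplit : ∫ y in Ioo 0 1, (Φ y : ℂ) * ee p N 0 y = (∫ y in Ioo 0 y1, (Φ y : ℂ) * ee p N 0 y) +
      ∫ y in Ioo y1 1, (Φ y : ℂ) * ee p N 0 y := by
    have e1 : ∀ a b : ℝ, a ≤ b → ∫ y in Ioo a b, (Φ y : ℂ) * ee p N 0 y =
        ∫ y in a..b, (Φ y : ℂ) * ee p N 0 y := by
      intro a b hab
      rw [intervalIntegral.integral_of_le hab, integral_Ioc_eq_integral_Ioo]
    rw [e1 _ _ hy0.le, e1 _ _ hy1.le, e1 _ _ zero_le_one,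
      intervalIntegral.integral_add_adjacent_intervals]
    · rwa [intervalIntegrable_iff_integrableOn_Ioo_of_le hy0.le]
    · rwa [intervalIntegrable_iff_integrableOn_Ioo_of_le hy1.le]
  have hfin : (∫ y in Ioo 0 y1, (φ y : ℂ) * (rl p N J y - N)) +
      ∫ y in Ioo 0 1, (Φ y : ℂ) * ee p N 0 y = (Φ y1 : ℂ) * (rl p N J y1 - N) +
      (∫ y in Ioo y1 1, (Φ y : ℂ) * ee p N 0 y) + ∫ y in Ioo 0 y1, (Φ y : ℂ) * ee p N J y := by
    rw [hsplit]
    linear_combination hftc
  rw [hfin]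
  have b1 : ‖(Φ y1 : ℂ) * (rl p N J y1 - N)‖ ≤ M * T := by
    rw [norm_mul, Complex.norm_real, Real.norm_eq_abs]
    have := hb2 y1 ⟨hy0, hy1⟩
    gcongr
  have b2 : ‖∫ y in Ioo y1 1, (Φ y : ℂ) * ee p N 0 y‖ ≤ M * ∫ y in Ioo y1 1, ‖ee p N 0 y‖ := by
    rw [← integral_const_mul]
    refine norm_integral_le_of_norm_le (i0.norm.const_mul M) ?_
    filter_upwards [ae_restrict_mem measurableSet_Ioo] with y hy
    rw [norm_mul, Complex.norm_real, Real.norm_eq_abs]
    have := hb2 y ⟨hy0.trans hy.1, hy.2⟩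
    gcongr
  have b3 : ‖∫ y in Ioo 0 y1, (Φ y : ℂ) * ee p N J y‖ ≤ M * ∫ y in Ioo 0 y1, ‖ee p N J y‖ := by
    rw [← integral_const_mul]
    refine norm_integral_le_of_norm_le (iJ'.norm.const_mul M) ?_
    filter_upwards [ae_restrict_mem measurableSet_Ioo] with y hy
    rw [norm_mul, Complex.norm_real, Real.norm_eq_abs]
    have := hb2 y ⟨hy.1, hy.2.trans hy1⟩
    gcongr
  calc _ ≤ ‖(Φ y1 : ℂ) * (rl p N J y1 - N)‖ + ‖∫ y in Ioo y1 1, (Φ y : ℂ) * ee p N 0 y‖ +
        ‖∫ y in Ioo 0 y1, (Φ y : ℂ) * ee p N J y‖ := norm_add₃_le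
    _ ≤ M * T + M * (∫ y in Ioo y1 1, ‖ee p N 0 y‖) + M * ∫ y in Ioo 0 y1, ‖ee p N J y‖ := by
        gcongr
    _ = _ := by rw [hT]; ring

end

end Pool.Agent.H972.FH
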