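import Pool.Agent.H972.FH.Rad

set_option autoImplicit false

open MeasureTheory Complex Filter Topology Set
open scoped ENNReal

namespace Pool.Agent.H972.FH

noncomputable section

/-- derivative of the Beta integral -/
theorem beta_log {u v : ℂ} (hu : 0 < u.re) (hv : 0 < v.re) :
    IntegrableOn (fun y : ℝ => ((Real.log y : ℝ) : ℂ) * bt u v y) (Ioo 0 1) ∧
    ∫ y in Ioo 0 1, ((Real.log y : ℝ) : ℂ) * bt u v y =
      (ps (u - 1) - ps (u + v - 1)) * ∫ y in Ioo 0 1, bt u v y := by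
  set r : ℝ := u.re / 2 with hr
  have hr0 : 0 < r := by positivity
  set bound : ℝ → ℝ := fun y => 2 / r * ‖bt ((r / 2 : ℝ) : ℂ) v y‖ with hbound
  have hbi : IntegrableOn bound (Ioo 0 1) :=
    ((int_bt (u := ((r / 2 : ℝ) : ℂ)) (by simp; positivity) hv).1.norm).const_mul _
  have hball : ∀ w ∈ Metric.ball u r, r ≤ w.re := by
    intro w hw
    have h1 := Complex.abs_re_le_norm (w - u)
    rw [mem_ball_iff_norm] at hw
    have h2 := (abs_le.1 (h1.trans hw.le)).1
    simp only [Complex.sub_re] at h2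
    linarith
  have key := hasDerivAt_integral_of_dominated_loc_of_deriv_le
    (μ := volume.restrict (Ioo (0:ℝ) 1)) (F := fun w y => bt w v y)
    (F' := fun w y => ((Real.log y : ℝ) : ℂ) * bt w v y) (x₀ := u) (s := Metric.ball u r)
    (bound := bound) (Metric.ball_mem_nhds u hr0)
    (Eventually.of_forall fun w => (measurable_bt w v).aestronglyMeasurable)
    (int_bt hu hv).1
    ((Complex.measurable_ofReal.comp Real.measurable_log).mul
      (measurable_bt u v)).aestronglyMeasurable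
    (by
      filter_upwards [ae_restrict_mem measurableSet_Ioo] with y hy w hw
      have hw' := hball w hw
      have hL : Real.log y ≤ 0 := Real.log_nonpos hy.1.le hy.2.le
      have h2 := neg_log_le (θ := r / 2) (L := Real.log y) (by positivity)
      rw [norm_mul, Complex.norm_real, Real.norm_eq_abs, abs_of_nonpos hL, norm_bt, hbound]
      simp only
      rw [norm_bt]
      have e1 : Real.exp ((w.re - 1) * Real.log y + (v.re - 1) * Real.log (1 - y)) ≤
          Real.exp ((r - 1) * Real.log y + (v.re - 1) * Real.log (1 - y)) := by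
        refine Real.exp_le_exp.2 ?_
        nlinarith
      have e2 : 1 / (r / 2) = 2 / r := by field_simp
      rw [e2] at h2
      calc -Real.log y * Real.exp ((w.re - 1) * Real.log y + (v.re - 1) * Real.log (1 - y)) ≤
          (2 / r * Real.exp (-(r / 2) * Real.log y)) *
            Real.exp ((r - 1) * Real.log y + (v.re - 1) * Real.log (1 - y)) := by
            have : 0 ≤ -Real.log y := by linarith
            gcongr
        _ = _ := by
            rw [mul_assoc, ← Real.exp_add]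
            congr 2
            simp
            ring)
    hbi
    (by
      filter_upwards [ae_restrict_mem measurableSet_Ioo] with y hy w hw
      unfold bt
      have h1 : HasDerivAt (fun w : ℂ => (w - 1) * ((Real.log y : ℝ) : ℂ) +
          (v - 1) * ((Real.log (1 - y) : ℝ) : ℂ)) ((Real.log y : ℝ) : ℂ) w := by
        simpa using (((hasDerivAt_id w).sub_const 1).mul_const ((Real.log y : ℝ) : ℂ)).add_const
          ((v - 1) * ((Real.log (1 - y) : ℝ) : ℂ))
      refine h1.cexp.congr_deriv ?_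
      ring)
  refine ⟨key.1, ?_⟩
  -- closed form
  have hcl : (fun w : ℂ => ∫ y in Ioo (0:ℝ) 1, bt w v y) =ᶠ[𝓝 u]
      fun w => cexp (LG (w - 1) + LG (v - 1) - LG (w + v - 1)) := by
    filter_upwards [Metric.ball_mem_nhds u hr0] with w hw
    have hw' := hball w hw
    have hwp : 0 < w.re := by linarith
    rw [(int_bt hwp hv).2, Complex.exp_sub, Complex.exp_add, exp_LG (by simp; linarith),
      exp_LG (by simp; linarith), exp_LG (by simp; linarith), show 1 + (w - 1) = w by ring,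
      show 1 + (v - 1) = v by ring, show 1 + (w + v - 1) = w + v by ring]
  have hd2 : HasDerivAt (fun w => cexp (LG (w - 1) + LG (v - 1) - LG (w + v - 1)))
      (cexp (LG (u - 1) + LG (v - 1) - LG (u + v - 1)) * (ps (u - 1) - ps (u + v - 1))) u := by
    have a1 : HasDerivAt (fun w => LG (w - 1)) (ps (u - 1)) u :=
      (hasDerivAt_LG (x := u - 1) (by simp; linarith)).comp_sub_const u 1
    have a2 : HasDerivAt (fun w => LG (w + v - 1)) (ps (u + v - 1)) u := by
      have := (hasDerivAt_LG (x := u + v - 1) (by simp; linarith))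
      have h3 : HasDerivAt (fun w : ℂ => w + v - 1) 1 u := by
        simpa using ((hasDerivAt_id u).add_const v).sub_const 1
      have h5 := this.comp u h3
      rw [mul_one] at h5
      exact h5
    exact ((a1.add_const _).sub a2).cexp
  have h4 := key.2.unique (hd2.congr_of_eventuallyEq hcl)
  have h5 : ∫ y in Ioo (0:ℝ) 1, bt u v y =
      cexp (LG (u - 1) + LG (v - 1) - LG (u + v - 1)) := hcl.self_of_nhds
  rw [h4, h5]
  ring

section

variable {p N : ℂ}

lemma ee0_mul (y : ℝ) (hy : 0 < y) : ((y : ℝ) : ℂ) * ee p N 0 y =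
    p / cj p N 0 * bt (((0:ℕ):ℂ) + 1 + p) (N - ((0:ℕ):ℂ) - p) y := by
  unfold ee bt
  rw [show ((y : ℝ) : ℂ) = cexp ((Real.log y : ℝ) : ℂ) by
    rw [← Complex.ofReal_exp, Real.exp_log hy]]
  rw [mul_left_comm, ← Complex.exp_add]
  simp only [Nat.cast_zero, zero_add]
  congr 2
  ring

/-- first evaluation -/
lemma ev0 (hp : -1 < p.re) (hN : 0 < (N - p).re) :
    ∫ y in Ioo (0:ℝ) 1, ((y : ℝ) : ℂ) * ee p N 0 y = p := by
  have h1 : 0 < (N - ((0:ℕ):ℂ) - p).re := by simpa using hN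
  obtain ⟨e1, n1⟩ := cj_gam (j := 0) hp h1
  have h2 := (cj_eq (p0 := p) (N := N) (j := 0) hp h1).2.1
  rw [setIntegral_congr_fun measurableSet_Ioo fun y hy => ee0_mul y hy.1, integral_const_mul, ← h2]
  field_simp

/-- second evaluation -/
lemma ev1 (hp : -1 < p.re) (hN : 0 < (N - p).re) :
    ∫ y in Ioo (0:ℝ) 1, ((y * Real.log y - y : ℝ) : ℂ) * ee p N 0 y = p * (ps p - ps N) - p := by
  have h1 : 0 < (N - ((0:ℕ):ℂ) - p).re := by simpa using hN
  have hu : 0 < ((((0:ℕ):ℂ)) + 1 + p).re := by simp; linarith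
  obtain ⟨e1, n1⟩ := cj_gam (j := 0) hp h1
  have h2 := (cj_eq (p0 := p) (N := N) (j := 0) hp h1).2.1
  obtain ⟨b1, b2⟩ := beta_log hu h1
  have hi := (int_bt hu h1).1
  have hcongr : ∀ y ∈ Ioo (0:ℝ) 1, ((y * Real.log y - y : ℝ) : ℂ) * ee p N 0 y =
      p / cj p N 0 * (((Real.log y : ℝ) : ℂ) * bt (((0:ℕ):ℂ) + 1 + p) (N - ((0:ℕ):ℂ) - p) y) -
      p / cj p N 0 * bt (((0:ℕ):ℂ) + 1 + p) (N - ((0:ℕ):ℂ) - p) y := by
    intro y hy
    have h3 := ee0_mul (p := p) (N := N) y hy.1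
    rw [Complex.ofReal_sub, Complex.ofReal_mul]
    linear_combination (((Real.log y : ℝ) : ℂ) - 1) * h3
  rw [setIntegral_congr_fun measurableSet_Ioo hcongr, integral_sub (b1.const_mul _)
    (hi.const_mul _), integral_const_mul, integral_const_mul, b2, ← h2]
  have e2 : (((0:ℕ):ℂ) + 1 + p) - 1 = p := by simp
  have e3 : (((0:ℕ):ℂ) + 1 + p) + (N - ((0:ℕ):ℂ) - p) - 1 = N := by
    rw [Nat.cast_zero]; ring
  rw [e2, e3]
  field_simp

lemma Phi2_bound {y : ℝ} (h0 : 0 < y) (h1 : y < 1) :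
    |-(1 - y) * Real.log (1 - y) - y| ≤ y ^ 2 := by
  have h2 : 0 < 1 - y := by linarith
  have a1 := Real.one_sub_inv_le_log_of_pos h2
  have a2 := Real.log_le_sub_one_of_pos h2
  have a3 : (1 - y) * (1 - y)⁻¹ = 1 := mul_inv_cancel₀ h2.ne'
  have b1 := mul_le_mul_of_nonneg_left a1 h2.le
  rw [mul_sub, mul_one, a3] at b1
  have b2 := mul_le_mul_of_nonneg_left a2 h2.le
  rw [abs_le]
  constructor
  · nlinarith
  · nlinarith [sq_nonneg y]

/-- third evaluation -/
lemma ev2 (hp : -1 < p.re) (hN : 0 < (N - p).re) {K : ℝ}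
    (hK : Cj p N 0 ≤ K * ‖cj p N 0‖)
    (hi : IntegrableOn (fun y => ((-(1 - y) * Real.log (1 - y) - y : ℝ) : ℂ) * ee p N 0 y)
      (Ioo 0 1)) :
    ‖∫ y in Ioo (0:ℝ) 1, ((-(1 - y) * Real.log (1 - y) - y : ℝ) : ℂ) * ee p N 0 y‖ ≤
      ‖p‖ * K * ((p.re + 1) / (N.re + 1)) := by
  have h1 : 0 < (N - ((0:ℕ):ℂ) - p).re := by simpa using hN
  have hu : 0 < (((0:ℕ):ℂ) + 1 + p).re := by simp; linarith
  have hu2 : 0 < (((0:ℕ):ℂ) + 1 + 1 + p).re := by simp; linarith
  have hR : 0 < N.re + 1 := by simp at hN; linarith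
  obtain ⟨e1, n1⟩ := cj_gam (j := 0) hp h1
  have h2 := (cj_eq (p0 := p) (N := N) (j := 0) hp h1).2.2
  have hcn : 0 < ‖cj p N 0‖ := norm_pos_iff.2 n1
  have hi2 := (int_bt hu2 h1).1.norm
  refine (norm_integral_le_integral_norm _).trans ?_
  have hpt : ∀ y ∈ Ioo (0:ℝ) 1, ‖((-(1 - y) * Real.log (1 - y) - y : ℝ) : ℂ) * ee p N 0 y‖ ≤
      ‖p‖ / ‖cj p N 0‖ * ‖bt (((0:ℕ):ℂ) + 1 + 1 + p) (N - ((0:ℕ):ℂ) - p) y‖ := by
    intro y hy
    have e : ‖bt (((0:ℕ):ℂ) + 1 + 1 + p) (N - ((0:ℕ):ℂ) - p) y‖ =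
        y * ‖((y : ℝ) : ℂ) * bt (((0:ℕ):ℂ) + p) (N - ((0:ℕ):ℂ) - p) y‖ := by
      rw [norm_mul, Complex.norm_real, Real.norm_eq_abs, abs_of_pos hy.1, norm_bt, norm_bt]
      have e2 : y * (y * Real.exp (((((0:ℕ):ℂ) + p).re - 1) * Real.log y +
          ((N - ((0:ℕ):ℂ) - p).re - 1) * Real.log (1 - y))) =
          Real.exp (Real.log y) * (Real.exp (Real.log y) *
          Real.exp (((((0:ℕ):ℂ) + p).re - 1) * Real.log y +
          ((N - ((0:ℕ):ℂ) - p).re - 1) * Real.log (1 - y))) := by rw [Real.exp_log hy.1]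
      rw [e2, ← Real.exp_add, ← Real.exp_add]
      congr 1
      simp
      ring
    rw [e, norm_mul, norm_mul, Complex.norm_real, Complex.norm_real, Real.norm_eq_abs,
      Real.norm_eq_abs, abs_of_pos hy.1]
    unfold ee
    rw [norm_mul, norm_div]
    simp only [Nat.cast_zero, zero_add]
    have := Phi2_bound hy.1 hy.2
    calc |-(1 - y) * Real.log (1 - y) - y| * (‖p‖ / ‖cj p N 0‖ * ‖bt p (N - 0 - p) y‖) ≤
        y ^ 2 * (‖p‖ / ‖cj p N 0‖ * ‖bt p (N - 0 - p) y‖) := by gcongr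
      _ = _ := by ring
  refine (setIntegral_mono_on hi.norm (hi2.const_mul _) measurableSet_Ioo hpt).trans ?_
  rw [integral_const_mul, int_norm_bt hu2 h1]
  rw [int_norm_bt hu h1] at h2
  have f1 : (((0:ℕ):ℂ) + 1 + 1 + p).re = (p.re + 1) + 1 := by simp; ring
  have f2 : (((0:ℕ):ℂ) + 1 + p).re = p.re + 1 := by simp; ring
  have f3 : (N - ((0:ℕ):ℂ) - p).re = N.re - p.re := by simp
  rw [f1, f3, show p.re + 1 + 1 + (N.re - p.re) = (N.re + 1) + 1 by ring,
    Real.Gamma_add_one (show p.re + 1 ≠ 0 by linarith),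
    Real.Gamma_add_one (show N.re + 1 ≠ 0 by linarith)]
  rw [f2, f3, show p.re + 1 + (N.re - p.re) = N.re + 1 by ring] at h2
  have g1 : Real.Gamma (N.re + 1) ≠ 0 := (Real.Gamma_pos_of_pos (by linarith)).ne'
  have e5 : (p.re + 1) * Real.Gamma (p.re + 1) * Real.Gamma (N.re - p.re) /
      ((N.re + 1) * Real.Gamma (N.re + 1)) = (p.re + 1) / (N.re + 1) * Cj p N 0 := by
    rw [h2]; field_simp
  rw [e5]
  have h9 : 0 ≤ (p.re + 1) / (N.re + 1) := div_nonneg (by linarith) (by linarith)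
  calc ‖p‖ / ‖cj p N 0‖ * ((p.re + 1) / (N.re + 1) * Cj p N 0) ≤
      ‖p‖ / ‖cj p N 0‖ * ((p.re + 1) / (N.re + 1) * (K * ‖cj p N 0‖)) := by gcongr
    _ = _ := by field_simp

end

/-- the tails are exponentially small -/
theorem tails (A D η ε : ℝ) (hA : 0 ≤ A) (hD : 0 ≤ D) (hη : 0 < η) (hε : 0 < ε)
    (hε4 : ε ≤ 1 / 4) :
    ∃ yt : ℝ, 0 < yt ∧ yt ≤ 1 / 2 ∧ ∀ K y1, 0 < K → 0 < y1 → y1 ≤ yt →
      ∃ c C : ℝ, ∃ n0 : ℕ, 0 < c ∧ 0 < C ∧
      ∀ (n : ℕ) (p N : ℂ), n0 ≤ n → ‖p‖ ≤ A → -1 + η ≤ p.re → |N.re - n| ≤ D →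
      (∀ j : ℕ, (j:ℝ) ≤ ε * n → 0 < (N - j - p).re ∧ 0 < Cj p N j ∧ Cj p N j ≤ K * ‖cj p N j‖) →
      1 ≤ (N - p).re ∧ 1 ≤ ⌊ε * n⌋₊ ∧
      (∫ y in Ioo y1 1, ‖ee p N 0 y‖) + (∫ y in Ioo 0 y1, ‖ee p N ⌊ε * n⌋₊ y‖) ≤
        C * Real.exp (-(c * n)) := by
  have hl2 : 0 < Real.log 2 := Real.log_pos (by norm_num)
  set yt : ℝ := Real.exp (-Real.log 2 - (2 + Real.log 2) / ε) with hyt
  have hyt0 : 0 < yt := Real.exp_pos _
  have hyt2 : yt ≤ 1 / 2 := by
    have : yt ≤ Real.exp (-Real.log 2) := by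
      refine Real.exp_le_exp.2 ?_
      have : 0 ≤ (2 + Real.log 2) / ε := by positivity
      linarith
    refine this.trans (le_of_eq ?_)
    rw [Real.exp_neg, Real.exp_log (by norm_num)]; norm_num
  refine ⟨yt, hyt0, hyt2, fun K y1 hK hy0 hy1 => ?_⟩
  have hy12 : y1 ≤ 1 / 2 := hy1.trans hyt2
  have hy1lt : y1 < 1 := by linarith
  obtain ⟨m, hm, hlow⟩ := low_bound (y1 / 2) A D (by positivity) (by linarith) hA hD
  obtain ⟨m', hm', hlow'⟩ := low_bound 1 A D one_pos le_rfl hA hD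
  obtain ⟨B1, hB1, hB1'⟩ := pow_exp 1 (c := 1) one_pos
  obtain ⟨n1, hn1⟩ := exists_nat_ge ((2 * D + 2 * A + 4) / ε)
  set ℓ : ℝ := Real.log y1 with hℓ
  have hℓ0 : ℓ < 0 := Real.log_neg hy0 hy1lt
  have hℓt : ℓ ≤ -Real.log 2 - (2 + Real.log 2) / ε := by
    have := Real.log_le_log hy0 hy1
    rwa [hyt, Real.log_exp] at this
  set C1 : ℝ := A * (K / m) * (Real.exp (-(2 * ℓ)) * Real.exp (y1 * (D + A + 1))) with hC1
  set C2 : ℝ := (B1 + A) * (K / m') * (Real.exp (-((A + 1) * ℓ)) * Real.exp (-(ℓ + Real.log 2))) with hC2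
  have hC10 : 0 ≤ C1 := by positivity
  have hC20 : 0 ≤ C2 := by positivity
  refine ⟨min (y1 / 2) 1, C1 + C2 + 1, max n1 1, lt_min (by positivity) one_pos, by positivity,
    fun n p N hn hp hr hN hfacts => ?_⟩
  have hnn1 : n1 ≤ n := (le_max_left _ _).trans hn
  have hn1' : 1 ≤ n := (le_max_right _ _).trans hn
  have hnr : (1:ℝ) ≤ n := by exact_mod_cast hn1'
  have hεn : 2 * D + 2 * A + 4 ≤ ε * n := by
    have : (2 * D + 2 * A + 4) / ε ≤ n := hn1.trans (by exact_mod_cast hnn1)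
    rw [div_le_iff₀ hε] at this
    linarith
  have hεn4 : ε * n ≤ 1 / 4 * n := by gcongr
  have hs := abs_le.1 ((Complex.abs_re_le_norm p).trans hp)
  have hNn := abs_le.1 hN
  set J := ⌊ε * n⌋₊ with hJ
  have hJle : (J:ℝ) ≤ ε * n := Nat.floor_le (by positivity)
  have hJgt : ε * n < J + 1 := Nat.lt_floor_add_one _
  have hJ3 : 2 * D + 2 * A + 3 ≤ (J:ℝ) := by linarith
  have hJ1 : 1 ≤ J := by
    have : (0:ℝ) < J := by linarith
    exact_mod_cast this
  have hR1 : 1 ≤ (N - p).re := by simp; linarith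
  refine ⟨hR1, hJ1, ?_⟩
  obtain ⟨f1, f2, f3⟩ := hfacts 0 (by simp; positivity)
  obtain ⟨g1, g2, g3⟩ := hfacts J hJle
  have hp1 : -1 < p.re := by linarith
  -- first tail
  have hint0 := integrable_Cj (p0 := p) (N := N) (j := 0) hp1 f1
  have hC0 : m * Real.exp (-(y1 / 2 * n)) ≤ Cj p N 0 := by
    have h4 := hlow n p N 0 ((Complex.abs_re_le_norm p).trans hp) hN hint0.integrableOn
    have h6 : m * (y1 / 2 / 2) ^ 0 * (1 + y1 / 2) ^ (-(n:ℝ)) ≤ Cj p N 0 := by
      refine h4.trans (setIntegral_le_integral hint0 (Eventually.of_forall fun ζ => ?_))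
      simp only [Pi.zero_apply]
      positivity
    refine le_trans ?_ h6
    rw [pow_zero, mul_one]
    refine mul_le_mul_of_nonneg_left ?_ hm.le
    rw [Real.rpow_neg (by positivity), Real.rpow_natCast, Real.exp_neg]
    refine inv_anti₀ (by positivity) ?_
    calc (1 + y1 / 2) ^ n ≤ (Real.exp (y1 / 2)) ^ n := by
          have := Real.add_one_le_exp (y1 / 2)
          gcongr
          linarith
      _ = _ := by rw [← Real.exp_nat_mul, mul_comm]
  have hinv0 : 1 / ‖cj p N 0‖ ≤ K / m * Real.exp (y1 / 2 * n) := by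
    have hc0 : 0 < ‖cj p N 0‖ := by
      by_contra h
      have : ‖cj p N 0‖ = 0 := le_antisymm (not_lt.1 h) (norm_nonneg _)
      rw [this, mul_zero] at f3
      linarith
    rw [div_le_iff₀ hc0]
    have h5 : m * Real.exp (-(y1 / 2 * n)) ≤ K * ‖cj p N 0‖ := hC0.trans f3
    have h6 := Real.exp_pos (y1 / 2 * n)
    calc (1:ℝ) = (m * Real.exp (-(y1 / 2 * n))) * (1 / m * Real.exp (y1 / 2 * n)) := by
          rw [Real.exp_neg]; field_simp
      _ ≤ (K * ‖cj p N 0‖) * (1 / m * Real.exp (y1 / 2 * n)) := by gcongr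
      _ = _ := by ring
  have hT1 : ∫ y in Ioo y1 1, ‖ee p N 0 y‖ ≤ C1 * Real.exp (-(y1 / 2 * n)) := by
    have hpt : ∀ y ∈ Ioo y1 1, ‖‖ee p N 0 y‖‖ ≤ C1 * Real.exp (-(y1 / 2 * n)) := by
      intro y hy
      have hy0' : 0 < y := hy0.trans hy.1
      rw [norm_norm]
      unfold ee
      rw [norm_mul, norm_div, norm_bt]
      have a1 : ((((0:ℕ):ℂ) + p).re - 1) * Real.log y ≤ -(2 * ℓ) := by
        have b1 : Real.log y ≤ 0 := Real.log_nonpos hy0'.le hy.2.le
        have b2 : ℓ ≤ Real.log y := Real.log_le_log hy0 hy.1.le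
        simp only [Nat.cast_zero, zero_add]
        nlinarith
      have a2 : ((N - ((0:ℕ):ℂ) - p).re - 1) * Real.log (1 - y) ≤
          y1 * (D + A + 1) + -(y1 * n) := by
        have b0 : 0 < 1 - y := by linarith [hy.2]
        have b1 : Real.log (1 - y) ≤ -y1 := by
          have := Real.log_le_sub_one_of_pos b0
          linarith [hy.1]
        have b2 : (n:ℝ) - D - A - 1 ≤ (N - ((0:ℕ):ℂ) - p).re - 1 := by
          simp; linarith
        have b3 : 0 ≤ (N - ((0:ℕ):ℂ) - p).re - 1 := by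
          simp; simp at hR1; linarith
        nlinarith
      have a3 : ‖((0:ℕ):ℂ) + p‖ ≤ A := by simpa using hp
      have a4 : Real.exp (((((0:ℕ):ℂ) + p).re - 1) * Real.log y +
          ((N - ((0:ℕ):ℂ) - p).re - 1) * Real.log (1 - y)) ≤
          Real.exp (-(2 * ℓ)) * (Real.exp (y1 * (D + A + 1)) * Real.exp (-(y1 * n))) := by
        rw [← Real.exp_add, ← Real.exp_add]
        exact Real.exp_le_exp.2 (by linarith)
      calc ‖((0:ℕ):ℂ) + p‖ / ‖cj p N 0‖ * Real.exp (((((0:ℕ):ℂ) + p).re - 1) * Real.log y +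
          ((N - ((0:ℕ):ℂ) - p).re - 1) * Real.log (1 - y)) =
          ‖((0:ℕ):ℂ) + p‖ * (1 / ‖cj p N 0‖) * Real.exp (((((0:ℕ):ℂ) + p).re - 1) * Real.log y +
          ((N - ((0:ℕ):ℂ) - p).re - 1) * Real.log (1 - y)) := by ring
        _ ≤ A * (K / m * Real.exp (y1 / 2 * n)) * (Real.exp (-(2 * ℓ)) *
            (Real.exp (y1 * (D + A + 1)) * Real.exp (-(y1 * n)))) := by gcongr
        _ = C1 * (Real.exp (y1 / 2 * n) * Real.exp (-(y1 * n))) := by rw [hC1]; ring
        _ = _ := by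
            rw [← Real.exp_add]
            congr 2; ring
    have h7 := norm_setIntegral_le_of_norm_le_const (μ := volume) (s := Ioo y1 1)
      (by rw [Real.volume_Ioo]; exact ENNReal.ofReal_lt_top) hpt
    refine (le_abs_self _).trans (h7.trans ?_)
    rw [Measure.real, Real.volume_Ioo, ENNReal.toReal_ofReal (by linarith)]
    have : 0 ≤ C1 * Real.exp (-(y1 / 2 * n)) := by positivity
    nlinarith
  -- second tail
  have hintJ := integrable_Cj (p0 := p) (N := N) (j := J) hp1 g1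
  have hCJ : m' * Real.exp (-((J + n) * Real.log 2)) ≤ Cj p N J := by
    have h4 := hlow' n p N J ((Complex.abs_re_le_norm p).trans hp) hN hintJ.integrableOn
    have h6 : m' * (1 / 2) ^ J * (1 + 1) ^ (-(n:ℝ)) ≤ Cj p N J := by
      refine h4.trans (setIntegral_le_integral hintJ (Eventually.of_forall fun ζ => ?_))
      simp only [Pi.zero_apply]
      positivity
    refine le_trans (le_of_eq ?_) h6
    rw [mul_assoc]
    congr 1
    rw [Real.rpow_neg (by positivity), Real.rpow_natCast, show (1:ℝ) + 1 = 2 by norm_num,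
      one_div, inv_pow, ← mul_inv, ← pow_add, Real.exp_neg]
    congr 1
    rw [← Nat.cast_add, Real.exp_nat_mul, Real.exp_log (by norm_num)]
  have hinvJ : 1 / ‖cj p N J‖ ≤ K / m' * Real.exp ((J + n) * Real.log 2) := by
    have hc0 : 0 < ‖cj p N J‖ := by
      by_contra h
      have : ‖cj p N J‖ = 0 := le_antisymm (not_lt.1 h) (norm_nonneg _)
      rw [this, mul_zero] at g3
      linarith
    rw [div_le_iff₀ hc0]
    have h5 : m' * Real.exp (-((J + n) * Real.log 2)) ≤ K * ‖cj p N J‖ := hCJ.trans g3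
    have h6 := Real.exp_pos ((J + n) * Real.log 2)
    calc (1:ℝ) = (m' * Real.exp (-((J + n) * Real.log 2))) *
          (1 / m' * Real.exp ((J + n) * Real.log 2)) := by
          rw [Real.exp_neg]; field_simp
      _ ≤ (K * ‖cj p N J‖) * (1 / m' * Real.exp ((J + n) * Real.log 2)) := by gcongr
      _ = _ := by ring
  have hT2 : ∫ y in Ioo 0 y1, ‖ee p N J y‖ ≤ C2 * Real.exp (-(n:ℝ)) := by
    have hpt : ∀ y ∈ Ioo 0 y1, ‖‖ee p N J y‖‖ ≤ C2 * Real.exp (-(n:ℝ)) := by
      intro y hy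
      rw [norm_norm]
      unfold ee
      rw [norm_mul, norm_div, norm_bt]
      have a1 : (((J:ℂ) + p).re - 1) * Real.log y ≤ J * ℓ + -((A + 1) * ℓ) := by
        have b2 : Real.log y ≤ ℓ := Real.log_le_log hy.1 hy.2.le
        have b3 : ((J:ℂ) + p).re - 1 = J + p.re - 1 := by simp
        rw [b3]
        have b4 : 0 ≤ (J:ℝ) + p.re - 1 := by linarith
        nlinarith
      have a2 : ((N - J - p).re - 1) * Real.log (1 - y) ≤ 0 := by
        have b0 : Real.log (1 - y) ≤ 0 := Real.log_nonpos (by linarith [hy.2]) (by linarith [hy.1])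
        have b3 : (N - J - p).re - 1 = N.re - J - p.re - 1 := by simp
        rw [b3]
        have b4 : 0 ≤ N.re - J - p.re - 1 := by linarith
        nlinarith
      have a3 : ‖(J:ℂ) + p‖ ≤ n + A := by
        refine (norm_add_le _ _).trans ?_
        have : ‖(J:ℂ)‖ ≤ n := by
          rw [Complex.norm_natCast]
          have : ε * n ≤ n := by nlinarith
          linarith
        linarith
      have a4 : Real.exp ((((J:ℂ) + p).re - 1) * Real.log y +
          ((N - J - p).re - 1) * Real.log (1 - y)) ≤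
          Real.exp (J * ℓ) * Real.exp (-((A + 1) * ℓ)) := by
        rw [← Real.exp_add]
        exact Real.exp_le_exp.2 (by linarith)
      have a5 : Real.exp ((J + n) * Real.log 2) * Real.exp (J * ℓ) ≤
          Real.exp (-(ℓ + Real.log 2)) * Real.exp (-(2 * n)) := by
        rw [← Real.exp_add, ← Real.exp_add]
        refine Real.exp_le_exp.2 ?_
        have b1 : ℓ + Real.log 2 ≤ -((2 + Real.log 2) / ε) := by linarith
        have b2 : ℓ + Real.log 2 ≤ 0 := by
          have : 0 ≤ (2 + Real.log 2) / ε := by positivity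
          linarith
        have b3 : (ℓ + Real.log 2) * (ε * n) ≤ -((2 + Real.log 2) * n) := by
          calc (ℓ + Real.log 2) * (ε * n) ≤ -((2 + Real.log 2) / ε) * (ε * n) := by gcongr
            _ = _ := by field_simp
        nlinarith
      have a6 : (n:ℝ) + A ≤ (B1 + A) * Real.exp n := by
        have h8 := hB1' n
        rw [pow_one, one_mul, Real.exp_neg, ← div_eq_mul_inv, div_le_iff₀ (Real.exp_pos _)] at h8
        have h9 : 1 ≤ Real.exp (n:ℝ) := Real.one_le_exp (by positivity)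
        nlinarith
      calc ‖(J:ℂ) + p‖ / ‖cj p N J‖ * Real.exp ((((J:ℂ) + p).re - 1) * Real.log y +
          ((N - J - p).re - 1) * Real.log (1 - y)) =
          ‖(J:ℂ) + p‖ * (1 / ‖cj p N J‖) * Real.exp ((((J:ℂ) + p).re - 1) * Real.log y +
          ((N - J - p).re - 1) * Real.log (1 - y)) := by ring
        _ ≤ (n + A) * (K / m' * Real.exp ((J + n) * Real.log 2)) *
            (Real.exp (J * ℓ) * Real.exp (-((A + 1) * ℓ))) := by gcongr
        _ = (n + A) * (K / m') * Real.exp (-((A + 1) * ℓ)) *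
            (Real.exp ((J + n) * Real.log 2) * Real.exp (J * ℓ)) := by ring
        _ ≤ ((B1 + A) * Real.exp n) * (K / m') * Real.exp (-((A + 1) * ℓ)) *
            (Real.exp (-(ℓ + Real.log 2)) * Real.exp (-(2 * n))) := by gcongr
        _ = C2 * (Real.exp n * Real.exp (-(2 * n))) := by rw [hC2]; ring
        _ = _ := by
            rw [← Real.exp_add]
            congr 2; ring
    have h7 := norm_setIntegral_le_of_norm_le_const (μ := volume) (s := Ioo 0 y1)
      (by rw [Real.volume_Ioo]; exact ENNReal.ofReal_lt_top) hpt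
    refine (le_abs_self _).trans (h7.trans ?_)
    rw [Measure.real, Real.volume_Ioo, ENNReal.toReal_ofReal (by linarith)]
    have : 0 ≤ C2 * Real.exp (-(n:ℝ)) := by positivity
    nlinarith
  have hx1 : Real.exp (-(y1 / 2 * n)) ≤ Real.exp (-(min (y1 / 2) 1 * n)) := by
    refine Real.exp_le_exp.2 (neg_le_neg ?_)
    gcongr
    exact min_le_left _ _
  have hx2 : Real.exp (-(n:ℝ)) ≤ Real.exp (-(min (y1 / 2) 1 * n)) := by
    refine Real.exp_le_exp.2 (neg_le_neg ?_)
    have := min_le_right (y1 / 2) 1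
    nlinarith
  have hx3 := Real.exp_pos (-(min (y1 / 2) 1 * n))
  calc _ ≤ C1 * Real.exp (-(y1 / 2 * n)) + C2 * Real.exp (-(n:ℝ)) := add_le_add hT1 hT2
    _ ≤ C1 * Real.exp (-(min (y1 / 2) 1 * n)) + C2 * Real.exp (-(min (y1 / 2) 1 * n)) := by gcongr
    _ ≤ _ := by nlinarith

end

end Pool.Agent.H972.FH
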