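import Pool.Agent.H972.FH.Rad2

set_option autoImplicit false

open MeasureTheory Complex Filter Topology Set
open scoped ENNReal

namespace Pool.Agent.H972.FH

noncomputable section

/-- the three radial integrals -/
theorem rad (A D η ε : ℝ) (hA : 0 ≤ A) (hD : 0 ≤ D) (hη : 0 < η) (hε : 0 < ε)
    (hε4 : ε ≤ 1 / 4) :
    ∃ yt : ℝ, 0 < yt ∧ yt ≤ 1 / 2 ∧ ∀ K y1, 0 < K → 0 < y1 → y1 ≤ yt → ∀ ξ : ℝ, 0 < ξ → ∃ n0 : ℕ,
      ∀ (n : ℕ) (p N : ℂ), n0 ≤ n → ‖p‖ ≤ A → -1 + η ≤ p.re → ‖N - n‖ ≤ D →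
      (∀ j : ℕ, (j:ℝ) ≤ ε * n → 0 < (N - j - p).re ∧ 0 < Cj p N j ∧ Cj p N j ≤ K * ‖cj p N j‖) →
      (IntegrableOn (fun y : ℝ => rl p N ⌊ε * n⌋₊ y - N) (Ioo 0 y1) ∧
        ‖(∫ y in Ioo 0 y1, (rl p N ⌊ε * n⌋₊ y - N)) + p‖ ≤ ξ) ∧
      (IntegrableOn (fun y : ℝ => ((Real.log y : ℝ) : ℂ) * (rl p N ⌊ε * n⌋₊ y - N)) (Ioo 0 y1) ∧
        ‖(∫ y in Ioo 0 y1, ((Real.log y : ℝ) : ℂ) * (rl p N ⌊ε * n⌋₊ y - N)) -
          (p * ((Real.log n : ℝ) : ℂ) + p - p * ps p)‖ ≤ ξ) ∧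
      (IntegrableOn (fun y : ℝ => ((Real.log (1 - y) : ℝ) : ℂ) * (rl p N ⌊ε * n⌋₊ y - N))
          (Ioo 0 y1) ∧
        ‖∫ y in Ioo 0 y1, ((Real.log (1 - y) : ℝ) : ℂ) * (rl p N ⌊ε * n⌋₊ y - N)‖ ≤ ξ) := by
  obtain ⟨yt, hyt0, hyt2, ht⟩ := tails A D η ε hA hD hη hε hε4
  refine ⟨yt, hyt0, hyt2, fun K y1 hK hy0 hy1 ξ hξ => ?_⟩
  obtain ⟨c, C, n1, hc, hC, hT⟩ := ht K y1 hK hy0 hy1
  have hy1lt : y1 < 1 := by linarith
  obtain ⟨n2, hn2⟩ := ps_asymp D hD (ξ := ξ / (2 * (A + 1))) (by positivity)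
  have hexp : ∀ᶠ n : ℕ in atTop, C * Real.exp (-(c * n)) ≤ ξ / 8 := by
    have h1 : Tendsto (fun n : ℕ => C * Real.exp (-(c * n))) atTop (𝓝 (C * 0)) := by
      refine Tendsto.const_mul _ (Real.tendsto_exp_neg_atTop_nhds_zero.comp ?_)
      exact tendsto_natCast_atTop_atTop.const_mul_atTop hc
    rw [mul_zero] at h1
    exact h1.eventually_le_const (by positivity)
  obtain ⟨n3, hn3⟩ := eventually_atTop.1 hexp
  obtain ⟨n4, hn4⟩ := exists_nat_ge (2 * A * K * (A + 1) / ξ + D)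
  refine ⟨max (max n1 n2) (max n3 n4), fun n p N hn hp hr hN hfacts => ?_⟩
  have g1 : n1 ≤ n := ((le_max_left _ _).trans (le_max_left _ _)).trans hn
  have g2 : n2 ≤ n := ((le_max_right _ _).trans (le_max_left _ _)).trans hn
  have g3 : n3 ≤ n := ((le_max_left _ _).trans (le_max_right _ _)).trans hn
  have g4 : n4 ≤ n := ((le_max_right _ _).trans (le_max_right _ _)).trans hn
  have hNre : |N.re - n| ≤ D := by
    have := (Complex.abs_re_le_norm (N - n)).trans hN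
    simpa using this
  obtain ⟨hN1, hJ1, hTn⟩ := hT n p N g1 hp hr hNre hfacts
  have hTn' := hTn.trans (hn3 n g3)
  set J := ⌊ε * n⌋₊ with hJ
  set T := (∫ y in Ioo y1 1, ‖ee p N 0 y‖) + (∫ y in Ioo 0 y1, ‖ee p N J y‖) with hTdef
  have hp1 : -1 < p.re := by linarith
  obtain ⟨fJ, -, -⟩ := hfacts J (Nat.floor_le (by positivity))
  obtain ⟨-, -, f0⟩ := hfacts 0 (by simp; positivity)
  have hNp : 0 < (N - p).re := by linarith
  -- Φ₀
  have P0 := parts hp1 hJ1 fJ hN1 hy0 hy1lt zero_le_one (φ := fun _ => 1) (Φ := fun y => y)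
    measurable_const measurable_id (fun y _ => hasDerivAt_id y)
    (fun y hy => by
      rw [abs_of_pos hy.1, one_mul]
      have := abs_nonneg (Real.log y)
      nlinarith [hy.1])
    (fun y hy => by rw [abs_of_pos hy.1]; exact hy.2.le)
    (fun y _ => by
      rw [abs_one, one_mul]
      have := abs_nonneg (Real.log y)
      linarith)
  obtain ⟨P0a, -, P0b⟩ := P0
  rw [ev0 hp1 hNp] at P0b
  simp only [Complex.ofReal_one, one_mul] at P0a P0b
  -- Φ₁
  have hylog : ∀ y ∈ Ioo (0:ℝ) 1, y * |Real.log y| ≤ 1 := by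
    intro y hy
    rw [abs_of_nonpos (Real.log_nonpos hy.1.le hy.2.le)]
    have h6 := Real.one_sub_inv_le_log_of_pos hy.1
    have h7 : y * y⁻¹ = 1 := mul_inv_cancel₀ hy.1.ne'
    nlinarith [hy.1, mul_le_mul_of_nonneg_left h6 hy.1.le]
  have P1 := parts hp1 hJ1 fJ hN1 hy0 hy1lt (M := 2) (by norm_num) (φ := fun y => Real.log y)
    (Φ := fun y => y * Real.log y - y) Real.measurable_log
    ((measurable_id.mul Real.measurable_log).sub measurable_id)
    (fun y hy => by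
      have h := ((hasDerivAt_id y).mul (Real.hasDerivAt_log hy.1.ne')).sub (hasDerivAt_id y)
      refine h.congr_deriv ?_
      have := hy.1.ne'
      simp only [id]
      field_simp
      ring)
    (fun y hy => by
      have h1 : |y * Real.log y - y| ≤ y * |Real.log y| + y := by
        refine (abs_sub _ _).trans ?_
        rw [abs_mul, abs_of_pos hy.1]
      have := mul_nonneg hy.1.le (abs_nonneg (Real.log y))
      nlinarith [hy.1])
    (fun y hy => by
      have h1 : |y * Real.log y - y| ≤ y * |Real.log y| + y := by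
        refine (abs_sub _ _).trans ?_
        rw [abs_mul, abs_of_pos hy.1]
      have := hylog y hy
      linarith [hy.2])
    (fun y _ => by
      have := abs_nonneg (Real.log y)
      linarith)
  obtain ⟨P1a, -, P1b⟩ := P1
  rw [ev1 hp1 hNp] at P1b
  -- Φ₂
  have P2 := parts hp1 hJ1 fJ hN1 hy0 hy1lt (M := 1) (by norm_num)
    (φ := fun y => Real.log (1 - y))
    (Φ := fun y => -(1 - y) * Real.log (1 - y) - y) (by fun_prop) (by fun_prop)
    (fun y hy => by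
      have h1 : HasDerivAt (fun y : ℝ => 1 - y) (-1) y := by
        simpa using (hasDerivAt_id y).const_sub 1
      have h2 := (Real.hasDerivAt_log (show (1 - y) ≠ 0 by linarith [hy.2])).comp y h1
      have h := ((h1.neg).mul h2).sub (hasDerivAt_id y)
      refine h.congr_deriv ?_
      have : (1 - y) ≠ 0 := by linarith [hy.2]
      simp only [Function.comp_apply]
      field_simp
      simp)
    (fun y hy => by
      have h1 := Phi2_bound hy.1 hy.2
      have := mul_nonneg hy.1.le (abs_nonneg (Real.log y))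
      nlinarith [hy.1, hy.2])
    (fun y hy => by
      have h1 := Phi2_bound hy.1 hy.2
      nlinarith [hy.1, hy.2])
    (fun y hy => by
      have h2 : 0 < 1 - y := by linarith [hy.2]
      have h3 := Real.one_sub_inv_le_log_of_pos h2
      have h4 : (1 - y)⁻¹ ≤ 2 := by
        rw [inv_le_comm₀ h2 (by norm_num)]; linarith [hy.2]
      rw [abs_of_nonpos (Real.log_nonpos h2.le (by linarith [hy.1]))]
      have := abs_nonneg (Real.log y)
      linarith)
  obtain ⟨P2a, P2c, P2b⟩ := P2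
  refine ⟨⟨P0a, ?_⟩, ⟨P1a, ?_⟩, ⟨P2a, ?_⟩⟩
  · refine P0b.trans ?_
    linarith
  · have hps : ‖ps N - ((Real.log n : ℝ) : ℂ)‖ ≤ ξ / (2 * (A + 1)) := by
      have := hn2 n g2 (N - n) hN
      rwa [show (n:ℂ) + (N - n) = N by ring] at this
    have e : (∫ y in Ioo 0 y1, ((Real.log y : ℝ) : ℂ) * (rl p N J y - N)) -
          (p * ((Real.log n : ℝ) : ℂ) + p - p * ps p) =
        ((∫ y in Ioo 0 y1, ((Real.log y : ℝ) : ℂ) * (rl p N J y - N)) +
          (p * (ps p - ps N) - p)) + p * (ps N - ((Real.log n : ℝ) : ℂ)) := by ring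
    rw [e]
    refine (norm_add_le _ _).trans ?_
    rw [norm_mul p]
    have h1 : ‖p‖ * ‖ps N - ((Real.log n : ℝ) : ℂ)‖ ≤ ξ / 2 := by
      calc ‖p‖ * ‖ps N - ((Real.log n : ℝ) : ℂ)‖ ≤ (A + 1) * (ξ / (2 * (A + 1))) := by
            gcongr
            linarith
        _ = ξ / 2 := by
            have : A + 1 ≠ 0 := by positivity
            field_simp
    have h2 : 2 * 2 * T ≤ ξ / 2 := by linarith
    linarith
  · have h1 := ev2 hp1 hNp f0 P2c
    have hRn : (n:ℝ) - D ≤ N.re := by have := (abs_le.1 hNre).1; linarith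
    have hn4' : 2 * A * K * (A + 1) / ξ + D ≤ n := hn4.trans (by exact_mod_cast g4)
    have h2 : ‖p‖ * K * ((p.re + 1) / (N.re + 1)) ≤ ξ / 2 := by
      have h3 : 2 * A * K * (A + 1) / ξ ≤ N.re + 1 := by linarith
      have h4 : 0 < N.re + 1 := by
        have : 0 ≤ 2 * A * K * (A + 1) / ξ := by positivity
        linarith
      rw [div_le_iff₀ hξ] at h3
      have h5 : p.re ≤ A := (Complex.re_le_norm p).trans hp
      have h6 : 0 ≤ p.re + 1 := by linarith
      calc ‖p‖ * K * ((p.re + 1) / (N.re + 1)) ≤ A * K * ((A + 1) / (N.re + 1)) := by gcongr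
        _ = (A * K * (A + 1)) / (N.re + 1) := by ring
        _ ≤ ξ / 2 := by
            rw [div_le_iff₀ h4]
            linarith
    have h3 : ‖∫ y in Ioo 0 y1, ((Real.log (1 - y) : ℝ) : ℂ) * (rl p N J y - N)‖ ≤
        ‖(∫ y in Ioo 0 y1, ((Real.log (1 - y) : ℝ) : ℂ) * (rl p N J y - N)) +
          ∫ y in Ioo (0:ℝ) 1, ((-(1 - y) * Real.log (1 - y) - y : ℝ) : ℂ) * ee p N 0 y‖ +
        ‖∫ y in Ioo (0:ℝ) 1, ((-(1 - y) * Real.log (1 - y) - y : ℝ) : ℂ) * ee p N 0 y‖ := by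
      have := norm_sub_le ((∫ y in Ioo 0 y1, ((Real.log (1 - y) : ℝ) : ℂ) * (rl p N J y - N)) +
          ∫ y in Ioo (0:ℝ) 1, ((-(1 - y) * Real.log (1 - y) - y : ℝ) : ℂ) * ee p N 0 y)
        (∫ y in Ioo (0:ℝ) 1, ((-(1 - y) * Real.log (1 - y) - y : ℝ) : ℂ) * ee p N 0 y)
      rwa [add_sub_cancel_right] at this
    linarith

end

end Pool.Agent.H972.FH
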