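import Pool.Agent.H972.FH.And

set_option autoImplicit false

open MeasureTheory Filter Topology Set
open scoped ENNReal

namespace Pool.Agent.H972.FH

open Pool.Agent.R923.SE Pool.Agent.K7.H95.GMC Pool.Agent.K7.H96.GMC

noncomputable section

variable {k : ℕ}

/-- integrals against `mu` -/
lemma int_mu_eq (f : ℂ → ℂ) :
    ∫ z, f z ∂mu = ∫ z, (((Real.pi * (1 + ‖z‖ ^ 2) ^ 2)⁻¹ : ℝ) : ℂ) * f z := by
  unfold mu
  rw [integral_withDensity_eq_integral_toReal_smul (by fun_prop)
    (Eventually.of_forall fun z => ENNReal.ofReal_lt_top)]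
  refine integral_congr_ae (Eventually.of_forall fun z => ?_)
  simp only
  rw [ENNReal.toReal_ofReal (by positivity), Complex.real_smul]

lemma integrable_mu_iff (f : ℂ → ℂ) :
    Integrable f mu ↔ Integrable fun z => (((Real.pi * (1 + ‖z‖ ^ 2) ^ 2)⁻¹ : ℝ) : ℂ) * f z := by
  unfold mu
  rw [integrable_withDensity_iff_integrable_smul' (by fun_prop)
    (Eventually.of_forall fun z => ENNReal.ofReal_lt_top)]
  refine integrable_congr (Eventually.of_forall fun z => ?_)
  simp only
  rw [ENNReal.toReal_ofReal (by positivity), Complex.real_smul]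

/-- the one particle weight -/
def wp (n : ℕ) (W : ℂ → ℂ) (z : ℂ) : ℂ := W z * (((1 + ‖z‖ ^ 2) ^ (-((n:ℝ) + 1)) : ℝ) : ℂ)

lemma wp_eq {n : ℕ} (hn : 1 ≤ n) (W : ℂ → ℂ) (j l : ℕ) (z : ℂ) :
    z ^ j * (starRingEnd ℂ z) ^ l * wp n W z = (Real.pi : ℂ) *
      ((((Real.pi * (1 + ‖z‖ ^ 2) ^ 2)⁻¹ : ℝ) : ℂ) *
        (z ^ j * (starRingEnd ℂ z) ^ l * (om n z : ℂ) * W z)) := by
  unfold wp
  have h1 : (1 + ‖z‖ ^ 2) ^ (-((n:ℝ) + 1)) = Real.pi * ((Real.pi * (1 + ‖z‖ ^ 2) ^ 2)⁻¹ * om n z) := by
    have hp := Real.pi_pos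
    have h0 : 0 < 1 + ‖z‖ ^ 2 := by positivity
    rw [Real.rpow_neg h0.le, show (n:ℝ) + 1 = ((n + 1 : ℕ) : ℝ) by push_cast; rfl,
      Real.rpow_natCast]
    unfold om
    have h2 : n + 1 = 2 + (n - 1) := by omega
    rw [h2, pow_add]
    field_simp
  rw [h1]
  push_cast
  ring

/-- Andréief for the weight of the spherical ensemble -/
theorem andr_gr {n : ℕ} (hn : 1 ≤ n) {W : ℂ → ℂ} (hW : Integrable W mu) :
    ∫ z : Fin n → ℂ, (∏ i, W (z i)) * ((dnr (n + 1) z : ℝ) : ℂ) =
      (n.factorial : ℂ) * (Real.pi : ℂ) ^ n * (Gr n W).det := by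
  have hi : ∀ j l : Fin n, Integrable fun z : ℂ => z ^ (j:ℕ) * (starRingEnd ℂ z) ^ (l:ℕ) *
      wp n W z := by
    intro j l
    simp_rw [wp_eq hn W]
    exact ((integrable_mu_iff _).1 (mono_int hn hW j l)).const_mul _
  have h1 := andr hi
  have h2 : (fun z : Fin n → ℂ => (∏ i, W (z i)) * ((dnr (n + 1) z : ℝ) : ℂ)) = fun z =>
      (∏ i, wp n W (z i)) * ((‖(Matrix.vandermonde z).det‖ ^ 2 : ℝ) : ℂ) := by
    funext z
    unfold dnr wp
    rw [Finset.prod_mul_distrib]
    push_cast
    ring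
  rw [h2, h1, mul_assoc]
  congr 1
  have h3 : (Matrix.of fun j l : Fin n => ∫ z : ℂ, z ^ (j:ℕ) * (starRingEnd ℂ z) ^ (l:ℕ) *
      wp n W z) = (Real.pi : ℂ) • Gr n W := by
    ext j l
    simp only [Matrix.of_apply, Matrix.smul_apply, smul_eq_mul]
    simp_rw [wp_eq hn W]
    rw [integral_const_mul, ← int_mu_eq]
    rfl
  rw [h3, Matrix.det_smul, Fintype.card_fin]

/-! ### the class function -/

lemma det_lin {n : ℕ} {X : Mt n n} {v : Fin n → ℂ}
    (h : (Matrix.of X).charpoly.roots = Multiset.map v Finset.univ.val) (a b : ℂ) :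
    (a • Matrix.of X + b • (1 : Matrix (Fin n) (Fin n) ℂ)).det = ∏ j, (a * v j + b) := by
  rcases eq_or_ne a 0 with ha | ha
  · subst ha
    simp
  · have h1 := eval_of_roots h (-b / a)
    have h2 : a • Matrix.of X + b • (1 : Matrix (Fin n) (Fin n) ℂ) = (-a) • rs (-b / a) X := by
      ext i j
      simp only [Matrix.add_apply, Matrix.smul_apply, Matrix.of_apply, smul_eq_mul,
        Matrix.one_apply]
      rw [rs_apply]
      split_ifs
      · field_simp
        ring
      · ring
    rw [h2, Matrix.det_smul, Fintype.card_fin, h1,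
      show (-a) ^ n = ∏ _j : Fin n, (-a) by simp, ← Finset.prod_mul_distrib]
    refine Finset.prod_congr rfl fun j _ => ?_
    field_simp
    ring

/-- the class function -/
def FF (n : ℕ) (a b p : Fin k → ℂ) (X : Mt n n) : ℂ :=
  Complex.exp (∑ i, p i * ((Real.log (‖(a i • Matrix.of X + b i •
    (1 : Matrix (Fin n) (Fin n) ℂ)).det‖ ^ 2) - Real.log (yy (Matrix.of X)) : ℝ) : ℂ))

lemma continuous_lin (n : ℕ) (a b : ℂ) : Continuous fun X : Mt n n =>
    (a • Matrix.of X + b • (1 : Matrix (Fin n) (Fin n) ℂ)).det := by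
  have h : Continuous fun X : Mt n n => (Matrix.of X : Matrix (Fin n) (Fin n) ℂ) := continuous_id
  have h2 : Continuous fun X : Mt n n => a • Matrix.of X + b • (1 : Matrix (Fin n) (Fin n) ℂ) :=
    (h.const_smul a).add continuous_const
  exact h2.matrix_det

lemma measurable_FF (n : ℕ) (a b p : Fin k → ℂ) : Measurable (FF n a b p) := by
  unfold FF
  refine Complex.measurable_exp.comp (Finset.measurable_sum _ fun i _ => ?_)
  refine Measurable.const_mul (Complex.measurable_ofReal.comp ?_) _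
  exact (Real.measurable_log.comp ((continuous_lin n (a i) (b i)).norm.pow 2).measurable).sub
    (Real.measurable_log.comp measurable_yy)

lemma Cls_lin (n : ℕ) (a b : ℂ) : Cls fun X : Mt n n =>
    (a • Matrix.of X + b • (1 : Matrix (Fin n) (Fin n) ℂ)).det := by
  intro X X' h
  obtain ⟨v, hv⟩ := exists_roots X
  have hv' : (Matrix.of X').charpoly.roots = Multiset.map v Finset.univ.val := by rw [← h]; exact hv
  simp only
  rw [det_lin hv, det_lin hv']

lemma Cls_FF (n : ℕ) (a b p : Fin k → ℂ) : Cls (FF n a b p) := by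
  intro X X' h
  unfold FF
  congr 1
  refine Finset.sum_congr rfl fun i _ => ?_
  have h1 := Cls_lin n (a i) (b i) X X' h
  simp only at h1
  rw [h1, yy_class h]

/-- value of the class function in terms of the eigenvalues -/
lemma FF_eq {n : ℕ} {a b : Fin k → ℂ} (p : Fin k → ℂ) {X : Mt n n} {v : Fin n → ℂ}
    (h : (Matrix.of X).charpoly.roots = Multiset.map v Finset.univ.val)
    (hne : ∀ i j, a i * v j + b i ≠ 0) : FF n a b p X = ∏ j, Wt a b p (v j) := by
  unfold FF Wt
  rw [← Complex.exp_sum]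
  congr 1
  rw [Finset.sum_comm]
  refine Finset.sum_congr rfl fun i _ => ?_
  rw [← Finset.mul_sum]
  congr 1
  rw [det_lin h, yy_eq h, ← Complex.ofReal_sum]
  congr 1
  rw [norm_prod, ← Finset.prod_pow, Real.log_prod (fun j _ => by
    have := hne i j
    positivity), Real.log_prod (fun j _ => by positivity), ← Finset.sum_sub_distrib]
  refine Finset.sum_congr rfl fun j _ => ?_
  unfold dc
  rw [Real.log_div (by have := hne i j; positivity) (by positivity)]

lemma roots_dgm {n : ℕ} (z : Fin n → ℂ) :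
    (Matrix.of (dgm z)).charpoly.roots = Multiset.map z Finset.univ.val := by
  refine roots_of_eval fun t => ?_
  rw [← eval_cp, eval_dgm]

/-- almost every configuration avoids the charges -/
lemma ae_avoid {a b : Fin k → ℂ} (hu : ∀ i, ‖a i‖ ^ 2 + ‖b i‖ ^ 2 = 1) (n : ℕ) :
    ∀ᵐ z : Fin n → ℂ, ∀ i j, a i * z j + b i ≠ 0 := by
  rw [ae_all_iff]
  intro i
  rw [ae_all_iff]
  intro j
  have h1 : ∀ᵐ x : ℂ, a i * x + b i ≠ 0 := by
    have hs : ({x : ℂ | a i * x + b i = 0}).Subsingleton := by
      intro x hx y hy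
      simp only [mem_ofPred_eq] at hx hy
      rcases eq_or_ne (a i) 0 with ha | ha
      · exfalso
        have h := hu i
        rw [ha] at hx h
        simp at hx
        rw [hx] at h
        norm_num at h
      · have h1 : a i * (x - y) = 0 := by linear_combination hx - hy
        exact sub_eq_zero.1 ((mul_eq_zero.1 h1).resolve_left ha)
    have h2 := hs.measure_zero (volume : Measure ℂ)
    rw [ae_iff]
    simpa using h2
  have h2 := (Measure.quasiMeasurePreserving_eval (fun _ : Fin n => (volume : Measure ℂ)) j).ae h1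
  exact h2

/-- the law of the eigenvalues: complex class functions -/
theorem law_FF (n : ℕ) {a b : Fin k → ℂ} (hu : ∀ i, ‖a i‖ ^ 2 + ‖b i‖ ^ 2 = 1) :
    ∃ C : ℝ, (∀ᵐ x ∂gg n, ∀ i, (a i • Matrix.of (qt x) + b i •
      (1 : Matrix (Fin n) (Fin n) ℂ)).det ≠ 0) ∧
    ∀ p : Fin k → ℂ, ∫ x, FF n a b p (qt x) ∂gg n =
      C * ∫ z : Fin n → ℂ, (∏ i, Wt a b p (z i)) * ((dnr (n + 1) z : ℝ) : ℂ) := by
  obtain ⟨C, hC0, hCt, h⟩ := law_lint n
  have hdm : Measurable fun z : Fin n → ℂ => C * ENNReal.ofReal (dnr (n + 1) z) :=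
    (ENNReal.measurable_ofReal.comp (continuous_dnr _).measurable).const_mul C
  have h' : ∀ G : Mt n n → ℝ≥0∞, Measurable G → Cls G → ∫⁻ x, G (qt x) ∂gg n =
      ∫⁻ z, G (dgm z) ∂((volume : Measure (Fin n → ℂ)).withDensity fun z =>
        C * ENNReal.ofReal (dnr (n + 1) z)) := by
    intro G hG hGc
    have hGd : Measurable fun z : Fin n → ℂ => G (dgm z) := hG.comp continuous_dgm.measurable
    rw [h G hG hGc, lintegral_withDensity_eq_lintegral_mul _ hdm hGd]
    refine lintegral_congr fun z => ?_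
    simp only [Pi.mul_apply]
    rw [mul_comm]
  refine ⟨C.toReal, ?_, fun p => ?_⟩
  · rw [ae_all_iff]
    intro i
    set S : Set (Mt n n) := {X | (a i • Matrix.of X + b i •
      (1 : Matrix (Fin n) (Fin n) ℂ)).det = 0} with hS
    have hSm : MeasurableSet S :=
      (continuous_lin n (a i) (b i)).measurable (measurableSet_singleton (0:ℂ))
    have h1 := h (S.indicator fun _ => 1) (measurable_const.indicator hSm) (fun X X' hX => by
      have h2 := Cls_lin n (a i) (b i) X X' hX
      simp only at h2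
      by_cases h3 : X ∈ S
      · have h4 : X' ∈ S := by
          simp only [hS, mem_ofPred_eq] at h3 ⊢
          rw [← h2]; exact h3
        rw [indicator_of_mem h3, indicator_of_mem h4]
      · have h4 : X' ∉ S := by
          simp only [hS, mem_ofPred_eq] at h3 ⊢
          rw [← h2]; exact h3
        rw [indicator_of_notMem h3, indicator_of_notMem h4])
    have h2 : ∫⁻ z : Fin n → ℂ, (S.indicator (fun _ => (1:ℝ≥0∞))) (dgm z) *
        (C * ENNReal.ofReal (dnr (n + 1) z)) = 0 := by
      have hz : (fun z : Fin n → ℂ => (S.indicator (fun _ => (1:ℝ≥0∞))) (dgm z) *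
          (C * ENNReal.ofReal (dnr (n + 1) z))) =ᵐ[volume] fun _ => 0 := by
        filter_upwards [ae_avoid hu n] with z hz
        have h3 : dgm z ∉ S := by
          simp only [hS, mem_ofPred_eq]
          rw [det_lin (roots_dgm z)]
          exact Finset.prod_ne_zero_iff.2 fun j _ => hz i j
        rw [indicator_of_notMem h3, zero_mul]
      rw [lintegral_congr_ae hz]
      simp
    rw [h2] at h1
    have h3 : gg n (qt ⁻¹' S) = 0 := by
      rw [← h1]
      have h4 : (fun x => (S.indicator (fun _ => (1:ℝ≥0∞))) (qt x)) =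
          (qt ⁻¹' S).indicator fun _ => (1:ℝ≥0∞) := by
        funext x
        by_cases h5 : qt x ∈ S
        · rw [indicator_of_mem h5, indicator_of_mem (show x ∈ qt ⁻¹' S from h5)]
        · rw [indicator_of_notMem h5, indicator_of_notMem (show x ∉ qt ⁻¹' S from h5)]
      rw [h4, lintegral_indicator_const (measurable_qt hSm), one_mul]
    rw [ae_iff]
    simp only [ne_eq, not_not]
    exact h3
  · rw [cls_int measurable_qt continuous_dgm.measurable h' (measurable_FF n a b p)
      (Cls_FF n a b p), integral_withDensity_eq_integral_toReal_smul hdm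
      (Eventually.of_forall fun z => ENNReal.mul_lt_top hCt.lt_top ENNReal.ofReal_lt_top),
      ← integral_const_mul]
    refine integral_congr_ae ?_
    filter_upwards [ae_avoid hu n] with z hz
    rw [FF_eq p (roots_dgm z) hz, ENNReal.toReal_mul, ENNReal.toReal_ofReal (dnr_nonneg _ _),
      Complex.real_smul]
    push_cast
    ring

end

end Pool.Agent.H972.FH
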