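import Pool.Agent.H972.FH.Fun

set_option autoImplicit false

open MeasureTheory Complex Filter Topology Set
open scoped ENNReal

namespace Pool.Agent.H972.FH

noncomputable section

/-- rotated spinor coordinates -/
def ra (s t a b : ℂ) : ℂ := a * s - b * starRingEnd ℂ t

def rb (s t a b : ℂ) : ℂ := a * t + b * starRingEnd ℂ s

lemma norm_rab {s t : ℂ} (h : ‖s‖ ^ 2 + ‖t‖ ^ 2 = 1) (a b : ℂ) :
    ‖ra s t a b‖ ^ 2 + ‖rb s t a b‖ ^ 2 = ‖a‖ ^ 2 + ‖b‖ ^ 2 := by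
  have e : ∀ w : ℂ, ((‖w‖ ^ 2 : ℝ) : ℂ) = w * starRingEnd ℂ w := fun w => (conj_mul_self_eq w).symm
  have : ((‖ra s t a b‖ ^ 2 + ‖rb s t a b‖ ^ 2 : ℝ) : ℂ) = ((‖a‖ ^ 2 + ‖b‖ ^ 2 : ℝ) : ℂ) := by
    rw [Complex.ofReal_add, Complex.ofReal_add, e, e, e, e]
    unfold ra rb
    simp only [map_add, map_sub, map_mul, Complex.conj_conj]
    linear_combination (a * starRingEnd ℂ a + b * starRingEnd ℂ b) * st_eq h
  exact_mod_cast this

lemma det_rab {s t : ℂ} (h : ‖s‖ ^ 2 + ‖t‖ ^ 2 = 1) (a b a' b' : ℂ) :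
    ra s t a b * rb s t a' b' - ra s t a' b' * rb s t a b = a * b' - a' * b := by
  unfold ra rb
  linear_combination (a * b' - a' * b) * st_eq h

lemma dc_rot {s t : ℂ} (h : ‖s‖ ^ 2 + ‖t‖ ^ 2 = 1) (a b ζ : ℂ) (hz : rden s t ζ ≠ 0) :
    dc a b (rot s t ζ) = dc (ra s t a b) (rb s t a b) ζ := by
  unfold dc
  rw [norm_rot_add h ζ hz]
  have e1 : a * rot s t ζ + b = (ra s t a b * ζ + rb s t a b) / rden s t ζ := by
    have e : rot s t ζ = (s * ζ + t) / rden s t ζ := rfl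
    rw [eq_div_iff hz, e]
    field_simp
    unfold ra rb rden
    ring
  have h3 : ‖rden s t ζ‖ ≠ 0 := norm_ne_zero_iff.2 hz
  rw [e1, norm_div, div_pow]
  have h4 : 1 + ‖ζ‖ ^ 2 ≠ 0 := (one_add_pos ζ).ne'
  field_simp

lemma Wt_rot {k : ℕ} {s t : ℂ} (h : ‖s‖ ^ 2 + ‖t‖ ^ 2 = 1) (a b p : Fin k → ℂ) (ζ : ℂ)
    (hz : rden s t ζ ≠ 0) : Wt a b p (rot s t ζ) =
      Wt (fun i => ra s t (a i) (b i)) (fun i => rb s t (a i) (b i)) p ζ := by
  unfold Wt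
  simp_rw [dc_rot h _ _ ζ hz]

lemma om_rot {s t : ℂ} (h : ‖s‖ ^ 2 + ‖t‖ ^ 2 = 1) (n : ℕ) (ζ : ℂ) (hz : rden s t ζ ≠ 0) :
    om n (rot s t ζ) = om n ζ * (‖rden s t ζ‖ ^ 2) ^ (n - 1) := by
  unfold om
  rw [norm_rot_add h ζ hz, div_pow, inv_div]
  ring

lemma ae_rden {s t : ℂ} (h : ‖s‖ ^ 2 + ‖t‖ ^ 2 = 1) : ∀ᵐ ζ ∂mu, rden s t ζ ≠ 0 := by
  have hst : s ≠ 0 ∨ t ≠ 0 := by
    by_contra hc
    push Not at hc
    rw [hc.1, hc.2] at h
    norm_num at h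
  have hs : ({ζ : ℂ | rden s t ζ = 0}).Subsingleton := by
    intro x hx y hy
    simp only [mem_ofPred_eq] at hx hy
    unfold rden at hx hy
    rcases eq_or_ne t 0 with ht | ht
    · exfalso
      rw [ht] at hx
      simp at hx
      rcases hst with h' | h'
      · exact h' hx
      · exact h' ht
    · have h1 : (starRingEnd ℂ t) * (x - y) = 0 := by linear_combination hy - hx
      have h2 : (starRingEnd ℂ t) ≠ 0 := by simpa using ht
      have h3 := (mul_eq_zero.1 h1).resolve_left h2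
      exact sub_eq_zero.1 h3
  have := mu_ac (hs.measure_zero (volume : Measure ℂ))
  rw [ae_iff]
  simpa using this

theorem int_rot {E : Type*} [NormedAddCommGroup E] [NormedSpace ℝ E] {s t : ℂ}
    (h : ‖s‖ ^ 2 + ‖t‖ ^ 2 = 1) {Φ : ℂ → E} (hΦ : AEStronglyMeasurable Φ mu) :
    ∫ ζ, Φ (rot s t ζ) ∂mu = ∫ z, Φ z ∂mu := by
  have h1 := mp_rot h
  rw [← h1.map_eq] at hΦ
  have h2 := integral_map h1.measurable.aemeasurable hΦ
  rw [h1.map_eq] at h2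
  exact h2.symm

theorem integrable_rot {E : Type*} [NormedAddCommGroup E] {s t : ℂ}
    (h : ‖s‖ ^ 2 + ‖t‖ ^ 2 = 1) {Φ : ℂ → E} (hΦ : Integrable Φ mu) :
    Integrable (fun ζ => Φ (rot s t ζ)) mu := (mp_rot h).integrable_comp_of_integrable hΦ

/-- the transformed polynomial -/
def Fr {n : ℕ} (s t : ℂ) (f : Fin n → ℂ) (ζ : ℂ) : ℂ :=
  ∑ j : Fin n, f j * ((s * ζ + t) ^ (j:ℕ) * rden s t ζ ^ (n - 1 - (j:ℕ)))

lemma Fr_diff {n : ℕ} (s t : ℂ) (f : Fin n → ℂ) : Differentiable ℂ (Fr s t f) := by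
  unfold Fr rden
  fun_prop

lemma Pe_rot {n : ℕ} {s t : ℂ} (f : Fin n → ℂ) (ζ : ℂ) (hz : rden s t ζ ≠ 0) :
    Pe f (rot s t ζ) = Fr s t f ζ / rden s t ζ ^ (n - 1) := by
  unfold Pe Fr
  rw [Finset.sum_div]
  refine Finset.sum_congr rfl fun j _ => ?_
  have e : rot s t ζ = (s * ζ + t) / rden s t ζ := rfl
  have h1 : rden s t ζ ^ (n - 1) = rden s t ζ ^ (j:ℕ) * rden s t ζ ^ (n - 1 - (j:ℕ)) := by
    rw [← pow_add]; congr 1; omega
  rw [e, div_pow, h1]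
  have h2 : rden s t ζ ^ (n - 1 - (j:ℕ)) ≠ 0 := pow_ne_zero _ hz
  field_simp

/-- the transformed kernel -/
def Rp {n : ℕ} (s t : ℂ) (P : Polynomial ℂ) : Fin n → ℂ := fun j =>
  (∑ m ∈ Finset.range n, Polynomial.C (P.coeff m) *
    ((Polynomial.C s * Polynomial.X - Polynomial.C (starRingEnd ℂ t)) ^ m *
    (Polynomial.C t * Polynomial.X + Polynomial.C (starRingEnd ℂ s)) ^ (n - 1 - m))).coeff (j:ℕ)

lemma Pe_Rp {n : ℕ} (hn : 1 ≤ n) (s t : ℂ) (P : Polynomial ℂ) (w : ℂ) :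
    Pe (Rp (n := n) s t P) w = ∑ m ∈ Finset.range n, P.coeff m *
      ((s * w - starRingEnd ℂ t) ^ m * (t * w + starRingEnd ℂ s) ^ (n - 1 - m)) := by
  set R : Polynomial ℂ := ∑ m ∈ Finset.range n, Polynomial.C (P.coeff m) *
    ((Polynomial.C s * Polynomial.X - Polynomial.C (starRingEnd ℂ t)) ^ m *
    (Polynomial.C t * Polynomial.X + Polynomial.C (starRingEnd ℂ s)) ^ (n - 1 - m)) with hR
  have hdeg : R.natDegree < n := by
    have h1 : R.natDegree ≤ n - 1 := by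
      refine Polynomial.natDegree_sum_le_of_forall_le _ _ fun m hm => ?_
      have hm' := Finset.mem_range.1 hm
      refine (Polynomial.natDegree_C_mul_le _ _).trans ?_
      refine (Polynomial.natDegree_mul_le).trans ?_
      have a1 : ((Polynomial.C s * Polynomial.X - Polynomial.C (starRingEnd ℂ t)) ^ m).natDegree
          ≤ m := by
        refine (Polynomial.natDegree_pow_le).trans ?_
        have : (Polynomial.C s * Polynomial.X - Polynomial.C (starRingEnd ℂ t)).natDegree ≤ 1 := by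
          refine (Polynomial.natDegree_sub_le _ _).trans ?_
          simp only [Polynomial.natDegree_C, max_le_iff, Nat.zero_le, and_true]
          exact (Polynomial.natDegree_C_mul_le _ _).trans Polynomial.natDegree_X_le
        nlinarith
      have a2 : ((Polynomial.C t * Polynomial.X + Polynomial.C (starRingEnd ℂ s)) ^
          (n - 1 - m)).natDegree ≤ n - 1 - m := by
        refine (Polynomial.natDegree_pow_le).trans ?_
        have : (Polynomial.C t * Polynomial.X + Polynomial.C (starRingEnd ℂ s)).natDegree ≤ 1 := by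
          refine (Polynomial.natDegree_add_le _ _).trans ?_
          simp only [Polynomial.natDegree_C, max_le_iff, Nat.zero_le, and_true]
          exact (Polynomial.natDegree_C_mul_le _ _).trans Polynomial.natDegree_X_le
        nlinarith
      omega
    omega
  have h2 : Pe (Rp (n := n) s t P) w = R.eval w := by
    rw [Polynomial.eval_eq_sum_range' hdeg]
    unfold Pe
    rw [Finset.sum_range]
    rfl
  rw [h2, hR, Polynomial.eval_finsetSum]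
  refine Finset.sum_congr rfl fun m _ => ?_
  simp

lemma Pe_Rp_rot {n : ℕ} (hn : 1 ≤ n) {s t : ℂ} (h : ‖s‖ ^ 2 + ‖t‖ ^ 2 = 1) {P : Polynomial ℂ}
    (hP : P.natDegree < n) (ζ : ℂ) (hz : rden s t ζ ≠ 0) :
    Pe (Rp (n := n) s t P) (starRingEnd ℂ (rot s t ζ)) =
      P.eval (starRingEnd ℂ ζ) / (starRingEnd ℂ (rden s t ζ)) ^ (n - 1) := by
  rw [Pe_Rp hn, Polynomial.eval_eq_sum_range' hP, Finset.sum_div]
  have hS := st_eq h
  have hcz : starRingEnd ℂ (rden s t ζ) ≠ 0 := by simpa using hz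
  have e0 : starRingEnd ℂ (rden s t ζ) = -t * starRingEnd ℂ ζ + s := by
    unfold rden; simp
  have e1 : s * starRingEnd ℂ (rot s t ζ) - starRingEnd ℂ t =
      starRingEnd ℂ ζ / starRingEnd ℂ (rden s t ζ) := by
    have : starRingEnd ℂ (rot s t ζ) = (starRingEnd ℂ s * starRingEnd ℂ ζ + starRingEnd ℂ t) /
        starRingEnd ℂ (rden s t ζ) := by
      change starRingEnd ℂ ((s * ζ + t) / rden s t ζ) = _
      simp
    rw [this, eq_div_iff hcz]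
    field_simp
    rw [e0]
    linear_combination (starRingEnd ℂ ζ) * hS
  have e2 : t * starRingEnd ℂ (rot s t ζ) + starRingEnd ℂ s = 1 / starRingEnd ℂ (rden s t ζ) := by
    have : starRingEnd ℂ (rot s t ζ) = (starRingEnd ℂ s * starRingEnd ℂ ζ + starRingEnd ℂ t) /
        starRingEnd ℂ (rden s t ζ) := by
      change starRingEnd ℂ ((s * ζ + t) / rden s t ζ) = _
      simp
    rw [this, eq_div_iff hcz]
    field_simp
    rw [e0]
    linear_combination hS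
  refine Finset.sum_congr rfl fun m hm => ?_
  have hm' := Finset.mem_range.1 hm
  rw [e1, e2, div_pow, div_pow, one_pow]
  have h3 : (starRingEnd ℂ (rden s t ζ)) ^ (n - 1) = (starRingEnd ℂ (rden s t ζ)) ^ m *
      (starRingEnd ℂ (rden s t ζ)) ^ (n - 1 - m) := by
    rw [← pow_add]; congr 1; omega
  rw [h3]
  have h4 : (starRingEnd ℂ (rden s t ζ)) ^ m ≠ 0 := pow_ne_zero _ hcz
  have h5 : (starRingEnd ℂ (rden s t ζ)) ^ (n - 1 - m) ≠ 0 := pow_ne_zero _ hcz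
  field_simp

/-- transfer of a local kernel -/
theorem trans {n : ℕ} (hn : 1 ≤ n) {s t : ℂ} (h : ‖s‖ ^ 2 + ‖t‖ ^ 2 = 1) {W W' : ℂ → ℂ}
    (hW : Integrable W mu) (hWr : ∀ ζ, rden s t ζ ≠ 0 → W (rot s t ζ) = W' ζ) {ζ0 : ℂ}
    (h0 : rden s t ζ0 ≠ 0) {P : Polynomial ℂ} (hP : P.natDegree < n) {E Γ D : ℝ} {ρ : ℂ}
    (hrep : ∀ F : ℂ → ℂ, Differentiable ℂ F →
      Integrable (fun ζ => ‖F ζ‖ ^ 2 * (om n ζ * ‖W' ζ‖)) mu →
      ‖∫ ζ, F ζ * P.eval (starRingEnd ℂ ζ) * ((om n ζ : ℂ) * W' ζ) ∂mu - F ζ0‖ ≤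
        E * √(∫ ζ, ‖F ζ‖ ^ 2 * (om n ζ * ‖W' ζ‖) ∂mu))
    (hnorm : √(∫ ζ, ‖P.eval (starRingEnd ℂ ζ)‖ ^ 2 * (om n ζ * ‖W' ζ‖) ∂mu) ≤ Γ)
    (hdiag : ‖P.eval (starRingEnd ℂ ζ0) * ((om n ζ0 : ℂ) * W' ζ0) - ρ‖ ≤ D) :
    ∃ kx : Fin n → ℂ,
      (∀ f, ‖Bf n W f kx - Pe f (rot s t ζ0)‖ * √(om n (rot s t ζ0)) ≤
        E * √(om n ζ0) * √(nrl n W f)) ∧
      √(nrc n W kx) * √(om n (rot s t ζ0)) ≤ Γ * √(om n ζ0) ∧
      ‖Pe kx (starRingEnd ℂ (rot s t ζ0)) * ((om n (rot s t ζ0) : ℂ) * W (rot s t ζ0)) - ρ‖ ≤ D := by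
  set ν : ℂ := (rden s t ζ0 ^ (n - 1))⁻¹ with hν
  have hd0 : rden s t ζ0 ^ (n - 1) ≠ 0 := pow_ne_zero _ h0
  have hνn : ‖ν‖ * √(om n (rot s t ζ0)) = √(om n ζ0) := by
    rw [om_rot h n ζ0 h0, Real.sqrt_mul (om_pos n ζ0).le, ← pow_mul, mul_comm 2 (n - 1), pow_mul,
      Real.sqrt_sq (by positivity), hν, norm_inv, norm_pow]
    have : ‖rden s t ζ0‖ ^ (n - 1) ≠ 0 := pow_ne_zero _ (norm_ne_zero_iff.2 h0)
    field_simp
  have hae := ae_rden h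
  set g : Fin n → ℂ := Rp s t P with hg
  have hPe_smul : ∀ (c : ℂ) (f : Fin n → ℂ) (z : ℂ), Pe (c • f) z = c * Pe f z := by
    intro c f z
    unfold Pe
    rw [Finset.mul_sum]
    refine Finset.sum_congr rfl fun j _ => ?_
    simp; ring
  -- the bilinear form
  have hcore : ∀ (f : Fin n → ℂ) (ζ : ℂ), rden s t ζ ≠ 0 →
      Pe f (rot s t ζ) * Pe g (starRingEnd ℂ (rot s t ζ)) * (om n (rot s t ζ) : ℂ) *
        W (rot s t ζ) = Fr s t f ζ * P.eval (starRingEnd ℂ ζ) * ((om n ζ : ℂ) * W' ζ) := by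
    intro f ζ hz
    rw [hWr ζ hz, Pe_rot f ζ hz, hg, Pe_Rp_rot hn h hP ζ hz, om_rot h n ζ hz]
    have h1 : rden s t ζ ^ (n - 1) ≠ 0 := pow_ne_zero _ hz
    have hcz : starRingEnd ℂ (rden s t ζ) ≠ 0 := by simpa using hz
    have h2 : (starRingEnd ℂ (rden s t ζ)) ^ (n - 1) ≠ 0 := pow_ne_zero _ hcz
    have h3 : ((((‖rden s t ζ‖ ^ 2) ^ (n - 1) : ℝ)) : ℂ) =
        rden s t ζ ^ (n - 1) * (starRingEnd ℂ (rden s t ζ)) ^ (n - 1) := by
      rw [← mul_pow, conj_mul_self_eq]; push_cast; rfl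
    rw [Complex.ofReal_mul, h3]
    field_simp
  have hBfm : ∀ f : Fin n → ℂ, Bf n W f g =
      ∫ ζ, Fr s t f ζ * P.eval (starRingEnd ℂ ζ) * ((om n ζ : ℂ) * W' ζ) ∂mu := by
    intro f
    unfold Bf
    rw [← int_rot h (Bf_int hn hW f g).1.aestronglyMeasurable]
    refine integral_congr_ae ?_
    filter_upwards [hae] with ζ hζ
    exact hcore f ζ hζ
  have hnl : ∀ f : Fin n → ℂ, Integrable (fun ζ => ‖Fr s t f ζ‖ ^ 2 * (om n ζ * ‖W' ζ‖)) mu ∧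
      ∫ ζ, ‖Fr s t f ζ‖ ^ 2 * (om n ζ * ‖W' ζ‖) ∂mu = nrl n W f := by
    intro f
    have e : (fun ζ => ‖Pe f (rot s t ζ)‖ ^ 2 * (om n (rot s t ζ) * ‖W (rot s t ζ)‖)) =ᵐ[mu]
        fun ζ => ‖Fr s t f ζ‖ ^ 2 * (om n ζ * ‖W' ζ‖) := by
      filter_upwards [hae] with ζ hζ
      rw [hWr ζ hζ, Pe_rot f ζ hζ, om_rot h n ζ hζ, norm_div, norm_pow, div_pow]
      have h1 : ‖rden s t ζ‖ ≠ 0 := norm_ne_zero_iff.2 hζ
      have h2 : ‖rden s t ζ‖ ^ (n - 1) ≠ 0 := pow_ne_zero _ h1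
      have h3 : (‖rden s t ζ‖ ^ 2) ^ (n - 1) = (‖rden s t ζ‖ ^ (n - 1)) ^ 2 := by
        rw [← pow_mul, ← pow_mul, mul_comm]
      rw [h3]
      field_simp
    have hi := int_sq hn hW f
    refine ⟨(integrable_rot h hi).congr e, ?_⟩
    rw [← integral_congr_ae e]
    exact int_rot h (Φ := fun z => ‖Pe f z‖ ^ 2 * (om n z * ‖W z‖)) hi.aestronglyMeasurable
  have hnc : nrc n W g = ∫ ζ, ‖P.eval (starRingEnd ℂ ζ)‖ ^ 2 * (om n ζ * ‖W' ζ‖) ∂mu := by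
    have hi := int_sqc hn hW g
    unfold nrc
    rw [← int_rot h (Φ := fun z => ‖Pe g (starRingEnd ℂ z)‖ ^ 2 * (om n z * ‖W z‖))
      hi.aestronglyMeasurable]
    refine integral_congr_ae ?_
    filter_upwards [hae] with ζ hζ
    rw [hWr ζ hζ, hg, Pe_Rp_rot hn h hP ζ hζ, om_rot h n ζ hζ, norm_div, norm_pow, div_pow,
      RCLike.norm_conj]
    have h1 : ‖rden s t ζ‖ ≠ 0 := norm_ne_zero_iff.2 hζ
    have h2 : ‖rden s t ζ‖ ^ (n - 1) ≠ 0 := pow_ne_zero _ h1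
    have h3 : (‖rden s t ζ‖ ^ 2) ^ (n - 1) = (‖rden s t ζ‖ ^ (n - 1)) ^ 2 := by
      rw [← pow_mul, ← pow_mul, mul_comm]
    rw [h3]
    field_simp
  refine ⟨ν • g, fun f => ?_, ?_, ?_⟩
  · have e1 : Bf n W f (ν • g) = ν * Bf n W f g := by
      rw [Bf_eq hn hW, Bf_eq hn hW, Matrix.mulVec_smul, dotProduct_smul, smul_eq_mul]
    have e2 : Pe f (rot s t ζ0) = ν * Fr s t f ζ0 := by
      rw [Pe_rot f ζ0 h0, hν, div_eq_inv_mul]
    rw [e1, e2, ← mul_sub, norm_mul, hBfm f]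
    have h1 := hrep (Fr s t f) (Fr_diff s t f) (hnl f).1
    rw [(hnl f).2] at h1
    calc ‖ν‖ * ‖∫ ζ, Fr s t f ζ * P.eval (starRingEnd ℂ ζ) * ((om n ζ : ℂ) * W' ζ) ∂mu -
          Fr s t f ζ0‖ * √(om n (rot s t ζ0)) =
        (‖ν‖ * √(om n (rot s t ζ0))) * ‖∫ ζ, Fr s t f ζ * P.eval (starRingEnd ℂ ζ) *
          ((om n ζ : ℂ) * W' ζ) ∂mu - Fr s t f ζ0‖ := by ring
      _ ≤ √(om n ζ0) * (E * √(nrl n W f)) := by rw [hνn]; gcongr
      _ = _ := by ring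
  · have e3 : nrc n W (ν • g) = ‖ν‖ ^ 2 * nrc n W g := by
      unfold nrc
      rw [← integral_const_mul]
      refine integral_congr_ae (Eventually.of_forall fun z => ?_)
      simp only
      rw [hPe_smul, norm_mul, mul_pow]
      ring
    rw [e3, Real.sqrt_mul (by positivity), Real.sqrt_sq (norm_nonneg _), hnc]
    calc ‖ν‖ * √(∫ ζ, ‖P.eval (starRingEnd ℂ ζ)‖ ^ 2 * (om n ζ * ‖W' ζ‖) ∂mu) *
          √(om n (rot s t ζ0)) = (‖ν‖ * √(om n (rot s t ζ0))) *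
          √(∫ ζ, ‖P.eval (starRingEnd ℂ ζ)‖ ^ 2 * (om n ζ * ‖W' ζ‖) ∂mu) := by ring
      _ ≤ √(om n ζ0) * Γ := by rw [hνn]; gcongr
      _ = _ := mul_comm _ _
  · have e4 : Pe (ν • g) (starRingEnd ℂ (rot s t ζ0)) *
        ((om n (rot s t ζ0) : ℂ) * W (rot s t ζ0)) =
        P.eval (starRingEnd ℂ ζ0) * ((om n ζ0 : ℂ) * W' ζ0) := by
      rw [hPe_smul, hWr ζ0 h0, hg, Pe_Rp_rot hn h hP ζ0 h0, om_rot h n ζ0 h0]
      have hcz : starRingEnd ℂ (rden s t ζ0) ≠ 0 := by simpa using h0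
      have h2 : (starRingEnd ℂ (rden s t ζ0)) ^ (n - 1) ≠ 0 := pow_ne_zero _ hcz
      have h3 : ((((‖rden s t ζ0‖ ^ 2) ^ (n - 1) : ℝ)) : ℂ) =
          rden s t ζ0 ^ (n - 1) * (starRingEnd ℂ (rden s t ζ0)) ^ (n - 1) := by
        rw [← mul_pow, conj_mul_self_eq]; push_cast; rfl
      rw [Complex.ofReal_mul, h3, hν]
      field_simp
    rw [e4]
    exact hdiag

end

end Pool.Agent.H972.FH
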