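import Pool.Agent.H972.FH.Rot
import Pool.Agent.H972.FH.LocF

set_option autoImplicit false

open MeasureTheory Complex Filter Topology Set
open scoped ENNReal

namespace Pool.Agent.H972.FH

noncomputable section

/-- admissible configurations -/
structure Cfg {k : ℕ} (σ : ℝ) (a b : Fin k → ℂ) : Prop where
  unit : ∀ i, ‖a i‖ ^ 2 + ‖b i‖ ^ 2 = 1
  sep : ∀ i l, i ≠ l → σ ≤ ‖a i * b l - a l * b i‖

/-- admissible exponents -/
structure Adm {k : ℕ} (A η : ℝ) (p : Fin k → ℂ) : Prop where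
  bd : ∀ i, ‖p i‖ ≤ A
  re : ∀ i, -1 + η ≤ (p i).re

lemma dc_nonneg (a b z : ℂ) : 0 ≤ dc a b z := by unfold dc; positivity

lemma dc_le_one {a b : ℂ} (h : ‖a‖ ^ 2 + ‖b‖ ^ 2 = 1) (z : ℂ) : dc a b z ≤ 1 := by
  unfold dc
  rw [div_le_one (one_add_pos z)]
  have h1 := lagr (s := a) (t := b) h z 1
  simp only [mul_one, norm_one, one_pow] at h1
  nlinarith [sq_nonneg ‖-(starRingEnd ℂ b) * z + starRingEnd ℂ a‖]

lemma measurable_dc (a b : ℂ) : Measurable (dc a b) := by unfold dc; fun_prop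

lemma sep_tri {a b a' b' : ℂ} (h : ‖a‖ ^ 2 + ‖b‖ ^ 2 = 1) (h' : ‖a'‖ ^ 2 + ‖b'‖ ^ 2 = 1) (z : ℂ) :
    ‖a * b' - a' * b‖ ≤ √(dc a b z) + √(dc a' b' z) := by
  set X := a * z + b with hX
  set Y := a' * z + b' with hY
  set Δ := a * b' - a' * b with hΔ
  have e1 : Δ * z = b' * X - b * Y := by rw [hX, hY, hΔ]; ring
  have e2 : Δ = a * Y - a' * X := by rw [hX, hY, hΔ]; ring
  -- norms
  have h1 : ‖Δ‖ ^ 2 * (1 + ‖z‖ ^ 2) ≤ (‖X‖ + ‖Y‖) ^ 2 := by
    have hL : ‖Δ‖ ^ 2 * (1 + ‖z‖ ^ 2) = ‖b' * X - b * Y‖ ^ 2 + ‖a * Y - a' * X‖ ^ 2 := by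
      rw [← e1, ← e2, norm_mul]; ring
    rw [hL]
    have hexp : ‖b' * X - b * Y‖ ^ 2 + ‖a * Y - a' * X‖ ^ 2 =
        ‖X‖ ^ 2 + ‖Y‖ ^ 2 - 2 * ((b' * starRingEnd ℂ b + a' * starRingEnd ℂ a) *
          (X * starRingEnd ℂ Y)).re := by
      have f : ∀ u v : ℂ, ‖u - v‖ ^ 2 = ‖u‖ ^ 2 + ‖v‖ ^ 2 - 2 * (u * starRingEnd ℂ v).re := by
        intro u v
        simp only [← Complex.normSq_eq_norm_sq]
        rw [Complex.normSq_sub]
      rw [f, norm_sub_rev (a * Y), f, norm_mul, norm_mul, norm_mul, norm_mul]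
      have g1 : b' * X * starRingEnd ℂ (b * Y) = b' * starRingEnd ℂ b * (X * starRingEnd ℂ Y) := by
        rw [map_mul]; ring
      have g2 : a' * X * starRingEnd ℂ (a * Y) = a' * starRingEnd ℂ a * (X * starRingEnd ℂ Y) := by
        rw [map_mul]; ring
      have g3 : ∀ u v w : ℂ, ((u + v) * w).re = (u * w).re + (v * w).re := by
        intro u v w
        rw [add_mul, Complex.add_re]
      have n1 : ‖b'‖ ^ 2 = 1 - ‖a'‖ ^ 2 := by linarith
      have n2 : ‖b‖ ^ 2 = 1 - ‖a‖ ^ 2 := by linarith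
      rw [g1, g2, g3, mul_pow, mul_pow, mul_pow, mul_pow, n1, n2]
      ring
    rw [hexp]
    have hin : ‖b' * starRingEnd ℂ b + a' * starRingEnd ℂ a‖ ≤ 1 := by
      have h3 : ‖b' * starRingEnd ℂ b + a' * starRingEnd ℂ a‖ ≤ ‖b'‖ * ‖b‖ + ‖a'‖ * ‖a‖ := by
        refine (norm_add_le _ _).trans ?_
        rw [norm_mul, norm_mul, RCLike.norm_conj, RCLike.norm_conj]
      have h4 : ‖b'‖ * ‖b‖ + ‖a'‖ * ‖a‖ ≤ 1 := by
        nlinarith [sq_nonneg (‖b'‖ - ‖b‖), sq_nonneg (‖a'‖ - ‖a‖)]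
      linarith
    have h5 : -((b' * starRingEnd ℂ b + a' * starRingEnd ℂ a) * (X * starRingEnd ℂ Y)).re ≤
        ‖X‖ * ‖Y‖ := by
      calc -((b' * starRingEnd ℂ b + a' * starRingEnd ℂ a) * (X * starRingEnd ℂ Y)).re ≤
          ‖(b' * starRingEnd ℂ b + a' * starRingEnd ℂ a) * (X * starRingEnd ℂ Y)‖ :=
            (neg_le_abs _).trans (Complex.abs_re_le_norm _)
        _ = ‖b' * starRingEnd ℂ b + a' * starRingEnd ℂ a‖ * (‖X‖ * ‖Y‖) := by
            rw [norm_mul, norm_mul X, RCLike.norm_conj]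
        _ ≤ 1 * (‖X‖ * ‖Y‖) := by gcongr
        _ = _ := one_mul _
    nlinarith
  have hd : √(dc a b z) + √(dc a' b' z) = (‖X‖ + ‖Y‖) / √(1 + ‖z‖ ^ 2) := by
    unfold dc
    rw [Real.sqrt_div (by positivity), Real.sqrt_div (by positivity), Real.sqrt_sq (norm_nonneg _),
      Real.sqrt_sq (norm_nonneg _), add_div]
  rw [hd, le_div_iff₀ (Real.sqrt_pos.2 (one_add_pos z))]
  refine le_of_sq_le_sq ?_ (by positivity)
  rw [mul_pow, Real.sq_sqrt (one_add_pos z).le]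
  exact h1

variable {k : ℕ}

/-- the universal majorant -/
def Hm (η : ℝ) (a b : Fin k → ℂ) (z : ℂ) : ℝ :=
  1 + ∑ l, Real.exp (-(1 - η) * Real.log (dc (a l) (b l) z))

/-- the logarithmic bound -/
def cM (σ : ℝ) : ℝ := -Real.log (σ ^ 2 / 16)

lemma cM_pos {σ : ℝ} (h0 : 0 < σ) (h1 : σ ≤ 1) : 0 < cM σ := by
  unfold cM
  have : σ ^ 2 / 16 < 1 := by nlinarith
  linarith [Real.log_neg (by positivity) this]

lemma log_dc_nonpos {a b : ℂ} (h : ‖a‖ ^ 2 + ‖b‖ ^ 2 = 1) (z : ℂ) : Real.log (dc a b z) ≤ 0 :=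
  Real.log_nonpos (dc_nonneg a b z) (dc_le_one h z)

/-- if one of the `dc` is small, the others are not -/
lemma far {σ : ℝ} (h0 : 0 < σ) {a b : Fin k → ℂ} (hc : Cfg σ a b) {z : ℂ} {l i : Fin k}
    (hl : dc (a l) (b l) z ≤ σ ^ 2 / 16) (hil : i ≠ l) :
    -Real.log (dc (a i) (b i) z) ≤ cM σ ∧ σ ^ 2 / 16 ≤ dc (a i) (b i) z := by
  have h1 := sep_tri (hc.unit i) (hc.unit l) z
  have h2 := hc.sep i l hil
  have h3 : √(dc (a l) (b l) z) ≤ σ / 4 := by
    rw [show σ / 4 = √((σ / 4) ^ 2) by rw [Real.sqrt_sq (by positivity)]]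
    exact Real.sqrt_le_sqrt (by linarith [show (σ / 4) ^ 2 = σ ^ 2 / 16 by ring])
  have h4 : σ / 4 ≤ √(dc (a i) (b i) z) := by linarith
  have h5 : σ ^ 2 / 16 ≤ dc (a i) (b i) z := by
    have := pow_le_pow_left₀ (by positivity) h4 2
    rw [Real.sq_sqrt (dc_nonneg _ _ _)] at this
    linarith [show (σ / 4) ^ 2 = σ ^ 2 / 16 by ring]
  refine ⟨?_, h5⟩
  unfold cM
  have := Real.log_le_log (by positivity) h5
  linarith

/-- near a point: the others are far -/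
lemma logs_dichotomy {σ : ℝ} (h0 : 0 < σ) (h1 : σ ≤ 1) {a b : Fin k → ℂ} (hc : Cfg σ a b) (z : ℂ) :
    (∀ i, -Real.log (dc (a i) (b i) z) ≤ cM σ) ∨
    ∃ l, dc (a l) (b l) z ≤ σ ^ 2 / 16 ∧ cM σ ≤ -Real.log (dc (a l) (b l) z) ∧
      ∀ i, i ≠ l → -Real.log (dc (a i) (b i) z) ≤ cM σ := by
  by_cases h : ∀ i, -Real.log (dc (a i) (b i) z) ≤ cM σ
  · exact Or.inl h
  · push Not at h
    obtain ⟨l, hl⟩ := h
    right
    have hpos : 0 < dc (a l) (b l) z := by
      rcases (dc_nonneg (a l) (b l) z).eq_or_lt with h2 | h2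
      · rw [← h2, Real.log_zero] at hl
        have := cM_pos h0 h1
        linarith
      · exact h2
    have h3 : dc (a l) (b l) z ≤ σ ^ 2 / 16 := by
      unfold cM at hl
      have h4 : Real.log (dc (a l) (b l) z) < Real.log (σ ^ 2 / 16) := by linarith
      exact ((Real.log_lt_log_iff hpos (by positivity)).1 h4).le
    exact ⟨l, h3, hl.le, fun i hi => (far h0 hc h3 hi).1⟩

/-- norm of the weight -/
lemma norm_Wt (a b p : Fin k → ℂ) (z : ℂ) :
    ‖Wt a b p z‖ = Real.exp (∑ i, (p i).re * Real.log (dc (a i) (b i) z)) := by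
  unfold Wt
  rw [Complex.norm_exp, Complex.re_sum]
  simp

theorem Wt_le {σ A η : ℝ} (h0 : 0 < σ) (h1 : σ ≤ 1) (hη0 : 0 < η) (hη1 : η ≤ 1) {a b p : Fin k → ℂ}
    (hc : Cfg σ a b) (hp : Adm A η p) (z : ℂ) :
    ‖Wt a b p z‖ ≤ Real.exp (k * cM σ) * Hm η a b z := by
  rw [norm_Wt]
  have hM := cM_pos h0 h1
  have hterm : ∀ i, (p i).re * Real.log (dc (a i) (b i) z) ≤
      -(1 - η) * Real.log (dc (a i) (b i) z) := by
    intro i
    have h2 := log_dc_nonpos (hc.unit i) z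
    have h3 := hp.re i
    nlinarith
  have hterm2 : ∀ i, -Real.log (dc (a i) (b i) z) ≤ cM σ →
      (p i).re * Real.log (dc (a i) (b i) z) ≤ cM σ := by
    intro i hi
    refine (hterm i).trans ?_
    have h2 := log_dc_nonpos (hc.unit i) z
    nlinarith
  have hH1 : 1 ≤ Hm η a b z := by
    unfold Hm
    have : 0 ≤ ∑ l, Real.exp (-(1 - η) * Real.log (dc (a l) (b l) z)) :=
      Finset.sum_nonneg fun l _ => (Real.exp_pos _).le
    linarith
  rcases logs_dichotomy h0 h1 hc z with h | ⟨l, -, -, h⟩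
  · have h4 : ∑ i, (p i).re * Real.log (dc (a i) (b i) z) ≤ k * cM σ := by
      calc ∑ i, (p i).re * Real.log (dc (a i) (b i) z) ≤ ∑ _i : Fin k, cM σ :=
            Finset.sum_le_sum fun i _ => hterm2 i (h i)
        _ = _ := by simp
    calc Real.exp (∑ i, (p i).re * Real.log (dc (a i) (b i) z)) ≤ Real.exp (k * cM σ) * 1 := by
          rw [mul_one]; exact Real.exp_le_exp.2 h4
      _ ≤ _ := by gcongr
  · have h4 : ∑ i, (p i).re * Real.log (dc (a i) (b i) z) ≤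
        k * cM σ + -(1 - η) * Real.log (dc (a l) (b l) z) := by
      rw [← Finset.add_sum_erase _ _ (Finset.mem_univ l), add_comm]
      refine add_le_add ?_ (hterm l)
      calc ∑ i ∈ Finset.univ.erase l, (p i).re * Real.log (dc (a i) (b i) z) ≤
          ∑ _i ∈ Finset.univ.erase l, cM σ :=
            Finset.sum_le_sum fun i hi => hterm2 i (h i (Finset.ne_of_mem_erase hi))
        _ ≤ ∑ _i : Fin k, cM σ :=
            Finset.sum_le_sum_of_subset_of_nonneg (Finset.erase_subset _ _) fun _ _ _ => hM.le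
        _ = _ := by simp
    refine (Real.exp_le_exp.2 h4).trans ?_
    rw [Real.exp_add]
    refine mul_le_mul_of_nonneg_left ?_ (Real.exp_pos _).le
    unfold Hm
    have := Finset.single_le_sum (f := fun l => Real.exp (-(1 - η) * Real.log (dc (a l) (b l) z)))
      (fun l _ => (Real.exp_pos _).le) (Finset.mem_univ l)
    linarith

/-- the weight near a point -/
theorem Wt_near {σ A η : ℝ} (h0 : 0 < σ) (h1 : σ ≤ 1) (hA : 0 ≤ A) {a b p : Fin k → ℂ}
    (hc : Cfg σ a b) (hp : Adm A η p) {z : ℂ} {l : Fin k} (hl : dc (a l) (b l) z ≤ σ ^ 2 / 16) :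
    ‖Wt a b p z‖ ≤ Real.exp (k * (A * cM σ)) *
      Real.exp ((p l).re * Real.log (dc (a l) (b l) z)) := by
  rw [norm_Wt, ← Real.exp_add]
  refine Real.exp_le_exp.2 ?_
  have hM := cM_pos h0 h1
  rw [← Finset.add_sum_erase _ _ (Finset.mem_univ l), add_comm]
  refine add_le_add ?_ le_rfl
  calc ∑ i ∈ Finset.univ.erase l, (p i).re * Real.log (dc (a i) (b i) z) ≤
      ∑ _i ∈ Finset.univ.erase l, A * cM σ := by
        refine Finset.sum_le_sum fun i hi => ?_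
        have h2 := (far h0 hc hl (Finset.ne_of_mem_erase hi)).1
        have h3 := log_dc_nonpos (hc.unit i) z
        have h4 : |(p i).re| ≤ A := (Complex.abs_re_le_norm _).trans (hp.bd i)
        have h5 := abs_le.1 h4
        nlinarith
    _ ≤ ∑ _i : Fin k, A * cM σ :=
        Finset.sum_le_sum_of_subset_of_nonneg (Finset.erase_subset _ _) fun _ _ _ => by positivity
    _ = _ := by simp

lemma measurable_Wt (a b p : Fin k → ℂ) : Measurable (Wt a b p) := by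
  have h2 : ∀ i, Measurable fun ζ : ℂ => ((Real.log (dc (a i) (b i) ζ) : ℝ) : ℂ) := fun i =>
    Complex.measurable_ofReal.comp (Real.measurable_log.comp (measurable_dc _ _))
  unfold Wt
  exact Complex.measurable_exp.comp (Finset.measurable_sum _ fun i _ => (h2 i).const_mul _)

/-- rotation to a point: `dc` becomes the radial variable -/
lemma rot_center {a b : ℂ} (h : ‖a‖ ^ 2 + ‖b‖ ^ 2 = 1) :
    ‖starRingEnd ℂ a‖ ^ 2 + ‖-b‖ ^ 2 = 1 ∧ ra (starRingEnd ℂ a) (-b) a b = 1 ∧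
      rb (starRingEnd ℂ a) (-b) a b = 0 := by
  refine ⟨by rw [RCLike.norm_conj, norm_neg]; exact h, ?_, ?_⟩
  · unfold ra
    simp only [map_neg, mul_neg, sub_neg_eq_add]
    exact st_eq h
  · unfold rb
    simp only [Complex.conj_conj]
    ring

lemma dc_center {a b : ℂ} (h : ‖a‖ ^ 2 + ‖b‖ ^ 2 = 1) {ζ : ℂ}
    (hz : rden (starRingEnd ℂ a) (-b) ζ ≠ 0) :
    dc a b (rot (starRingEnd ℂ a) (-b) ζ) = ‖ζ‖ ^ 2 / (1 + ‖ζ‖ ^ 2) := by
  obtain ⟨h1, h2, h3⟩ := rot_center h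
  rw [dc_rot h1 _ _ ζ hz, h2, h3]
  unfold dc
  simp

/-- integration of functions of `dc` -/
theorem int_dc {a b : ℂ} (h : ‖a‖ ^ 2 + ‖b‖ ^ 2 = 1) {g : ℝ → ℝ} (hg : IntegrableOn g (Ioo 0 1))
    (hgm : Measurable g) : Integrable (fun z => g (dc a b z)) mu ∧
      ∫ z, g (dc a b z) ∂mu = ∫ y in Ioo 0 1, g y := by
  obtain ⟨h1, -, -⟩ := rot_center h
  have hm : Measurable fun z => g (dc a b z) := hgm.comp (measurable_dc a b)
  have hae : (fun ζ => g (dc a b (rot (starRingEnd ℂ a) (-b) ζ))) =ᵐ[mu]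
      fun ζ => g (‖ζ‖ ^ 2 / (1 + ‖ζ‖ ^ 2)) := by
    filter_upwards [ae_rden h1] with ζ hζ
    rw [dc_center h hζ]
  have hi : Integrable (fun ζ => g (dc a b (rot (starRingEnd ℂ a) (-b) ζ))) mu :=
    (integrable_rad_real g hg).congr hae.symm
  constructor
  · have h2 := (mp_rot h1).integrable_comp (g := fun z => g (dc a b z)) hm.aestronglyMeasurable
    exact h2.1 hi
  · rw [← int_rot h1 (Φ := fun z => g (dc a b z)) hm.aestronglyMeasurable, integral_congr_ae hae]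
    exact int_rad_real g hg.aestronglyMeasurable

theorem int_dc_c {a b : ℂ} (h : ‖a‖ ^ 2 + ‖b‖ ^ 2 = 1) {g : ℝ → ℂ} (hg : IntegrableOn g (Ioo 0 1))
    (hgm : Measurable g) : Integrable (fun z => g (dc a b z)) mu ∧
      ∫ z, g (dc a b z) ∂mu = ∫ y in Ioo 0 1, g y := by
  obtain ⟨h1, -, -⟩ := rot_center h
  have hm : Measurable fun z => g (dc a b z) := hgm.comp (measurable_dc a b)
  have hae : (fun ζ => g (dc a b (rot (starRingEnd ℂ a) (-b) ζ))) =ᵐ[mu]
      fun ζ => g (‖ζ‖ ^ 2 / (1 + ‖ζ‖ ^ 2)) := by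
    filter_upwards [ae_rden h1] with ζ hζ
    rw [dc_center h hζ]
  have hi : Integrable (fun ζ => g (dc a b (rot (starRingEnd ℂ a) (-b) ζ))) mu :=
    (integrable_rad g hg).congr hae.symm
  constructor
  · have h2 := (mp_rot h1).integrable_comp (g := fun z => g (dc a b z)) hm.aestronglyMeasurable
    exact h2.1 hi
  · rw [← int_rot h1 (Φ := fun z => g (dc a b z)) hm.aestronglyMeasurable, integral_congr_ae hae]
    exact int_rad g hg.aestronglyMeasurable

lemma exp_log_int {η : ℝ} (hη : 0 < η) :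
    IntegrableOn (fun y : ℝ => Real.exp (-(1 - η) * Real.log y)) (Ioo 0 1) ∧
    ∫ y in Ioo (0:ℝ) 1, Real.exp (-(1 - η) * Real.log y) = 1 / η := by
  have e : ∀ y ∈ Ioo (0:ℝ) 1, y ^ (-(1 - η)) = Real.exp (-(1 - η) * Real.log y) := by
    intro y hy
    rw [Real.rpow_def_of_pos hy.1, mul_comm]
  have h1 : IntegrableOn (fun y : ℝ => y ^ (-(1 - η))) (Ioo 0 1) := by
    rw [intervalIntegral.integrableOn_Ioo_rpow_iff one_pos]
    linarith
  constructor
  · exact h1.congr_fun e measurableSet_Ioo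
  · rw [← setIntegral_congr_fun measurableSet_Ioo e, ← integral_Ioc_eq_integral_Ioo,
      ← intervalIntegral.integral_of_le zero_le_one, integral_rpow (Or.inl (by linarith))]
    have : -(1 - η) + 1 = η := by ring
    rw [this, Real.one_rpow, Real.zero_rpow hη.ne']
    ring

theorem Hm_int {σ η : ℝ} (hη : 0 < η) {a b : Fin k → ℂ} (hc : Cfg σ a b) :
    Integrable (Hm η a b) mu ∧ ∫ z, Hm η a b z ∂mu = 1 + k * (1 / η) := by
  have hl : ∀ l, Integrable (fun z => Real.exp (-(1 - η) * Real.log (dc (a l) (b l) z))) mu ∧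
      ∫ z, Real.exp (-(1 - η) * Real.log (dc (a l) (b l) z)) ∂mu = 1 / η := by
    intro l
    have h := int_dc (hc.unit l) (g := fun y => Real.exp (-(1 - η) * Real.log y))
      (exp_log_int hη).1 (Real.measurable_exp.comp (Real.measurable_log.const_mul _))
    exact ⟨h.1, h.2.trans (exp_log_int hη).2⟩
  unfold Hm
  constructor
  · exact (integrable_const _).add (integrable_finsetSum _ fun l _ => (hl l).1)
  · rw [integral_add (integrable_const _) (integrable_finsetSum _ fun l _ => (hl l).1),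
      integral_finsetSum _ fun l _ => (hl l).1]
    simp only [(hl _).2]
    simp

theorem Wt_int {σ A η : ℝ} (h0 : 0 < σ) (h1 : σ ≤ 1) (hη0 : 0 < η) (hη1 : η ≤ 1) {a b p : Fin k → ℂ}
    (hc : Cfg σ a b) (hp : Adm A η p) : Integrable (Wt a b p) mu ∧
      ∫ z, ‖Wt a b p z‖ ∂mu ≤ Real.exp (k * cM σ) * (1 + k * (1 / η)) := by
  obtain ⟨h2, h3⟩ := Hm_int hη0 hc
  have hi : Integrable (Wt a b p) mu := by
    refine Integrable.mono' (h2.const_mul (Real.exp (k * cM σ)))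
      (measurable_Wt a b p).aestronglyMeasurable (Eventually.of_forall fun z => ?_)
    exact Wt_le h0 h1 hη0 hη1 hc hp z
  refine ⟨hi, ?_⟩
  rw [← h3, ← integral_const_mul]
  exact integral_mono hi.norm (h2.const_mul _) fun z => Wt_le h0 h1 hη0 hη1 hc hp z

end

end Pool.Agent.H972.FH
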